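import Pool.Agent.R831.Pmd

/-!
If `L_E(d)` is prime, so is `L_{E ∖ {A₀}}(d)`.
-/

namespace R831.Hyper

open MvPolynomial R831.Deform

variable {K : Type*} [Field K] {n d : ℕ}

/-- the ideal generated by the `f_B` with `v ∉ B` and the `y_{v,l}`, `l ∈ T`. -/
noncomputable def jo (K : Type*) [Field K] {n d : ℕ} (E : Finset (Finset (Fin n))) (v : Fin n)
    (T : Finset (Fin d)) : Ideal (MvPolynomial (Fin n × Fin d) K) :=
  Ideal.span ({g | ∃ B ∈ E, v ∉ B ∧ g = ff K n d B} ∪ {g | ∃ l ∈ T, g = X (v, l)})

/-- kill the variables of `v` -/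
noncomputable def killV (K : Type*) [Field K] {n d : ℕ} (v : Fin n) :
    MvPolynomial (Fin n × Fin d) K →ₐ[K] MvPolynomial (Fin n × Fin d) K :=
  aeval (fun x => if x.1 = v then 0 else X x)

lemma killV_ff (v : Fin n) (B : Finset (Fin n)) :
    killV K v (ff K n d B) = if v ∈ B then 0 else ff K n d B := by
  rw [ff, map_sum]
  split_ifs with h
  · apply Finset.sum_eq_zero
    intro l _
    rw [map_prod]
    apply Finset.prod_eq_zero h
    simp [killV]
  · apply Finset.sum_congr rfl
    intro l _
    rw [map_prod]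
    apply Finset.prod_congr rfl
    intro i hi
    have : i ≠ v := fun h' => h (h' ▸ hi)
    simp [killV, this]

lemma jo_prime {E : Finset (Finset (Fin n))} (hP : (lss K n d E).IsPrime) (v : Fin n)
    (T : Finset (Fin d)) : (jo K E v T).IsPrime := by
  let P := lss K n d E
  let D := MvPolynomial (Fin n × Fin d) K ⧸ P
  let mk : MvPolynomial (Fin n × Fin d) K →+* D := Ideal.Quotient.mk P
  let μ : MvPolynomial (Fin n × Fin d) K →+* MvPolynomial (Fin d) D :=
    eval₂Hom ((C : D →+* MvPolynomial (Fin d) D).comp (mk.comp C))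
      (fun x => if x.1 = v then (if x.2 ∈ T then 0 else X x.2) else C (mk (X x)))
  have hμff : ∀ B, v ∉ B → μ (ff K n d B) = C (mk (ff K n d B)) := by
    intro B hB
    rw [ff, map_sum, map_sum, map_sum]
    apply Finset.sum_congr rfl
    intro l _
    rw [map_prod, map_prod, map_prod]
    apply Finset.prod_congr rfl
    intro i hi
    have : i ≠ v := fun h' => hB (h' ▸ hi)
    simp [μ, this]
  have hcomap : jo K E v T = RingHom.ker μ := by
    apply le_antisymm
    · apply Ideal.span_le.2
      rintro _ (⟨B, hB, hv, rfl⟩ | ⟨l, hl, rfl⟩)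
      · rw [SetLike.mem_coe, RingHom.mem_ker, hμff B hv]
        have : mk (ff K n d B) = 0 :=
          Ideal.Quotient.eq_zero_iff_mem.2 (Ideal.subset_span ⟨B, hB, rfl⟩)
        rw [this, map_zero]
      · rw [SetLike.mem_coe, RingHom.mem_ker]
        simp [μ, hl]
    · intro x hx
      rw [RingHom.mem_ker] at hx
      let q := Ideal.Quotient.mk (jo K E v T)
      have hlift : ∀ y ∈ P, (q.comp (killV K v).toRingHom) y = 0 := by
        intro y hy
        have : P ≤ RingHom.ker (q.comp (killV K v).toRingHom) := by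
          apply Ideal.span_le.2
          rintro _ ⟨B, hB, rfl⟩
          rw [SetLike.mem_coe, RingHom.mem_ker, RingHom.comp_apply]
          have h1 : (killV K v).toRingHom (ff K n d B) = killV K v (ff K n d B) := rfl
          rw [h1, killV_ff]
          split_ifs with h
          · rw [map_zero]
          · exact Ideal.Quotient.eq_zero_iff_mem.2 (Ideal.subset_span (Or.inl ⟨B, hB, h, rfl⟩))
        exact this hy
      let χ : MvPolynomial (Fin d) D →+* (MvPolynomial (Fin n × Fin d) K ⧸ jo K E v T) :=
        eval₂Hom (Ideal.Quotient.lift P (q.comp (killV K v).toRingHom) hlift)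
          (fun l => q (X (v, l)))
      have hχC : ∀ y, χ (C (mk y)) = q (killV K v y) := by
        intro y
        simp only [χ, coe_eval₂Hom, eval₂_C]
        exact Ideal.Quotient.lift_mk _ _ _
      have hχμ : χ.comp μ = q := by
        apply MvPolynomial.ringHom_ext
        · intro a
          have : μ (C a) = C (mk (C a)) := by simp [μ]
          rw [RingHom.comp_apply, this, hχC]
          simp [killV]
        · rintro ⟨i, l⟩
          rw [RingHom.comp_apply]
          by_cases hi : i = v
          · subst hi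
            by_cases hl : l ∈ T
            · have h1 : μ (X (i, l)) = 0 := by simp [μ, hl]
              rw [h1, map_zero, eq_comm, Ideal.Quotient.eq_zero_iff_mem]
              exact Ideal.subset_span (Or.inr ⟨l, hl, rfl⟩)
            · have h1 : μ (X (i, l)) = X l := by simp [μ, hl]
              rw [h1]
              simp [χ]
          · have h1 : μ (X (i, l)) = C (mk (X (i, l))) := by simp [μ, hi]
            rw [h1, hχC]
            simp [killV, hi]
      have h1 : q x = 0 := by
        rw [← hχμ, RingHom.comp_apply, hx, map_zero]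
      exact Ideal.Quotient.eq_zero_iff_mem.1 h1
  rw [hcomap]
  exact RingHom.ker_isPrime μ

/-- an algebra map scaling the variables scales homogeneous elements -/
lemma scale_eq {σ : Type*} (φ : MvPolynomial σ K →ₐ[K] MvPolynomial σ K) (Δ : MvPolynomial σ K)
    (w : σ → ℕ) (hφ : ∀ s, φ (X s) = Δ ^ w s * X s) {g : MvPolynomial σ K} {a : ℕ}
    (hg : IsWeightedHomogeneous w g a) : φ g = Δ ^ a * g := by
  have hmon : ∀ (m : σ →₀ ℕ) (c : K),
      φ (monomial m c) = Δ ^ (Finsupp.weight w m) * monomial m c := by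
    intro m c
    have h1 : (monomial m c : MvPolynomial σ K) = C c * m.prod (fun s n => X s ^ n) :=
      monomial_eq
    rw [h1, map_mul, map_finsuppProd, Finsupp.weight_apply]
    have h0 : φ (C c) = C c := φ.commutes c
    simp only [map_pow, hφ, mul_pow, Finsupp.prod_mul, h0]
    have h3 : (m.prod fun s n => (Δ ^ w s) ^ n) = Δ ^ (m.sum fun i c => c • w i) := by
      rw [Finsupp.sum, ← Finset.prod_pow_eq_pow_sum, Finsupp.prod]
      apply Finset.prod_congr rfl
      intro s _
      rw [← pow_mul, smul_eq_mul, mul_comm]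
    rw [h3]
    ring
  conv_lhs => rw [as_sum g]
  conv_rhs => rw [as_sum g]
  rw [map_sum, Finset.mul_sum]
  apply Finset.sum_congr rfl
  intro m hm
  rw [hmon, hg (mem_support_iff.1 hm)]

section main
variable (K) (v : Fin n) (lam : Finset (Fin n) → Fin d) (E' : Finset (Finset (Fin n)))

open Classical in
/-- the square matrix of coefficients -/
noncomputable def MM : Matrix (Fin d) (Fin d) (MvPolynomial (Fin n × Fin d) K) := fun j k =>
  if h : ∃ B ∈ E', lam B = j then ∏ i ∈ h.choose.erase v, X (i, k) else if j = k then 1 else 0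

/-- the substitution `y_{v,l} ↦ ∑_k N_{l,k} y_{v,k}` -/
noncomputable def sb (N : Matrix (Fin d) (Fin d) (MvPolynomial (Fin n × Fin d) K)) :
    MvPolynomial (Fin n × Fin d) K →ₐ[K] MvPolynomial (Fin n × Fin d) K :=
  aeval (fun x => if x.1 = v then ∑ k, N x.2 k * X (v, k) else X x)

open Classical in
/-- the special point -/
noncomputable def pp : MvPolynomial (Fin n × Fin d) K →+* K :=
  eval (fun x => if x.1 ≠ v ∧ ∃ B ∈ E', lam B = x.2 ∧ x.1 ∈ B then 1 else 0)

variable {K v lam E'}

lemma MM_eq (hinj : ∀ B ∈ E', ∀ B' ∈ E', lam B = lam B' → B = B') {B : Finset (Fin n)}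
    (hB : B ∈ E') (k : Fin d) : MM K v lam E' (lam B) k = ∏ i ∈ B.erase v, X (i, k) := by
  have h : ∃ B' ∈ E', lam B' = lam B := ⟨B, hB, rfl⟩
  rw [MM, dif_pos h]
  have := hinj _ h.choose_spec.1 _ hB h.choose_spec.2
  rw [this]

lemma sb_X_ne (N : Matrix (Fin d) (Fin d) (MvPolynomial (Fin n × Fin d) K)) {i : Fin n}
    (hi : i ≠ v) (l : Fin d) : sb K v N (X (i, l)) = X (i, l) := by
  simp [sb, hi]

lemma sb_X_v (N : Matrix (Fin d) (Fin d) (MvPolynomial (Fin n × Fin d) K)) (l : Fin d) :
    sb K v N (X (v, l)) = ∑ k, N l k * X (v, k) := by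
  simp [sb]

lemma sb_MM (N : Matrix (Fin d) (Fin d) (MvPolynomial (Fin n × Fin d) K)) (j k : Fin d) :
    sb K v N (MM K v lam E' j k) = MM K v lam E' j k := by
  unfold MM
  split_ifs with h1 h2
  · rw [map_prod]
    apply Finset.prod_congr rfl
    intro i hi
    exact sb_X_ne N (Finset.ne_of_mem_erase hi) k
  · rw [map_one]
  · rw [map_zero]

lemma sb_map_MM (N : Matrix (Fin d) (Fin d) (MvPolynomial (Fin n × Fin d) K)) :
    (sb K v N).toRingHom.mapMatrix (MM K v lam E') = MM K v lam E' := by
  ext1 j k
  exact sb_MM N j k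

lemma sb_adj (N : Matrix (Fin d) (Fin d) (MvPolynomial (Fin n × Fin d) K)) (j k : Fin d) :
    sb K v N ((MM K v lam E').adjugate j k) = (MM K v lam E').adjugate j k := by
  have h := RingHom.map_adjugate (sb K v N).toRingHom (MM K v lam E')
  rw [sb_map_MM] at h
  have h1 := congrFun (congrFun h j) k
  exact h1

lemma sb_det (N : Matrix (Fin d) (Fin d) (MvPolynomial (Fin n × Fin d) K)) :
    sb K v N (MM K v lam E').det = (MM K v lam E').det := by
  have h := RingHom.map_det (sb K v N).toRingHom (MM K v lam E')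
  rw [sb_map_MM] at h
  exact h

lemma sb_ff_notMem (N : Matrix (Fin d) (Fin d) (MvPolynomial (Fin n × Fin d) K))
    {B : Finset (Fin n)} (hB : v ∉ B) : sb K v N (ff K n d B) = ff K n d B := by
  rw [ff, map_sum]
  apply Finset.sum_congr rfl
  intro l _
  rw [map_prod]
  apply Finset.prod_congr rfl
  intro i hi
  have hi' : i ≠ v := by rintro rfl; exact hB hi
  exact sb_X_ne N hi' l

lemma ff_eq (hinj : ∀ B ∈ E', ∀ B' ∈ E', lam B = lam B' → B = B') {B : Finset (Fin n)}
    (hB : B ∈ E') (hv : v ∈ B) :
    ff K n d B = ∑ k, MM K v lam E' (lam B) k * X (v, k) := by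
  rw [ff]
  apply Finset.sum_congr rfl
  intro k _
  rw [MM_eq hinj hB, Finset.prod_erase_mul _ _ hv]

lemma sb_sb_X_v (l : Fin d) :
    sb K v (MM K v lam E') (sb K v (MM K v lam E').adjugate (X (v, l))) =
      (MM K v lam E').det * X (v, l) := by
  rw [sb_X_v, map_sum]
  simp only [map_mul, sb_adj, sb_X_v]
  simp only [Finset.mul_sum, ← mul_assoc]
  rw [Finset.sum_comm]
  simp only [← Finset.sum_mul]
  have h : ∀ j, ∑ k, (MM K v lam E').adjugate l k * MM K v lam E' k j =
      if l = j then (MM K v lam E').det else 0 := by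
    intro j
    have h1 := congrFun (congrFun (Matrix.adjugate_mul (MM K v lam E')) l) j
    rw [Matrix.mul_apply] at h1
    rw [h1, Matrix.smul_apply, Matrix.one_apply]
    split_ifs <;> simp
  simp only [h]
  simp

lemma sb_ff_mem (hinj : ∀ B ∈ E', ∀ B' ∈ E', lam B = lam B' → B = B') {B : Finset (Fin n)}
    (hB : B ∈ E') (hv : v ∈ B) :
    sb K v (MM K v lam E').adjugate (ff K n d B) = (MM K v lam E').det * X (v, lam B) := by
  rw [ff_eq hinj hB hv, map_sum]
  simp only [map_mul, sb_MM, sb_X_v]
  simp only [Finset.mul_sum, ← mul_assoc]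
  rw [Finset.sum_comm]
  simp only [← Finset.sum_mul]
  have h : ∀ j, ∑ k, MM K v lam E' (lam B) k * (MM K v lam E').adjugate k j =
      if lam B = j then (MM K v lam E').det else 0 := by
    intro j
    have h1 := congrFun (congrFun (Matrix.mul_adjugate (MM K v lam E')) (lam B)) j
    rw [Matrix.mul_apply] at h1
    rw [h1, Matrix.smul_apply, Matrix.one_apply]
    split_ifs <;> simp
  simp only [h]
  simp

variable {E : Finset (Finset (Fin n))} (hE : IsClutter E) (hE' : ∀ B ∈ E', B ∈ E ∧ v ∈ B)
  (hcard : ∀ B ∈ E', (B.erase v).Nonempty)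
  (hinj : ∀ B ∈ E', ∀ B' ∈ E', lam B = lam B' → B = B')
include hE hE' hinj

lemma pp_ff {B : Finset (Fin n)} (hB : B ∈ E) : pp K v lam E' (ff K n d B) = 0 := by
  rw [ff, map_sum]
  apply Finset.sum_eq_zero
  intro l _
  rw [map_prod]
  by_cases hv : v ∈ B
  · apply Finset.prod_eq_zero hv
    simp [pp]
  · by_contra hcon0
    have hcon := Finset.prod_ne_zero_iff.1 hcon0
    have h1 : ∀ i ∈ B, ∃ B' ∈ E', lam B' = l ∧ i ∈ B' := by
      intro i hi
      have := hcon i hi
      simp only [pp, eval_X, ne_eq, ite_eq_right_iff, one_ne_zero, imp_false, not_not] at this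
      exact this.2
    obtain ⟨i0, hi0⟩ := hE.1 B hB
    obtain ⟨B', hB', hl, _⟩ := h1 i0 hi0
    have h2 : B ⊆ B' := by
      intro i hi
      obtain ⟨B'', hB'', hl', hi'⟩ := h1 i hi
      rw [hinj B' hB' B'' hB'' (hl.trans hl'.symm)]
      exact hi'
    have h3 := hE.2 B hB B' (hE' B' hB').1 h2
    exact hv (h3 ▸ (hE' B' hB').2)

include hcard

lemma pp_MM (j k : Fin d) : pp K v lam E' (MM K v lam E' j k) = if j = k then 1 else 0 := by
  by_cases h : ∃ B ∈ E', lam B = j
  · obtain ⟨B, hB, rfl⟩ := h
    rw [MM_eq hinj hB, map_prod]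
    split_ifs with hk
    · subst hk
      apply Finset.prod_eq_one
      intro i hi
      simp only [pp, eval_X]
      rw [if_pos]
      exact ⟨Finset.ne_of_mem_erase hi, B, hB, rfl, Finset.mem_of_mem_erase hi⟩
    · by_contra hcon
      have hcon' := Finset.prod_ne_zero_iff.1 hcon
      have h1 : ∀ i ∈ B.erase v, ∃ B' ∈ E', lam B' = k ∧ i ∈ B' := by
        intro i hi
        have := hcon' i hi
        simp only [pp, eval_X, ne_eq, ite_eq_right_iff, one_ne_zero, imp_false, not_not] at this
        exact this.2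
      obtain ⟨i0, hi0⟩ := hcard B hB
      obtain ⟨B', hB', hl, _⟩ := h1 i0 hi0
      have h2 : B ⊆ B' := by
        intro i hi
        by_cases hiv : i = v
        · rw [hiv]; exact (hE' B' hB').2
        · obtain ⟨B'', hB'', hl', hi'⟩ := h1 i (Finset.mem_erase.2 ⟨hiv, hi⟩)
          rw [hinj B' hB' B'' hB'' (hl.trans hl'.symm)]
          exact hi'
      have h3 := hE.2 B (hE' B hB).1 B' (hE' B' hB').1 h2
      exact hk (by rw [h3, hl])
  · rw [MM, dif_neg h]
    split_ifs <;> simp

lemma pp_det : pp K v lam E' (MM K v lam E').det = 1 := by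
  rw [RingHom.map_det]
  have : (pp K v lam E').mapMatrix (MM K v lam E') = 1 := by
    ext1 j k
    rw [Matrix.one_apply]
    exact pp_MM hE hE' hcard hinj j k
  rw [this, Matrix.det_one]

end main

attribute [local instance] MvPolynomial.weightedGradedAlgebra

/-- weights counting the degree in the variables of `v` -/
def wv (d : ℕ) (v : Fin n) : Fin n × Fin d → ℕ := fun x => if x.1 = v then 1 else 0

lemma ff_wv (v : Fin n) (B : Finset (Fin n)) :
    IsWeightedHomogeneous (wv d v) (ff K n d B) (if v ∈ B then 1 else 0) := by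
  apply IsWeightedHomogeneous.sum
  intro l _
  have h := isWeightedHomogeneous_prod (K := K) (wv d v) B l
  have h2 : ∑ i ∈ B, wv d v (i, l) = if v ∈ B then 1 else 0 := by
    simp [wv]
  rwa [h2] at h

lemma X_not_mem_lss {E : Finset (Finset (Fin n))} (hne : ∀ B ∈ E, B.Nonempty) {v : Fin n}
    (hcard : ∀ B ∈ E, v ∈ B → (B.erase v).Nonempty) (l : Fin d) :
    X (v, l) ∉ lss K n d E := by
  apply notMem_of_eval (eval (fun x => if x = (v, l) then (1 : K) else 0))
  · simp
  · rintro _ ⟨B, hB, rfl⟩
    rw [ff, map_sum]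
    apply Finset.sum_eq_zero
    intro k _
    rw [map_prod]
    have : ∃ i ∈ B, i ≠ v := by
      by_cases hv : v ∈ B
      · obtain ⟨i, hi⟩ := hcard B hB hv
        exact ⟨i, Finset.mem_of_mem_erase hi, Finset.ne_of_mem_erase hi⟩
      · obtain ⟨i, hi⟩ := hne B hB
        exact ⟨i, hi, by rintro rfl; exact hv hi⟩
    obtain ⟨i, hi, hiv⟩ := this
    apply Finset.prod_eq_zero hi
    simp [hiv]

lemma adj_mul_row (v : Fin n) (lam : Finset (Fin n) → Fin d) (E' : Finset (Finset (Fin n)))
    (l : Fin d) :
    ∑ j, (MM K v lam E').adjugate l j * ∑ k, MM K v lam E' j k * X (v, k) =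
      (MM K v lam E').det * X (v, l) := by
  simp only [Finset.mul_sum, ← mul_assoc]
  rw [Finset.sum_comm]
  simp only [← Finset.sum_mul]
  have h : ∀ j, ∑ k, (MM K v lam E').adjugate l k * MM K v lam E' k j =
      if l = j then (MM K v lam E').det else 0 := by
    intro j
    have h1 := congrFun (congrFun (Matrix.adjugate_mul (MM K v lam E')) l) j
    rw [Matrix.mul_apply] at h1
    rw [h1, Matrix.smul_apply, Matrix.one_apply]
    split_ifs <;> simp
  simp only [h]
  simp

/-- If `L_E(d)` is prime, a vertex `v` (not an edge) is in fewer than `d` edges. -/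
lemma degree_lt {E : Finset (Finset (Fin n))} (hE : IsClutter E) (hP : (lss K n d E).IsPrime)
    {v : Fin n} (hcard : ∀ B ∈ E, v ∈ B → (B.erase v).Nonempty) (hd : 0 < d) :
    (E.filter (fun B => v ∈ B)).card < d := by
  by_contra hcon
  push Not at hcon
  obtain ⟨E', hE's, hE'c⟩ := Finset.exists_subset_card_eq hcon
  -- a bijection `E' → Fin d`
  have eq := (Fintype.equivFinOfCardEq (by rw [Fintype.card_coe]; exact hE'c) : E' ≃ Fin d)
  let lam : Finset (Fin n) → Fin d := fun B => if h : B ∈ E' then eq ⟨B, h⟩ else ⟨0, hd⟩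
  have hlam : ∀ B (h : B ∈ E'), lam B = eq ⟨B, h⟩ := fun B h => by simp [lam, h]
  have hinj : ∀ B ∈ E', ∀ B' ∈ E', lam B = lam B' → B = B' := by
    intro B hB B' hB' h
    rw [hlam B hB, hlam B' hB'] at h
    exact congrArg Subtype.val (eq.injective h)
  have hE' : ∀ B ∈ E', B ∈ E ∧ v ∈ B := fun B hB => Finset.mem_filter.1 (hE's hB)
  have hcard' : ∀ B ∈ E', (B.erase v).Nonempty := fun B hB =>
    hcard B (hE' B hB).1 (hE' B hB).2
  have hdet : (MM K v lam E').det ∉ lss K n d E := by
    apply notMem_of_eval (pp K v lam E')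
    · rw [pp_det hE hE' hcard' hinj]; exact one_ne_zero
    · rintro _ ⟨B, hB, rfl⟩
      exact pp_ff hE hE' hinj hB
  have hmem : (MM K v lam E').det * X (v, ⟨0, hd⟩) ∈ lss K n d E := by
    rw [← adj_mul_row]
    apply Ideal.sum_mem
    intro j _
    apply Ideal.mul_mem_left
    obtain ⟨⟨B, hB⟩, hBj⟩ := eq.surjective j
    have h1 : lam B = j := by rw [hlam B hB, hBj]
    rw [← h1, ← ff_eq hinj hB (hE' B hB).2]
    exact Ideal.subset_span ⟨B, (hE' B hB).1, rfl⟩
  rcases hP.mem_or_mem hmem with h | h
  · exact hdet h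
  · exact X_not_mem_lss hE.1 hcard _ h

lemma lss_erase_sup {E : Finset (Finset (Fin n))} {A0 : Finset (Fin n)} (hA0 : A0 ∈ E) :
    lss K n d E = lss K n d (E.erase A0) ⊔ Ideal.span {ff K n d A0} := by
  apply le_antisymm
  · apply Ideal.span_le.2
    rintro _ ⟨B, hB, rfl⟩
    by_cases h : B = A0
    · rw [h]
      exact Ideal.mem_sup_right (Ideal.mem_span_singleton_self _)
    · exact Ideal.mem_sup_left (Ideal.subset_span ⟨B, Finset.mem_erase.2 ⟨h, hB⟩, rfl⟩)
  · apply sup_le
    · apply Ideal.span_le.2
      rintro _ ⟨B, hB, rfl⟩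
      exact Ideal.subset_span ⟨B, Finset.mem_of_mem_erase hB, rfl⟩
    · rw [Ideal.span_singleton_le_iff_mem]
      exact Ideal.subset_span ⟨A0, hA0, rfl⟩

lemma lss_homog (v : Fin n) (E : Finset (Finset (Fin n))) :
    (lss K n d E).IsHomogeneous (weightedHomogeneousSubmodule K (wv d v)) := by
  apply Ideal.homogeneous_span
  rintro _ ⟨B, _, rfl⟩
  exact ⟨_, ff_wv v B⟩

/-- Dropping an edge preserves primeness. -/
theorem erase_prime {E : Finset (Finset (Fin n))} (hE : IsClutter E) (hd : 0 < d)
    (hP : (lss K n d E).IsPrime) {A0 : Finset (Fin n)} (hA0 : A0 ∈ E) :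
    (lss K n d (E.erase A0)).IsPrime := by
  classical
  obtain ⟨v, hv⟩ := hE.1 A0 hA0
  by_cases hA0c : (A0.erase v).Nonempty
  · -- the main case
    have hcard : ∀ B ∈ E, v ∈ B → (B.erase v).Nonempty := by
      intro B hB hvB
      by_contra hcon
      rw [Finset.not_nonempty_iff_eq_empty] at hcon
      have h1 : B = {v} := by
        rw [← Finset.insert_erase hvB, hcon]
        rfl
      have h2 : B ⊆ A0 := by rw [h1]; simpa using hv
      have h3 := hE.2 B hB A0 hA0 h2
      rw [← h3, hcon] at hA0c
      exact absurd hA0c (by simp)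
    set E' := E.filter (fun B => v ∈ B) with hE'def
    have hlt : E'.card < d := degree_lt hE hP hcard hd
    have hle : Fintype.card E' ≤ Fintype.card (Fin d) := by
      rw [Fintype.card_coe, Fintype.card_fin]; exact hlt.le
    obtain ⟨em⟩ := Function.Embedding.nonempty_of_card_le hle
    let lam : Finset (Fin n) → Fin d := fun B => if h : B ∈ E' then em ⟨B, h⟩ else ⟨0, hd⟩
    have hlam : ∀ B (h : B ∈ E'), lam B = em ⟨B, h⟩ := fun B h => by simp [lam, h]
    have hinj : ∀ B ∈ E', ∀ B' ∈ E', lam B = lam B' → B = B' := by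
      intro B hB B' hB' h
      rw [hlam B hB, hlam B' hB'] at h
      exact congrArg Subtype.val (em.injective h)
    have hE' : ∀ B ∈ E', B ∈ E ∧ v ∈ B := fun B hB => Finset.mem_filter.1 hB
    have hcard' : ∀ B ∈ E', (B.erase v).Nonempty := fun B hB =>
      hcard B (hE' B hB).1 (hE' B hB).2
    have hA0' : A0 ∈ E' := Finset.mem_filter.2 ⟨hA0, hv⟩
    set Δ := (MM K v lam E').det with hΔ
    let α := sb K v (MM K v lam E')
    let β := sb K v (MM K v lam E').adjugate
    let T : Finset (Fin d) := (E'.erase A0).image lam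
    have hJo : (jo K E v T).IsPrime := jo_prime hP v T
    have hΔP : Δ ∉ lss K n d E := by
      apply notMem_of_eval (pp K v lam E')
      · rw [hΔ, pp_det hE hE' hcard' hinj]; exact one_ne_zero
      · rintro _ ⟨B, hB, rfl⟩
        exact pp_ff hE hE' hinj hB
    have hΔJo : Δ ∉ jo K E v T := by
      apply notMem_of_eval (pp K v lam E')
      · rw [hΔ, pp_det hE hE' hcard' hinj]; exact one_ne_zero
      · rintro _ (⟨B, hB, _, rfl⟩ | ⟨l, _, rfl⟩)
        · exact pp_ff hE hE' hinj hB
        · simp [pp]
    have hXJo : (X (v, lam A0) : MvPolynomial (Fin n × Fin d) K) ∉ jo K E v T := by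
      apply notMem_of_eval (eval (fun x => if x = (v, lam A0) then (1 : K) else 0))
      · simp
      · rintro _ (⟨B, hB, hvB, rfl⟩ | ⟨l, hl, rfl⟩)
        · rw [ff, map_sum]
          apply Finset.sum_eq_zero
          intro k _
          rw [map_prod]
          obtain ⟨i, hi⟩ := hE.1 B hB
          apply Finset.prod_eq_zero hi
          have : i ≠ v := by rintro rfl; exact hvB hi
          simp [this]
        · have : l ≠ lam A0 := by
            rintro rfl
            obtain ⟨B, hB, hBl⟩ := Finset.mem_image.1 hl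
            have h1 := hinj B (Finset.mem_of_mem_erase hB) A0 hA0' hBl
            exact (Finset.ne_of_mem_erase hB) h1
          simp [this]
    have hαJo : ∀ x ∈ jo K E v T, α x ∈ lss K n d (E.erase A0) := by
      have : jo K E v T ≤ (lss K n d (E.erase A0)).comap α := by
        apply Ideal.span_le.2
        rintro _ (⟨B, hB, hvB, rfl⟩ | ⟨l, hl, rfl⟩)
        · rw [SetLike.mem_coe, Ideal.mem_comap, sb_ff_notMem _ hvB]
          apply Ideal.subset_span
          refine ⟨B, Finset.mem_erase.2 ⟨?_, hB⟩, rfl⟩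
          rintro rfl
          exact hvB hv
        · obtain ⟨B, hB, rfl⟩ := Finset.mem_image.1 hl
          have hB' := Finset.mem_of_mem_erase hB
          rw [SetLike.mem_coe, Ideal.mem_comap, sb_X_v, ← ff_eq hinj hB' (hE' B hB').2]
          apply Ideal.subset_span
          exact ⟨B, Finset.mem_erase.2 ⟨Finset.ne_of_mem_erase hB, (hE' B hB').1⟩, rfl⟩
      exact this
    have hβJ : lss K n d (E.erase A0) ≤ (jo K E v T).comap β := by
      apply Ideal.span_le.2
      rintro _ ⟨B, hB, rfl⟩
      rw [SetLike.mem_coe, Ideal.mem_comap]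
      by_cases hvB : v ∈ B
      · have hB' : B ∈ E' := Finset.mem_filter.2 ⟨Finset.mem_of_mem_erase hB, hvB⟩
        rw [sb_ff_mem hinj hB' hvB]
        apply Ideal.mul_mem_left
        apply Ideal.subset_span
        exact Or.inr ⟨lam B, Finset.mem_image.2
          ⟨B, Finset.mem_erase.2 ⟨Finset.ne_of_mem_erase hB, hB'⟩, rfl⟩, rfl⟩
      · rw [sb_ff_notMem _ hvB]
        apply Ideal.subset_span
        exact Or.inl ⟨B, Finset.mem_of_mem_erase hB, hvB, rfl⟩
    have hJs : ((jo K E v T).comap β).IsPrime := Ideal.IsPrime.comap β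
    have hf : ff K n d A0 ∉ (jo K E v T).comap β := by
      rw [Ideal.mem_comap, sb_ff_mem hinj hA0' hv]
      intro h
      rcases hJo.mem_or_mem h with h | h
      · exact hΔJo h
      · exact hXJo h
    have hscale : ∀ k, ∀ x : MvPolynomial (Fin n × Fin d) K, IsWeightedHomogeneous (wv d v) x k →
        α (β x) = Δ ^ k * x := by
      intro k x hx
      apply scale_eq (α.comp β) Δ (wv d v) _ hx
      rintro ⟨i, l⟩
      by_cases hi : i = v
      · subst hi
        rw [AlgHom.comp_apply, sb_sb_X_v]
        simp [wv, hΔ]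
      · rw [AlgHom.comp_apply, sb_X_ne _ hi, sb_X_ne _ hi]
        simp [wv, hi]
    -- the key claim
    have key : ∀ k, ∀ x : MvPolynomial (Fin n × Fin d) K, IsWeightedHomogeneous (wv d v) x k →
        x ∈ (jo K E v T).comap β → x ∈ lss K n d (E.erase A0) := by
      intro k
      induction k using Nat.strong_induction_on with
      | _ k ih =>
        intro x hxk hx
        have h1 : Δ ^ k * x ∈ lss K n d (E.erase A0) := by
          rw [← hscale k x hxk]
          exact hαJo _ hx
        have h2 : x ∈ lss K n d E := by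
          have h3 : Δ ^ k * x ∈ lss K n d E := by
            rw [lss_erase_sup hA0]
            exact Ideal.mem_sup_left h1
          rcases hP.mem_or_mem h3 with h | h
          · exact absurd (hP.mem_of_pow_mem _ h) hΔP
          · exact h
        rw [lss_erase_sup hA0, mem_sup_span_singleton] at h2
        obtain ⟨j, hj, x', hx'⟩ := h2
        let 𝒜 := weightedHomogeneousSubmodule K (wv d v)
        have hfA : ff K n d A0 ∈ 𝒜 1 := by
          have := ff_wv (K := K) (d := d) v A0
          rwa [if_pos hv] at this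
        have hx0 : (DirectSum.decompose 𝒜 x k : MvPolynomial (Fin n × Fin d) K) = x :=
          DirectSum.decompose_of_mem_same 𝒜 hxk
        have hjk : (DirectSum.decompose 𝒜 j k : MvPolynomial (Fin n × Fin d) K) ∈
            lss K n d (E.erase A0) := lss_homog v _ k hj
        have hdec : x = (DirectSum.decompose 𝒜 j k : MvPolynomial (Fin n × Fin d) K) +
            (DirectSum.decompose 𝒜 (ff K n d A0 * x') k : MvPolynomial (Fin n × Fin d) K) := by
          conv_lhs => rw [← hx0, hx', DirectSum.decompose_add]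
          rfl
        rw [DirectSum.coe_decompose_mul_of_left_mem 𝒜 k hfA] at hdec
        split_ifs at hdec with hk
        · set y : MvPolynomial (Fin n × Fin d) K :=
            ((DirectSum.decompose 𝒜 x' (k - 1) : 𝒜 (k - 1)) : MvPolynomial (Fin n × Fin d) K) with hy
          have hyh : IsWeightedHomogeneous (wv d v) y (k - 1) :=
            (DirectSum.decompose 𝒜 x' (k - 1)).2
          have h4 : ff K n d A0 * y ∈ (jo K E v T).comap β := by
            have : ff K n d A0 * y = x - (DirectSum.decompose 𝒜 j k) := by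
              rw [hdec]; ring
            rw [this]
            exact Ideal.sub_mem _ hx (hβJ hjk)
          have h5 : y ∈ (jo K E v T).comap β := (hJs.mem_or_mem h4).resolve_left hf
          have h6 := ih (k - 1) (by omega) y hyh h5
          rw [hdec]
          exact Ideal.add_mem _ hjk (Ideal.mul_mem_left _ _ h6)
        · rw [hdec, add_zero]
          exact hjk
    apply (lss_homog v (E.erase A0)).isPrime_of_homogeneous_mem_or_mem
    · intro h
      rw [h, top_le_iff] at hβJ
      exact hJs.ne_top hβJ
    · rintro x y ⟨k, hx⟩ ⟨l, hy⟩ hxy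
      rcases hJs.mem_or_mem (hβJ hxy) with h | h
      · exact Or.inl (key k x hx h)
      · exact Or.inr (key l y hy h)
  · -- `A0 = {v}`
    rw [Finset.not_nonempty_iff_eq_empty] at hA0c
    have h1 : A0 = {v} := by
      rw [← Finset.insert_erase hv, hA0c]
      rfl
    have h2 : lss K n d (E.erase A0) = jo K E v ∅ := by
      rw [lss, jo]
      congr 1
      ext g
      simp only [Set.mem_ofPred_eq, Set.mem_union, Finset.mem_erase, Finset.notMem_empty,
        false_and, exists_false, or_false]
      constructor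
      · rintro ⟨B, ⟨hBA, hB⟩, rfl⟩
        refine ⟨B, hB, ?_, rfl⟩
        intro hvB
        apply hBA
        symm
        apply hE.2 A0 hA0 B hB
        rw [h1]; simpa using hvB
      · rintro ⟨B, hB, hvB, rfl⟩
        refine ⟨B, ⟨?_, hB⟩, rfl⟩
        rintro rfl
        exact hvB hv
    rw [h2]
    exact jo_prime hP v ∅

/-- All sub-hypergraphs of a hypergraph with prime `L_E(d)` have prime `L_{E'}(d)`. -/
theorem subset_prime {E : Finset (Finset (Fin n))} (hE : IsClutter E) (hd : 0 < d)
    (hP : (lss K n d E).IsPrime) : ∀ E' ⊆ E, (lss K n d E').IsPrime := by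
  classical
  have key : ∀ m, ∀ E' ⊆ E, (E \ E').card = m → (lss K n d E').IsPrime := by
    intro m
    induction m with
    | zero =>
      intro E' hE' hm
      rw [Finset.card_eq_zero, Finset.sdiff_eq_empty_iff_subset] at hm
      rw [Finset.Subset.antisymm hE' hm]
      exact hP
    | succ m ih =>
      intro E' hE' hm
      obtain ⟨A, hA⟩ := Finset.card_pos.1 (by omega : 0 < (E \ E').card)
      have hA' := Finset.mem_sdiff.1 hA
      have h1 : insert A E' ⊆ E := Finset.insert_subset hA'.1 hE'
      have h2 : (E \ insert A E').card = m := by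
        rw [Finset.sdiff_insert, Finset.card_erase_of_mem hA]
        omega
      have h3 := erase_prime (hE.mono h1) hd (ih _ h1 h2) (Finset.mem_insert_self A E')
      rwa [Finset.erase_insert hA'.2] at h3
  intro E' hE'
  exact key _ E' hE' rfl

/-- **Persistence of primeness.** -/
theorem prime_succ {E : Finset (Finset (Fin n))} (hE : IsClutter E) (hd : 0 < d)
    (hP : (lss K n d E).IsPrime) : (lss K n (d + 1) E).IsPrime := by
  apply step (M := ∅) hd hE
  · refine ⟨Finset.empty_subset _, by simp, fun _ => -1, by simp, ?_⟩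
    intro A hA
    have := hE.1 A (Finset.mem_sdiff.1 hA).1
    rw [Finset.sum_const, nsmul_eq_mul]
    have h1 : (0 : ℝ) < A.card := by exact_mod_cast this.card_pos
    linarith
  · intro E' hE'
    exact subset_prime hE hd hP E' (hE'.trans Finset.sdiff_subset)

end R831.Hyper
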