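import Pool.Agent.R831.Exchange
import Pool.Agent.R831.Drop

/-!
Persistence of the complete intersection property for hypergraph LSS ideals.
-/

namespace R831.Hyper

open MvPolynomial R831.Deform R831.Exchange Ideal RingTheory.Sequence

variable {K : Type*} [Field K] {n d : ℕ}

/-- An ideal is a complete intersection if it is generated by a regular sequence. -/
def IsCI {S : Type*} [CommRing S] (I : Ideal S) : Prop :=
  ∃ rs : List S, IsRegular S rs ∧ Ideal.ofList rs = I

lemma lss_eq_ofList (E : Finset (Finset (Fin n))) :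
    lss K n d E = ofList (E.toList.map (ff K n d)) := by
  rw [lss, Ideal.ofList]
  congr 1
  ext g
  simp only [Set.mem_ofPred_eq, List.mem_map, Finset.mem_toList]
  constructor
  · rintro ⟨A, hA, rfl⟩; exact ⟨A, hA, rfl⟩
  · rintro ⟨A, hA, rfl⟩; exact ⟨A, hA, rfl⟩

lemma constantCoeff_ff {A : Finset (Fin n)} (hA : A.Nonempty) :
    constantCoeff (ff K n d A) = 0 := by
  rw [ff, map_sum]
  apply Finset.sum_eq_zero
  intro l _
  rw [map_prod]
  obtain ⟨i, hi⟩ := hA
  apply Finset.prod_eq_zero hi
  simp

section grading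
variable {σ : Type*}

/-- `x_s ↦ x_s T` -/
noncomputable def Th : MvPolynomial σ K →+* Polynomial (MvPolynomial σ K) :=
  eval₂Hom ((Polynomial.C : MvPolynomial σ K →+* _).comp C)
    (fun s => Polynomial.C (X s) * Polynomial.X)

lemma eval_Th (x : MvPolynomial σ K) : (Th x).eval 1 = x := by
  have : (Polynomial.evalRingHom (1 : MvPolynomial σ K)).comp Th = RingHom.id _ := by
    apply MvPolynomial.ringHom_ext
    · intro a
      simp [Th]
    · intro s
      simp [Th]
  exact congrArg (fun f => f x) this

lemma coeff_zero_Th (x : MvPolynomial σ K) : (Th x).coeff 0 = C (constantCoeff x) := by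
  have : ((Polynomial.constantCoeff : Polynomial (MvPolynomial σ K) →+* _)).comp Th =
      (C : K →+* MvPolynomial σ K).comp constantCoeff := by
    apply MvPolynomial.ringHom_ext
    · intro a
      simp [Th]
    · intro s
      simp [Th]
  exact congrArg (fun f => f x) this

lemma Th_ff (A : Finset (Fin n)) :
    Th (ff K n d A) = Polynomial.C (ff K n d A) * Polynomial.X ^ A.card := by
  rw [ff, map_sum, map_sum, Finset.sum_mul]
  apply Finset.sum_congr rfl
  intro l _
  rw [map_prod, map_prod]
  simp only [Th, coe_eval₂Hom, eval₂_X]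
  rw [Finset.prod_mul_distrib, Finset.prod_const]

lemma coeff_Th_mem {Ls : List (Finset (Fin n))} {x : MvPolynomial (Fin n × Fin d) K}
    (hx : x ∈ ofList (Ls.map (ff K n d))) (k : ℕ) :
    (Th x).coeff k ∈ ofList (Ls.map (ff K n d)) := by
  revert k
  change x ∈ Submodule.span (MvPolynomial (Fin n × Fin d) K)
    {r | r ∈ Ls.map (ff K n d)} at hx
  induction hx using Submodule.span_induction with
  | mem x hx =>
    intro k
    obtain ⟨A, hA, rfl⟩ : ∃ A ∈ Ls, ff K n d A = x := List.mem_map.1 hx
    rw [Th_ff, Polynomial.coeff_C_mul]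
    exact Ideal.mul_mem_right _ _ (mem_ofList (List.mem_map.2 ⟨A, hA, rfl⟩))
  | zero => intro k; rw [map_zero, Polynomial.coeff_zero]; exact Ideal.zero_mem _
  | add x y hx hy ihx ihy =>
    intro k
    rw [map_add, Polynomial.coeff_add]
    exact Ideal.add_mem _ (ihx k) (ihy k)
  | smul a x hx ih =>
    intro k
    rw [smul_eq_mul, map_mul, Polynomial.coeff_mul]
    apply Ideal.sum_mem
    intro p _
    exact Ideal.mul_mem_left _ _ (ih _)

/-- A homogeneous ideal is saturated with respect to elements with nonzero constant term. -/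
lemma mem_of_mul_mem {Ls : List (Finset (Fin n))} {s x : MvPolynomial (Fin n × Fin d) K}
    (hs : constantCoeff s ≠ 0) (hx : s * x ∈ ofList (Ls.map (ff K n d))) :
    x ∈ ofList (Ls.map (ff K n d)) := by
  have key : ∀ k, (Th x).coeff k ∈ ofList (Ls.map (ff K n d)) := by
    intro k
    induction k using Nat.strong_induction_on with
    | _ k ih =>
      have h1 := coeff_Th_mem hx k
      rw [map_mul, Polynomial.coeff_mul,
        ← Finset.add_sum_erase _ _ (show (0, k) ∈ Finset.HasAntidiagonal.antidiagonal k by simp),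
        coeff_zero_Th] at h1
      have h2 : ∑ p ∈ (Finset.HasAntidiagonal.antidiagonal k).erase (0, k),
          (Th s).coeff p.1 * (Th x).coeff p.2 ∈ ofList (Ls.map (ff K n d)) := by
        apply Ideal.sum_mem
        intro p hp
        apply Ideal.mul_mem_left
        apply ih
        have h3 := Finset.HasAntidiagonal.mem_antidiagonal.1 (Finset.mem_of_mem_erase hp)
        have h4 := Finset.ne_of_mem_erase hp
        have h5 : p.1 ≠ 0 := by
          intro h0
          apply h4
          ext
          · exact h0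
          · simp; omega
        omega
      have h3 := (Ideal.add_mem_iff_left _ h2).1 h1
      have h4 : (Th x).coeff k = C (constantCoeff s)⁻¹ * (C (constantCoeff s) * (Th x).coeff k) := by
        rw [← mul_assoc, ← C_mul, inv_mul_cancel₀ hs, C_1, one_mul]
      rw [h4]
      exact Ideal.mul_mem_left _ _ h3
  rw [← eval_Th x, Polynomial.eval_eq_sum]
  apply Ideal.sum_mem
  intro k _
  exact Ideal.mul_mem_right _ _ (key k)

end grading

section local_

/-- the homogeneous maximal ideal -/
noncomputable def mm (K : Type*) [Field K] (n d : ℕ) : Ideal (MvPolynomial (Fin n × Fin d) K) :=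
  RingHom.ker (constantCoeff : MvPolynomial (Fin n × Fin d) K →+* K)

instance : (mm K n d).IsPrime := RingHom.ker_isPrime _

/-- evaluation in `K[T]` separating `f_A` from the other `f_B` -/
noncomputable def evT (K : Type*) [Field K] {n d : ℕ} (A : Finset (Fin n)) (l₀ : Fin d) :
    MvPolynomial (Fin n × Fin d) K →+* Polynomial K :=
  eval₂Hom Polynomial.C (fun x => if x.1 ∈ A ∧ x.2 = l₀ then Polynomial.X else 0)

lemma evT_ff (A B : Finset (Fin n)) (l₀ : Fin d) (hB : ¬ B ⊆ A) :
    evT K A l₀ (ff K n d B) = 0 := by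
  rw [ff, map_sum]
  apply Finset.sum_eq_zero
  intro l _
  rw [map_prod]
  obtain ⟨i, hi, hiA⟩ := Finset.not_subset.1 hB
  apply Finset.prod_eq_zero hi
  simp [evT, hiA]

lemma evT_ff_self (A : Finset (Fin n)) (l₀ : Fin d) (hA : A.Nonempty) :
    evT K A l₀ (ff K n d A) = Polynomial.X ^ A.card := by
  rw [ff, map_sum, Finset.sum_eq_single l₀]
  · rw [map_prod, ← Finset.prod_const]
    apply Finset.prod_congr rfl
    intro i hi
    simp [evT, hi]
  · intro l _ hl
    rw [map_prod]
    obtain ⟨i, hi⟩ := hA
    apply Finset.prod_eq_zero hi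
    simp [evT, hl]
  · intro h; exact absurd (Finset.mem_univ _) h

lemma evT_ne_zero (A : Finset (Fin n)) (l₀ : Fin d) {s : MvPolynomial (Fin n × Fin d) K}
    (hs : constantCoeff s ≠ 0) : evT K A l₀ s ≠ 0 := by
  intro h
  apply hs
  have : (Polynomial.constantCoeff : Polynomial K →+* K).comp (evT K A l₀) =
      constantCoeff := by
    apply MvPolynomial.ringHom_ext
    · intro a
      simp [evT]
    · intro x
      simp only [evT, RingHom.comp_apply, coe_eval₂Hom, eval₂_X, constantCoeff_X]
      split_ifs <;> simp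
  rw [← this, RingHom.comp_apply, h, map_zero]

/-- If `L_E(d)` is a complete intersection, then the `f_A` form a regular sequence, in any
order. -/
theorem reg_of_isCI {E : Finset (Finset (Fin n))} (hE : IsClutter E) (hd : 0 < d)
    (h : IsCI (lss K n d E)) : ∀ j (hj : j < (E.toList.map (ff K n d)).length), ∀ x,
      (E.toList.map (ff K n d))[j] * x ∈ ofList ((E.toList.map (ff K n d)).take j) →
        x ∈ ofList ((E.toList.map (ff K n d)).take j) := by
  classical
  obtain ⟨rs, hrs, hrsL⟩ := h
  set Ls := E.toList with hLs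
  have hnd : Ls.Nodup := Finset.nodup_toList E
  have hmem : ∀ A ∈ Ls, A ∈ E := fun A hA => Finset.mem_toList.1 hA
  let R := Localization.AtPrime (mm K n d)
  let al : MvPolynomial (Fin n × Fin d) K →+* R := algebraMap _ _
  have hffm : ∀ A ∈ Ls, ff K n d A ∈ mm K n d := fun A hA =>
    constantCoeff_ff (hE.1 A (hmem A hA))
  have hLm : lss K n d E ≤ mm K n d := by
    rw [lss_eq_ofList]
    apply ofList_le
    intro x hx
    obtain ⟨A, hA, rfl⟩ := List.mem_map.1 hx
    exact hffm A hA
  have hrsm : ∀ r ∈ rs, r ∈ mm K n d := by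
    intro r hr
    apply hLm
    rw [← hrsL]
    exact mem_ofList hr
  have hR := (hrs.toIsWeaklyRegular.isRegular_of_isLocalization_of_mem R (mm K n d)
    hrsm).toIsWeaklyRegular
  have hmax : ∀ x ∈ mm K n d, al x ∈ IsLocalRing.maximalIdeal R := fun x hx =>
    (IsLocalization.AtPrime.to_map_mem_maximal_iff R (mm K n d) x).2 hx
  have hmapmem : ∀ (l : List (MvPolynomial (Fin n × Fin d) K)) (x), al x ∈ ofList (l.map al) →
      ∃ s : MvPolynomial (Fin n × Fin d) K, constantCoeff s ≠ 0 ∧ s * x ∈ ofList l := by
    intro l x hx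
    rw [← Ideal.map_ofList] at hx
    obtain ⟨s, hs, hsx⟩ := (IsLocalization.algebraMap_mem_map_algebraMap_iff
      (mm K n d).primeCompl R (ofList l) x).1 hx
    exact ⟨s, hs, hsx⟩
  have hex := exchange (R := R) _ (rs.map al) [] ((Ls.map (ff K n d)).map al) rfl
    (by simpa using hR)
    (by
      intro x hx
      rw [List.nil_append] at hx
      obtain ⟨r, hr, rfl⟩ := List.mem_map.1 hx
      exact hmax r (hrsm r hr))
    (by
      intro x hx
      obtain ⟨y, hy, rfl⟩ := List.mem_map.1 hx
      obtain ⟨A, hA, rfl⟩ := List.mem_map.1 hy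
      exact hmax _ (hffm A hA))
    (by
      rw [List.nil_append, List.nil_append, ← Ideal.map_ofList, ← Ideal.map_ofList, hrsL,
        lss_eq_ofList])
    (by
      intro l1 f l2 heq hf
      rw [List.nil_append] at hf
      rw [List.map_map, List.map_eq_append_iff] at heq
      obtain ⟨L1, L2', hL, rfl, heq2⟩ := heq
      rw [List.map_eq_cons_iff] at heq2
      obtain ⟨A, L2, rfl, rfl, rfl⟩ := heq2
      rw [← List.map_append, ← List.map_map] at hf
      obtain ⟨s, hs, hsx⟩ := hmapmem _ _ hf
      have hAE : A ∈ E := hmem A (by rw [hL]; simp)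
      have h1 : ofList ((L1 ++ L2).map (ff K n d)) ≤ RingHom.ker (evT K A ⟨0, hd⟩) := by
        apply ofList_le
        intro x hx
        obtain ⟨B, hB, rfl⟩ := List.mem_map.1 hx
        rw [RingHom.mem_ker]
        apply evT_ff
        intro hBA
        have hBL : B ∈ Ls := by
          rw [hL]
          simp only [List.mem_append, List.mem_cons] at hB ⊢
          tauto
        have h2 := hE.2 B (hmem B hBL) A hAE hBA
        rw [hL, List.nodup_append] at hnd
        have h3 := hnd.2.1
        rw [List.nodup_cons] at h3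
        rw [h2] at hB
        rcases List.mem_append.1 hB with h4 | h4
        · exact hnd.2.2 A h4 A (by simp) rfl
        · exact h3.1 h4
      have h2 := h1 hsx
      rw [RingHom.mem_ker, map_mul, evT_ff_self _ _ (hE.1 A hAE), mul_eq_zero] at h2
      rcases h2 with h2 | h2
      · exact evT_ne_zero A _ hs h2
      · exact pow_ne_zero _ Polynomial.X_ne_zero h2)
  rw [List.nil_append, wr_iff] at hex
  intro j hj x hx
  have h1 := hex j (by simpa using hj) (al x)
  have h2 : (List.take j (List.map al (List.map (ff K n d) Ls))) =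
      (List.take j (List.map (ff K n d) Ls)).map al := by
    rw [List.map_take]
  rw [h2] at h1
  have h3 : ((List.map (ff K n d) Ls).map al)[j]'(by simpa using hj) =
      al ((List.map (ff K n d) Ls)[j]) := by simp
  rw [h3, ← map_mul] at h1
  have h4 : al ((List.map (ff K n d) Ls)[j] * x) ∈
      ofList ((List.take j (List.map (ff K n d) Ls)).map al) := by
    rw [← Ideal.map_ofList]
    exact Ideal.mem_map_of_mem _ hx
  obtain ⟨s, hs, hsx⟩ := hmapmem _ _ (h1 h4)
  rw [← List.map_take] at hsx ⊢
  exact mem_of_mul_mem hs hsx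

end local_

lemma seq_eq_getElem {α R : Type*} [Zero R] (φ : α → R) (Ls : List α) {j : ℕ}
    (hj : j < (Ls.map φ).length) : seq φ Ls j = (Ls.map φ)[j] := by
  rw [seq_of_lt φ Ls (by simpa using hj)]
  simp

lemma idl_eq_ofList {α R : Type*} [CommRing R] (φ : α → R) (Ls : List α) {j : ℕ}
    (hj : j ≤ Ls.length) : idl (seq φ Ls) j = ofList ((Ls.map φ).take j) := by
  rw [idl_seq φ Ls hj, Ideal.ofList]
  congr 1
  ext g
  simp only [Set.mem_ofPred_eq, ← List.map_take, List.mem_map]
  constructor
  · rintro ⟨A, hA, rfl⟩; exact ⟨A, hA, rfl⟩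
  · rintro ⟨A, hA, rfl⟩; exact ⟨A, hA, rfl⟩

/-- the isomorphism `S_{d+1} ≅ S_d[z_1, …, z_n]`, forward direction -/
noncomputable def toPoly (K : Type*) [Field K] (n d : ℕ) :
    MvPolynomial (Fin n × Fin (d + 1)) K →+*
      MvPolynomial (Fin n) (MvPolynomial (Fin n × Fin d) K) :=
  eval₂Hom ((C : MvPolynomial (Fin n × Fin d) K →+* _).comp C)
    (fun x => Fin.cases (X x.1) (fun l => C (X (x.1, l))) x.2)

/-- the isomorphism `S_{d+1} ≅ S_d[z_1, …, z_n]`, backward direction -/
noncomputable def ofPoly (K : Type*) [Field K] (n d : ℕ) :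
    MvPolynomial (Fin n) (MvPolynomial (Fin n × Fin d) K) →+*
      MvPolynomial (Fin n × Fin (d + 1)) K :=
  eval₂Hom (inc K n d) (fun i => X (i, 0))

lemma toPoly_inc (x : MvPolynomial (Fin n × Fin d) K) : toPoly K n d (inc K n d x) = C x := by
  have : (toPoly K n d).comp (inc K n d) = C := by
    apply MvPolynomial.ringHom_ext
    · intro a
      simp [toPoly, inc]
    · rintro ⟨i, l⟩
      simp [toPoly, inc]
  exact congrArg (fun f => f x) this

lemma ofPoly_toPoly (x : MvPolynomial (Fin n × Fin (d + 1)) K) :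
    ofPoly K n d (toPoly K n d x) = x := by
  have : (ofPoly K n d).comp (toPoly K n d) = RingHom.id _ := by
    apply MvPolynomial.ringHom_ext
    · intro a
      simp [toPoly, ofPoly, inc]
    · rintro ⟨i, l⟩
      refine Fin.cases ?_ (fun l => ?_) l
      · simp [toPoly, ofPoly]
      · simp [toPoly, ofPoly, inc]
  exact congrArg (fun f => f x) this

lemma mem_map_inc_iff {I : Ideal (MvPolynomial (Fin n × Fin d) K)}
    {x : MvPolynomial (Fin n × Fin (d + 1)) K} :
    x ∈ I.map (inc K n d) ↔ ∀ m, coeff m (toPoly K n d x) ∈ I := by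
  rw [← MvPolynomial.mem_map_C_iff]
  constructor
  · intro hx
    have h1 := Ideal.mem_map_of_mem (toPoly K n d) hx
    rw [Ideal.map_map] at h1
    have h2 : (toPoly K n d).comp (inc K n d) = C := RingHom.ext toPoly_inc
    rwa [h2] at h1
  · intro hx
    have h1 := Ideal.mem_map_of_mem (ofPoly K n d) hx
    rw [Ideal.map_map, ofPoly_toPoly] at h1
    have h2 : (ofPoly K n d).comp C = inc K n d := by
      apply RingHom.ext
      intro x
      simp [ofPoly]
    rwa [h2] at h1

lemma idl_gg_eq (Ls : List (Finset (Fin n))) {j : ℕ} (hj : j ≤ Ls.length) :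
    idl (seq (gg K d) Ls) j = (idl (seq (ff K n d) Ls) j).map (inc K n d) := by
  rw [idl_eq_ofList _ _ hj, idl_eq_ofList _ _ hj, Ideal.map_ofList]
  congr 1
  rw [List.map_take, List.map_map]
  congr 2
  funext A
  exact (inc_ff d A).symm

/-- Regularity of the `f_A^{(d)}` implies regularity of the `f_A^{(d+1)}`. -/
theorem reg_succ {Ls : List (Finset (Fin n))} (hne : ∀ A ∈ Ls, A.Nonempty)
    (h : ∀ j < Ls.length, ∀ x, seq (ff K n d) Ls j * x ∈ idl (seq (ff K n d) Ls) j →
      x ∈ idl (seq (ff K n d) Ls) j) :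
    ∀ j < Ls.length, ∀ x, seq (ff K n (d + 1)) Ls j * x ∈ idl (seq (ff K n (d + 1)) Ls) j →
      x ∈ idl (seq (ff K n (d + 1)) Ls) j := by
  have h1 : ∀ j < Ls.length, ∀ x, seq (gg K d) Ls j * x ∈ idl (seq (gg K d) Ls) j →
      x ∈ idl (seq (gg K d) Ls) j := by
    intro j hj x hx
    rw [idl_gg_eq Ls hj.le, mem_map_inc_iff] at hx ⊢
    intro m
    apply h j hj
    have h2 := hx m
    have h3 : seq (gg K d) Ls j = inc K n d (seq (ff K n d) Ls j) := by
      rw [seq_of_lt _ _ hj, seq_of_lt _ _ hj, inc_ff]
    rw [h3, map_mul, toPoly_inc, coeff_C_mul] at h2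
    exact h2
  let w : Fin n × Fin (d + 1) → ℕ := fun x => if x.2 = 0 then 1 else 0
  have hggh : ∀ A : Finset (Fin n), (gg K d A).IsHomogeneous A.card := by
    intro A
    apply IsHomogeneous.sum
    intro l _
    exact isHomogeneous_prod A _
  have hggw : ∀ A : Finset (Fin n), IsWeightedHomogeneous w (gg K d A) 0 := by
    intro A
    apply IsWeightedHomogeneous.sum
    intro l _
    have := isWeightedHomogeneous_prod (K := K) w A l.succ
    have h2 : ∑ i ∈ A, w (i, l.succ) = 0 := by
      simp [w, Fin.succ_ne_zero]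
    rwa [h2] at this
  let D : Data (seq (gg K d) Ls) (seq (hh K d) Ls) :=
    dataOfList (gg K d) (hh K d) Ls w (fun _ => 0) (fun A => A.card) (fun A => A.card - 1)
      (fun A _ => hggw A)
      (by
        intro A hA
        have h2 : 0 + (A.card - 1 + 1) = ∑ i ∈ A, w (i, 0) := by
          have := (hne A hA).card_pos
          simp [w]
          omega
        simp only [h2]
        exact isWeightedHomogeneous_prod w A 0)
      (fun A _ => hggh A) (fun A _ => isHomogeneous_prod A _)
  have h2 := reg_lift D h1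
  intro j hj x hx
  have h3 : seq (ff K n (d + 1)) Ls = (fun i => seq (gg K d) Ls i + seq (hh K d) Ls i) := by
    rw [seq_add]
    congr 1
    funext A
    exact ff_succ d A
  rw [h3] at hx ⊢
  exact h2 j hj x hx

/-- **Persistence of the complete intersection property.** -/
theorem isCI_succ {E : Finset (Finset (Fin n))} (hE : IsClutter E) (hd : 0 < d)
    (h : IsCI (lss K n d E)) : IsCI (lss K n (d + 1) E) := by
  have hne : ∀ A ∈ E.toList, A.Nonempty := fun A hA => hE.1 A (Finset.mem_toList.1 hA)
  have h1 := reg_of_isCI hE hd h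
  have h2 : ∀ j < E.toList.length, ∀ x, seq (ff K n d) E.toList j * x ∈
      idl (seq (ff K n d) E.toList) j → x ∈ idl (seq (ff K n d) E.toList) j := by
    intro j hj x hx
    have hj' : j < (E.toList.map (ff K n d)).length := by simpa using hj
    rw [idl_eq_ofList _ _ hj.le] at hx ⊢
    rw [seq_eq_getElem _ _ hj'] at hx
    exact h1 j hj' x hx
  have h3 := reg_succ hne h2
  refine ⟨E.toList.map (ff K n (d + 1)), ⟨?_, ?_⟩, (lss_eq_ofList E).symm⟩
  · rw [wr_iff]
    intro j hj x hx
    have hj' : j < E.toList.length := by simpa using hj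
    rw [← idl_eq_ofList _ _ hj'.le] at hx ⊢
    rw [← seq_eq_getElem _ _ hj] at hx
    exact h3 j hj' x hx
  · rw [← lss_eq_ofList, smul_eq_mul, Ideal.mul_top]
    intro htop
    have h4 : lss K n (d + 1) E ≤ mm K n (d + 1) := by
      rw [lss_eq_ofList]
      apply ofList_le
      intro x hx
      obtain ⟨A, hA, rfl⟩ := List.mem_map.1 hx
      exact constantCoeff_ff (hne A hA)
    rw [← htop] at h4
    have h5 : (1 : MvPolynomial (Fin n × Fin (d + 1)) K) ∈ mm K n (d + 1) := h4 trivial
    rw [mm, RingHom.mem_ker, map_one] at h5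
    exact one_ne_zero h5

/-- Prime hypergraph LSS ideals are complete intersections. -/
theorem isCI_of_prime {E : Finset (Finset (Fin n))} (hE : IsClutter E) (hd : 0 < d)
    (h : (lss K n d E).IsPrime) : IsCI (lss K n d E) := by
  classical
  have hmem : ∀ A ∈ E.toList, A ∈ E := fun A hA => Finset.mem_toList.1 hA
  have hnd : E.toList.Nodup := Finset.nodup_toList E
  refine ⟨E.toList.map (ff K n d), ⟨?_, ?_⟩, (lss_eq_ofList E).symm⟩
  · rw [wr_iff]
    intro j hj x hx
    have hj' : j < E.toList.length := by simpa using hj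
    have hpr : (ofList ((E.toList.map (ff K n d)).take j)).IsPrime := by
      have h1 : ofList ((E.toList.map (ff K n d)).take j) =
          lss K n d (E.toList.take j).toFinset := by
        rw [lss, Ideal.ofList]
        congr 1
        ext g
        simp only [Set.mem_ofPred_eq, ← List.map_take, List.mem_map, List.mem_toFinset]
        constructor
        · rintro ⟨A, hA, rfl⟩; exact ⟨A, hA, rfl⟩
        · rintro ⟨A, hA, rfl⟩; exact ⟨A, hA, rfl⟩
      rw [h1]
      apply subset_prime hE hd h
      intro A hA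
      exact hmem A (List.mem_of_mem_take (List.mem_toFinset.1 hA))
    refine (hpr.mem_or_mem hx).resolve_left ?_
    have h2 : (E.toList.map (ff K n d))[j] = ff K n d (E.toList[j]) := by simp
    rw [h2, Ideal.ofList]
    apply notMem_of_eval (evA K E.toList[j] ⟨0, hd⟩)
    · rw [evA_ff_self _ _ (hE.1 _ (hmem _ (List.getElem_mem hj')))]
      exact one_ne_zero
    · intro y hy
      rw [Set.mem_ofPred_eq, ← List.map_take, List.mem_map] at hy
      obtain ⟨B, hB, rfl⟩ := hy
      apply evA_ff
      intro hBA
      have h3 := hE.2 B (hmem _ (List.mem_of_mem_take hB)) _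
        (hmem _ (List.getElem_mem hj')) hBA
      rw [List.mem_take_iff_getElem] at hB
      obtain ⟨i, hi, hiB⟩ := hB
      have h4 : E.toList[i] = E.toList[j] := by rw [← h3]; exact hiB
      have h5 := (List.Nodup.getElem_inj_iff hnd).1 h4
      omega
  · rw [← lss_eq_ofList, smul_eq_mul, Ideal.mul_top]
    exact h.ne_top.symm

end R831.Hyper
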