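import Pool.Agent.R831.Kill

/-!
Diagonal and antidiagonal entries of the commutator of two generic matrices.
-/

namespace R831.Comm

open MvPolynomial R831.Lin R831.Kill

/-- the variables: entries of `X` (left) and `Y` (right) -/
abbrev V (n : ℕ) : Type := (Fin n × Fin n) ⊕ (Fin n × Fin n)

variable (K : Type*) [Field K] {n : ℕ}

/-- `x_{ij}` -/
noncomputable def xx (i j : Fin n) : MvPolynomial (V n) K := X (Sum.inl (i, j))
/-- `y_{ij}` -/
noncomputable def yy (i j : Fin n) : MvPolynomial (V n) K := X (Sum.inr (i, j))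

/-- the entry `(i, r)` of `XY - YX` -/
noncomputable def cc (i r : Fin n) : MvPolynomial (V n) K :=
  ∑ l, (xx K i l * yy K l r - yy K i l * xx K l r)

lemma cc_mem (i r : Fin n) : cc K i r ∈ Bil K (Fin n × Fin n) (Fin n × Fin n) := by
  apply Submodule.sum_mem
  intro l _
  exact Submodule.sub_mem _ (mul_mem_Bil _ _) (mul_mem_Bil' _ _)

lemma trace_zero : ∑ i : Fin n, cc K i i = 0 := by
  simp only [cc, Finset.sum_sub_distrib]
  rw [sub_eq_zero, Finset.sum_comm]
  apply Finset.sum_congr rfl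
  intro i _
  apply Finset.sum_congr rfl
  intro j _
  exact mul_comm _ _

variable {N : ℕ}

/-- outer indices -/
def outer (i : Fin (N + 3)) : Prop := i = 0 ∨ i = Fin.last _

lemma outer_rev (i : Fin (N + 3)) : outer i.rev ↔ outer i := by
  simp only [outer, Fin.ext_iff, Fin.val_rev, Fin.val_last, Fin.val_zero]
  have := i.2
  omega

/-- positions linking outer and inner indices -/
def bs (p : Fin (N + 3) × Fin (N + 3)) : Prop :=
  (outer p.1 ∧ ¬ outer p.2) ∨ (¬ outer p.1 ∧ outer p.2)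

/-- kept entries of `X` -/
def kx (p : Fin (N + 3) × Fin (N + 3)) : Prop :=
  bs p ∨ (p.1 = p.2 ∧ p.1 < p.1.rev) ∨ (p.2 < p.2.rev ∧ p.1 = p.2.rev)
/-- kept entries of `Y` -/
def ky (p : Fin (N + 3) × Fin (N + 3)) : Prop :=
  bs p ∨ (p.1 = p.2 ∧ p.1 < p.1.rev) ∨ (p.1 < p.1.rev ∧ p.2 = p.1.rev)

/-- linking variables -/
def kb : V (N + 3) → Prop := Sum.elim bs bs
/-- kept variables -/
def kk : V (N + 3) → Prop := Sum.elim kx ky

variable {K}

lemma kk_x {i j : Fin (N + 3)} (h : kx (i, j)) : kil (K := K) kk (xx K i j) = xx K i j := kil_X h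
lemma kk_x' {i j : Fin (N + 3)} (h : ¬ kx (i, j)) : kil (K := K) kk (xx K i j) = 0 := kil_X' h
lemma kk_y {i j : Fin (N + 3)} (h : ky (i, j)) : kil (K := K) kk (yy K i j) = yy K i j := kil_X h
lemma kk_y' {i j : Fin (N + 3)} (h : ¬ ky (i, j)) : kil (K := K) kk (yy K i j) = 0 := kil_X' h
lemma kb_x {i j : Fin (N + 3)} (h : bs (i, j)) : kil (K := K) kb (xx K i j) = xx K i j := kil_X h
lemma kb_x' {i j : Fin (N + 3)} (h : ¬ bs (i, j)) : kil (K := K) kb (xx K i j) = 0 := kil_X' h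
lemma kb_y {i j : Fin (N + 3)} (h : bs (i, j)) : kil (K := K) kb (yy K i j) = yy K i j := kil_X h
lemma kb_y' {i j : Fin (N + 3)} (h : ¬ bs (i, j)) : kil (K := K) kb (yy K i j) = 0 := kil_X' h

lemma not_bs {i l : Fin (N + 3)} (h : l = i ∨ l = i.rev) : ¬ bs (i, l) := by
  rcases h with rfl | rfl
  · simp [bs]
  · simp only [bs, outer_rev]; tauto

lemma kk_eq_kb_x {i l : Fin (N + 3)} (h : ¬ (l = i ∨ l = i.rev)) :
    kil (K := K) kk (xx K i l) = kil kb (xx K i l) := by
  by_cases hb : bs (i, l)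
  · rw [kk_x (Or.inl hb), kb_x hb]
  · rw [kb_x' hb]
    apply kk_x'
    push Not at h
    rintro (h1 | ⟨h1, _⟩ | ⟨_, h1⟩)
    · exact hb h1
    · exact h.1 h1.symm
    · apply h.2; simp only at h1; rw [h1, Fin.rev_rev]

lemma kk_eq_kb_y {i l : Fin (N + 3)} (h : ¬ (l = i ∨ l = i.rev)) :
    kil (K := K) kk (yy K i l) = kil kb (yy K i l) := by
  by_cases hb : bs (i, l)
  · rw [kk_y (Or.inl hb), kb_y hb]
  · rw [kb_y' hb]
    apply kk_y'
    push Not at h
    rintro (h1 | ⟨h1, _⟩ | ⟨_, h1⟩)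
    · exact hb h1
    · exact h.1 h1.symm
    · exact h.2 h1

lemma kap_cc {i r : Fin (N + 3)} (hr : r = i ∨ r = i.rev) :
    kil (K := K) kk (cc K i r) = kil kb (cc K i r) + ∑ l ∈ ({i, i.rev} : Finset (Fin (N + 3))),
      (kil kk (xx K i l) * kil kk (yy K l r) - kil kk (yy K i l) * kil kk (xx K l r)) := by
  simp only [cc, map_sum, map_sub, map_mul]
  rw [← Finset.sum_add_sum_compl ({i, i.rev} : Finset (Fin (N + 3)))
    (fun l => kil (K := K) kk (xx K i l) * kil kk (yy K l r) - kil kk (yy K i l) * kil kk (xx K l r)),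
    ← Finset.sum_add_sum_compl ({i, i.rev} : Finset (Fin (N + 3)))
    (fun l => kil (K := K) kb (xx K i l) * kil kb (yy K l r) - kil kb (yy K i l) * kil kb (xx K l r))]
  have h1 : ∑ l ∈ ({i, i.rev} : Finset (Fin (N + 3))),
      (kil (K := K) kb (xx K i l) * kil kb (yy K l r) - kil kb (yy K i l) * kil kb (xx K l r)) = 0 := by
    apply Finset.sum_eq_zero
    intro l hl
    have h2 : ¬ bs (i, l) := not_bs (by simpa using hl)
    rw [kb_x' h2, kb_y' h2]
    ring
  have h3 : ∑ l ∈ ({i, i.rev} : Finset (Fin (N + 3)))ᶜ,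
      (kil (K := K) kk (xx K i l) * kil kk (yy K l r) - kil kk (yy K i l) * kil kk (xx K l r)) =
      ∑ l ∈ ({i, i.rev} : Finset (Fin (N + 3)))ᶜ,
      (kil (K := K) kb (xx K i l) * kil kb (yy K l r) - kil kb (yy K i l) * kil kb (xx K l r)) := by
    apply Finset.sum_congr rfl
    intro l hl
    have hl' : ¬ (l = i ∨ l = i.rev) := by simpa using hl
    have hl'' : ¬ (r = l ∨ r = l.rev) := by
      intro h
      apply hl'
      rcases h with h | h <;> rcases hr with h' | h'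
      · left; rw [← h, h']
      · right; rw [← h, h']
      · right; rw [← h', h, Fin.rev_rev]
      · left; rw [← Fin.rev_rev l, ← h, h', Fin.rev_rev]
    rw [kk_eq_kb_x hl', kk_eq_kb_y hl', kk_eq_kb_x hl'', kk_eq_kb_y hl'']
  rw [h1, h3]
  ring

section values
variable {i : Fin (N + 3)} (h : i < i.rev)
include h

lemma v_x1 : kil (K := K) kk (xx K i i) = xx K i i := kk_x (Or.inr (Or.inl ⟨rfl, h⟩))
lemma v_y1 : kil (K := K) kk (yy K i i) = yy K i i := kk_y (Or.inr (Or.inl ⟨rfl, h⟩))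
lemma v_x2 : kil (K := K) kk (xx K i.rev i) = xx K i.rev i := kk_x (Or.inr (Or.inr ⟨h, rfl⟩))
lemma v_y2 : kil (K := K) kk (yy K i i.rev) = yy K i i.rev := kk_y (Or.inr (Or.inr ⟨h, rfl⟩))
lemma v_x3 : kil (K := K) kk (xx K i i.rev) = 0 := by
  apply kk_x'
  rintro (h1 | ⟨h1, _⟩ | ⟨h1, _⟩)
  · exact not_bs (Or.inr rfl) h1
  · exact h.ne h1
  · simp only [Fin.rev_rev] at h1; exact absurd h (not_lt.2 h1.le)
lemma v_y3 : kil (K := K) kk (yy K i.rev i) = 0 := by
  apply kk_y'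
  rintro (h1 | ⟨h1, _⟩ | ⟨h1, _⟩)
  · exact not_bs (Or.inr (Fin.rev_rev i).symm) h1
  · exact h.ne h1.symm
  · simp only [Fin.rev_rev] at h1; exact absurd h (not_lt.2 h1.le)
lemma v_x4 : kil (K := K) kk (xx K i.rev i.rev) = 0 := by
  apply kk_x'
  rintro (h1 | ⟨_, h1⟩ | ⟨h1, _⟩)
  · exact not_bs (Or.inl rfl) h1
  all_goals simp only [Fin.rev_rev] at h1; exact absurd h (not_lt.2 h1.le)
lemma v_y4 : kil (K := K) kk (yy K i.rev i.rev) = 0 := by
  apply kk_y'
  rintro (h1 | ⟨_, h1⟩ | ⟨h1, _⟩)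
  · exact not_bs (Or.inl rfl) h1
  all_goals simp only [Fin.rev_rev] at h1; exact absurd h (not_lt.2 h1.le)

lemma sum_pair' (f : Fin (N + 3) → MvPolynomial (V (N + 3)) K) :
    ∑ l ∈ ({i, i.rev} : Finset (Fin (N + 3))), f l = f i + f i.rev :=
  Finset.sum_pair h.ne

lemma kap1 : kil (K := K) kk (cc K i.rev i.rev) =
    xx K i.rev i * yy K i i.rev + kil kb (cc K i.rev i.rev) := by
  rw [kap_cc (Or.inl rfl), Fin.rev_rev, Finset.pair_comm, sum_pair' h, v_x2 h, v_y2 h, v_y3 h,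
    v_x4 h, v_y4 h]
  ring

lemma kap2 : kil (K := K) kk (cc K i i.rev) =
    yy K i i.rev * xx K i i + kil kb (cc K i i.rev) := by
  rw [kap_cc (Or.inr rfl), sum_pair' h, v_x1 h, v_y1 h, v_y2 h, v_x3 h, v_x4 h, v_y4 h]
  ring

lemma kap3 : kil (K := K) kk (cc K i.rev i) =
    xx K i.rev i * yy K i i + kil kb (cc K i.rev i) := by
  rw [kap_cc (Or.inr (Fin.rev_rev i).symm), Fin.rev_rev, Finset.pair_comm, sum_pair' h, v_x2 h,
    v_y1 h, v_y3 h, v_x4 h, v_y4 h]
  ring

lemma kap4 : kil (K := K) kk (cc K i i) =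
    - (xx K i.rev i * yy K i i.rev) + kil kb (cc K i i) := by
  rw [kap_cc (Or.inl rfl), sum_pair' h, v_x1 h, v_y1 h, v_y2 h, v_x3 h, v_y3 h, v_x2 h]
  ring

end values

lemma kap_mid {i : Fin (N + 3)} (h : i = i.rev) :
    kil (K := K) kk (cc K i i) = kil kb (cc K i i) := by
  rw [kap_cc (Or.inl rfl), ← h, Finset.pair_eq_singleton, Finset.sum_singleton]
  ring

/-- evaluation at a pair of matrices -/
noncomputable def evm (A B : Matrix (Fin n) (Fin n) K) : MvPolynomial (V n) K →ₐ[K] K :=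
  aeval (Sum.elim (fun p => A p.1 p.2) (fun p => B p.1 p.2))

lemma evm_x (A B : Matrix (Fin n) (Fin n) K) (i j : Fin n) : evm A B (xx K i j) = A i j := by
  simp [evm, xx]
lemma evm_y (A B : Matrix (Fin n) (Fin n) K) (i j : Fin n) : evm A B (yy K i j) = B i j := by
  simp [evm, yy]

lemma evm_cc (A B : Matrix (Fin n) (Fin n) K) (i r : Fin n) :
    evm A B (cc K i r) = (A * B - B * A) i r := by
  simp only [cc, map_sum, map_sub, map_mul, evm_x, evm_y, Matrix.sub_apply, Matrix.mul_apply,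
    Finset.sum_sub_distrib]

/-- matrices supported on the linking positions -/
def BS (A : Matrix (Fin (N + 3)) (Fin (N + 3)) K) : Prop := ∀ i j, ¬ bs (i, j) → A i j = 0

lemma evm_kil {A B : Matrix (Fin (N + 3)) (Fin (N + 3)) K} (hA : BS A) (hB : BS B)
    {k : V (N + 3) → Prop} (hk : ∀ s, kb s → k s) (f : MvPolynomial (V (N + 3)) K) :
    evm A B (kil k f) = evm A B f := by
  have : (evm A B).comp (kil k) = evm A B := by
    apply MvPolynomial.algHom_ext
    intro s
    rw [AlgHom.comp_apply]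
    by_cases h : k s
    · rw [kil_X h]
    · rw [kil_X' h, map_zero]
      have h' : ¬ kb s := fun h' => h (hk s h')
      rcases s with ⟨i, j⟩ | ⟨i, j⟩
      · exact ((evm_x A B i j).trans (hA i j h')).symm
      · exact ((evm_y A B i j).trans (hB i j h')).symm
  exact DFunLike.congr_fun this f

lemma kb_kk (s : V (N + 3)) (h : kb s) : kk s := by
  rcases s with s | s <;> exact Or.inl h

lemma evm_kk {A B : Matrix (Fin (N + 3)) (Fin (N + 3)) K} (hA : BS A) (hB : BS B)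
    (i r : Fin (N + 3)) : evm A B (kil kk (cc K i r)) = (A * B - B * A) i r := by
  rw [evm_kil hA hB kb_kk, evm_cc]

lemma evm_kb {A B : Matrix (Fin (N + 3)) (Fin (N + 3)) K} (hA : BS A) (hB : BS B)
    (i r : Fin (N + 3)) : evm A B (kil kb (cc K i r)) = (A * B - B * A) i r := by
  rw [evm_kil hA hB (fun _ h => h), evm_cc]

lemma BS_single {i j : Fin (N + 3)} (h : bs (i, j)) : BS (Matrix.single i j (1 : K)) := by
  intro a b hab
  rw [Matrix.single_apply, if_neg]
  rintro ⟨rfl, rfl⟩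
  exact hab h

lemma BS_add {A B : Matrix (Fin (N + 3)) (Fin (N + 3)) K} (hA : BS A) (hB : BS B) :
    BS (A + B) := by
  intro i j h
  rw [Matrix.add_apply, hA i j h, hB i j h, add_zero]

lemma BS_sub {A B : Matrix (Fin (N + 3)) (Fin (N + 3)) K} (hA : BS A) (hB : BS B) :
    BS (A - B) := by
  intro i j h
  rw [Matrix.sub_apply, hA i j h, hB i j h, sub_zero]

end R831.Comm
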