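import Pool.Agent.R831.Comm

/-!
The steps of the tower for the commutator ideals.
-/

namespace R831.Comm

open MvPolynomial R831.Lin R831.Kill

variable {K : Type*} [Field K] {N : ℕ}

lemma free_kil_all {σ : Type*} {k : σ → Prop} {V : Set σ} (h : ∀ s ∈ V, ¬ k s)
    (f : MvPolynomial σ K) : Free V (kil k f) := by
  induction f using MvPolynomial.induction_on with
  | C a =>
    have : kil k (C a) = algebraMap K (MvPolynomial σ K) a := by
      simp [kil, MvPolynomial.algebraMap_eq]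
    rw [this]
    exact Subalgebra.algebraMap_mem _ _
  | add p q hp hq => rw [map_add]; exact hp.add hq
  | mul_X p s hp =>
    rw [map_mul]
    apply hp.mul
    by_cases hs : k s
    · rw [kil_X hs]; exact Free.var (fun hV => h s hV hs)
    · rw [kil_X' hs]; exact Free.zero

lemma free_kil_X {σ : Type*} {k : σ → Prop} {V : Set σ} {s : σ} (h : s ∉ V) :
    Free V (kil (K := K) k (X s)) := by
  by_cases hs : k s
  · rw [kil_X hs]; exact Free.var h
  · rw [kil_X' hs]; exact Free.zero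

lemma free_term {k : V (N + 3) → Prop} {W : Set (V (N + 3))} {i r l : Fin (N + 3)}
    (h1 : (Sum.inl (i, l) : V (N + 3)) ∉ W) (h2 : (Sum.inr (l, r) : V (N + 3)) ∉ W)
    (h3 : (Sum.inr (i, l) : V (N + 3)) ∉ W) (h4 : (Sum.inl (l, r) : V (N + 3)) ∉ W) :
    Free W (kil (K := K) k (xx K i l) * kil k (yy K l r) - kil k (yy K i l) * kil k (xx K l r)) :=
  ((free_kil_X h1).mul (free_kil_X h2)).sub ((free_kil_X h3).mul (free_kil_X h4))

lemma free_cc {k : V (N + 3) → Prop} {W : Set (V (N + 3))} {i r : Fin (N + 3)}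
    (h1 : ∀ l, (Sum.inl (i, l) : V (N + 3)) ∉ W) (h2 : ∀ l, (Sum.inr (l, r) : V (N + 3)) ∉ W)
    (h3 : ∀ l, (Sum.inr (i, l) : V (N + 3)) ∉ W) (h4 : ∀ l, (Sum.inl (l, r) : V (N + 3)) ∉ W) :
    Free W (kil (K := K) k (cc K i r)) := by
  simp only [cc, map_sum, map_sub, map_mul]
  exact Free.sum _ _ (fun l _ => free_term (h1 l) (h2 l) (h3 l) (h4 l))

/-- the variables used by the block of `j` -/
def FF (j : Fin (N + 3)) : Set (V (N + 3)) :=
  {Sum.inl (0, j), Sum.inr (j, 0), Sum.inl (0, j.rev), Sum.inr (j.rev, 0), Sum.inl (j, j),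
    Sum.inr (j, j), Sum.inl (j.rev, j), Sum.inr (j, j.rev)}

/-- indices occurring in the block of `j` -/
def PP (j i : Fin (N + 3)) : Prop := i = 0 ∨ i = j ∨ i = j.rev

lemma free_FF {k : V (N + 3) → Prop} {i r j : Fin (N + 3)} (hi : ¬ PP j i) (hr : ¬ PP j r) :
    Free (FF j) (kil (K := K) k (cc K i r)) := by
  simp only [PP, not_or] at hi hr
  obtain ⟨hi0, hij, hij'⟩ := hi
  obtain ⟨hr0, hrj, hrj'⟩ := hr
  apply free_cc <;> intro l <;>
    simp [FF, hi0, hij, hij', hr0, hrj, hrj']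

/-- the evaluations at which everything outside `P` vanishes -/
def Van (P : Fin (N + 3) → Prop) (A B : Matrix (Fin (N + 3)) (Fin (N + 3)) K) : Prop :=
  BS A ∧ BS B ∧ ∀ i r, ¬ P i → ¬ P r → (A * B - B * A) i r = 0

/-- `f` does not interfere with the block -/
def OK (P : Fin (N + 3) → Prop) (W : Set (V (N + 3))) (f : MvPolynomial (V (N + 3)) K) : Prop :=
  Free W f ∧ ∀ A B, Van P A B → evm A B f = 0

lemma OK.add {P : Fin (N + 3) → Prop} {W : Set (V (N + 3))} {f g : MvPolynomial (V (N + 3)) K}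
    (hf : OK P W f) (hg : OK P W g) : OK P W (f + g) :=
  ⟨hf.1.add hg.1, fun A B h => by rw [map_add, hf.2 A B h, hg.2 A B h, add_zero]⟩

lemma ok_kk {j i r : Fin (N + 3)} (hi : ¬ PP j i) (hr : ¬ PP j r) :
    OK (PP j) (FF j) (kil (K := K) kk (cc K i r)) :=
  ⟨free_FF hi hr, fun A B h => by rw [evm_kk h.1 h.2.1, h.2.2 i r hi hr]⟩

lemma ok_kb {j i r : Fin (N + 3)} (hi : ¬ PP j i) (hr : ¬ PP j r) :
    OK (PP j) (FF j) (kil (K := K) kb (cc K i r)) :=
  ⟨free_FF hi hr, fun A B h => by rw [evm_kb h.1 h.2.1, h.2.2 i r hi hr]⟩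

lemma away_ofList {W : Set (V (N + 3))} {l : List (MvPolynomial (V (N + 3)) K)}
    (h : ∀ f ∈ l, Free W f) : Away W (Ideal.ofList l) :=
  ⟨{f | f ∈ l}, h, rfl⟩

lemma ofList_le_ker {l : List (MvPolynomial (V (N + 3)) K)}
    {A B : Matrix (Fin (N + 3)) (Fin (N + 3)) K} (h : ∀ f ∈ l, evm A B f = 0) :
    Ideal.ofList l ≤ RingHom.ker (evm A B) := Ideal.span_le.2 h

lemma span_le_ker {f : MvPolynomial (V (N + 3)) K}
    {A B : Matrix (Fin (N + 3)) (Fin (N + 3)) K} (h : evm A B f = 0) :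
    Ideal.span {f} ≤ RingHom.ker (evm A B) := by
  rw [Ideal.span_le, Set.singleton_subset_iff]; exact h

lemma notMem_of_evm {I : Ideal (MvPolynomial (V (N + 3)) K)} {f : MvPolynomial (V (N + 3)) K}
    {A B : Matrix (Fin (N + 3)) (Fin (N + 3)) K} (hI : I ≤ RingHom.ker (evm A B))
    (hf : evm A B f ≠ 0) : f ∉ I := fun h => hf (hI h)

lemma good_prime {R : Type*} [CommRing R] [IsDomain R] : ∀ {l : List R}, Good l →
    (Ideal.ofList l).IsPrime
  | [], _ => by rw [Ideal.ofList_nil]; exact Ideal.isPrime_bot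
  | _ :: _, h => h.2.2

/-! ### The linear shape of the base forms -/

/-- the rest of the diagonal form -/
noncomputable def RR (K : Type*) [Field K] (i : Fin (N + 3)) : MvPolynomial (V (N + 3)) K :=
  xx K i 0 * yy K 0 i + ∑ l ∈ Finset.univ.erase (0 : Fin (N + 3)),
    (kil kb (xx K i l) * kil kb (yy K l i) - kil kb (yy K i l) * kil kb (xx K l i))

lemma inner_of_ne {i : Fin (N + 3)} (h0 : i ≠ 0) (hl : i ≠ Fin.last _) : ¬ outer i := by
  rintro (h | h)
  exacts [h0 h, hl h]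

lemma diag_eq {i : Fin (N + 3)} (hi : ¬ outer i) :
    kil kb (cc K i i) = -(xx K 0 i * yy K i 0) + RR K i := by
  have hb1 : bs (i, (0 : Fin (N + 3))) := Or.inr ⟨hi, Or.inl rfl⟩
  have hb2 : bs ((0 : Fin (N + 3)), i) := Or.inl ⟨Or.inl rfl, hi⟩
  simp only [cc, map_sum, map_sub, map_mul]
  rw [← Finset.add_sum_erase _ _ (Finset.mem_univ (0 : Fin (N + 3))), kb_x hb1, kb_y hb2,
    kb_x hb2, kb_y hb1, RR]
  ring

lemma RR_free {i : Fin (N + 3)} (hi : i ≠ 0) :
    Free {Sum.inr (i, 0), Sum.inl (0, i)} (RR K i) := by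
  apply Free.add
  · exact (Free.var (by simp [hi])).mul (Free.var (by simp [hi.symm]))
  · apply Free.sum
    intro l hl
    have hl0 : l ≠ 0 := Finset.ne_of_mem_erase hl
    apply free_term
    · simp [hi]
    · simp [hi]
    · simp [hl0]
    · simp [hl0]

/-- evaluation of the rest at `(E_{i0}, E_{0i})` -/
lemma evm_RR {i : Fin (N + 3)} (hi : ¬ outer i) {A B : Matrix (Fin (N + 3)) (Fin (N + 3)) K}
    (hA : BS A) (hB : BS B) (hA0 : A 0 i = 0) : evm A B (RR K i) = (A * B - B * A) i i := by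
  have h := evm_kb hA hB i i
  rw [diag_eq hi, map_add, map_neg, map_mul, evm_x, hA0, zero_mul, neg_zero, zero_add] at h
  exact h

/-! ### Test matrices -/

/-- the commutator -/
def com {n : ℕ} (A B : Matrix (Fin n) (Fin n) K) : Matrix (Fin n) (Fin n) K := A * B - B * A

open Matrix in
lemma com_vec {n : ℕ} (u p q v : Fin n → K) (i r : Fin n) :
    com (vecMulVec u p) (vecMulVec q v) i r =
      (p ⬝ᵥ q) * (u i * v r) - (v ⬝ᵥ u) * (q i * p r) := by
  rw [com, Matrix.sub_apply, Matrix.vecMulVec_mul_vecMulVec, Matrix.vecMulVec_mul_vecMulVec]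
  simp only [Matrix.vecMulVec_apply, Pi.smul_apply, smul_eq_mul]
  ring

open Matrix in
lemma BS_vec {u p : Fin (N + 3) → K} (h : ∀ i j, u i ≠ 0 → p j ≠ 0 → bs (i, j)) :
    BS (vecMulVec u p) := by
  intro i j hij
  rw [Matrix.vecMulVec_apply]
  by_contra h'
  exact hij (h i j (left_ne_zero_of_mul h') (right_ne_zero_of_mul h'))

/-- basis vectors -/
def ee (K : Type*) [Field K] (i : Fin (N + 3)) : Fin (N + 3) → K := Pi.single i 1

lemma ee_apply (i j : Fin (N + 3)) : ee K i j = if j = i then 1 else 0 := by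
  simp [ee, Pi.single_apply]

open Matrix in
lemma ee_dot (i : Fin (N + 3)) (v : Fin (N + 3) → K) : ee K i ⬝ᵥ v = v i := by
  simp [ee]

lemma ee_ne {i j : Fin (N + 3)} (h : ee K i j ≠ 0) : j = i := by
  by_contra h'
  exact h (by rw [ee_apply, if_neg h'])

lemma not_outer_rev {i : Fin (N + 3)} (h : ¬ outer i) : ¬ outer i.rev := by rwa [outer_rev]

open Matrix in
/-- `(E_{a0}, E_{0b})` -/
lemma testA {a b : Fin (N + 3)} (ha : ¬ outer a) (hb : ¬ outer b) :
    BS (vecMulVec (ee K a) (ee K 0)) ∧ BS (vecMulVec (ee K 0) (ee K b)) ∧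
    (∀ i r : Fin (N + 3), com (vecMulVec (ee K a) (ee K 0)) (vecMulVec (ee K 0) (ee K b)) i r =
        (if i = a ∧ r = b then 1 else 0) - (if a = b ∧ i = 0 ∧ r = 0 then 1 else 0)) ∧
    ∀ x : Fin (N + 3), vecMulVec (ee K a) (ee K (0 : Fin (N + 3))) 0 x = 0 := by
  refine ⟨BS_vec ?_, BS_vec ?_, ?_, ?_⟩
  · intro i j hi hj
    rw [ee_ne hi, ee_ne hj]
    exact Or.inr ⟨ha, Or.inl rfl⟩
  · intro i j hi hj
    rw [ee_ne hi, ee_ne hj]
    exact Or.inl ⟨Or.inl rfl, hb⟩
  · intro i r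
    rw [com_vec, ee_dot, ee_dot, ee_apply, ee_apply, ee_apply, ee_apply, ee_apply, ee_apply]
    by_cases h1 : i = a <;> by_cases h2 : r = b <;> by_cases h3 : i = 0 <;>
      by_cases h4 : r = 0 <;> by_cases h5 : a = b <;> simp_all [eq_comm]
  · intro x
    rw [Matrix.vecMulVec_apply, ee_apply, if_neg, zero_mul]
    rintro rfl
    exact ha (Or.inl rfl)

open Matrix in
/-- a pair with commutator `(e_a - e_b)(e_a + e_b)ᵀ` -/
lemma testB {a b c : Fin (N + 3)} (hab : a ≠ b) (hbs1 : bs (a, c)) (hbs2 : bs (b, c))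
    (hbs3 : bs (c, a)) (hbs4 : bs (c, b)) :
    BS (vecMulVec (ee K a - ee K b) (ee K c)) ∧ BS (vecMulVec (ee K c) (ee K a + ee K b)) ∧
    (∀ i r : Fin (N + 3), com (vecMulVec (ee K a - ee K b) (ee K c)) (vecMulVec (ee K c) (ee K a + ee K b)) i r =
        (ee K a i - ee K b i) * (ee K a r + ee K b r)) := by
  refine ⟨BS_vec ?_, BS_vec ?_, ?_⟩
  · intro i j hi hj
    rw [ee_ne hj]
    rw [Pi.sub_apply] at hi
    by_cases h1 : i = a
    · rw [h1]; exact hbs1
    · by_cases h2 : i = b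
      · rw [h2]; exact hbs2
      · rw [ee_apply, ee_apply, if_neg h1, if_neg h2, sub_zero] at hi
        exact absurd rfl hi
  · intro i j hi hj
    rw [ee_ne hi]
    rw [Pi.add_apply] at hj
    by_cases h1 : j = a
    · rw [h1]; exact hbs3
    · by_cases h2 : j = b
      · rw [h2]; exact hbs4
      · rw [ee_apply, ee_apply, if_neg h1, if_neg h2, add_zero] at hj
        exact absurd rfl hj
  · intro i r
    rw [com_vec, ee_dot, add_dotProduct, ee_dot, ee_dot]
    simp only [Pi.sub_apply, Pi.add_apply, ee_apply, if_true, if_neg hab, if_neg hab.symm]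
    ring

open Matrix in
/-- `(E_{tp}, E_{qt})` with commutator `-E_{qp}` for outer `q ≠ p` -/
lemma testC {t p q : Fin (N + 3)} (ht : ¬ outer t) (hp : outer p) (hq : outer q) (hpq : p ≠ q) :
    BS (vecMulVec (ee K t) (ee K p)) ∧ BS (vecMulVec (ee K q) (ee K t)) ∧
    (∀ i r : Fin (N + 3), com (vecMulVec (ee K t) (ee K p)) (vecMulVec (ee K q) (ee K t)) i r =
        -(if i = q ∧ r = p then 1 else 0)) := by
  refine ⟨BS_vec ?_, BS_vec ?_, ?_⟩
  · intro i j hi hj
    rw [ee_ne hi, ee_ne hj]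
    exact Or.inr ⟨ht, hp⟩
  · intro i j hi hj
    rw [ee_ne hi, ee_ne hj]
    exact Or.inl ⟨hq, ht⟩
  · intro i r
    rw [com_vec, ee_dot, ee_dot, ee_apply, ee_apply, ee_apply, ee_apply, ee_apply, ee_apply]
    by_cases h1 : i = q <;> by_cases h2 : r = p <;> simp_all

end R831.Comm
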