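import Pool.Agent.R831.Comm2

/-!
The steps of the tower for the commutator ideals, continued.
-/

namespace R831.Comm

open MvPolynomial R831.Lin R831.Kill Matrix

variable {K : Type*} [Field K] {N : ℕ}

lemma fresh_neg {σ : Type*} {I : Ideal (MvPolynomial σ K)} {y z : σ} {b : MvPolynomial σ K}
    (hyz : z ≠ y) (hI : Away {y, z} I) (hp : I.IsPrime) (hb : Free {y, z} b) (hbI : b ∉ I) :
    (I ⊔ Ideal.span {-(X z * X y) + b}).IsPrime ∧ -(X z * X y) + b ∉ I := by
  have h := fresh hyz hI hp hb.neg (fun h => hbI (by simpa using I.neg_mem h))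
  have h2 : -(X z * X y) + b = -(X z * X y + -b) := by ring
  rw [h2, Ideal.span_singleton_neg]
  refine ⟨h.1, fun h3 => h.2 ?_⟩
  simpa using I.neg_mem h3

/-- the block variables -/
def BB (j : Fin (N + 3)) : Set (V (N + 3)) :=
  {Sum.inl (j.rev, j), Sum.inr (j, j.rev), Sum.inl (j, j), Sum.inr (j, j)}

lemma free_BB (j : Fin (N + 3)) (f : MvPolynomial (V (N + 3)) K) : Free (BB j) (kil kb f) := by
  apply free_kil_all
  rintro s (rfl | rfl | rfl | rfl)
  · exact not_bs (i := j.rev) (l := j) (Or.inr (Fin.rev_rev j).symm)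
  · exact not_bs (i := j) (l := j.rev) (Or.inr rfl)
  · exact not_bs (i := j) (l := j) (Or.inl rfl)
  · exact not_bs (i := j) (l := j) (Or.inl rfl)

lemma block_step {j : Fin (N + 3)} (hj : j < j.rev) {l : List (MvPolynomial (V (N + 3)) K)}
    (hG : Good l) (hA : Away (BB j) (Ideal.ofList l))
    (hΔ : kil kb (cc K j.rev j.rev) ∉ Ideal.ofList l)
    (hpΔ : (Ideal.ofList l ⊔ Ideal.span {kil kb (cc K j.rev j.rev)}).IsPrime)
    (hb : kil kb (cc K j j.rev) ∉ Ideal.ofList l ⊔ Ideal.span {kil kb (cc K j.rev j.rev)})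
    (hb' : kil kb (cc K j.rev j) ∉ Ideal.ofList l ⊔ Ideal.span {kil kb (cc K j.rev j.rev)} ⊔
      Ideal.span {kil kb (cc K j j.rev)}) :
    Good (kil kk (cc K j.rev j) :: kil kk (cc K j j.rev) :: kil kk (cc K j.rev j.rev) :: l) := by
  have hne : j ≠ j.rev := hj.ne
  have h := block (K := K) (x := Sum.inl (j.rev, j)) (y := Sum.inr (j, j.rev))
    (ξ := Sum.inl (j, j)) (η := Sum.inr (j, j)) (by simp) (by simp [hne.symm]) (by simp) (by simp)
    (by simp [hne.symm]) (by simp) hA (good_prime hG) (free_BB j _) (free_BB j _) (free_BB j _)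
    hΔ hpΔ hb hb'
  obtain ⟨⟨h1, h2⟩, ⟨h3, h4⟩, h5, h6⟩ := h
  have e1 : Ideal.ofList (kil kk (cc K j.rev j.rev) :: l) = Ideal.ofList l ⊔
      Ideal.span {X (Sum.inl (j.rev, j)) * X (Sum.inr (j, j.rev)) +
        kil kb (cc K j.rev j.rev)} := by
    rw [Ideal.ofList_cons, sup_comm, kap1 hj]; rfl
  have e2 : Ideal.ofList (kil kk (cc K j j.rev) :: kil kk (cc K j.rev j.rev) :: l) =
      Ideal.ofList l ⊔ Ideal.span {X (Sum.inl (j.rev, j)) * X (Sum.inr (j, j.rev)) +
        kil kb (cc K j.rev j.rev)} ⊔ Ideal.span {X (Sum.inr (j, j.rev)) * X (Sum.inl (j, j)) +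
        kil kb (cc K j j.rev)} := by
    rw [Ideal.ofList_cons, sup_comm, e1, kap2 hj]; rfl
  have e3 : Ideal.ofList (kil kk (cc K j.rev j) :: kil kk (cc K j j.rev) ::
      kil kk (cc K j.rev j.rev) :: l) =
      Ideal.ofList l ⊔ Ideal.span {X (Sum.inl (j.rev, j)) * X (Sum.inr (j, j.rev)) +
        kil kb (cc K j.rev j.rev)} ⊔ Ideal.span {X (Sum.inr (j, j.rev)) * X (Sum.inl (j, j)) +
        kil kb (cc K j j.rev)} ⊔ Ideal.span {X (Sum.inl (j.rev, j)) * X (Sum.inr (j, j)) +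
        kil kb (cc K j.rev j)} := by
    rw [Ideal.ofList_cons, sup_comm, e2, kap3 hj]; rfl
  refine ⟨⟨⟨hG, ?_, ?_⟩, ?_, ?_⟩, ?_, ?_⟩
  · rw [kap1 hj]; exact h2
  · rw [e1]; exact h1
  · rw [e1, kap2 hj]; exact h4
  · rw [e2]; exact h3
  · rw [e2, kap3 hj]; exact h6
  · rw [e3]; exact h5

section inner
variable {j : Fin (N + 3)} {l : List (MvPolynomial (V (N + 3)) K)}

lemma van_of {P : Fin (N + 3) → Prop} {A B : Matrix (Fin (N + 3)) (Fin (N + 3)) K}
    (hA : BS A) (hB : BS B) (h : ∀ i r : Fin (N + 3), ¬ P i → ¬ P r → com A B i r = 0) :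
    Van P A B := ⟨hA, hB, h⟩

lemma evm_kb' {A B : Matrix (Fin (N + 3)) (Fin (N + 3)) K} (hA : BS A) (hB : BS B)
    (i r : Fin (N + 3)) : evm A B (kil kb (cc K i r)) = com A B i r := evm_kb hA hB i r

/-- the elements of `l` vanish at the test pair `(E_{a0}, E_{0b})`, `a`, `b` in the block of `j` -/
lemma test_ker (hj : ¬ outer j) (hl : ∀ f ∈ l, OK (PP j) (FF j) f) {a b : Fin (N + 3)}
    (ha : a = j ∨ a = j.rev) (hb : b = j ∨ b = j.rev) :
    Ideal.ofList l ≤ RingHom.ker
      (evm (vecMulVec (ee K a) (ee K 0)) (vecMulVec (ee K 0) (ee K b))) := by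
  have ha' : ¬ outer a := by rcases ha with rfl | rfl; exacts [hj, not_outer_rev hj]
  have hb' : ¬ outer b := by rcases hb with rfl | rfl; exacts [hj, not_outer_rev hj]
  obtain ⟨h1, h2, h3, _⟩ := testA (K := K) ha' hb'
  apply ofList_le_ker
  intro f hf
  apply (hl f hf).2
  apply van_of h1 h2
  intro i r hi hr
  simp only [PP, not_or] at hi hr
  rw [h3, if_neg, if_neg, sub_zero]
  · rintro ⟨_, h, _⟩; exact hi.1 h
  · rintro ⟨h, _⟩
    rcases ha with rfl | rfl
    · exact hi.2.1 h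
    · exact hi.2.2 h

/-- adding the base form of a diagonal entry -/
lemma diag_fresh {I : Ideal (MvPolynomial (V (N + 3)) K)} {i : Fin (N + 3)} (hi : ¬ outer i)
    (hA : Away {Sum.inr (i, 0), Sum.inl (0, i)} I) (hp : I.IsPrime)
    (hk : I ≤ RingHom.ker
      (evm (vecMulVec (ee K i) (ee K 0)) (vecMulVec (ee K 0) (ee K i)))) :
    (I ⊔ Ideal.span {kil kb (cc K i i)}).IsPrime ∧ kil kb (cc K i i) ∉ I := by
  obtain ⟨h1, h2, h3, h4⟩ := testA (K := K) hi hi
  have hi0 : i ≠ 0 := fun h => hi (Or.inl h)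
  rw [diag_eq hi]
  apply fresh_neg (by simp) hA hp (RR_free hi0)
  apply notMem_of_evm hk
  rw [evm_RR hi h1 h2 (h4 i)]
  have := h3 i i
  rw [com] at this
  rw [this, if_pos ⟨rfl, rfl⟩, if_neg, sub_zero]
  · exact one_ne_zero
  · rintro ⟨_, h, _⟩; exact hi0 h

lemma mid_step (hj : ¬ outer j) (hjj : j = j.rev) (hG : Good l)
    (hl : ∀ f ∈ l, OK (PP j) (FF j) f) : Good (kil kk (cc K j j) :: l) := by
  rw [kap_mid hjj]
  have hA : Away (FF j) (Ideal.ofList l) := away_ofList (fun f hf => (hl f hf).1)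
  have h := diag_fresh (K := K) hj (hA.mono (by simp [FF, Set.insert_subset_iff])) (good_prime hG)
    (test_ker hj hl (Or.inl rfl) (Or.inl rfl))
  refine ⟨hG, h.2, ?_⟩
  rw [Ideal.ofList_cons, sup_comm]
  exact h.1

lemma ker_sup {I J : Ideal (MvPolynomial (V (N + 3)) K)}
    {A B : Matrix (Fin (N + 3)) (Fin (N + 3)) K}
    (hI : I ≤ RingHom.ker (evm A B)) (hJ : J ≤ RingHom.ker (evm A B)) :
    I ⊔ J ≤ RingHom.ker (evm A B) := sup_le hI hJ

lemma inner_step (hj : ¬ outer j) (hjj : j < j.rev) (hG : Good l)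
    (hl : ∀ f ∈ l, OK (PP j) (FF j) f) :
    Good (kil kk (cc K j.rev j) :: kil kk (cc K j j.rev) :: kil kk (cc K j.rev j.rev) ::
      kil kk (cc K j j + cc K j.rev j.rev) :: l) := by
  have hj' := not_outer_rev hj
  have hne : j ≠ j.rev := hjj.ne
  have hj0 : j ≠ 0 := fun h => hj (Or.inl h)
  have hj0' : j.rev ≠ 0 := fun h => hj' (Or.inl h)
  have hA : Away (FF j) (Ideal.ofList l) := away_ofList (fun f hf => (hl f hf).1)
  have hE : kil kk (cc K j j + cc K j.rev j.rev) =
      -(xx K 0 j * yy K j 0) + (RR K j + kil kb (cc K j.rev j.rev)) := by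
    rw [map_add, kap1 hjj, kap4 hjj, diag_eq hj]
    ring
  have hE' : kil kk (cc K j j + cc K j.rev j.rev) =
      kil kb (cc K j j) + kil kb (cc K j.rev j.rev) := by
    rw [map_add, kap1 hjj, kap4 hjj]
    ring
  have hfr : Free {Sum.inr (j, 0), Sum.inl (0, j)} (kil (K := K) kb (cc K j.rev j.rev)) := by
    apply free_cc <;> intro s <;> simp [hj0', hne.symm]
  -- the first new element
  have hrest : RR K j + kil kb (cc K j.rev j.rev) ∉ Ideal.ofList l := by
    obtain ⟨h1, h2, h3, h4⟩ := testA (K := K) hj hj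
    apply notMem_of_evm (test_ker hj hl (Or.inl rfl) (Or.inl rfl))
    have h5 := h3 j j
    rw [com] at h5
    rw [map_add, evm_RR hj h1 h2 (h4 j), evm_kb' h1 h2, h3, h5, if_pos ⟨rfl, rfl⟩, if_neg, if_neg,
      if_neg]
    · simp
    · rintro ⟨_, h, _⟩; exact hj0' h
    · rintro ⟨h, _⟩; exact hne h.symm
    · rintro ⟨_, h, _⟩; exact hj0 h
  have s1 := fresh_neg (K := K) (z := (Sum.inl (0, j) : V (N + 3))) (y := Sum.inr (j, 0))
    (by simp) (hA.mono (by simp [FF, Set.insert_subset_iff])) (good_prime hG)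
    ((RR_free hj0).add hfr) hrest
  have hG1 : Good (kil kk (cc K j j + cc K j.rev j.rev) :: l) := by
    refine ⟨hG, ?_, ?_⟩
    · rw [hE]; exact s1.2
    · rw [Ideal.ofList_cons, sup_comm, hE]; exact s1.1
  have eI : Ideal.ofList (kil kk (cc K j j + cc K j.rev j.rev) :: l) =
      Ideal.ofList l ⊔ Ideal.span {kil kb (cc K j j) + kil kb (cc K j.rev j.rev)} := by
    rw [Ideal.ofList_cons, sup_comm, hE']
  have hBBsub : BB j ⊆ FF j := by
    simp only [BB, FF]
    intro s hs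
    simp only [Set.mem_insert_iff, Set.mem_singleton_iff] at hs ⊢
    tauto
  -- the ideal with both diagonal forms
  have eI2 : Ideal.ofList (kil kk (cc K j j + cc K j.rev j.rev) :: l) ⊔
      Ideal.span {kil kb (cc K j.rev j.rev)} =
      Ideal.ofList l ⊔ Ideal.span {kil kb (cc K j j)} ⊔ Ideal.span {kil kb (cc K j.rev j.rev)} := by
    rw [eI]
    have := sup_span_right (Ideal.ofList l) 1 (kil kb (cc K j.rev j.rev)) (kil kb (cc K j j))
    rw [one_mul, add_comm (kil kb (cc K j.rev j.rev)) (kil kb (cc K j j))] at this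
    exact this
  have hpr1 := diag_fresh (K := K) hj (hA.mono (by simp [FF, Set.insert_subset_iff]))
    (good_prime hG) (test_ker hj hl (Or.inl rfl) (Or.inl rfl))
  have hpr2 : (Ideal.ofList l ⊔ Ideal.span {kil kb (cc K j j)} ⊔
      Ideal.span {kil kb (cc K j.rev j.rev)}).IsPrime := by
    refine (diag_fresh (K := K) hj' ?_ hpr1.1 ?_).1
    · apply (hA.mono (by simp [FF, Set.insert_subset_iff])).sup
      apply Away.span_singleton
      apply free_cc <;> intro s <;> simp [hj0, hne]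
    · apply ker_sup (test_ker hj hl (Or.inr rfl) (Or.inr rfl))
      apply span_le_ker
      obtain ⟨h1, h2, h3, _⟩ := testA (K := K) hj' hj'
      rw [evm_kb' h1 h2, h3, if_neg, if_neg, sub_zero]
      · rintro ⟨_, h, _⟩; exact hj0 h
      · rintro ⟨h, _⟩; exact hne h
  apply block_step hjj hG1
  · rw [eI]
    apply (hA.mono hBBsub).sup
    exact Away.span_singleton ((free_BB j _).add (free_BB j _))
  · -- `Δ ∉ I`
    rw [eI]
    have hb1 : bs (j.rev, (0 : Fin (N + 3))) := Or.inr ⟨hj', Or.inl rfl⟩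
    have hb2 : bs (j, (0 : Fin (N + 3))) := Or.inr ⟨hj, Or.inl rfl⟩
    have hb3 : bs ((0 : Fin (N + 3)), j.rev) := Or.inl ⟨Or.inl rfl, hj'⟩
    have hb4 : bs ((0 : Fin (N + 3)), j) := Or.inl ⟨Or.inl rfl, hj⟩
    obtain ⟨h1, h2, h3⟩ := testB (K := K) hne.symm hb1 hb2 hb3 hb4
    apply notMem_of_evm (A := vecMulVec (ee K j.rev - ee K j) (ee K 0))
      (B := vecMulVec (ee K 0) (ee K j.rev + ee K j))
    · apply ker_sup
      · apply ofList_le_ker
        intro f hf
        apply (hl f hf).2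
        apply van_of h1 h2
        intro i r hi hr
        simp only [PP, not_or] at hi hr
        rw [h3, ee_apply, ee_apply, if_neg hi.2.1, if_neg hi.2.2, sub_zero, zero_mul]
      · apply span_le_ker
        rw [map_add, evm_kb' h1 h2, evm_kb' h1 h2, h3, h3]
        simp only [ee_apply, if_true, if_neg hne, if_neg hne.symm]
        ring
    · rw [evm_kb' h1 h2, h3]
      simp only [ee_apply, if_true, if_neg hne, if_neg hne.symm]
      simp
  · rw [eI2]; exact hpr2
  · rw [eI2]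
    obtain ⟨h1, h2, h3, _⟩ := testA (K := K) hj hj'
    apply notMem_of_evm (ker_sup (ker_sup (test_ker hj hl (Or.inl rfl) (Or.inr rfl)) ?_) ?_)
    · rw [evm_kb' h1 h2, h3, if_pos ⟨rfl, rfl⟩, if_neg (fun h => hne h.1), sub_zero]
      exact one_ne_zero
    · apply span_le_ker
      rw [evm_kb' h1 h2, h3, if_neg (fun h => hne h.2), if_neg (fun h => hne h.1), sub_zero]
    · apply span_le_ker
      rw [evm_kb' h1 h2, h3, if_neg (fun h => hne.symm h.1), if_neg (fun h => hne h.1), sub_zero]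
  · rw [eI2]
    obtain ⟨h1, h2, h3, _⟩ := testA (K := K) hj' hj
    apply notMem_of_evm (ker_sup (ker_sup (ker_sup
      (test_ker hj hl (Or.inr rfl) (Or.inl rfl)) ?_) ?_) ?_)
    · rw [evm_kb' h1 h2, h3, if_pos ⟨rfl, rfl⟩, if_neg (fun h => hne.symm h.1), sub_zero]
      exact one_ne_zero
    · apply span_le_ker
      rw [evm_kb' h1 h2, h3, if_neg (fun h => hne h.1), if_neg (fun h => hne.symm h.1), sub_zero]
    · apply span_le_ker
      rw [evm_kb' h1 h2, h3, if_neg (fun h => hne.symm h.2), if_neg (fun h => hne.symm h.1),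
        sub_zero]
    · apply span_le_ker
      rw [evm_kb' h1 h2, h3, if_neg (fun h => hne h.1), if_neg (fun h => hne.symm h.1), sub_zero]

end inner

end R831.Comm
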