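import Pool.Agent.R831.Comm3

/-!
The ideals of diagonal and antidiagonal entries of the commutator are prime.
-/

namespace R831.Comm

open MvPolynomial R831.Lin R831.Kill Matrix

variable {K : Type*} [Field K] {N : ℕ}

lemma inner_one : ¬ outer (1 : Fin (N + 3)) := by
  rintro (h | h)
  · simp [Fin.ext_iff] at h
  · simp [Fin.ext_iff, Fin.val_last] at h

lemma outer_zero : outer (0 : Fin (N + 3)) := Or.inl rfl
lemma outer_zero_rev : outer (0 : Fin (N + 3)).rev := (outer_rev 0).2 outer_zero
lemma zero_lt_rev : (0 : Fin (N + 3)) < (0 : Fin (N + 3)).rev := by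
  rw [Fin.lt_def, Fin.val_rev]; simp

lemma outer_iff {i : Fin (N + 3)} : outer i ↔ i = 0 ∨ i = (0 : Fin (N + 3)).rev := by
  simp [outer, Fin.rev_zero]

lemma outer_step {l : List (MvPolynomial (V (N + 3)) K)} (hG : Good l)
    (hl : ∀ f ∈ l, OK outer (BB 0) f)
    (hpΔ : (Ideal.ofList l ⊔
      Ideal.span {kil kb (cc K (0 : Fin (N + 3)).rev (0 : Fin (N + 3)).rev)}).IsPrime) :
    Good (kil kk (cc K (0 : Fin (N + 3)).rev 0) :: kil kk (cc K 0 (0 : Fin (N + 3)).rev) ::
      kil kk (cc K (0 : Fin (N + 3)).rev (0 : Fin (N + 3)).rev) :: l) := by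
  have hne : (0 : Fin (N + 3)) ≠ (0 : Fin (N + 3)).rev := zero_lt_rev.ne
  have ht : ¬ outer (1 : Fin (N + 3)) := inner_one
  have hA : Away (BB 0) (Ideal.ofList l) := away_ofList (fun f hf => (hl f hf).1)
  have o0 : outer (0 : Fin (N + 3)) := outer_zero
  have o1 : outer (0 : Fin (N + 3)).rev := outer_zero_rev
  apply block_step zero_lt_rev hG hA
  · obtain ⟨h1, h2, h3⟩ := testB (K := K) hne.symm (c := 1) (Or.inl ⟨o1, ht⟩) (Or.inl ⟨o0, ht⟩)
      (Or.inr ⟨ht, o1⟩) (Or.inr ⟨ht, o0⟩)
    apply notMem_of_evm (A := vecMulVec (ee K (0 : Fin (N + 3)).rev - ee K 0) (ee K 1))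
      (B := vecMulVec (ee K 1) (ee K (0 : Fin (N + 3)).rev + ee K 0))
    · apply ofList_le_ker
      intro f hf
      apply (hl f hf).2
      apply van_of h1 h2
      intro i r hi hr
      rw [outer_iff, not_or] at hi hr
      rw [h3, ee_apply, ee_apply, if_neg hi.1, if_neg hi.2, sub_zero, zero_mul]
    · rw [evm_kb' h1 h2, h3]
      simp only [ee_apply, if_true, if_neg hne.symm]
      simp
  · exact hpΔ
  · obtain ⟨h1, h2, h3⟩ := testC (K := K) ht o1 o0 hne.symm
    apply notMem_of_evm (ker_sup (ofList_le_ker (A := vecMulVec (ee K 1) (ee K (0 : Fin (N + 3)).rev))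
      (B := vecMulVec (ee K 0) (ee K 1)) ?_) ?_)
    · rw [evm_kb' h1 h2, h3, if_pos ⟨rfl, rfl⟩]
      simp
    · intro f hf
      apply (hl f hf).2
      apply van_of h1 h2
      intro i r hi hr
      rw [outer_iff, not_or] at hi hr
      rw [h3, if_neg (fun h => hi.1 h.1), neg_zero]
    · apply span_le_ker
      rw [evm_kb' h1 h2, h3, if_neg (fun h => hne.symm h.1), neg_zero]
  · obtain ⟨h1, h2, h3⟩ := testC (K := K) ht o0 o1 hne
    apply notMem_of_evm (ker_sup (ker_sup (ofList_le_ker (A := vecMulVec (ee K 1) (ee K 0))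
      (B := vecMulVec (ee K (0 : Fin (N + 3)).rev) (ee K 1)) ?_) ?_) ?_)
    · rw [evm_kb' h1 h2, h3, if_pos ⟨rfl, rfl⟩]
      simp
    · intro f hf
      apply (hl f hf).2
      apply van_of h1 h2
      intro i r hi hr
      rw [outer_iff, not_or] at hi hr
      rw [h3, if_neg (fun h => hi.2 h.1), neg_zero]
    · apply span_le_ker
      rw [evm_kb' h1 h2, h3, if_neg (fun h => hne.symm h.2), neg_zero]
    · apply span_le_ker
      rw [evm_kb' h1 h2, h3, if_neg (fun h => hne h.1), neg_zero]

/-- the elements of a block -/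
noncomputable def blk (K : Type*) [Field K] (j : Fin (N + 3)) :
    List (MvPolynomial (V (N + 3)) K) :=
  [cc K j.rev j, cc K j j.rev, cc K j.rev j.rev, cc K j j + cc K j.rev j.rev]

lemma blk_ok {i j : Fin (N + 3)} (h : ¬ PP j i) (h' : ¬ PP j i.rev) :
    ∀ f ∈ (blk K i).map (kil kk), OK (PP j) (FF j) f := by
  intro f hf
  simp only [blk, List.map_cons, List.map_nil, List.mem_cons, List.not_mem_nil, or_false] at hf
  rcases hf with rfl | rfl | rfl | rfl
  · exact ok_kk h' h
  · exact ok_kk h h'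
  · exact ok_kk h' h'
  · rw [map_add]; exact (ok_kk h h).add (ok_kk h' h')

lemma not_PP {i j : Fin (N + 3)} (hi : ¬ outer i) (h1 : i ≠ j) (h2 : i ≠ j.rev) : ¬ PP j i := by
  rintro (h | h | h)
  exacts [hi (Or.inl h), h1 h, h2 h]

lemma mids_good : ∀ (Ms : List (Fin (N + 3))), Ms.Nodup → (∀ m ∈ Ms, ¬ outer m ∧ m = m.rev) →
    ∀ {l0 : List (MvPolynomial (V (N + 3)) K)}, Good l0 →
    (∀ m ∈ Ms, ∀ f ∈ l0, OK (PP m) (FF m) f) →
    Good ((Ms.map (fun m => cc K m m)).map (kil kk) ++ l0) := by
  intro Ms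
  induction Ms with
  | nil => intro _ _ l0 h _; simpa using h
  | cons m Ms ih =>
    intro hnd hM l0 hl0 hok
    rw [List.nodup_cons] at hnd
    have h1 := ih hnd.2 (fun m' hm' => hM m' (List.mem_cons_of_mem _ hm')) hl0
      (fun m' hm' => hok m' (List.mem_cons_of_mem _ hm'))
    have h2 := hM m List.mem_cons_self
    simp only [List.map_cons, List.cons_append]
    apply mid_step h2.1 h2.2 h1
    intro f hf
    rw [List.mem_append] at hf
    rcases hf with hf | hf
    · simp only [List.map_map, List.mem_map, Function.comp_apply] at hf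
      obtain ⟨m', hm', rfl⟩ := hf
      have h3 := hM m' (List.mem_cons_of_mem _ hm')
      have h4 : m' ≠ m := fun h => hnd.1 (h ▸ hm')
      have h5 : ¬ PP m m' := not_PP h3.1 h4 (h2.2 ▸ h4)
      exact ok_kk h5 h5
    · exact hok m List.mem_cons_self f hf

lemma inner_good : ∀ (Js : List (Fin (N + 3))), Js.Nodup → (∀ j ∈ Js, ¬ outer j ∧ j < j.rev) →
    ∀ {l0 : List (MvPolynomial (V (N + 3)) K)}, Good l0 →
    (∀ j ∈ Js, ∀ f ∈ l0, OK (PP j) (FF j) f) →
    Good ((Js.flatMap (blk K)).map (kil kk) ++ l0) := by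
  intro Js
  induction Js with
  | nil => intro _ _ l0 h _; simpa using h
  | cons j Js ih =>
    intro hnd hJ l0 hl0 hok
    rw [List.nodup_cons] at hnd
    have h1 := ih hnd.2 (fun m' hm' => hJ m' (List.mem_cons_of_mem _ hm')) hl0
      (fun m' hm' => hok m' (List.mem_cons_of_mem _ hm'))
    have h2 := hJ j List.mem_cons_self
    have h3 : ((j :: Js).flatMap (blk K)).map (kil kk) ++ l0 =
        kil kk (cc K j.rev j) :: kil kk (cc K j j.rev) :: kil kk (cc K j.rev j.rev) ::
        kil kk (cc K j j + cc K j.rev j.rev) :: ((Js.flatMap (blk K)).map (kil kk) ++ l0) := by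
      simp [blk]
    rw [h3]
    apply inner_step h2.1 h2.2 h1
    intro f hf
    rw [List.mem_append] at hf
    rcases hf with hf | hf
    · rw [List.map_flatMap, List.mem_flatMap] at hf
      obtain ⟨i, hi, hf⟩ := hf
      have h4 := hJ i (List.mem_cons_of_mem _ hi)
      have h5 : i ≠ j := fun h => hnd.1 (h ▸ hi)
      have h6 : i ≠ j.rev := by
        rintro rfl
        have := h4.2
        rw [Fin.rev_rev] at this
        exact absurd h2.2 (not_lt.2 this.le)
      have h7 : ¬ PP j i := not_PP h4.1 h5 h6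
      have h8 : ¬ PP j i.rev := not_PP (not_outer_rev h4.1)
        (fun h => h6 (by rw [← h, Fin.rev_rev])) (fun h => h5 (Fin.rev_injective h))
      exact blk_ok h7 h8 f hf
    · exact hok j List.mem_cons_self f hf

/-- inner block representatives -/
def inn (N : ℕ) : List (Fin (N + 3)) := (List.finRange (N + 3)).filter (fun j => j ≠ 0 ∧ j < j.rev)
/-- fixed points of the reversal -/
def mids (N : ℕ) : List (Fin (N + 3)) := (List.finRange (N + 3)).filter (fun j => j = j.rev)

lemma mem_inn {j : Fin (N + 3)} : j ∈ inn N ↔ j ≠ 0 ∧ j < j.rev := by simp [inn]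
lemma mem_mids {j : Fin (N + 3)} : j ∈ mids N ↔ j = j.rev := by simp [mids]

lemma inn_inner {j : Fin (N + 3)} (h : j ∈ inn N) : ¬ outer j ∧ j < j.rev := by
  rw [mem_inn] at h
  refine ⟨?_, h.2⟩
  rintro (h1 | h1)
  · exact h.1 h1
  · have h2 := h.2
    rw [h1, Fin.rev_last] at h2
    exact absurd h2 (Fin.not_lt_zero _)

lemma mids_inner {j : Fin (N + 3)} (h : j ∈ mids N) : ¬ outer j ∧ j = j.rev := by
  rw [mem_mids] at h
  refine ⟨?_, h⟩
  rintro (h1 | h1)
  · rw [h1] at h; exact zero_lt_rev.ne h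
  · rw [h1, Fin.rev_last] at h
    have := zero_lt_rev (N := N)
    rw [Fin.rev_zero, h] at this
    exact absurd this (lt_irrefl _)

lemma inn_nodup : (inn N).Nodup := (List.nodup_finRange _).filter _
lemma mids_nodup : (mids N).Nodup := (List.nodup_finRange _).filter _

/-- the inner list -/
noncomputable def LI (K : Type*) [Field K] (N : ℕ) : List (MvPolynomial (V (N + 3)) K) :=
  (inn N).flatMap (blk K) ++ (mids N).map (fun m => cc K m m)

lemma LI_good {l0 : List (MvPolynomial (V (N + 3)) K)} (hl0 : Good l0)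
    (hok : ∀ j, ¬ outer j → ∀ f ∈ l0, OK (PP j) (FF j) f) :
    Good ((LI K N).map (kil kk) ++ l0) := by
  rw [LI, List.map_append, List.append_assoc]
  apply inner_good _ inn_nodup (fun j hj => inn_inner hj)
  · exact mids_good _ mids_nodup (fun j hj => mids_inner hj) hl0
      (fun m hm => hok m (mids_inner hm).1)
  · intro j hj f hf
    rw [List.mem_append] at hf
    rcases hf with hf | hf
    · simp only [List.map_map, List.mem_map, Function.comp_apply] at hf
      obtain ⟨m', hm', rfl⟩ := hf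
      have h3 := mids_inner hm'
      have h4 := inn_inner hj
      have h5 : m' ≠ j := by
        rintro rfl
        exact h4.2.ne h3.2
      have h6 : m' ≠ j.rev := by
        intro h
        apply h5
        rw [h3.2, h, Fin.rev_rev]
      have h7 : ¬ PP j m' := not_PP h3.1 h5 h6
      exact ok_kk h7 h7
    · exact hok j (inn_inner hj).1 f hf

/-- the last diagonal form -/
lemma last_good : Good [kil kb (cc K (0 : Fin (N + 3)).rev (0 : Fin (N + 3)).rev)] := by
  have hne : (0 : Fin (N + 3)) ≠ (0 : Fin (N + 3)).rev := zero_lt_rev.ne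
  have ht : ¬ outer (1 : Fin (N + 3)) := inner_one
  set a := (0 : Fin (N + 3)).rev with ha
  have oa : outer a := outer_zero_rev
  have hta : (1 : Fin (N + 3)) ≠ a := fun h => ht (h ▸ oa)
  have hb1 : bs (a, (1 : Fin (N + 3))) := Or.inl ⟨oa, ht⟩
  have hb2 : bs ((1 : Fin (N + 3)), a) := Or.inr ⟨ht, oa⟩
  obtain ⟨R, hR⟩ : ∃ R, R = -(yy K a 1 * xx K 1 a) +
    ∑ l ∈ Finset.univ.erase (1 : Fin (N + 3)),
      (kil kb (xx K a l) * kil kb (yy K l a) - kil kb (yy K a l) * kil kb (xx K l a)) := ⟨_, rfl⟩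
  have heq : kil kb (cc K a a) = xx K a 1 * yy K 1 a + R := by
    simp only [cc, map_sum, map_sub, map_mul]
    rw [← Finset.add_sum_erase _ _ (Finset.mem_univ (1 : Fin (N + 3))), kb_x hb1, kb_y hb2,
      kb_x hb2, kb_y hb1, hR]
    ring
  have hRf : Free {Sum.inr (1, a), Sum.inl (a, 1)} R := by
    rw [hR]
    apply Free.add
    · apply Free.neg
      exact (Free.var (by simp [hta.symm])).mul (Free.var (by simp [hta]))
    · apply Free.sum
      intro l hl
      have hl0 : l ≠ 1 := Finset.ne_of_mem_erase hl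
      apply free_term
      · simp [hl0]
      · simp [hl0]
      · simp [hta.symm]
      · simp [hta.symm]
  have hR0 : R ∉ (⊥ : Ideal (MvPolynomial (V (N + 3)) K)) := by
    have h1 : BS (vecMulVec (ee K (1 : Fin (N + 3))) (ee K a)) := by
      apply BS_vec
      intro i j hi hj
      rw [ee_ne hi, ee_ne hj]
      exact hb2
    have h2 : BS (vecMulVec (ee K a) (ee K (1 : Fin (N + 3)))) := by
      apply BS_vec
      intro i j hi hj
      rw [ee_ne hi, ee_ne hj]
      exact hb1
    apply notMem_of_evm (A := vecMulVec (ee K (1 : Fin (N + 3))) (ee K a))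
      (B := vecMulVec (ee K a) (ee K (1 : Fin (N + 3)))) bot_le
    have h3 := evm_kb' h1 h2 a a
    rw [heq, map_add, map_mul, evm_x, com_vec, ee_dot, ee_dot] at h3
    have h4 : vecMulVec (ee K (1 : Fin (N + 3))) (ee K a) a 1 = 0 := by
      rw [vecMulVec_apply, ee_apply, if_neg hta.symm, zero_mul]
    rw [h4, zero_mul, zero_add] at h3
    rw [h3]
    simp only [ee_apply, if_true, if_neg hta.symm]
    simp
  have h := fresh (K := K) (I := ⊥) (z := (Sum.inl (a, 1) : V (N + 3))) (y := Sum.inr (1, a))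
    (by simp) Away.bot Ideal.isPrime_bot hRf hR0
  have heq' : kil kb (cc K a a) = X (Sum.inl (a, 1)) * X (Sum.inr (1, a)) + R := heq
  refine ⟨trivial, ?_, ?_⟩
  · rw [Ideal.ofList_nil, heq']; exact h.2
  · rw [Ideal.ofList_cons, Ideal.ofList_nil, sup_comm, heq']; exact h.1

/-- the full list for the ideal of diagonal and antidiagonal entries -/
noncomputable def LT (K : Type*) [Field K] (N : ℕ) : List (MvPolynomial (V (N + 3)) K) :=
  cc K (0 : Fin (N + 3)).rev 0 :: cc K 0 (0 : Fin (N + 3)).rev ::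
    cc K (0 : Fin (N + 3)).rev (0 : Fin (N + 3)).rev :: LI K N

lemma free_BB_kk {i r j : Fin (N + 3)} {k : V (N + 3) → Prop} (hi : i ≠ j) (hi' : i ≠ j.rev)
    (hr : r ≠ j) (hr' : r ≠ j.rev) : Free (BB j) (kil (K := K) k (cc K i r)) := by
  apply free_cc <;> intro l <;> simp [BB, hi, hi', hr, hr']

lemma LI_ok : ∀ f ∈ (LI K N).map (kil kk), OK outer (BB 0) f := by
  have key : ∀ i r : Fin (N + 3), ¬ outer i → ¬ outer r →
      OK outer (BB 0) (kil (K := K) kk (cc K i r)) := by
    intro i r hi hr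
    refine ⟨?_, fun A B h => by rw [evm_kk h.1 h.2.1, h.2.2 i r hi hr]⟩
    rw [outer_iff, not_or] at hi hr
    exact free_BB_kk hi.1 hi.2 hr.1 hr.2
  intro f hf
  rw [LI, List.map_append, List.mem_append] at hf
  rcases hf with hf | hf
  · rw [List.map_flatMap, List.mem_flatMap] at hf
    obtain ⟨i, hi, hf⟩ := hf
    have h4 := (inn_inner hi).1
    have h5 := not_outer_rev h4
    simp only [blk, List.map_cons, List.map_nil, List.mem_cons, List.not_mem_nil, or_false] at hf
    rcases hf with rfl | rfl | rfl | rfl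
    · exact key _ _ h5 h4
    · exact key _ _ h4 h5
    · exact key _ _ h5 h5
    · rw [map_add]; exact (key _ _ h4 h4).add (key _ _ h5 h5)
  · simp only [List.map_map, List.mem_map, Function.comp_apply] at hf
    obtain ⟨m', hm', rfl⟩ := hf
    have h3 := (mids_inner hm').1
    exact key _ _ h3 h3

theorem LT_good : Good ((LT K N).map (kil kk)) := by
  simp only [LT, List.map_cons]
  have h1 := LI_good (K := K) (N := N) (l0 := []) trivial (by simp)
  rw [List.append_nil] at h1
  have h2 := LI_good (K := K) (N := N)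
    (l0 := [kil kb (cc K (0 : Fin (N + 3)).rev (0 : Fin (N + 3)).rev)]) last_good (by
      intro j hj f hf
      rw [List.mem_singleton] at hf
      subst hf
      have h3 : ¬ PP j (0 : Fin (N + 3)).rev := by
        rintro (h | h | h)
        · exact zero_lt_rev.ne h.symm
        · exact hj (h ▸ outer_zero_rev)
        · exact hj (Or.inl (Fin.rev_injective h).symm)
      exact ok_kb h3 h3)
  apply outer_step h1 LI_ok
  have h3 := good_prime h2
  rwa [Ideal.ofList_append, Ideal.ofList_singleton] at h3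

theorem LT_prime : (Ideal.ofList (LT K N)).IsPrime := by
  apply prime_of_good kk _ _ LT_good
  intro f hf
  simp only [LT, LI, List.mem_cons, List.mem_append, List.mem_flatMap, List.mem_map] at hf
  rcases hf with rfl | rfl | rfl | ⟨i, _, hf⟩ | ⟨i, _, rfl⟩
  · exact cc_mem K _ _
  · exact cc_mem K _ _
  · exact cc_mem K _ _
  · simp only [blk, List.mem_cons, List.not_mem_nil, or_false] at hf
    rcases hf with rfl | rfl | rfl | rfl
    · exact cc_mem K _ _
    · exact cc_mem K _ _
    · exact cc_mem K _ _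
    · exact Submodule.add_mem _ (cc_mem K _ _) (cc_mem K _ _)
  · exact cc_mem K _ _

end R831.Comm
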