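import Pool.Agent.R831.Comm4

/-!
The ideal of antidiagonal entries of the commutator is prime; final form of both statements.
-/

namespace R831.Comm

open MvPolynomial R831.Lin R831.Kill Matrix

variable {K : Type*} [Field K] {N : ℕ}

/-- indices of the block of `j` -/
def PJ (j i : Fin (N + 3)) : Prop := i = j ∨ i = j.rev

lemma okj_kk {j i r : Fin (N + 3)} (hi : ¬ PJ j i) (hr : ¬ PJ j r) :
    OK (PJ j) (BB j) (kil (K := K) kk (cc K i r)) := by
  refine ⟨?_, fun A B h => by rw [evm_kk h.1 h.2.1, h.2.2 i r hi hr]⟩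
  simp only [PJ, not_or] at hi hr
  exact free_BB_kk hi.1 hi.2 hr.1 hr.2

/-- test pairs with commutator a nonzero multiple of `E_{a,a'}` -/
lemma testD {a : Fin (N + 3)} (ha : a ≠ a.rev) :
    ∃ (A B : Matrix (Fin (N + 3)) (Fin (N + 3)) K) (c : K), BS A ∧ BS B ∧ c ≠ 0 ∧
      ∀ i r : Fin (N + 3), com A B i r = c * (if i = a ∧ r = a.rev then 1 else 0) := by
  by_cases ho : outer a
  · obtain ⟨h1, h2, h3⟩ := testC (K := K) (inner_one (N := N)) ((outer_rev a).2 ho) ho ha.symm
    refine ⟨_, _, -1, h1, h2, by simp, fun i r => ?_⟩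
    rw [h3]; ring
  · obtain ⟨h1, h2, h3, _⟩ := testA (K := K) ho (not_outer_rev ho)
    refine ⟨_, _, 1, h1, h2, one_ne_zero, fun i r => ?_⟩
    have h4 : ¬ (a = a.rev ∧ i = 0 ∧ r = 0) := fun h => ha h.1
    rw [h3, if_neg h4]
    ring

lemma antidiag_step {j : Fin (N + 3)} (hj : j < j.rev) {l : List (MvPolynomial (V (N + 3)) K)}
    (hG : Good l) (hl : ∀ f ∈ l, OK (PJ j) (BB j) f) :
    Good (kil kk (cc K j.rev j) :: kil kk (cc K j j.rev) :: l) := by
  have hne : j ≠ j.rev := hj.ne
  have hA : Away (BB j) (Ideal.ofList l) := away_ofList (fun f hf => (hl f hf).1)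
  have s1 := fresh (K := K) (I := Ideal.ofList l) (z := (Sum.inr (j, j.rev) : V (N + 3)))
    (y := Sum.inl (j, j)) (b := kil kb (cc K j j.rev)) (by simp)
    (hA.mono (by simp [BB, Set.insert_subset_iff])) (good_prime hG)
    ((free_BB j _).mono (by simp [BB, Set.insert_subset_iff])) (by
      obtain ⟨A, B, c, h1, h2, hc, h3⟩ := testD (K := K) hne
      apply notMem_of_evm (A := A) (B := B)
      · apply ofList_le_ker
        intro f hf
        apply (hl f hf).2
        apply van_of h1 h2
        intro i r hi _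
        rw [h3, if_neg (fun h => hi (Or.inl h.1)), mul_zero]
      · rw [evm_kb' h1 h2, h3, if_pos ⟨rfl, rfl⟩, mul_one]
        exact hc)
  have e1 : kil kk (cc K j j.rev) = X (Sum.inr (j, j.rev)) * X (Sum.inl (j, j)) +
      kil kb (cc K j j.rev) := kap2 hj
  have hG1 : Good (kil kk (cc K j j.rev) :: l) := by
    refine ⟨hG, ?_, ?_⟩
    · rw [e1]; exact s1.2
    · rw [Ideal.ofList_cons, sup_comm, e1]; exact s1.1
  have hfr1 : Free {Sum.inr (j, j), Sum.inl (j.rev, j)} (kil kk (cc K j j.rev)) := by
    rw [e1]
    apply Free.add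
    · exact (Free.var (by simp [hne.symm])).mul (Free.var (by simp [hne]))
    · exact (free_BB j _).mono (by simp [BB, Set.insert_subset_iff])
  have s2 := fresh (K := K) (I := Ideal.ofList (kil kk (cc K j j.rev) :: l))
    (z := (Sum.inl (j.rev, j) : V (N + 3)))
    (y := Sum.inr (j, j)) (b := kil kb (cc K j.rev j)) (by simp)
    (by
      rw [Ideal.ofList_cons]
      exact (Away.span_singleton hfr1).sup (hA.mono (by simp [BB, Set.insert_subset_iff])))
    (good_prime hG1)
    ((free_BB j _).mono (by simp [BB, Set.insert_subset_iff])) (by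
      obtain ⟨A, B, c, h1, h2, hc, h3⟩ := testD (K := K) (a := j.rev)
        (by rw [Fin.rev_rev]; exact hne.symm)
      rw [Fin.rev_rev] at h3
      apply notMem_of_evm (A := A) (B := B)
      · apply ofList_le_ker
        intro f hf
        rcases List.mem_cons.1 hf with rfl | hf
        · have := evm_kk h1 h2 j j.rev
          rw [this]
          have h4 := h3 j j.rev
          rw [com] at h4
          rw [h4, if_neg (fun h => hne h.1), mul_zero]
        · apply (hl f hf).2
          apply van_of h1 h2
          intro i r hi _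
          rw [h3, if_neg (fun h => hi (Or.inr h.1)), mul_zero]
      · rw [evm_kb' h1 h2, h3, if_pos ⟨rfl, rfl⟩, mul_one]
        exact hc)
  have e2 : kil kk (cc K j.rev j) = X (Sum.inl (j.rev, j)) * X (Sum.inr (j, j)) +
      kil kb (cc K j.rev j) := kap3 hj
  refine ⟨hG1, ?_, ?_⟩
  · rw [e2]; exact s2.2
  · rw [Ideal.ofList_cons, sup_comm, e2]; exact s2.1

/-- antidiagonal elements of a block -/
noncomputable def blj (K : Type*) [Field K] (j : Fin (N + 3)) :
    List (MvPolynomial (V (N + 3)) K) := [cc K j.rev j, cc K j j.rev]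

/-- all block representatives -/
def alls (N : ℕ) : List (Fin (N + 3)) := (List.finRange (N + 3)).filter (fun j => j < j.rev)
lemma mem_alls {j : Fin (N + 3)} : j ∈ alls N ↔ j < j.rev := by simp [alls]
lemma alls_nodup : (alls N).Nodup := (List.nodup_finRange _).filter _

lemma alls_good : ∀ (Js : List (Fin (N + 3))), Js.Nodup → (∀ j ∈ Js, j < j.rev) →
    ∀ {l0 : List (MvPolynomial (V (N + 3)) K)}, Good l0 →
    (∀ j ∈ Js, ∀ f ∈ l0, OK (PJ j) (BB j) f) →
    Good ((Js.flatMap (blj K)).map (kil kk) ++ l0) := by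
  intro Js
  induction Js with
  | nil => intro _ _ l0 h _; simpa using h
  | cons j Js ih =>
    intro hnd hJ l0 hl0 hok
    rw [List.nodup_cons] at hnd
    have h1 := ih hnd.2 (fun m' hm' => hJ m' (List.mem_cons_of_mem _ hm')) hl0
      (fun m' hm' => hok m' (List.mem_cons_of_mem _ hm'))
    have h2 := hJ j List.mem_cons_self
    have h3 : ((j :: Js).flatMap (blj K)).map (kil kk) ++ l0 =
        kil kk (cc K j.rev j) :: kil kk (cc K j j.rev) ::
        ((Js.flatMap (blj K)).map (kil kk) ++ l0) := by
      simp [blj]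
    rw [h3]
    apply antidiag_step h2 h1
    intro f hf
    rw [List.mem_append] at hf
    rcases hf with hf | hf
    · rw [List.map_flatMap, List.mem_flatMap] at hf
      obtain ⟨i, hi, hf⟩ := hf
      have h4 := hJ i (List.mem_cons_of_mem _ hi)
      have h5 : i ≠ j := fun h => hnd.1 (h ▸ hi)
      have h6 : i ≠ j.rev := by
        rintro rfl
        rw [Fin.rev_rev] at h4
        exact absurd h2 (not_lt.2 h4.le)
      have h7 : ¬ PJ j i := by rintro (h | h); exacts [h5 h, h6 h]
      have h8 : ¬ PJ j i.rev := by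
        rintro (h | h)
        · exact h6 (by rw [← h, Fin.rev_rev])
        · exact h5 (Fin.rev_injective h)
      simp only [blj, List.map_cons, List.map_nil, List.mem_cons, List.not_mem_nil, or_false] at hf
      rcases hf with rfl | rfl
      · exact okj_kk h8 h7
      · exact okj_kk h7 h8
    · exact hok j List.mem_cons_self f hf

/-- the list for the ideal of antidiagonal entries -/
noncomputable def LJ (K : Type*) [Field K] (N : ℕ) : List (MvPolynomial (V (N + 3)) K) :=
  (alls N).flatMap (blj K) ++ (mids N).map (fun m => cc K m m)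

theorem LJ_good : Good ((LJ K N).map (kil kk)) := by
  rw [LJ, List.map_append]
  apply alls_good _ alls_nodup (fun j hj => mem_alls.1 hj)
  · have := mids_good (K := K) _ (mids_nodup (N := N)) (fun j hj => mids_inner hj) (l0 := [])
      trivial (by simp)
    rwa [List.append_nil] at this
  · intro j hj f hf
    simp only [List.map_map, List.mem_map, Function.comp_apply] at hf
    obtain ⟨m', hm', rfl⟩ := hf
    have h3 := mids_inner hm'
    have h4 := mem_alls.1 hj
    have h5 : m' ≠ j := by
      rintro rfl
      exact h4.ne h3.2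
    have h6 : m' ≠ j.rev := by
      intro h
      apply h5
      rw [h3.2, h, Fin.rev_rev]
    have h7 : ¬ PJ j m' := by rintro (h | h); exacts [h5 h, h6 h]
    exact okj_kk h7 h7

theorem LJ_prime : (Ideal.ofList (LJ K N)).IsPrime := by
  apply prime_of_good kk _ _ LJ_good
  intro f hf
  simp only [LJ, List.mem_append, List.mem_flatMap, List.mem_map] at hf
  rcases hf with ⟨i, _, hf⟩ | ⟨i, _, rfl⟩
  · simp only [blj, List.mem_cons, List.not_mem_nil, or_false] at hf
    rcases hf with rfl | rfl
    · exact cc_mem K _ _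
    · exact cc_mem K _ _
  · exact cc_mem K _ _

/-! ### Final statements -/

lemma LJ_eq : Ideal.ofList (LJ K N) =
    Ideal.span (Set.range fun i : Fin (N + 3) => cc K i i.rev) := by
  apply le_antisymm
  · apply Ideal.span_le.2
    intro f hf
    simp only [Set.mem_ofPred_eq, LJ, List.mem_append, List.mem_flatMap, List.mem_map] at hf
    rcases hf with ⟨i, _, hf⟩ | ⟨i, hi, rfl⟩
    · simp only [blj, List.mem_cons, List.not_mem_nil, or_false] at hf
      rcases hf with rfl | rfl
      · exact Ideal.subset_span ⟨i.rev, by simp⟩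
      · exact Ideal.subset_span ⟨i, rfl⟩
    · refine Ideal.subset_span ⟨i, ?_⟩
      change cc K i i.rev = cc K i i
      rw [← mem_mids.1 hi]
  · apply Ideal.span_le.2
    rintro _ ⟨i, rfl⟩
    apply Ideal.subset_span
    simp only [Set.mem_ofPred_eq, LJ, List.mem_append, List.mem_flatMap, List.mem_map]
    rcases lt_trichotomy i i.rev with h | h | h
    · exact Or.inl ⟨i, mem_alls.2 h, by simp [blj]⟩
    · exact Or.inr ⟨i, mem_mids.2 h, by rw [← h]⟩
    · refine Or.inl ⟨i.rev, mem_alls.2 (by rwa [Fin.rev_rev]), ?_⟩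
      simp [blj]

lemma LT_eq : Ideal.ofList (LT K N) =
    Ideal.span (Set.range fun i : Fin (N + 3) => cc K i i) ⊔
    Ideal.span (Set.range fun i : Fin (N + 3) => cc K i i.rev) := by
  set D := Ideal.span (Set.range fun i : Fin (N + 3) => cc K i i) with hD
  set A := Ideal.span (Set.range fun i : Fin (N + 3) => cc K i i.rev) with hA
  have hd : ∀ i, cc K i i ∈ D ⊔ A := fun i => Ideal.mem_sup_left (Ideal.subset_span ⟨i, rfl⟩)
  have ha : ∀ i : Fin (N + 3), cc K i i.rev ∈ D ⊔ A :=
    fun i => Ideal.mem_sup_right (Ideal.subset_span ⟨i, rfl⟩)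
  have ha' : ∀ i : Fin (N + 3), cc K i.rev i ∈ D ⊔ A := fun i => by
    have := ha i.rev
    rwa [Fin.rev_rev] at this
  apply le_antisymm
  · apply Ideal.span_le.2
    intro f hf
    simp only [Set.mem_ofPred_eq, LT, LI, List.mem_cons, List.mem_append, List.mem_flatMap,
      List.mem_map] at hf
    rcases hf with rfl | rfl | rfl | ⟨i, _, hf⟩ | ⟨i, _, rfl⟩
    · exact ha' 0
    · exact ha 0
    · exact hd _
    · simp only [blk, List.mem_cons, List.not_mem_nil, or_false] at hf
      rcases hf with rfl | rfl | rfl | rfl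
      · exact ha' _
      · exact ha _
      · exact hd _
      · exact Ideal.add_mem _ (hd _) (hd _)
    · exact hd _
  · have key : ∀ f ∈ LT K N, f ∈ Ideal.ofList (LT K N) := fun f hf => Ideal.subset_span hf
    have k1 : ∀ i ∈ inn N, ∀ f ∈ blk K i, f ∈ Ideal.ofList (LT K N) := by
      intro i hi f hf
      apply key
      simp only [LT, LI, List.mem_cons, List.mem_append, List.mem_flatMap]
      exact Or.inr (Or.inr (Or.inr (Or.inl ⟨i, hi, hf⟩)))
    have k2 : ∀ i ∈ mids N, cc K i i ∈ Ideal.ofList (LT K N) := by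
      intro i hi
      apply key
      simp only [LT, LI, List.mem_cons, List.mem_append, List.mem_map]
      exact Or.inr (Or.inr (Or.inr (Or.inr ⟨i, hi, rfl⟩)))
    have kd : ∀ i : Fin (N + 3), i ≠ 0 → cc K i i ∈ Ideal.ofList (LT K N) := by
      intro i hi
      by_cases hl : i = (0 : Fin (N + 3)).rev
      · subst hl
        apply key
        simp [LT]
      · have hir : i.rev ≠ 0 := by
          intro h
          apply hl
          rw [← h, Fin.rev_rev]
        rcases lt_trichotomy i i.rev with h | h | h
        · have hm : i ∈ inn N := mem_inn.2 ⟨hi, h⟩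
          have h1 := k1 i hm (cc K i.rev i.rev) (by simp [blk])
          have h2 := k1 i hm (cc K i i + cc K i.rev i.rev) (by simp [blk])
          have h3 := Ideal.sub_mem _ h2 h1
          rwa [add_sub_cancel_right] at h3
        · exact k2 i (mem_mids.2 h)
        · have hm : i.rev ∈ inn N := mem_inn.2 ⟨hir, by rwa [Fin.rev_rev]⟩
          exact k1 i.rev hm (cc K i i) (by simp [blk])
    apply sup_le
    · apply Ideal.span_le.2
      rintro _ ⟨i, rfl⟩
      by_cases hi : i = 0
      · subst hi
        have h1 : cc K (0 : Fin (N + 3)) 0 = -∑ i ∈ Finset.univ.erase (0 : Fin (N + 3)), cc K i i := by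
          have h2 := trace_zero K (n := N + 3)
          rw [← Finset.add_sum_erase _ _ (Finset.mem_univ (0 : Fin (N + 3)))] at h2
          linear_combination h2
        change cc K (0 : Fin (N + 3)) 0 ∈ Ideal.ofList (LT K N)
        rw [h1]
        apply Ideal.neg_mem_iff _ |>.2
        exact Ideal.sum_mem _ (fun i hi => kd i (Finset.ne_of_mem_erase hi))
      · exact kd i hi
    · apply Ideal.span_le.2
      rintro _ ⟨i, rfl⟩
      by_cases hi : i = 0
      · subst hi
        apply key
        simp [LT]
      by_cases hl : i = (0 : Fin (N + 3)).rev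
      · subst hl
        apply key
        simp only [Fin.rev_rev]
        simp [LT]
      have hir : i.rev ≠ 0 := by
        intro h
        apply hl
        rw [← h, Fin.rev_rev]
      rcases lt_trichotomy i i.rev with h | h | h
      · exact k1 i (mem_inn.2 ⟨hi, h⟩) (cc K i i.rev) (by simp [blk])
      · change cc K i i.rev ∈ Ideal.ofList (LT K N)
        rw [← h]
        exact k2 i (mem_mids.2 h)
      · have hm : i.rev ∈ inn N := mem_inn.2 ⟨hir, by rwa [Fin.rev_rev]⟩
        exact k1 i.rev hm (cc K i i.rev) (by simp [blk])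

end R831.Comm
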