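import Mathlib

/-!
Lifting regular sequences and primeness along a one-parameter graded deformation.
-/

namespace R831.Deform

open MvPolynomial

section abstract
variable {Q : Type*} [CommRing Q]

/-- the ideal generated by `F 0, …, F (j-1)` -/
def idl (F : ℕ → Q) (j : ℕ) : Ideal Q := Ideal.span (F '' Set.Iio j)

lemma idl_zero (F : ℕ → Q) : idl F 0 = ⊥ := by
  simp [idl]

lemma idl_succ (F : ℕ → Q) (j : ℕ) : idl F (j + 1) = idl F j ⊔ Ideal.span {F j} := by
  rw [idl, idl, ← Ideal.span_union]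
  congr 1
  ext x
  simp only [Set.mem_image, Set.mem_Iio, Set.mem_union, Set.mem_singleton_iff]
  constructor
  · rintro ⟨i, hi, rfl⟩
    rcases Nat.lt_succ_iff_lt_or_eq.1 hi with h | h
    · exact Or.inl ⟨i, h, rfl⟩
    · exact Or.inr (by rw [h])
  · rintro (⟨i, hi, rfl⟩ | rfl)
    · exact ⟨i, by omega, rfl⟩
    · exact ⟨j, by omega, rfl⟩

lemma mem_sup_span_singleton {I : Ideal Q} {t x : Q} :
    x ∈ I ⊔ Ideal.span {t} ↔ ∃ i ∈ I, ∃ y, x = i + t * y := by
  rw [Submodule.mem_sup]
  constructor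
  · rintro ⟨i, hi, z, hz, rfl⟩
    obtain ⟨y, rfl⟩ := Ideal.mem_span_singleton.1 hz
    exact ⟨i, hi, y, rfl⟩
  · rintro ⟨i, hi, y, rfl⟩
    exact ⟨i, hi, t * y, Ideal.mem_span_singleton.2 ⟨y, rfl⟩, rfl⟩

lemma mem_idl {F : ℕ → Q} {i j : ℕ} (h : i < j) : F i ∈ idl F j :=
  Ideal.subset_span ⟨i, h, rfl⟩

lemma idl_le {F : ℕ → Q} {j : ℕ} {I : Ideal Q} (h : ∀ i < j, F i ∈ I) : idl F j ≤ I := by
  apply Ideal.span_le.2
  rintro _ ⟨i, hi, rfl⟩
  exact h i hi

lemma t_nzd {t : Q} {F : ℕ → Q} {m : ℕ} (ht : ∀ x, t * x = 0 → x = 0)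
    (hreg : ∀ j < m, ∀ x, F j * x ∈ idl F j ⊔ Ideal.span {t} → x ∈ idl F j ⊔ Ideal.span {t}) :
    ∀ j ≤ m, ∀ x, t * x ∈ idl F j → x ∈ idl F j := by
  intro j
  induction j with
  | zero =>
    intro _ x hx
    rw [idl_zero, Ideal.mem_bot] at hx ⊢
    exact ht x hx
  | succ j ih =>
    intro hj x hx
    rw [idl_succ, mem_sup_span_singleton] at hx
    obtain ⟨i, hi, y, hy⟩ := hx
    have h1 : F j * y ∈ idl F j ⊔ Ideal.span {t} := by
      rw [mem_sup_span_singleton]
      exact ⟨-i, (idl F j).neg_mem hi, x, by rw [hy]; ring⟩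
    obtain ⟨i', hi', y', rfl⟩ := mem_sup_span_singleton.1 (hreg j (by omega) y h1)
    have h2 : t * (x - F j * y') ∈ idl F j := by
      have : t * (x - F j * y') = i + F j * i' := by linear_combination hy
      rw [this]
      exact (idl F j).add_mem hi ((idl F j).mul_mem_left _ hi')
    have h3 := ih (by omega) _ h2
    rw [idl_succ, mem_sup_span_singleton]
    exact ⟨_, h3, y', by ring⟩

lemma mem_pow_of_nzd {t x : Q} {I : Ideal Q} (htI : ∀ x, t * x ∈ I → x ∈ I) {F : Q}
    (hF : ∀ x, F * x ∈ I ⊔ Ideal.span {t} → x ∈ I ⊔ Ideal.span {t}) (hx : F * x ∈ I) :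
    ∀ n, x ∈ I ⊔ Ideal.span {t ^ n} := by
  have htn : ∀ n x, t ^ n * x ∈ I → x ∈ I := by
    intro n
    induction n with
    | zero => intro x hx; simpa using hx
    | succ n ih =>
      intro x hx
      apply ih
      apply htI
      rw [← mul_assoc, ← pow_succ']
      exact hx
  intro n
  induction n with
  | zero =>
    rw [mem_sup_span_singleton]
    exact ⟨0, I.zero_mem, x, by simp⟩
  | succ n ih =>
    obtain ⟨i, hi, y, hy⟩ := mem_sup_span_singleton.1 ih
    have h1 : F * y ∈ I := by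
      apply htn n
      have : t ^ n * (F * y) = F * x - F * i := by rw [hy]; ring
      rw [this]
      exact I.sub_mem hx (I.mul_mem_left _ hi)
    obtain ⟨i', hi', y', hy'⟩ := mem_sup_span_singleton.1
      (hF y (Ideal.mem_sup_left h1))
    rw [mem_sup_span_singleton]
    refine ⟨i + t ^ n * i', I.add_mem hi (I.mul_mem_left _ hi'), y', ?_⟩
    rw [hy, hy']; ring

lemma prime_lift_abs {t : Q} {I : Ideal Q} (htI : ∀ x, t * x ∈ I → x ∈ I)
    (hsep : ∀ x, (∀ n, x ∈ I ⊔ Ideal.span {t ^ n}) → x ∈ I)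
    (hprime : (I ⊔ Ideal.span {t}).IsPrime) : I.IsPrime := by
  have htn : ∀ n x, t ^ n * x ∈ I → x ∈ I := by
    intro n
    induction n with
    | zero => intro x hx; simpa using hx
    | succ n ih =>
      intro x hx
      apply ih
      apply htI
      rw [← mul_assoc, ← pow_succ']
      exact hx
  have key : ∀ x, x ∉ I → ∃ n, ∃ i ∈ I, ∃ y, x = i + t ^ n * y ∧ y ∉ I ⊔ Ideal.span {t} := by
    intro x hx
    have h1 : ∃ n, x ∉ I ⊔ Ideal.span {t ^ n} := by
      by_contra hcon
      push Not at hcon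
      exact hx (hsep x hcon)
    classical
    have h2 := Nat.find_spec h1
    have h3 := fun m => Nat.find_min (m := m) h1
    set N := Nat.find h1 with hN
    rcases Nat.eq_zero_or_pos N with h0 | hpos
    · exfalso
      apply h2
      rw [h0, mem_sup_span_singleton]
      exact ⟨0, I.zero_mem, x, by simp⟩
    · have h4 := h3 (N - 1) (by omega)
      push Not at h4
      obtain ⟨i, hi, y, hy⟩ := mem_sup_span_singleton.1 h4
      refine ⟨N - 1, i, hi, y, hy, ?_⟩
      intro hy'
      obtain ⟨i', hi', y', hy''⟩ := mem_sup_span_singleton.1 hy'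
      apply h2
      rw [mem_sup_span_singleton]
      refine ⟨i + t ^ (N - 1) * i', I.add_mem hi (I.mul_mem_left _ hi'), y', ?_⟩
      have : t ^ N = t ^ (N - 1) * t := by
        rw [← pow_succ]; congr 1; omega
      rw [hy, hy'', this]; ring
  refine ⟨?_, ?_⟩
  · intro h
    apply hprime.ne_top
    rw [h, top_sup_eq]
  · intro x y hxy
    by_contra hcon
    push Not at hcon
    obtain ⟨n, i, hi, x', hx, hx'⟩ := key x hcon.1
    obtain ⟨l, j, hj, y', hy, hy'⟩ := key y hcon.2
    have h1 : t ^ (n + l) * (x' * y') ∈ I := by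
      have : t ^ (n + l) * (x' * y') = x * y - i * y - t ^ n * x' * j := by
        rw [hx, hy]; ring
      rw [this]
      exact I.sub_mem (I.sub_mem hxy (I.mul_mem_right _ hi)) (I.mul_mem_left _ hj)
    have h2 := htn _ _ h1
    rcases hprime.mem_or_mem (Ideal.mem_sup_left h2 : x' * y' ∈ I ⊔ Ideal.span {t}) with h | h
    · exact hx' h
    · exact hy' h

end abstract

section poly
variable {σ : Type*} {K : Type*} [Field K]

/-- the deformation parameter -/
noncomputable abbrev τ : MvPolynomial (Option σ) K := X none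

/-- the inclusion `S → Q = S[t]` -/
noncomputable abbrev ι : MvPolynomial σ K →ₐ[K] MvPolynomial (Option σ) K := rename some

/-- `t ↦ 0` -/
noncomputable def π : MvPolynomial (Option σ) K →ₐ[K] MvPolynomial σ K :=
  aeval (fun o => o.elim 0 X)

/-- `t ↦ 1` -/
noncomputable def ρ : MvPolynomial (Option σ) K →ₐ[K] MvPolynomial σ K :=
  aeval (fun o => o.elim 1 X)

/-- `x_s ↦ t^{w_s} x_s` -/
noncomputable def θ (w : σ → ℕ) : MvPolynomial σ K →ₐ[K] MvPolynomial (Option σ) K :=
  aeval (fun s => τ ^ w s * X (some s))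

lemma π_ι (x : MvPolynomial σ K) : π (ι x) = x := by
  have : (π (σ := σ) (K := K)).comp ι = AlgHom.id K _ := by
    apply MvPolynomial.algHom_ext
    intro s
    simp [π]
  exact congrArg (fun f => f x) this

lemma ρ_ι (x : MvPolynomial σ K) : ρ (ι x) = x := by
  have : (ρ (σ := σ) (K := K)).comp ι = AlgHom.id K _ := by
    apply MvPolynomial.algHom_ext
    intro s
    simp [ρ]
  exact congrArg (fun f => f x) this

lemma ρ_θ (w : σ → ℕ) (x : MvPolynomial σ K) : ρ (θ w x) = x := by
  have : (ρ (σ := σ) (K := K)).comp (θ w) = AlgHom.id K _ := by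
    apply MvPolynomial.algHom_ext
    intro s
    simp [ρ, θ]
  exact congrArg (fun f => f x) this

lemma sub_ι_π (x : MvPolynomial (Option σ) K) : x - ι (π x) ∈ Ideal.span {(τ : MvPolynomial (Option σ) K)} := by
  rw [← Ideal.Quotient.eq]
  have : ((Ideal.Quotient.mkₐ K (Ideal.span {(τ : MvPolynomial (Option σ) K)})).comp
      ((ι (σ := σ) (K := K)).comp π)) =
      Ideal.Quotient.mkₐ K (Ideal.span {(τ : MvPolynomial (Option σ) K)}) := by
    apply MvPolynomial.algHom_ext
    intro s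
    cases s with
    | none =>
      simp only [π, AlgHom.comp_apply, aeval_X, Option.elim, map_zero]
      symm
      exact Ideal.Quotient.eq_zero_iff_mem.2 (Ideal.mem_span_singleton_self _)
    | some s =>
      simp [π]
  exact (congrArg (fun f => f x) this).symm

lemma θ_monomial (w : σ → ℕ) (d : σ →₀ ℕ) (c : K) :
    θ w (monomial d c) = τ ^ (Finsupp.weight w d) * ι (monomial d c) := by
  have h1 : (ι (monomial d c) : MvPolynomial (Option σ) K) =
      C c * d.prod (fun s n => X (some s) ^ n) := by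
    rw [monomial_eq, map_mul, map_finsuppProd]
    simp
  have h2 : θ w (monomial d c) = C c * d.prod (fun s n => (τ ^ w s * X (some s)) ^ n) := by
    rw [θ, aeval_monomial]
    rfl
  rw [h1, h2, Finsupp.weight_apply]
  simp only [mul_pow, Finsupp.prod_mul]
  have h3 : (d.prod fun s n => ((τ : MvPolynomial (Option σ) K) ^ w s) ^ n) =
      τ ^ (d.sum fun i c => c • w i) := by
    rw [Finsupp.sum, ← Finset.prod_pow_eq_pow_sum, Finsupp.prod]
    apply Finset.prod_congr rfl
    intro s _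
    rw [← pow_mul, smul_eq_mul, mul_comm]
  rw [h3]
  ring

lemma θ_eq {w : σ → ℕ} {g : MvPolynomial σ K} {a : ℕ} (hg : IsWeightedHomogeneous w g a) :
    θ w g = τ ^ a * ι g := by
  conv_lhs => rw [as_sum g]
  conv_rhs => rw [as_sum g]
  rw [map_sum, map_sum, Finset.mul_sum]
  apply Finset.sum_congr rfl
  intro d hd
  rw [θ_monomial, hg (mem_support_iff.1 hd)]

/-- the weights on `Q` for which everything is homogeneous -/
def wt (U : ℕ) (w : σ → ℕ) : Option σ → ℕ := fun o => o.elim 1 (fun s => U - w s)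

lemma ι_homog {U : ℕ} {w : σ → ℕ} (hU : ∀ s, w s ≤ U) {g : MvPolynomial σ K} {a b c : ℕ}
    (hg : IsWeightedHomogeneous w g a) (hb : g.IsHomogeneous b) (hc : c + a = U * b) :
    IsWeightedHomogeneous (wt U w) (ι g : MvPolynomial (Option σ) K) c := by
  intro d hd
  obtain ⟨u, rfl, hu⟩ := coeff_rename_ne_zero _ _ _ hd
  have h1 := hg hu
  have h2 := hb hu
  have h3 : Finsupp.weight (wt U w) (Finsupp.mapDomain some u) + Finsupp.weight w u =
      U * Finsupp.weight (1 : σ → ℕ) u := by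
    rw [Finsupp.weight_apply, Finsupp.weight_apply, Finsupp.weight_apply,
      Finsupp.sum_mapDomain_index (by simp) (by intros; simp [add_mul])]
    rw [Finsupp.sum, Finsupp.sum, Finsupp.sum, ← Finset.sum_add_distrib, Finset.mul_sum]
    apply Finset.sum_congr rfl
    intro s _
    have := hU s
    simp only [wt, Option.elim, smul_eq_mul, Pi.one_apply, mul_one]
    rw [← mul_add, Nat.sub_add_cancel this, mul_comm]
  rw [h1, h2] at h3
  omega

lemma le_mul_of_ne_zero {U : ℕ} {w : σ → ℕ} (hU : ∀ s, w s ≤ U) {g : MvPolynomial σ K}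
    (hg0 : g ≠ 0) {a b : ℕ} (hg : IsWeightedHomogeneous w g a) (hb : g.IsHomogeneous b) :
    a ≤ U * b := by
  obtain ⟨d, hd⟩ := ne_zero_iff.1 hg0
  have h1 := hg hd
  have h2 := hb hd
  rw [← h1, ← h2, Finsupp.weight_apply, Finsupp.weight_apply, Finsupp.sum, Finsupp.sum,
    Finset.mul_sum]
  apply Finset.sum_le_sum
  intro s _
  simp only [smul_eq_mul, Pi.one_apply, mul_one]
  rw [mul_comm]
  exact Nat.mul_le_mul_right _ (hU s)

/-- the deformed equations -/
noncomputable def FF (g h : ℕ → MvPolynomial σ K) (e : ℕ → ℕ) (i : ℕ) :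
    MvPolynomial (Option σ) K := ι (g i) + τ ^ (e i + 1) * ι (h i)

lemma isWeightedHomogeneous_τ_pow (U : ℕ) (w : σ → ℕ) (n : ℕ) :
    IsWeightedHomogeneous (wt U w) (τ ^ n : MvPolynomial (Option σ) K) n := by
  have := (isWeightedHomogeneous_X K (wt U w) (none : Option σ)).pow n
  simpa [wt] using this

lemma FF_homog {U : ℕ} {w : σ → ℕ} (hU : ∀ s, w s ≤ U) {g h : ℕ → MvPolynomial σ K}
    {a b e : ℕ → ℕ} (hg : ∀ i, IsWeightedHomogeneous w (g i) (a i))
    (hh : ∀ i, IsWeightedHomogeneous w (h i) (a i + (e i + 1)))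
    (hgb : ∀ i, (g i).IsHomogeneous (b i)) (hhb : ∀ i, (h i).IsHomogeneous (b i)) (i : ℕ) :
    ∃ c, IsWeightedHomogeneous (wt U w) (FF g h e i) c := by
  by_cases hh0 : h i = 0
  · by_cases hg0 : g i = 0
    · exact ⟨0, by simp [FF, hg0, hh0, isWeightedHomogeneous_zero]⟩
    · have h1 := le_mul_of_ne_zero hU hg0 (hg i) (hgb i)
      refine ⟨U * b i - a i, ?_⟩
      have h2 := ι_homog hU (hg i) (hgb i) (c := U * b i - a i) (by omega)
      simpa [FF, hh0] using h2
  · have h1 := le_mul_of_ne_zero hU hh0 (hh i) (hhb i)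
    refine ⟨U * b i - a i, ?_⟩
    have h2 := ι_homog hU (hg i) (hgb i) (c := U * b i - a i) (by omega)
    have h3 := ι_homog hU (hh i) (hhb i) (c := U * b i - (a i + (e i + 1))) (by omega)
    have h4 := (isWeightedHomogeneous_τ_pow (K := K) U w (e i + 1)).mul h3
    have h5 : e i + 1 + (U * b i - (a i + (e i + 1))) = U * b i - a i := by omega
    rw [h5] at h4
    exact h2.add h4

attribute [local instance] MvPolynomial.weightedGradedAlgebra

lemma idl_homog {U : ℕ} {w : σ → ℕ} {F : ℕ → MvPolynomial (Option σ) K}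
    (hF : ∀ i, ∃ c, IsWeightedHomogeneous (wt U w) (F i) c) (j : ℕ) :
    (idl F j).IsHomogeneous (weightedHomogeneousSubmodule K (wt U w)) := by
  apply Ideal.homogeneous_span
  rintro _ ⟨i, _, rfl⟩
  obtain ⟨c, hc⟩ := hF i
  exact ⟨c, hc⟩

lemma sep {U : ℕ} {w : σ → ℕ} {I : Ideal (MvPolynomial (Option σ) K)}
    (hI : I.IsHomogeneous (weightedHomogeneousSubmodule K (wt U w)))
    (x : MvPolynomial (Option σ) K) (hx : ∀ n, x ∈ I ⊔ Ideal.span {τ ^ n}) : x ∈ I := by
  rw [mem_iff_weightedHomogeneousComponent_mem K _ hI]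
  intro k
  obtain ⟨i, hi, y, rfl⟩ := mem_sup_span_singleton.1 (hx (k + 1))
  have h1 : weightedHomogeneousComponent (wt U w) k (τ ^ (k + 1) * y) = 0 := by
    apply weightedHomogeneousComponent_eq_zero'
    intro d hd
    rw [mem_support_iff, X_pow_eq_monomial, coeff_monomial_mul'] at hd
    split_ifs at hd with h2
    · have h3 : d = Finsupp.single none (k + 1) + (d - Finsupp.single none (k + 1)) := by
        rw [add_tsub_cancel_of_le h2]
      rw [h3, map_add, Finsupp.weight_single]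
      simp only [wt, Option.elim, smul_eq_mul, mul_one]
      omega
    · exact absurd rfl hd
  rw [map_add, h1, add_zero]
  exact weightedHomogeneousComponent_mem_of_mem K _ hI hi k

lemma mem_sup_τ_iff {g h : ℕ → MvPolynomial σ K} {e : ℕ → ℕ} {j : ℕ}
    {x : MvPolynomial (Option σ) K} :
    x ∈ idl (FF g h e) j ⊔ Ideal.span {τ} ↔ π x ∈ idl g j := by
  constructor
  · intro hx
    have h1 : idl (FF g h e) j ⊔ Ideal.span {τ} ≤ (idl g j).comap (π (σ := σ) (K := K)) := by
      apply sup_le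
      · apply idl_le
        intro i hi
        rw [Ideal.mem_comap]
        have : π (FF g h e i) = g i := by
          rw [FF, map_add, map_mul, map_pow, π_ι, π_ι]
          simp [π]
        rw [this]
        exact mem_idl hi
      · rw [Ideal.span_singleton_le_iff_mem, Ideal.mem_comap]
        simp [π]
    exact h1 hx
  · intro hx
    have h1 : idl g j ≤ (idl (FF g h e) j ⊔ Ideal.span {τ}).comap (ι (σ := σ) (K := K)) := by
      apply idl_le
      intro i hi
      rw [Ideal.mem_comap, mem_sup_span_singleton]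
      exact ⟨FF g h e i, mem_idl hi, -(τ ^ (e i)) * ι (h i), by rw [FF, pow_succ]; ring⟩
    have h2 := h1 hx
    rw [Ideal.mem_comap] at h2
    have h3 := Ideal.mem_sup_right (S := idl (FF g h e) j) (sub_ι_π x)
    have := Ideal.add_mem _ h2 h3
    simpa using this

lemma idl_comap {g h : ℕ → MvPolynomial σ K} {w : σ → ℕ} {a e : ℕ → ℕ}
    (hg : ∀ i, IsWeightedHomogeneous w (g i) (a i))
    (hh : ∀ i, IsWeightedHomogeneous w (h i) (a i + (e i + 1))) (j : ℕ) :
    idl (fun i => g i + h i) j = (idl (FF g h e) j).comap (θ (K := K) w) := by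
  apply le_antisymm
  · apply idl_le
    intro i hi
    rw [Ideal.mem_comap]
    have : θ w (g i + h i) = τ ^ (a i) * FF g h e i := by
      rw [map_add, θ_eq (hg i), θ_eq (hh i), FF, pow_add]; ring
    rw [this]
    exact Ideal.mul_mem_left _ _ (mem_idl hi)
  · intro x hx
    rw [Ideal.mem_comap] at hx
    have h1 : idl (FF g h e) j ≤ (idl (fun i => g i + h i) j).comap (ρ (σ := σ) (K := K)) := by
      apply idl_le
      intro i hi
      rw [Ideal.mem_comap]
      have : ρ (FF g h e i) = g i + h i := by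
        rw [FF, map_add, map_mul, map_pow, ρ_ι, ρ_ι]
        simp [ρ]
      rw [this]
      exact mem_idl (F := fun i => g i + h i) hi
    have h2 := h1 hx
    rwa [Ideal.mem_comap, ρ_θ] at h2

/-- data of a deformation `f_i = g_i + h_i` with `g_i` the initial form -/
structure Data (g h : ℕ → MvPolynomial σ K) where
  w : σ → ℕ
  a : ℕ → ℕ
  b : ℕ → ℕ
  e : ℕ → ℕ
  hg : ∀ i, IsWeightedHomogeneous w (g i) (a i)
  hh : ∀ i, IsWeightedHomogeneous w (h i) (a i + (e i + 1))
  hgb : ∀ i, (g i).IsHomogeneous (b i)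
  hhb : ∀ i, (h i).IsHomogeneous (b i)

section main
variable [Finite σ] {g h : ℕ → MvPolynomial σ K} {m : ℕ}

omit [Finite σ] in
lemma exists_U [Finite σ] (w : σ → ℕ) : ∃ U, ∀ s, w s ≤ U := by
  have := Fintype.ofFinite σ
  exact ⟨∑ s, w s, fun s => Finset.single_le_sum (fun _ _ => Nat.zero_le _) (Finset.mem_univ s)⟩

omit [Finite σ] in
lemma π_FF (e : ℕ → ℕ) (i : ℕ) : π (FF g h e i) = g i := by
  rw [FF, map_add, map_mul, map_pow, π_ι, π_ι]
  simp [π]

omit [Finite σ] in
lemma τ_nzd_FF (D : Data g h) (hreg : ∀ j < m, ∀ x, g j * x ∈ idl g j → x ∈ idl g j) :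
    ∀ j ≤ m, ∀ x, (τ : MvPolynomial (Option σ) K) * x ∈ idl (FF g h D.e) j →
      x ∈ idl (FF g h D.e) j := by
  apply t_nzd
  · intro x hx
    rcases mul_eq_zero.1 hx with h | h
    · exact absurd h (X_ne_zero _)
    · exact h
  · intro j hj x hx
    rw [mem_sup_τ_iff] at hx ⊢
    rw [map_mul, π_FF] at hx
    exact hreg j hj _ hx

lemma reg_FF (D : Data g h) (hreg : ∀ j < m, ∀ x, g j * x ∈ idl g j → x ∈ idl g j) :
    ∀ j < m, ∀ x, FF g h D.e j * x ∈ idl (FF g h D.e) j → x ∈ idl (FF g h D.e) j := by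
  obtain ⟨U, hU⟩ := exists_U D.w
  intro j hj x hx
  apply sep (idl_homog (FF_homog hU D.hg D.hh D.hgb D.hhb) j)
  apply mem_pow_of_nzd (τ_nzd_FF D hreg j hj.le) _ hx
  intro y hy
  rw [mem_sup_τ_iff] at hy ⊢
  rw [map_mul, π_FF] at hy
  exact hreg j hj _ hy

omit [Finite σ] in
lemma τ_pow_FF (D : Data g h) (hreg : ∀ j < m, ∀ x, g j * x ∈ idl g j → x ∈ idl g j) {j : ℕ} (hj : j ≤ m)
    (n : ℕ) (x : MvPolynomial (Option σ) K) (hx : τ ^ n * x ∈ idl (FF g h D.e) j) :
      x ∈ idl (FF g h D.e) j := by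
  induction n with
  | zero => simpa using hx
  | succ n ih =>
    apply ih
    apply τ_nzd_FF D hreg j hj
    rw [← mul_assoc, ← pow_succ']
    exact hx

/-- If the initial forms `g_j` are a regular sequence, so are the `g_j + h_j`. -/
theorem reg_lift (D : Data g h) (hreg : ∀ j < m, ∀ x, g j * x ∈ idl g j → x ∈ idl g j) :
    ∀ j < m, ∀ x, (g j + h j) * x ∈ idl (fun i => g i + h i) j →
      x ∈ idl (fun i => g i + h i) j := by
  intro j hj x hx
  rw [idl_comap D.hg D.hh, Ideal.mem_comap] at hx ⊢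
  apply reg_FF D hreg j hj
  apply τ_pow_FF D hreg hj.le (D.a j)
  have : τ ^ D.a j * (FF g h D.e j * θ D.w x) = θ D.w ((g j + h j) * x) := by
    rw [map_mul, map_add, θ_eq (D.hg j), θ_eq (D.hh j), FF, pow_add]; ring
  rw [this]
  exact hx

/-- If the initial forms `g_j` are a regular sequence and generate a prime ideal, the same holds
for the `g_j + h_j`. -/
theorem prime_lift (D : Data g h) (hreg : ∀ j < m, ∀ x, g j * x ∈ idl g j → x ∈ idl g j)
    (hprime : (idl g m).IsPrime) : (idl (fun i => g i + h i) m).IsPrime := by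
  obtain ⟨U, hU⟩ := exists_U D.w
  rw [idl_comap D.hg D.hh]
  have h1 : (idl (FF g h D.e) m).IsPrime := by
    apply prime_lift_abs (t := τ) (τ_nzd_FF D hreg m le_rfl)
      (sep (idl_homog (FF_homog hU D.hg D.hh D.hgb D.hhb) m))
    have h2 : idl (FF g h D.e) m ⊔ Ideal.span {τ} = (idl g m).comap (π (σ := σ) (K := K)) := by
      ext x
      rw [mem_sup_τ_iff, Ideal.mem_comap]
    rw [h2]
    exact Ideal.IsPrime.comap _
  exact Ideal.IsPrime.comap _

end main

end poly

end R831.Deform
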