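import Mathlib

/-!
A criterion for the existence of embedded primes.
-/

namespace R831.Embed

/-- If `r g ∈ I`, no `s^k g` is in `I`, and no prime `Q ⊇ I` with `s ∉ Q`, `r ∈ Q` is minimal over
`I`, then `S/I` has an embedded associated prime. -/
theorem exists_embedded {S : Type*} [CommRing S] [IsNoetherianRing S] (I : Ideal S) (s g r : S)
    (hg : ∀ k, s ^ k * g ∉ I) (hr : r * g ∈ I)
    (hmin : ∀ Q : Ideal S, Q.IsPrime → I ≤ Q → s ∉ Q → r ∈ Q →
      ∃ Q' : Ideal S, Q'.IsPrime ∧ I ≤ Q' ∧ Q' < Q) :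
    ∃ P ∈ associatedPrimes S (S ⧸ I), ∃ Q ∈ associatedPrimes S (S ⧸ I), Q ∈ I.minimalPrimes ∧
      Q < P := by
  -- the chain of annihilators stabilises
  let J : ℕ →o Ideal S :=
    { toFun := fun k => Submodule.comap (LinearMap.mulLeft S (s ^ k * g)) I
      monotone' := by
        apply monotone_nat_of_le_succ
        intro k y hy
        simp only [Submodule.mem_comap, LinearMap.mulLeft_apply] at hy ⊢
        have : s ^ (k + 1) * g * y = s * (s ^ k * g * y) := by ring
        rw [this]
        exact I.mul_mem_left _ hy }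
  obtain ⟨n, hn⟩ := monotone_stabilizes_iff_noetherian.2 (inferInstance : IsNoetherian S S) J
  have hJ : ∀ y, s ^ (n + 1) * g * y ∈ I → s ^ n * g * y ∈ I := by
    intro y hy
    have h1 : y ∈ J (n + 1) := hy
    rw [← hn (n + 1) (Nat.le_succ n)] at h1
    exact h1
  let x : S ⧸ I := Ideal.Quotient.mk I (s ^ n * g)
  have hx : x ≠ 0 := by
    intro h
    exact hg n (Ideal.Quotient.eq_zero_iff_mem.1 h)
  let N : Submodule S (S ⧸ I) := Submodule.span S {x}
  have hx' : (⟨x, Submodule.mem_span_singleton_self x⟩ : N) ≠ 0 := by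
    intro h
    exact hx (congrArg Subtype.val h)
  obtain ⟨P, hP, -⟩ := exists_le_isAssociatedPrime_of_isNoetherianRing S _ hx'
  have hPass : P ∈ associatedPrimes S (S ⧸ I) :=
    hP.map_of_injective N.subtype N.injective_subtype
  have hPprime : P.IsPrime := hP.isPrime
  obtain ⟨-, z, hz⟩ := isAssociatedPrime_iff.1 hP
  obtain ⟨y, hy⟩ := Submodule.mem_span_singleton.1 z.2
  have hmem : ∀ a : S, a ∈ P ↔ s ^ n * g * (a * y) ∈ I := by
    intro a
    rw [hz, Submodule.mem_colon_singleton, Submodule.mem_bot]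
    have h1 : a • z = 0 ↔ (a • z : N).1 = 0 := by
      rw [← Submodule.coe_eq_zero]
    rw [h1, Submodule.coe_smul, ← hy, smul_smul]
    have h2 : (a * y) • x = Ideal.Quotient.mk I (s ^ n * g * (a * y)) := by
      rw [mul_comm (s ^ n * g)]
      rfl
    rw [h2, Ideal.Quotient.eq_zero_iff_mem]
  have hI : I ≤ P := by
    intro a ha
    rw [hmem]
    have : s ^ n * g * (a * y) = (s ^ n * g * y) * a := by ring
    rw [this]
    exact I.mul_mem_left _ ha
  have hrP : r ∈ P := by
    rw [hmem]
    have : s ^ n * g * (r * y) = (s ^ n * y) * (r * g) := by ring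
    rw [this]
    exact I.mul_mem_left _ hr
  have hsP : s ∉ P := by
    intro h
    rw [hmem] at h
    have h1 : s ^ (n + 1) * g * y ∈ I := by
      have : s ^ (n + 1) * g * y = s ^ n * g * (s * y) := by ring
      rw [this]; exact h
    have h2 : (1 : S) ∈ P := by
      rw [hmem, one_mul]
      exact hJ y h1
    exact hPprime.ne_top ((Ideal.eq_top_iff_one P).2 h2)
  obtain ⟨Q', hQ'prime, hQ'I, hQ'P⟩ := hmin P hPprime hI hsP hrP
  obtain ⟨Q, hQ, hQQ'⟩ := Ideal.exists_minimalPrimes_le (J := Q') hQ'I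
  refine ⟨P, hPass, Q, ?_, hQ, hQQ'.trans_lt hQ'P⟩
  have := Module.associatedPrimes.minimalPrimes_annihilator_subset_associatedPrimes S (S ⧸ I)
  rw [Ideal.annihilator_quotient] at this
  exact this hQ

end R831.Embed
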