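import Mathlib

/-!
In a Noetherian local ring, if an ideal is generated by a regular sequence, then every minimal
system of generators is a regular sequence.
-/

namespace R831.Exchange

open Ideal RingTheory.Sequence

variable {R : Type*} [CommRing R]

lemma ofList_mono {l l' : List R} (h : ∀ x ∈ l, x ∈ l') : ofList l ≤ ofList l' :=
  Ideal.span_mono (fun x hx => h x hx)

lemma ofList_congr {l l' : List R} (h : ∀ x, x ∈ l ↔ x ∈ l') : ofList l = ofList l' :=
  le_antisymm (ofList_mono fun x hx => (h x).1 hx) (ofList_mono fun x hx => (h x).2 hx)

lemma mem_ofList {l : List R} {x : R} (h : x ∈ l) : x ∈ ofList l := Ideal.subset_span h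

lemma ofList_le {l : List R} {I : Ideal R} (h : ∀ x ∈ l, x ∈ I) : ofList l ≤ I :=
  Ideal.span_le.2 h

/-- weak regularity in terms of ideals -/
lemma wr_iff (rs : List R) : IsWeaklyRegular R rs ↔
    ∀ j (hj : j < rs.length), ∀ x, rs[j] * x ∈ ofList (rs.take j) → x ∈ ofList (rs.take j) := by
  rw [isWeaklyRegular_iff]
  refine forall₂_congr fun j hj => ?_
  rw [isSMulRegular_quotient_iff_mem_of_smul_mem]
  simp

lemma wr_append_singleton (rs : List R) (g : R) : IsWeaklyRegular R (rs ++ [g]) ↔
    IsWeaklyRegular R rs ∧ ∀ x, g * x ∈ ofList rs → x ∈ ofList rs := by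
  rw [isWeaklyRegular_append_iff, isWeaklyRegular_singleton_iff,
    isSMulRegular_quotient_iff_mem_of_smul_mem]
  simp

section local_
variable [IsLocalRing R]

lemma split (hs : List R) : ∀ (gs : List R) (x : R), x ∈ ofList (hs ++ gs) →
    x ∈ ofList hs ⊔ IsLocalRing.maximalIdeal R * ofList gs ∨
    ∃ gs1 g gs2 a u, gs = gs1 ++ g :: gs2 ∧ IsUnit a ∧ u ∈ ofList (hs ++ (gs1 ++ gs2)) ∧
      x = a * g + u := by
  intro gs
  induction gs with
  | nil =>
    intro x hx
    left
    rw [List.append_nil] at hx
    exact Ideal.mem_sup_left hx
  | cons g gs ih =>
    intro x hx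
    have h1 : ofList (hs ++ g :: gs) = ofList (hs ++ gs) ⊔ Ideal.span {g} := by
      rw [ofList_append, ofList_append, ofList_cons, sup_assoc, sup_comm (ofList gs)]
    rw [h1, Submodule.mem_sup] at hx
    obtain ⟨x', hx', z, hz, rfl⟩ := hx
    obtain ⟨b, rfl⟩ := Ideal.mem_span_singleton'.1 hz
    by_cases hb : IsUnit b
    · right
      exact ⟨[], g, gs, b, x', rfl, hb, by simpa using hx', by ring⟩
    · rcases ih x' hx' with h | ⟨gs1, g', gs2, a, u, hgs, ha, hu, hx''⟩
      · left
        have h2 : b * g ∈ IsLocalRing.maximalIdeal R * ofList (g :: gs) :=
          Ideal.mul_mem_mul ((IsLocalRing.mem_maximalIdeal b).2 hb)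
            (mem_ofList List.mem_cons_self)
        have h3 : ofList hs ⊔ IsLocalRing.maximalIdeal R * ofList gs ≤
            ofList hs ⊔ IsLocalRing.maximalIdeal R * ofList (g :: gs) :=
          sup_le_sup_left (Ideal.mul_mono_right (ofList_mono fun x hx =>
            List.mem_cons_of_mem _ hx)) _
        exact Ideal.add_mem _ (h3 h) (Ideal.mem_sup_right h2)
      · right
        refine ⟨g :: gs1, g', gs2, a, b * g + u, by rw [hgs]; rfl, ha, ?_, by rw [hx'']; ring⟩
        apply Ideal.add_mem
        · apply Ideal.mul_mem_left
          apply mem_ofList
          simp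
        · refine ofList_mono ?_ hu
          intro y hy
          simp only [List.mem_append, List.mem_cons] at hy ⊢
          tauto

variable [IsNoetherianRing R]

theorem exchange : ∀ (k : ℕ) (gs hs fs : List R), gs.length = k →
    IsWeaklyRegular R (hs ++ gs) →
    (∀ x ∈ hs ++ gs, x ∈ IsLocalRing.maximalIdeal R) → (∀ x ∈ fs, x ∈ IsLocalRing.maximalIdeal R) →
    ofList (hs ++ gs) = ofList (hs ++ fs) →
    (∀ l1 f l2, fs = l1 ++ f :: l2 → f ∉ ofList (hs ++ (l1 ++ l2))) →
    IsWeaklyRegular R (hs ++ fs) := by
  intro k
  induction k with
  | zero =>
    intro gs hs fs hk hreg hm hmf heq hmin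
    rw [List.length_eq_zero_iff] at hk
    subst hk
    cases fs with
    | nil => exact hreg
    | cons f fs =>
      exfalso
      apply hmin [] f fs rfl
      have h1 : f ∈ ofList (hs ++ f :: fs) := mem_ofList (by simp)
      rw [← heq] at h1
      exact ofList_mono (by intro x hx; simp at hx ⊢; tauto) h1
  | succ k ih =>
    intro gs hs fs hk hreg hm hmf heq hmin
    have hle : ofList hs ≤ IsLocalRing.maximalIdeal R :=
      ofList_le fun x hx => hm x (List.mem_append_left _ hx)
    have hne : ofList hs ≠ ⊤ := fun h =>
      (IsLocalRing.maximalIdeal.isMaximal R).ne_top (top_le_iff.1 (h ▸ hle))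
    cases fs with
    | nil =>
      exfalso
      cases gs with
      | nil => simp at hk
      | cons g gs =>
        have h1 : hs ++ g :: gs = (hs ++ [g]) ++ gs := by simp
        rw [h1, isWeaklyRegular_append_iff, wr_append_singleton] at hreg
        have h2 := hreg.1.2 1
        rw [mul_one] at h2
        have h3 : g ∈ ofList hs := by
          have : g ∈ ofList (hs ++ g :: gs) := mem_ofList (by simp)
          rw [heq, List.append_nil] at this
          exact this
        exact hne ((Ideal.eq_top_iff_one _).2 (h2 h3))
    | cons f fs =>
      have hf : f ∈ ofList (hs ++ gs) := by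
        rw [heq]; exact mem_ofList (by simp)
      rcases split hs gs f hf with h | ⟨gs1, g, gs2, a, u, hgs, ha, hu, hfe⟩
      · exfalso
        apply hmin [] f fs rfl
        rw [List.nil_append]
        have h1 : ofList hs ⊔ IsLocalRing.maximalIdeal R * ofList gs ≤
            ofList (hs ++ fs) ⊔ IsLocalRing.maximalIdeal R * Ideal.span {f} := by
          apply sup_le
          · exact (ofList_mono (by intro x hx; simp; tauto)).trans le_sup_left
          · have h2 : ofList gs ≤ ofList (hs ++ fs) ⊔ Ideal.span {f} := by
              have h3 : ofList gs ≤ ofList (hs ++ gs) :=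
                ofList_mono (by intro x hx; simp; tauto)
              rw [heq] at h3
              refine h3.trans ?_
              apply ofList_le
              intro x hx
              simp only [List.mem_append, List.mem_cons] at hx
              rcases hx with hx | rfl | hx
              · exact Ideal.mem_sup_left (mem_ofList (by simp; tauto))
              · exact Ideal.mem_sup_right (Ideal.mem_span_singleton_self _)
              · exact Ideal.mem_sup_left (mem_ofList (by simp; tauto))
            refine (Ideal.mul_mono_right h2).trans ?_
            rw [Ideal.mul_sup]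
            exact sup_le_sup_right Ideal.mul_le_right _
        have h2 := h1 h
        rw [Submodule.mem_sup] at h2
        obtain ⟨y, hy, z, hz, hyz⟩ := h2
        obtain ⟨c, hc, rfl⟩ := Ideal.mem_mul_span_singleton.1 hz
        have h3 : (1 - c) * f ∈ ofList (hs ++ fs) := by
          have : (1 - c) * f = y := by linear_combination -hyz
          rw [this]; exact hy
        have h4 : IsUnit (1 - c) := by
          by_contra hcon
          have h5 := (IsLocalRing.mem_maximalIdeal _).2 hcon
          have h6 := Ideal.add_mem _ h5 hc
          rw [sub_add_cancel] at h6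
          exact (IsLocalRing.maximalIdeal.isMaximal R).ne_top ((Ideal.eq_top_iff_one _).2 h6)
        exact (Ideal.unit_mul_mem_iff_mem _ h4).1 h3
      · have hperm1 : (hs ++ gs).Perm ((hs ++ (gs1 ++ gs2)) ++ [g]) := by
          rw [hgs, List.append_assoc]
          apply List.Perm.append_left
          refine List.perm_middle.trans ?_
          exact (List.perm_append_singleton _ _).symm
        have h1 := IsLocalRing.isWeaklyRegular_of_perm_of_subset_maximalIdeal hreg hperm1 hm
        rw [wr_append_singleton] at h1
        have h2 : IsWeaklyRegular R ((hs ++ (gs1 ++ gs2)) ++ [f]) := by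
          rw [wr_append_singleton]
          refine ⟨h1.1, fun x hx => h1.2 x ?_⟩
          have h3 : a * (g * x) ∈ ofList (hs ++ (gs1 ++ gs2)) := by
            have : a * (g * x) = f * x - x * u := by rw [hfe]; ring
            rw [this]
            exact Ideal.sub_mem _ hx (Ideal.mul_mem_left _ _ hu)
          exact (Ideal.unit_mul_mem_iff_mem _ ha).1 h3
        have hm2 : ∀ x ∈ (hs ++ (gs1 ++ gs2)) ++ [f], x ∈ IsLocalRing.maximalIdeal R := by
          intro x hx
          simp only [List.mem_append, List.mem_singleton] at hx
          rcases hx with (hx | hx | hx) | rfl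
          · exact hm x (by simp; tauto)
          · exact hm x (by rw [hgs]; simp; tauto)
          · exact hm x (by rw [hgs]; simp; tauto)
          · exact hmf x (by simp)
        have hperm2 : ((hs ++ (gs1 ++ gs2)) ++ [f]).Perm ((hs ++ [f]) ++ (gs1 ++ gs2)) := by
          have e1 : (hs ++ (gs1 ++ gs2)) ++ [f] = hs ++ ((gs1 ++ gs2) ++ [f]) := by simp
          have e2 : (hs ++ [f]) ++ (gs1 ++ gs2) = hs ++ ([f] ++ (gs1 ++ gs2)) := by simp
          rw [e1, e2]
          apply List.Perm.append_left
          exact List.perm_append_comm
        have h3 := IsLocalRing.isWeaklyRegular_of_perm_of_subset_maximalIdeal h2 hperm2 hm2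
        have h4 : ofList ((hs ++ [f]) ++ (gs1 ++ gs2)) = ofList (hs ++ gs) := by
          have hgf : ofList (hs ++ (gs1 ++ gs2)) ⊔ Ideal.span {f} =
              ofList (hs ++ (gs1 ++ gs2)) ⊔ Ideal.span {g} := by
            apply le_antisymm
            · apply sup_le le_sup_left
              rw [Ideal.span_singleton_le_iff_mem, hfe]
              exact Ideal.add_mem _ (Ideal.mem_sup_right
                (Ideal.mul_mem_left _ _ (Ideal.mem_span_singleton_self _))) (Ideal.mem_sup_left hu)
            · apply sup_le le_sup_left
              rw [Ideal.span_singleton_le_iff_mem]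
              have : a * g ∈ ofList (hs ++ (gs1 ++ gs2)) ⊔ Ideal.span {f} := by
                have h5 : a * g = f - u := by rw [hfe]; ring
                rw [h5]
                exact Ideal.sub_mem _ (Ideal.mem_sup_right (Ideal.mem_span_singleton_self _))
                  (Ideal.mem_sup_left hu)
              exact (Ideal.unit_mul_mem_iff_mem _ ha).1 this
          have h5 : ofList ((hs ++ [f]) ++ (gs1 ++ gs2)) =
              ofList (hs ++ (gs1 ++ gs2)) ⊔ Ideal.span {f} := by
            rw [← ofList_singleton, ← ofList_append]
            apply ofList_congr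
            intro x
            simp only [List.mem_append, List.mem_singleton]
            tauto
          have h6 : ofList (hs ++ gs) = ofList (hs ++ (gs1 ++ gs2)) ⊔ Ideal.span {g} := by
            rw [← ofList_singleton, ← ofList_append, hgs]
            apply ofList_congr
            intro x
            simp only [List.mem_append, List.mem_singleton, List.mem_cons]
            tauto
          rw [h5, h6, hgf]
        have h5 := ih (gs1 ++ gs2) (hs ++ [f]) fs (by
          have := congrArg List.length hgs
          simp only [List.length_append, List.length_cons] at this ⊢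
          omega) h3 (by
            intro x hx
            apply hm2
            simp only [List.mem_append, List.mem_singleton] at hx ⊢
            tauto) (fun x hx => hmf x (List.mem_cons_of_mem _ hx)) (by
            rw [h4, heq]
            apply ofList_congr
            intro x
            simp only [List.mem_append, List.mem_singleton, List.mem_cons]
            tauto) (by
            intro l1 f' l2 hfs
            have h6 := hmin (f :: l1) f' l2 (by rw [hfs]; rfl)
            intro h7
            apply h6
            refine ofList_mono ?_ h7
            intro x hx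
            simp only [List.mem_append, List.mem_singleton, List.mem_cons] at hx ⊢
            tauto)
        have h6 : hs ++ f :: fs = (hs ++ [f]) ++ fs := by simp
        rw [h6]
        exact h5

end local_

end R831.Exchange
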