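import Mathlib

/-!
Over a domain `D`, the ideal `(∏_{i ∈ A} x_i + c_A : A ∈ M)` is prime when the sets `A ∈ M` are
nonempty and pairwise disjoint and the `c_A` are nonzero.
-/

namespace R831.Toric

open MvPolynomial

variable {V : Type*} [Fintype V] [DecidableEq V] {D : Type*} [CommRing D]

/-- the indicator exponent vector of `A` -/
noncomputable def ex (A : Finset V) : V →₀ ℕ := ∑ j ∈ A, Finsupp.single j 1

omit [Fintype V] in
lemma ex_apply (A : Finset V) (i : V) : ex A i = if i ∈ A then 1 else 0 := by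
  rw [ex, Finsupp.finsetSum_apply]
  simp [Finsupp.single_apply]

omit [Fintype V] [DecidableEq V] in
lemma prod_X_eq (A : Finset V) : (∏ i ∈ A, X i : MvPolynomial V D) = monomial (ex A) 1 := by
  rw [ex, monomial_sum_one]
  rfl

/-- the ideal `(∏_{i ∈ A} x_i + c_A : A ∈ M)` -/
noncomputable def tideal (M : Finset (Finset V)) (c : Finset V → D) :
    Ideal (MvPolynomial V D) :=
  Ideal.span {g | ∃ A ∈ M, g = ∏ i ∈ A, X i + C (c A)}

/-- reduced exponents -/
def Red (M : Finset (Finset V)) (m : V →₀ ℕ) : Prop := ∀ A ∈ M, ∃ i ∈ A, m i = 0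

omit [Fintype V] in
lemma reduce_monomial (M : Finset (Finset V)) (c : Finset V → D) (hne : ∀ A ∈ M, A.Nonempty) :
    ∀ n, ∀ m : V →₀ ℕ, m.degree = n → ∀ k : D, ∃ g : MvPolynomial V D,
      (∀ d ∈ g.support, Red M d) ∧ monomial m k - g ∈ tideal M c := by
  intro n
  induction n using Nat.strong_induction_on with
  | _ n ih =>
    intro m hm k
    by_cases hred : Red M m
    · refine ⟨monomial m k, ?_, by rw [sub_self]; exact Ideal.zero_mem _⟩
      intro d hd
      have := support_monomial_subset hd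
      rw [Finset.mem_singleton] at this
      rw [this]; exact hred
    · unfold Red at hred
      push Not at hred
      obtain ⟨A, hA, hA'⟩ := hred
      have hle : ex A ≤ m := by
        intro i
        rw [ex_apply]
        split_ifs with hi
        · exact Nat.one_le_iff_ne_zero.2 (hA' i hi)
        · exact Nat.zero_le _
      obtain ⟨m', rfl⟩ := exists_add_of_le hle
      have hdeg : (ex A).degree + m'.degree = n := by
        rw [← hm, map_add]
      have hpos : 0 < (ex A).degree := by
        rw [Nat.pos_iff_ne_zero, Ne, Finsupp.degree_eq_zero_iff]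
        intro h
        obtain ⟨i, hi⟩ := hne A hA
        have := DFunLike.congr_fun h i
        rw [ex_apply, if_pos hi] at this
        simp at this
      obtain ⟨g, hg, hg'⟩ := ih m'.degree (by omega) m' rfl (-(c A) * k)
      refine ⟨g, hg, ?_⟩
      have h1 : monomial (ex A + m') k - g =
          monomial m' k * (∏ i ∈ A, X i + C (c A)) + (monomial m' (-(c A) * k) - g) := by
        rw [prod_X_eq, mul_add, monomial_mul, mul_one, add_comm m', mul_comm (monomial m' k) (C _),
          C_mul_monomial, neg_mul, map_neg]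
        ring
      rw [h1]
      exact Ideal.add_mem _ (Ideal.mul_mem_left _ _ (Ideal.subset_span ⟨A, hA, rfl⟩)) hg'

omit [Fintype V] in
lemma reduce (M : Finset (Finset V)) (c : Finset V → D) (hne : ∀ A ∈ M, A.Nonempty)
    (g : MvPolynomial V D) : ∃ g' : MvPolynomial V D,
      (∀ d ∈ g'.support, Red M d) ∧ g - g' ∈ tideal M c := by
  induction g using MvPolynomial.induction_on' with
  | monomial m k => exact reduce_monomial M c hne _ m rfl k
  | add p q hp hq =>
    obtain ⟨p', hp1, hp2⟩ := hp
    obtain ⟨q', hq1, hq2⟩ := hq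
    refine ⟨p' + q', ?_, ?_⟩
    · intro d hd
      rcases Finset.mem_union.1 (support_add hd) with h | h
      · exact hp1 d h
      · exact hq1 d h
    · have : p + q - (p' + q') = (p - p') + (q - q') := by ring
      rw [this]
      exact Ideal.add_mem _ hp2 hq2

variable [IsDomain D]

section psi
variable (M : Finset (Finset V)) (c : Finset V → D) (r : Finset V → V)

/-- the fraction field of `D[x]` -/
abbrev L (V D : Type*) [CommRing D] := FractionRing (MvPolynomial V D)

/-- the embedding of `D[x]` in its fraction field -/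
noncomputable abbrev al : MvPolynomial V D →+* L V D := algebraMap _ _

/-- `-c_A / x^A` -/
noncomputable def zz (A : Finset V) : L V D := -al (C (c A)) / al (∏ i ∈ A, X i)

/-- the parametrisation -/
noncomputable def psi : MvPolynomial V D →+* L V D :=
  eval₂Hom (al.comp C) (fun i => al (X i) * ∏ A ∈ M.filter (fun A => r A = i), zz c A)

lemma psi_monomial (m : V →₀ ℕ) (k : D) :
    psi M c r (monomial m k) = al (monomial m k) * ∏ A ∈ M, zz c A ^ (m (r A)) := by
  rw [psi, eval₂Hom_monomial, Finsupp.prod_fintype _ _ (by intro; rw [pow_zero])]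
  have h1 : (monomial m k : MvPolynomial V D) = C k * ∏ i, X i ^ m i := by
    rw [monomial_eq, Finsupp.prod_fintype _ _ (by intro; rw [pow_zero])]
  rw [h1, map_mul, map_prod]
  simp only [mul_pow, Finset.prod_mul_distrib, map_pow, RingHom.comp_apply]
  rw [mul_assoc]
  congr 2
  rw [← Finset.prod_fiberwise_of_maps_to (s := M) (t := Finset.univ) (g := r)
    (fun _ _ => Finset.mem_univ _)]
  apply Finset.prod_congr rfl
  intro i _
  rw [← Finset.prod_pow]
  apply Finset.prod_congr rfl
  intro A hA
  rw [(Finset.mem_filter.1 hA).2]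

/-- exponents after clearing denominators -/
noncomputable def mu (N : ℕ) (m : V →₀ ℕ) : V →₀ ℕ := m + ∑ A ∈ M, (N - m (r A)) • ex A

/-- the unit coefficient -/
def kap (m : V →₀ ℕ) : D := ∏ A ∈ M, (-(c A)) ^ (m (r A))

lemma al_X_ne (i : V) : (al (X i) : L V D) ≠ 0 := by
  rw [Ne, map_eq_zero_iff _ (IsFractionRing.injective _ _)]
  exact X_ne_zero i

lemma psi_clear (N : ℕ) (m : V →₀ ℕ) (hm : ∀ A ∈ M, m (r A) ≤ N) (k : D) :
    psi M c r (monomial m k) * ∏ A ∈ M, (al (∏ i ∈ A, X i)) ^ N =
      al (monomial (mu M r N m) (k * kap M c r m)) := by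
  have h1 : (monomial (mu M r N m) (k * kap M c r m) : MvPolynomial V D) =
      monomial m k * ∏ A ∈ M, ((∏ i ∈ A, X i) ^ (N - m (r A)) * C (-(c A)) ^ (m (r A))) := by
    have h2 : ∏ A ∈ M, ((∏ i ∈ A, X i) ^ (N - m (r A)) * C (-(c A)) ^ (m (r A)) :
        MvPolynomial V D) = monomial (∑ A ∈ M, (N - m (r A)) • ex A) (kap M c r m) := by
      rw [Finset.prod_mul_distrib]
      have h3 : ∏ A ∈ M, ((∏ i ∈ A, X i) ^ (N - m (r A)) : MvPolynomial V D) =
          monomial (∑ A ∈ M, (N - m (r A)) • ex A) 1 := by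
        rw [monomial_sum_one]
        apply Finset.prod_congr rfl
        intro A _
        rw [prod_X_eq, monomial_pow, one_pow]
      have h4 : ∏ A ∈ M, (C (-(c A)) ^ (m (r A)) : MvPolynomial V D) = C (kap M c r m) := by
        rw [kap, map_prod]
        apply Finset.prod_congr rfl
        intro A _
        rw [map_pow]
      rw [h3, h4, mul_comm, C_mul_monomial, mul_one]
    rw [h2, monomial_mul, mu]
  rw [h1, psi_monomial, map_mul, map_prod, mul_assoc, ← Finset.prod_mul_distrib]
  congr 1
  apply Finset.prod_congr rfl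
  intro A hA
  have h5 : al (∏ i ∈ A, X i : MvPolynomial V D) ≠ (0 : L V D) := by
    rw [map_prod]
    exact Finset.prod_ne_zero_iff.2 (fun i _ => al_X_ne i)
  rw [zz, div_pow, map_mul, map_pow, map_pow, map_neg, map_neg]
  have h6 := hm A hA
  have h7 : (al (∏ i ∈ A, X i : MvPolynomial V D)) ^ N =
      (al (∏ i ∈ A, X i : MvPolynomial V D)) ^ (N - m (r A)) *
        (al (∏ i ∈ A, X i : MvPolynomial V D)) ^ (m (r A)) := by
    rw [← pow_add]; congr 1; omega
  rw [h7]
  field_simp

lemma mu_inj (hr : ∀ A ∈ M, r A ∈ A) (hdisj : ∀ A ∈ M, ∀ B ∈ M, A ≠ B → Disjoint A B)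
    {N : ℕ} {m m' : V →₀ ℕ} (hm : Red M m) (hm' : Red M m') (hN : ∀ A ∈ M, m (r A) ≤ N)
    (hN' : ∀ A ∈ M, m' (r A) ≤ N) (h : mu M r N m = mu M r N m') : m = m' := by
  have key : ∀ (m : V →₀ ℕ) (A) (_ : A ∈ M) (i) (_ : i ∈ A),
      mu M r N m i = m i + (N - m (r A)) := by
    intro m A hA i hi
    rw [mu, Finsupp.add_apply, Finsupp.finsetSum_apply]
    congr 1
    rw [Finset.sum_eq_single A]
    · rw [Finsupp.smul_apply, ex_apply, if_pos hi, smul_eq_mul, mul_one]
    · intro B hB hBA
      rw [Finsupp.smul_apply, ex_apply, if_neg, smul_zero]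
      intro hiB
      exact Finset.disjoint_left.1 (hdisj B hB A hA hBA) hiB hi
    · intro hA'; exact absurd hA hA'
  have key2 : ∀ (m : V →₀ ℕ) (i) (_ : ∀ A ∈ M, i ∉ A), mu M r N m i = m i := by
    intro m i hi
    rw [mu, Finsupp.add_apply, Finsupp.finsetSum_apply, Finset.sum_eq_zero, add_zero]
    intro B hB
    rw [Finsupp.smul_apply, ex_apply, if_neg (hi B hB), smul_zero]
  have hroot : ∀ A ∈ M, m (r A) = m' (r A) := by
    intro A hA
    obtain ⟨i, hi, hi0⟩ := hm A hA
    obtain ⟨i', hi', hi'0⟩ := hm' A hA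
    have h1 := DFunLike.congr_fun h i
    have h2 := DFunLike.congr_fun h i'
    rw [key m A hA i hi, key m' A hA i hi] at h1
    rw [key m A hA i' hi', key m' A hA i' hi'] at h2
    have := hN A hA
    have := hN' A hA
    omega
  ext i
  by_cases hi : ∃ A ∈ M, i ∈ A
  · obtain ⟨A, hA, hiA⟩ := hi
    have h1 := DFunLike.congr_fun h i
    rw [key m A hA i hiA, key m' A hA i hiA, hroot A hA] at h1
    omega
  · push Not at hi
    have h1 := DFunLike.congr_fun h i
    rwa [key2 m i hi, key2 m' i hi] at h1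

lemma psi_inj (hr : ∀ A ∈ M, r A ∈ A) (hdisj : ∀ A ∈ M, ∀ B ∈ M, A ≠ B → Disjoint A B)
    (hc : ∀ A ∈ M, c A ≠ 0) {g : MvPolynomial V D} (hg : ∀ d ∈ g.support, Red M d)
    (h : psi M c r g = 0) : g = 0 := by
  set N : ℕ := ∑ d ∈ g.support, ∑ A ∈ M, d (r A) with hN
  have hle : ∀ d ∈ g.support, ∀ A ∈ M, d (r A) ≤ N := by
    intro d hd A hA
    calc d (r A) ≤ ∑ A ∈ M, d (r A) :=
          Finset.single_le_sum (f := fun A => d (r A)) (fun _ _ => Nat.zero_le _) hA
      _ ≤ N := Finset.single_le_sum (f := fun d => ∑ A ∈ M, d (r A))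
          (fun _ _ => Nat.zero_le _) hd
  have h1 : (al (∑ d ∈ g.support, monomial (mu M r N d) (g.coeff d * kap M c r d)) : L V D)
      = 0 := by
    have h2 : psi M c r g * ∏ A ∈ M, (al (∏ i ∈ A, X i : MvPolynomial V D)) ^ N = 0 := by
      rw [h, zero_mul]
    conv at h2 => lhs; lhs; rw [as_sum g]
    rw [map_sum, Finset.sum_mul] at h2
    rw [map_sum, ← h2]
    apply Finset.sum_congr rfl
    intro d hd
    rw [psi_clear M c r N d (hle d hd)]
  rw [map_eq_zero_iff _ (IsFractionRing.injective _ _)] at h1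
  ext d0
  rw [coeff_zero]
  by_contra hd0
  have hd0' : d0 ∈ g.support := mem_support_iff.2 hd0
  have h3 := congrArg (coeff (mu M r N d0)) h1
  rw [coeff_sum, coeff_zero, Finset.sum_eq_single d0, coeff_monomial, if_pos rfl,
    mul_eq_zero] at h3
  · rcases h3 with h3 | h3
    · exact hd0 h3
    · rw [kap, Finset.prod_eq_zero_iff] at h3
      obtain ⟨A, hA, hA'⟩ := h3
      exact pow_ne_zero _ (neg_ne_zero.2 (hc A hA)) hA'
  · intro d hd hne
    rw [coeff_monomial, if_neg]
    intro heq
    exact hne (mu_inj M r hr hdisj (hg d hd) (hg d0 hd0') (hle d hd) (hle d0 hd0') heq)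
  · intro h; exact absurd hd0' h

end psi

theorem tideal_prime (M : Finset (Finset V)) (c : Finset V → D) (hne : ∀ A ∈ M, A.Nonempty)
    (hdisj : ∀ A ∈ M, ∀ B ∈ M, A ≠ B → Disjoint A B) (hc : ∀ A ∈ M, c A ≠ 0) :
    (tideal M c).IsPrime := by
  classical
  rcases isEmpty_or_nonempty V with hV | hV
  · have : M = ∅ := by
      rw [Finset.eq_empty_iff_forall_notMem]
      intro A hA
      obtain ⟨i, _⟩ := hne A hA
      exact hV.elim i
    have h2 : tideal M c = ⊥ := by
      simp [tideal, this]
    rw [h2]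
    exact Ideal.isPrime_bot
  · let r : Finset V → V := fun A => if h : A.Nonempty then h.choose else Classical.arbitrary V
    have hr : ∀ A ∈ M, r A ∈ A := by
      intro A hA
      simp only [r, dif_pos (hne A hA)]
      exact (hne A hA).choose_spec
    have hle : tideal M c ≤ RingHom.ker (psi M c r) := by
      apply Ideal.span_le.2
      rintro _ ⟨A, hA, rfl⟩
      rw [SetLike.mem_coe, RingHom.mem_ker, map_add, prod_X_eq, psi_monomial]
      have h5 : al (∏ i ∈ A, X i : MvPolynomial V D) ≠ (0 : L V D) := by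
        rw [map_prod]
        exact Finset.prod_ne_zero_iff.2 (fun i _ => al_X_ne i)
      have h6 : psi M c r (C (c A)) = al (C (c A)) := by
        simp [psi]
      rw [Finset.prod_eq_single A, ex_apply, if_pos (hr A hA), pow_one, h6, zz, ← prod_X_eq]
      · field_simp
        ring
      · intro B hB hBA
        rw [ex_apply, if_neg, pow_zero]
        intro h
        exact Finset.disjoint_left.1 (hdisj B hB A hA hBA) (hr B hB) h
      · intro h; exact absurd hA h
    have hge : RingHom.ker (psi M c r) ≤ tideal M c := by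
      intro g hg
      obtain ⟨g', hg', hgg'⟩ := reduce M c hne g
      have h1 : psi M c r g' = 0 := by
        have h2 := hle hgg'
        rw [RingHom.mem_ker, map_sub, sub_eq_zero] at h2
        rw [← h2]; exact hg
      rw [psi_inj M c r hr hdisj hc hg' h1, sub_zero] at hgg'
      exact hgg'
    rw [le_antisymm hle hge]
    exact RingHom.ker_isPrime _

end R831.Toric
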