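import Pool.Agent.R831.Deform
import Pool.Agent.R831.Toric

/-!
Hypergraph LSS ideals: basic definitions and the passage from `d` to `d+1` coordinates.
-/

namespace R831.Hyper

open MvPolynomial R831.Deform R831.Toric

variable (K : Type*) [Field K] (n d : ℕ)

/-- `f_A^{(d)} = ∑_{l < d} ∏_{i ∈ A} y_{i,l}` -/
noncomputable def ff (A : Finset (Fin n)) : MvPolynomial (Fin n × Fin d) K :=
  ∑ l : Fin d, ∏ i ∈ A, X (i, l)

/-- the hypergraph LSS ideal `L_H(d) = (f_A^{(d)} : A ∈ E)` -/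
noncomputable def lss (E : Finset (Finset (Fin n))) : Ideal (MvPolynomial (Fin n × Fin d) K) :=
  Ideal.span {g | ∃ A ∈ E, g = ff K n d A}

variable {K n d}

/-- `E` is a clutter of nonempty sets -/
def IsClutter (E : Finset (Finset (Fin n))) : Prop :=
  (∀ A ∈ E, A.Nonempty) ∧ ∀ A ∈ E, ∀ B ∈ E, A ⊆ B → A = B

lemma IsClutter.mono {E E' : Finset (Finset (Fin n))} (h : IsClutter E) (h' : E' ⊆ E) :
    IsClutter E' :=
  ⟨fun A hA => h.1 A (h' hA), fun A hA B hB => h.2 A (h' hA) B (h' hB)⟩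

/-- the sequence `φ A₀, φ A₁, …` (then zeros) for a list `A₀, A₁, …` -/
def seq {α R : Type*} [Zero R] (φ : α → R) (Ls : List α) (i : ℕ) : R := (Ls.map φ).getD i 0

lemma seq_of_lt {α R : Type*} [Zero R] (φ : α → R) (Ls : List α) {i : ℕ} (h : i < Ls.length) :
    seq φ Ls i = φ Ls[i] := by
  simp [seq, h]

lemma seq_of_ge {α R : Type*} [Zero R] (φ : α → R) (Ls : List α) {i : ℕ} (h : Ls.length ≤ i) :
    seq φ Ls i = 0 := by
  simp [seq, h]

lemma idl_seq {α R : Type*} [CommRing R] (φ : α → R) (Ls : List α) {j : ℕ} (hj : j ≤ Ls.length) :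
    idl (seq φ Ls) j = Ideal.span {g | ∃ A ∈ Ls.take j, g = φ A} := by
  apply le_antisymm
  · apply idl_le
    intro i hi
    apply Ideal.subset_span
    have h1 : i < Ls.length := by omega
    refine ⟨Ls[i], ?_, seq_of_lt φ Ls h1⟩
    rw [List.mem_take_iff_getElem]
    exact ⟨i, by omega, rfl⟩
  · apply Ideal.span_le.2
    rintro _ ⟨A, hA, rfl⟩
    rw [List.mem_take_iff_getElem] at hA
    obtain ⟨i, hi, rfl⟩ := hA
    have h1 : i < Ls.length := by omega
    rw [SetLike.mem_coe, ← seq_of_lt φ Ls h1]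
    exact mem_idl (by omega)

/-- deformation data from data on the members of a list -/
noncomputable def dataOfList {α σ : Type*} {K : Type*} [Field K] (φ ψ : α → MvPolynomial σ K)
    (Ls : List α) (w : σ → ℕ) (a b e : α → ℕ)
    (hg : ∀ A ∈ Ls, IsWeightedHomogeneous w (φ A) (a A))
    (hh : ∀ A ∈ Ls, IsWeightedHomogeneous w (ψ A) (a A + (e A + 1)))
    (hgb : ∀ A ∈ Ls, (φ A).IsHomogeneous (b A))
    (hhb : ∀ A ∈ Ls, (ψ A).IsHomogeneous (b A)) : Data (seq φ Ls) (seq ψ Ls) where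
  w := w
  a := seq a Ls
  b := seq b Ls
  e := seq e Ls
  hg := by
    intro i
    by_cases h : i < Ls.length
    · rw [seq_of_lt _ _ h, seq_of_lt _ _ h]
      exact hg _ (List.getElem_mem h)
    · rw [seq_of_ge _ _ (not_lt.1 h)]
      exact isWeightedHomogeneous_zero _ _ _
  hh := by
    intro i
    by_cases h : i < Ls.length
    · rw [seq_of_lt _ _ h, seq_of_lt _ _ h, seq_of_lt _ _ h]
      exact hh _ (List.getElem_mem h)
    · rw [seq_of_ge _ _ (not_lt.1 h)]
      exact isWeightedHomogeneous_zero _ _ _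
  hgb := by
    intro i
    by_cases h : i < Ls.length
    · rw [seq_of_lt _ _ h, seq_of_lt _ _ h]
      exact hgb _ (List.getElem_mem h)
    · rw [seq_of_ge _ _ (not_lt.1 h)]
      exact isHomogeneous_zero _ _ _
  hhb := by
    intro i
    by_cases h : i < Ls.length
    · rw [seq_of_lt _ _ h, seq_of_lt _ _ h]
      exact hhb _ (List.getElem_mem h)
    · rw [seq_of_ge _ _ (not_lt.1 h)]
      exact isHomogeneous_zero _ _ _

lemma seq_add {α R : Type*} [AddZeroClass R] (φ ψ : α → R) (Ls : List α) :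
    (fun i => seq φ Ls i + seq ψ Ls i) = seq (fun A => φ A + ψ A) Ls := by
  funext i
  by_cases h : i < Ls.length
  · rw [seq_of_lt _ _ h, seq_of_lt _ _ h, seq_of_lt _ _ h]
  · rw [seq_of_ge _ _ (not_lt.1 h), seq_of_ge _ _ (not_lt.1 h), seq_of_ge _ _ (not_lt.1 h),
      add_zero]

/-- Evaluation shows that `f_A` is not in the ideal of the `f_B` when no `B` is contained in
`A`. -/
lemma notMem_of_eval {R : Type*} [CommRing R] {k : Type*} [Field k] (ev : R →+* k) {x : R}
    {s : Set R} (hx : ev x ≠ 0) (hs : ∀ y ∈ s, ev y = 0) : x ∉ Ideal.span s := by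
  intro h
  have h1 : Ideal.span s ≤ RingHom.ker ev := Ideal.span_le.2 hs
  exact hx (h1 h)

/-- the evaluation at the indicator of `A` in the `l₀`-th coordinate -/
noncomputable def evA (K : Type*) [Field K] {n d : ℕ} (A : Finset (Fin n)) (l₀ : Fin d) :
    MvPolynomial (Fin n × Fin d) K →+* K :=
  eval (fun x => if x.1 ∈ A ∧ x.2 = l₀ then 1 else 0)

lemma evA_prod (A B : Finset (Fin n)) (l₀ l : Fin d) (hB : ¬ B ⊆ A) :
    evA K A l₀ (∏ i ∈ B, X (i, l)) = 0 := by
  rw [map_prod]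
  obtain ⟨i, hi, hiA⟩ := Finset.not_subset.1 hB
  apply Finset.prod_eq_zero hi
  simp [evA, hiA]

lemma evA_prod_self (A : Finset (Fin n)) (l₀ l : Fin d) (hA : A.Nonempty) :
    evA K A l₀ (∏ i ∈ A, X (i, l)) = if l = l₀ then 1 else 0 := by
  rw [map_prod]
  split_ifs with h
  · apply Finset.prod_eq_one
    intro i hi
    simp [evA, hi, h]
  · obtain ⟨i, hi⟩ := hA
    apply Finset.prod_eq_zero hi
    simp [evA, h]

lemma evA_ff_self (A : Finset (Fin n)) (l₀ : Fin d) (hA : A.Nonempty) :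
    evA K A l₀ (ff K n d A) = 1 := by
  rw [ff, map_sum]
  simp only [evA_prod_self A l₀ _ hA]
  simp

lemma evA_ff (A B : Finset (Fin n)) (l₀ : Fin d) (hB : ¬ B ⊆ A) :
    evA K A l₀ (ff K n d B) = 0 := by
  rw [ff, map_sum]
  apply Finset.sum_eq_zero
  intro l _
  exact evA_prod A B l₀ l hB

end R831.Hyper
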