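import Mathlib

/-!
Adjoining a linear equation `a * X y + b` in a new variable `y` to a prime ideal.
-/

set_option linter.unusedSimpArgs false

namespace R831.Lin

open MvPolynomial

section ring

open Polynomial in
/-- the substitution `X ↦ -b/a` -/
noncomputable def psi {D : Type*} [CommRing D] [IsDomain D] (a b : D) : D[X] →+* FractionRing D :=
  Polynomial.eval₂RingHom (algebraMap D (FractionRing D))
    (-(algebraMap D (FractionRing D) b) / algebraMap D (FractionRing D) a)

open Polynomial in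
lemma psi_lin {D : Type*} [CommRing D] [IsDomain D] {a b : D} (ha : a ≠ 0) :
    psi a b (Polynomial.C a * Polynomial.X + Polynomial.C b) = 0 := by
  have h : algebraMap D (FractionRing D) a ≠ 0 := by
    rwa [Ne, map_eq_zero_iff _ (IsFractionRing.injective _ _)]
  simp only [psi, map_add, map_mul, coe_eval₂RingHom, Polynomial.eval₂_C, Polynomial.eval₂_X]
  field_simp
  ring

open Polynomial in
lemma nzd {D : Type*} [CommRing D] {a b : D} (hb : ∀ z, a ∣ b * z → a ∣ z)
    {g : D[X]} (ha0 : ∀ z : D, a * z = 0 → z = 0)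
    (h : Polynomial.C a * g ∈ Ideal.span {(Polynomial.C a * Polynomial.X + Polynomial.C b : D[X])}) :
    g ∈ Ideal.span {(Polynomial.C a * Polynomial.X + Polynomial.C b : D[X])} := by
  rw [Ideal.mem_span_singleton] at h ⊢
  obtain ⟨q, hq⟩ := h
  have h1 : Polynomial.C a ∣ q := by
    rw [Polynomial.C_dvd_iff_dvd_coeff]
    intro i
    apply hb
    have h2 : Polynomial.C a ∣ Polynomial.C b * q := by
      refine ⟨g - Polynomial.X * q, ?_⟩
      linear_combination -hq
    have h3 := (Polynomial.C_dvd_iff_dvd_coeff _ _).1 h2 i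
    rwa [Polynomial.coeff_C_mul] at h3
  obtain ⟨q', rfl⟩ := h1
  refine ⟨q', ?_⟩
  have h4 : Polynomial.C a * (g - (Polynomial.C a * Polynomial.X + Polynomial.C b) * q') = 0 := by
    linear_combination hq
  have h5 : g - (Polynomial.C a * Polynomial.X + Polynomial.C b) * q' = 0 := by
    ext i
    have h6 := congrArg (fun p => Polynomial.coeff p i) h4
    simp only [Polynomial.coeff_C_mul, Polynomial.coeff_zero] at h6
    rw [ha0 _ h6, Polynomial.coeff_zero]
  exact sub_eq_zero.1 h5

open Polynomial in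
lemma pseudo {D : Type*} [CommRing D] (a b : D) (g : D[X]) :
    ∃ (N : ℕ) (r : D), Polynomial.C (a ^ N) * g - Polynomial.C r ∈
      Ideal.span {(Polynomial.C a * Polynomial.X + Polynomial.C b : D[X])} := by
  induction g using Polynomial.induction_on' with
  | add p q hp hq =>
    obtain ⟨N, r, h⟩ := hp
    obtain ⟨M, s, h'⟩ := hq
    refine ⟨N + M, a ^ M * r + a ^ N * s, ?_⟩
    have : Polynomial.C (a ^ (N + M)) * (p + q) - Polynomial.C (a ^ M * r + a ^ N * s) =
        Polynomial.C (a ^ M) * (Polynomial.C (a ^ N) * p - Polynomial.C r) +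
        Polynomial.C (a ^ N) * (Polynomial.C (a ^ M) * q - Polynomial.C s) := by
      simp only [map_add, map_mul, pow_add]
      ring
    rw [this]
    exact Ideal.add_mem _ (Ideal.mul_mem_left _ _ h) (Ideal.mul_mem_left _ _ h')
  | monomial n c =>
    refine ⟨n, c * (-b) ^ n, ?_⟩
    rw [Ideal.mem_span_singleton]
    have h1 : Polynomial.C (a ^ n) * Polynomial.monomial n c - Polynomial.C (c * (-b) ^ n) =
        Polynomial.C c * ((Polynomial.C a * Polynomial.X) ^ n - (Polynomial.C (-b)) ^ n) := by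
      rw [← Polynomial.C_mul_X_pow_eq_monomial]
      simp only [map_mul, map_pow, map_neg]
      ring
    rw [h1]
    apply Dvd.dvd.mul_left
    have h2 := sub_dvd_pow_sub_pow (Polynomial.C a * Polynomial.X : D[X]) (Polynomial.C (-b)) n
    rwa [sub_eq_add_neg (Polynomial.C a * Polynomial.X), ← map_neg, neg_neg] at h2

open Polynomial in
theorem prime_lin_ring {D : Type*} [CommRing D] [IsDomain D] {a b : D} (ha : a ≠ 0)
    (hb : ∀ z, a ∣ b * z → a ∣ z) :
    (Ideal.span {(Polynomial.C a * Polynomial.X + Polynomial.C b : D[X])}).IsPrime := by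
  have ha' : algebraMap D (FractionRing D) a ≠ 0 := by
    rwa [Ne, map_eq_zero_iff _ (IsFractionRing.injective _ _)]
  have : Ideal.span {(Polynomial.C a * Polynomial.X + Polynomial.C b : D[X])} =
      RingHom.ker (psi a b) := by
    apply le_antisymm
    · rw [Ideal.span_le, Set.singleton_subset_iff]
      exact psi_lin ha
    · intro g hg
      obtain ⟨N, r, h⟩ := pseudo a b g
      have h1 : r = 0 := by
        have h2 : psi a b (Polynomial.C (a ^ N) * g - Polynomial.C r) = 0 := by
          obtain ⟨q, hq⟩ := Ideal.mem_span_singleton.1 h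
          rw [hq, map_mul, psi_lin ha, zero_mul]
        rw [map_sub, map_mul, (RingHom.mem_ker).1 hg, mul_zero, zero_sub, neg_eq_zero] at h2
        simp only [psi, coe_eval₂RingHom, Polynomial.eval₂_C] at h2
        rwa [map_eq_zero_iff _ (IsFractionRing.injective _ _)] at h2
      rw [h1, Polynomial.C_0, sub_zero] at h
      clear h1
      induction N with
      | zero => simpa using h
      | succ N ih =>
        apply ih
        apply nzd hb (fun z hz => (mul_eq_zero.1 hz).resolve_left ha)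
        rw [← mul_assoc, ← Polynomial.C_mul, ← pow_succ']
        exact h
  rw [this]
  exact RingHom.ker_isPrime _

end ring

variable {σ : Type*} {K : Type*} [Field K]

/-- `p` does not involve the variables of `V` -/
def Free (V : Set σ) (p : MvPolynomial σ K) : Prop := p ∈ supported K Vᶜ

/-- `I` is generated by polynomials not involving the variables of `V` -/
def Away (V : Set σ) (I : Ideal (MvPolynomial σ K)) : Prop :=
  ∃ G : Set (MvPolynomial σ K), (∀ g ∈ G, Free V g) ∧ I = Ideal.span G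

section free
variable {V V' : Set σ} {p q : MvPolynomial σ K}

lemma Free.add (hp : Free V p) (hq : Free V q) : Free V (p + q) := Subalgebra.add_mem _ hp hq
lemma Free.sub (hp : Free V p) (hq : Free V q) : Free V (p - q) := Subalgebra.sub_mem _ hp hq
lemma Free.mul (hp : Free V p) (hq : Free V q) : Free V (p * q) := Subalgebra.mul_mem _ hp hq
lemma Free.neg (hp : Free V p) : Free V (-p) := Subalgebra.neg_mem _ hp
lemma Free.zero : Free V (0 : MvPolynomial σ K) := Subalgebra.zero_mem _
lemma Free.sum {ι : Type*} (s : Finset ι) (f : ι → MvPolynomial σ K) (h : ∀ i ∈ s, Free V (f i)) :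
    Free V (∑ i ∈ s, f i) := Subalgebra.sum_mem _ h
lemma Free.var {i : σ} (h : i ∉ V) : Free V (X i : MvPolynomial σ K) := by
  rw [Free, X_mem_supported]; exact h
lemma Free.mono (h : V' ⊆ V) (hp : Free V p) : Free V' p :=
  supported_mono (Set.compl_subset_compl.2 h) hp

/-- two ring homomorphisms that agree off `V` agree on `p` -/
lemma Free.congr {R : Type*} [CommRing R] (hp : Free V p) {f g : MvPolynomial σ K →+* R}
    (hC : f.comp C = g.comp C) (hX : ∀ i, i ∉ V → f (X i) = g (X i)) : f p = g p := by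
  apply hom_congr_vars hC _ rfl
  intro i hi _
  apply hX
  exact mem_supported.1 hp hi

end free

section away
variable {V V' : Set σ} {I J : Ideal (MvPolynomial σ K)}

lemma Away.mono (h : V' ⊆ V) (hI : Away V I) : Away V' I := by
  obtain ⟨G, hG, rfl⟩ := hI
  exact ⟨G, fun g hg => (hG g hg).mono h, rfl⟩

lemma Away.bot : Away V (⊥ : Ideal (MvPolynomial σ K)) := ⟨∅, by simp, by simp⟩

lemma Away.sup (hI : Away V I) (hJ : Away V J) : Away V (I ⊔ J) := by
  obtain ⟨G, hG, rfl⟩ := hI
  obtain ⟨G', hG', rfl⟩ := hJ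
  refine ⟨G ∪ G', ?_, (Ideal.span_union G G').symm⟩
  rintro g (hg | hg)
  exacts [hG g hg, hG' g hg]

lemma Away.span_singleton {p : MvPolynomial σ K} (hp : Free V p) : Away V (Ideal.span {p}) :=
  ⟨{p}, by rintro g rfl; exact hp, rfl⟩

/-- A ring homomorphism that agrees with the quotient map off `V` kills `I`. -/
lemma Away.kill {R : Type*} [CommRing R] (hI : Away V I) {f g : MvPolynomial σ K →+* R}
    (hC : f.comp C = g.comp C) (hX : ∀ i, i ∉ V → f (X i) = g (X i)) (hg : I ≤ RingHom.ker g) :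
    I ≤ RingHom.ker f := by
  obtain ⟨G, hG, rfl⟩ := hI
  rw [Ideal.span_le]
  intro p hp
  rw [SetLike.mem_coe, RingHom.mem_ker, (hG p hp).congr hC hX]
  exact hg (Ideal.subset_span hp)

end away

open Classical in
/-- substitution of the constant `c` for the variable `z` -/
noncomputable def sb (z : σ) (c : K) : MvPolynomial σ K →ₐ[K] MvPolynomial σ K :=
  aeval (fun s => if s = z then C c else X s)

lemma sb_X_self (z : σ) (c : K) : sb z c (X z) = C c := by simp [sb]
lemma sb_X_ne {z s : σ} (h : s ≠ z) (c : K) : sb z c (X s) = X s := by simp [sb, h]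

lemma sb_free {z : σ} {c : K} {p : MvPolynomial σ K} (hp : Free {z} p) : sb z c p = p := by
  have := hp.congr (f := (sb z c : MvPolynomial σ K →+* MvPolynomial σ K)) (g := RingHom.id _)
    (by ext; simp) (by
      intro i hi
      simp only [RingHom.id_apply, RingHom.coe_coe]
      exact sb_X_ne (by simpa using hi) c)
  simpa using this

lemma sb_le {z : σ} {c : K} {I : Ideal (MvPolynomial σ K)} (hI : Away {z} I) :
    I ≤ I.comap (sb z c) := by
  obtain ⟨G, hG, rfl⟩ := hI
  rw [Ideal.span_le]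
  intro p hp
  rw [SetLike.mem_coe, Ideal.mem_comap, sb_free (hG p hp)]
  exact Ideal.subset_span hp

lemma sub_sb_mem (z : σ) (p : MvPolynomial σ K) : p - sb z (0 : K) p ∈ Ideal.span {(X z : MvPolynomial σ K)} := by
  induction p using MvPolynomial.induction_on with
  | C a => simp
  | add p q hp hq =>
    rw [map_add]
    have : p + q - (sb z 0 p + sb z 0 q) = (p - sb z 0 p) + (q - sb z 0 q) := by ring
    rw [this]
    exact Ideal.add_mem _ hp hq
  | mul_X p s hp =>
    rw [map_mul]
    by_cases hs : s = z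
    · subst hs
      rw [sb_X_self, map_zero, mul_zero, sub_zero]
      exact Ideal.mul_mem_left _ _ (Ideal.mem_span_singleton_self _)
    · rw [sb_X_ne hs, ← sub_mul]
      exact Ideal.mul_mem_right _ _ hp

/-- adding a new variable to an ideal -/
lemma sup_X_eq {z : σ} {I : Ideal (MvPolynomial σ K)} (hI : Away {z} I) :
    I ⊔ Ideal.span {X z} = I.comap (sb z (0 : K)) := by
  apply le_antisymm
  · apply sup_le (sb_le hI)
    rw [Ideal.span_le, Set.singleton_subset_iff, SetLike.mem_coe, Ideal.mem_comap, sb_X_self,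
      map_zero]
    exact Ideal.zero_mem _
  · intro p hp
    have : p = sb z (0 : K) p + (p - sb z (0 : K) p) := by ring
    rw [this]
    exact Ideal.add_mem _ (Ideal.mem_sup_left hp) (Ideal.mem_sup_right (sub_sb_mem z p))

lemma sup_X_prime {z : σ} {I : Ideal (MvPolynomial σ K)} (hI : Away {z} I) (hp : I.IsPrime) :
    (I ⊔ Ideal.span {X z}).IsPrime := by
  rw [sup_X_eq hI]
  exact Ideal.IsPrime.comap _

lemma notMem_sup_X {z : σ} {I : Ideal (MvPolynomial σ K)} (hI : Away {z} I)
    {b : MvPolynomial σ K} (hb : Free {z} b) (h : b ∉ I) : b ∉ I ⊔ Ideal.span {X z} := by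
  rw [sup_X_eq hI, Ideal.mem_comap, sb_free hb]
  exact h

lemma X_notMem {z : σ} {I : Ideal (MvPolynomial σ K)} (hI : Away {z} I) (hp : I.IsPrime) :
    (X z : MvPolynomial σ K) ∉ I := by
  intro h
  have h1 := sb_le (c := (1 : K)) hI h
  rw [Ideal.mem_comap, sb_X_self, map_one] at h1
  exact hp.ne_top (Ideal.eq_top_of_isUnit_mem _ h1 isUnit_one)

section lin
variable {I : Ideal (MvPolynomial σ K)} {y : σ} {a b : MvPolynomial σ K}

open Classical in
/-- the map to the polynomial ring over the quotient -/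
noncomputable def Phi {D : Type*} [CommRing D] (q : MvPolynomial σ K →+* D) (y : σ) :
    MvPolynomial σ K →+* Polynomial D :=
  eval₂Hom ((Polynomial.C : D →+* Polynomial D).comp (q.comp C))
    (fun s => if s = y then Polynomial.X else Polynomial.C (q (X s)))

section phi
variable {D : Type*} [CommRing D] {q : MvPolynomial σ K →+* D}

lemma Phi_y : Phi q y (X y) = Polynomial.X := by simp [Phi]

lemma Phi_C (c : K) : Phi q y (C c) = Polynomial.C (q (C c)) := by
  simp [Phi]

lemma Phi_X {i : σ} (hi : i ≠ y) : Phi q y (X i) = Polynomial.C (q (X i)) := by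
  simp [Phi, hi]

lemma Phi_free {p : MvPolynomial σ K} (hp : Free {y} p) :
    Phi q y p = Polynomial.C (q p) := by
  have := hp.congr (f := Phi q y) (g := (Polynomial.C : D →+* Polynomial D).comp q)
    (by ext c; rw [RingHom.comp_apply, Phi_C]; rfl) (by
      intro i hi
      have : i ≠ y := by simpa using hi
      rw [Phi_X this]; rfl)
  rw [this]; rfl

lemma Phi_kill (hI : Away {y} I) (hq : I ≤ RingHom.ker q) : I ≤ RingHom.ker (Phi q y) := by
  apply hI.kill (g := (Polynomial.C : D →+* Polynomial D).comp q)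
  · ext c; rw [RingHom.comp_apply, Phi_C]; rfl
  · intro i hi
    have : i ≠ y := by simpa using hi
    rw [Phi_X this]; rfl
  · intro x hx
    rw [RingHom.mem_ker, RingHom.comp_apply, (RingHom.mem_ker).1 (hq hx), map_zero]

lemma Phi_lin (ha : Free {y} a) (hb : Free {y} b) : Phi q y (a * X y + b) =
    Polynomial.C (q a) * Polynomial.X + Polynomial.C (q b) := by
  rw [map_add, map_mul, Phi_y, Phi_free ha, Phi_free hb]

lemma Phi_ge {E : Type*} [CommRing E] (hqs : Function.Surjective q)
    {q' : MvPolynomial σ K →+* E} (hqq' : RingHom.ker q ≤ RingHom.ker q')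
    (ha : Free {y} a) (hb : Free {y} b) (hf : q' (a * X y + b) = 0) {x : MvPolynomial σ K}
    (hx : Phi q y x ∈ Ideal.span {(Polynomial.C (q a) * Polynomial.X + Polynomial.C (q b))}) :
    q' x = 0 := by
  let r : D →+* E := (q.liftOfSurjective hqs) ⟨q', hqq'⟩
  have hr : ∀ z, r (q z) = q' z := fun z =>
    RingHom.liftOfRightInverse_comp_apply _ _ _ ⟨q', hqq'⟩ z
  let χ : Polynomial D →+* E := Polynomial.eval₂RingHom r (q' (X y))
  have hχC : ∀ z, χ (Polynomial.C (q z)) = q' z := by
    intro z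
    simp only [χ, Polynomial.coe_eval₂RingHom, Polynomial.eval₂_C]
    exact hr z
  have hχΦ : χ.comp (Phi q y) = q' := by
    apply MvPolynomial.ringHom_ext
    · intro c
      rw [RingHom.comp_apply, Phi_C, hχC]
    · intro i
      by_cases hi : i = y
      · subst hi
        rw [RingHom.comp_apply, Phi_y]
        simp [χ]
      · rw [RingHom.comp_apply, Phi_X hi, hχC]
  have hχT : Ideal.span {(Polynomial.C (q a) * Polynomial.X + Polynomial.C (q b))} ≤
      RingHom.ker χ := by
    rw [Ideal.span_le, Set.singleton_subset_iff, SetLike.mem_coe, RingHom.mem_ker,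
      ← Phi_lin ha hb, ← RingHom.comp_apply, hχΦ, hf]
  rw [← hχΦ, RingHom.comp_apply]
  exact hχT hx

end phi

lemma lin_eq (hI : Away {y} I) (ha : Free {y} a) (hb : Free {y} b) :
    I ⊔ Ideal.span {a * X y + b} = (Ideal.span {(Polynomial.C (Ideal.Quotient.mk I a) *
      Polynomial.X + Polynomial.C (Ideal.Quotient.mk I b))}).comap
        (Phi (Ideal.Quotient.mk I) y) := by
  apply le_antisymm
  · apply sup_le
    · intro x hx
      have h1 := Phi_kill (q := Ideal.Quotient.mk I) hI (by rw [Ideal.mk_ker]) hx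
      rw [Ideal.mem_comap, (RingHom.mem_ker).1 h1]
      exact Ideal.zero_mem _
    · rw [Ideal.span_le, Set.singleton_subset_iff, SetLike.mem_coe, Ideal.mem_comap,
        Phi_lin ha hb]
      exact Ideal.mem_span_singleton_self _
  · intro x hx
    rw [Ideal.mem_comap] at hx
    apply Ideal.Quotient.eq_zero_iff_mem.1
    apply Phi_ge Ideal.Quotient.mk_surjective _ ha hb _ hx
    · rw [Ideal.mk_ker, Ideal.mk_ker]
      exact le_sup_left
    · exact Ideal.Quotient.eq_zero_iff_mem.2
        (Ideal.mem_sup_right (Ideal.mem_span_singleton_self _))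

lemma dvd_mk_iff {R : Type*} [CommRing R] {I : Ideal R} {a w : R} :
    Ideal.Quotient.mk I a ∣ Ideal.Quotient.mk I w ↔ w ∈ I ⊔ Ideal.span {a} := by
  constructor
  · rintro ⟨u, hu⟩
    obtain ⟨u, rfl⟩ := Ideal.Quotient.mk_surjective u
    rw [← map_mul, Ideal.Quotient.eq] at hu
    have : w = (w - a * u) + a * u := by ring
    rw [this]
    exact Ideal.add_mem _ (Ideal.mem_sup_left hu) (Ideal.mem_sup_right
      (Ideal.mem_span_singleton.2 ⟨u, rfl⟩))
  · intro hw
    obtain ⟨i, hi, v, hv, rfl⟩ := Submodule.mem_sup.1 hw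
    obtain ⟨u, rfl⟩ := Ideal.mem_span_singleton.1 hv
    rw [map_add, Ideal.Quotient.eq_zero_iff_mem.2 hi, zero_add, map_mul]
    exact ⟨_, rfl⟩

lemma lin_prime_quot {R : Type*} [CommRing R] {I : Ideal R} {a b : R} (hp : I.IsPrime)
    (haI : a ∉ I) (h : (I ⊔ Ideal.span {a}).IsPrime) (hbI : b ∉ I ⊔ Ideal.span {a}) :
    (Ideal.span {(Polynomial.C (Ideal.Quotient.mk I a) *
      Polynomial.X + Polynomial.C (Ideal.Quotient.mk I b))}).IsPrime := by
  have : IsDomain (R ⧸ I) := Ideal.Quotient.isDomain I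
  apply prime_lin_ring
  · rwa [Ne, Ideal.Quotient.eq_zero_iff_mem]
  · intro z
    obtain ⟨z, rfl⟩ := Ideal.Quotient.mk_surjective z
    rw [← map_mul, dvd_mk_iff, dvd_mk_iff]
    intro hz
    exact (h.mem_or_mem hz).resolve_left hbI

/-- adding a linear equation in a new variable -/
theorem lin_prime (hI : Away {y} I) (hp : I.IsPrime) (ha : Free {y} a) (hb : Free {y} b)
    (haI : a ∉ I) (h : (I ⊔ Ideal.span {a}).IsPrime) (hbI : b ∉ I ⊔ Ideal.span {a}) :
    (I ⊔ Ideal.span {a * X y + b}).IsPrime := by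
  rw [lin_eq hI ha hb]
  have := lin_prime_quot hp haI h hbI
  exact Ideal.IsPrime.comap _

lemma lin_notMem (hI : Away {y} I) (ha : Free {y} a) (hb : Free {y} b)
    (haI : a ∉ I) : a * X y + b ∉ I := by
  intro hm
  have h2 := Phi_kill (q := Ideal.Quotient.mk I) hI (by rw [Ideal.mk_ker]) hm
  rw [RingHom.mem_ker, Phi_lin ha hb] at h2
  have h3 := congrArg (fun p => Polynomial.coeff p 1) h2
  simp only [Polynomial.coeff_add, Polynomial.coeff_C_mul, Polynomial.coeff_X_one, mul_one,
    Polynomial.coeff_C, one_ne_zero, if_false, add_zero, Polynomial.coeff_zero] at h3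
  exact haI (Ideal.Quotient.eq_zero_iff_mem.1 h3)

end lin

/-- adding the equation `X z * X y + b` with `z`, `y` new -/
theorem fresh {I : Ideal (MvPolynomial σ K)} {y z : σ} {b : MvPolynomial σ K} (hyz : z ≠ y)
    (hI : Away {y, z} I) (hp : I.IsPrime) (hb : Free {y, z} b) (hbI : b ∉ I) :
    (I ⊔ Ideal.span {X z * X y + b}).IsPrime ∧ X z * X y + b ∉ I := by
  have hIy : Away {y} I := hI.mono (by simp)
  have hIz : Away {z} I := hI.mono (by simp)
  have hby : Free {y} b := hb.mono (by simp)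
  have hbz : Free {z} b := hb.mono (by simp)
  have hz : Free {y} (X z : MvPolynomial σ K) := Free.var (by simpa using hyz)
  have h1 := X_notMem hIz hp
  exact ⟨lin_prime hIy hp hz hby h1 (sup_X_prime hIz hp) (notMem_sup_X hIz hbz hbI),
    lin_notMem hIy hz hby h1⟩

lemma sup_span_right {R : Type*} [CommRing R] (I : Ideal R) (u v Δ : R) :
    I ⊔ Ideal.span {u * v + Δ} ⊔ Ideal.span {v} = I ⊔ Ideal.span {Δ} ⊔ Ideal.span {v} := by
  apply le_antisymm
  · refine sup_le (sup_le (le_sup_of_le_left le_sup_left) ?_) le_sup_right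
    rw [Ideal.span_le, Set.singleton_subset_iff]
    exact Ideal.add_mem _ (Ideal.mul_mem_left _ _ (Ideal.mem_sup_right
      (Ideal.mem_span_singleton_self _))) (Ideal.mem_sup_left (Ideal.mem_sup_right
      (Ideal.mem_span_singleton_self _)))
  · refine sup_le (sup_le (le_sup_of_le_left le_sup_left) ?_) le_sup_right
    rw [Ideal.span_le, Set.singleton_subset_iff]
    have h := Ideal.sub_mem (I ⊔ Ideal.span {u * v + Δ} ⊔ Ideal.span {v})
      (Ideal.mem_sup_left (Ideal.mem_sup_right (Ideal.mem_span_singleton_self (u * v + Δ))))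
      (Ideal.mul_mem_left _ u (Ideal.mem_sup_right (Ideal.mem_span_singleton_self v)))
    rwa [add_sub_cancel_left] at h

lemma sup_span_left {R : Type*} [CommRing R] (I : Ideal R) (u v Δ : R) :
    I ⊔ Ideal.span {u * v + Δ} ⊔ Ideal.span {u} = I ⊔ Ideal.span {Δ} ⊔ Ideal.span {u} := by
  rw [mul_comm u v]
  exact sup_span_right I v u Δ

lemma block_aux1 {R : Type*} [CommRing R] (I : Ideal R) (x y ξ Δ b : R) :
    I ⊔ Ideal.span {Δ} ⊔ Ideal.span {x} ⊔ Ideal.span {y * ξ + b} ≤
      (I ⊔ Ideal.span {Δ} ⊔ Ideal.span {b}) ⊔ Ideal.span {x} ⊔ Ideal.span {y} := by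
  refine sup_le (sup_le (sup_le ?_ ?_) ?_) ?_
  · exact le_sup_of_le_left (le_sup_of_le_left (le_sup_of_le_left le_sup_left))
  · exact le_sup_of_le_left (le_sup_of_le_left (le_sup_of_le_left le_sup_right))
  · exact le_sup_of_le_left le_sup_right
  · rw [Ideal.span_le, Set.singleton_subset_iff]
    apply Ideal.add_mem
    · exact Ideal.mul_mem_right _ _ (Ideal.mem_sup_right (Ideal.mem_span_singleton_self _))
    · exact Ideal.mem_sup_left (Ideal.mem_sup_left (Ideal.mem_sup_right
        (Ideal.mem_span_singleton_self _)))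

lemma block_aux2 {R : Type*} [CommRing R] (I : Ideal R) (x y ξ Δ b : R) :
    I ⊔ Ideal.span {x * y + Δ} ⊔ Ideal.span {y * ξ + b} ≤
      (I ⊔ Ideal.span {Δ} ⊔ Ideal.span {b}) ⊔ Ideal.span {y} := by
  refine sup_le (sup_le ?_ ?_) ?_
  · exact le_sup_of_le_left (le_sup_of_le_left le_sup_left)
  · rw [Ideal.span_le, Set.singleton_subset_iff]
    apply Ideal.add_mem
    · exact Ideal.mul_mem_left _ _ (Ideal.mem_sup_right (Ideal.mem_span_singleton_self _))
    · exact Ideal.mem_sup_left (Ideal.mem_sup_left (Ideal.mem_sup_right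
        (Ideal.mem_span_singleton_self _)))
  · rw [Ideal.span_le, Set.singleton_subset_iff]
    apply Ideal.add_mem
    · exact Ideal.mul_mem_right _ _ (Ideal.mem_sup_right (Ideal.mem_span_singleton_self _))
    · exact Ideal.mem_sup_left (Ideal.mem_sup_right (Ideal.mem_span_singleton_self _))

/-- The block step: `x y + Δ`, `y ξ + b`, `x η + b'`. -/
theorem block {I : Ideal (MvPolynomial σ K)} {x y ξ η : σ} {Δ b b' : MvPolynomial σ K}
    (hxy : x ≠ y) (hxξ : x ≠ ξ) (hxη : x ≠ η) (hyξ : y ≠ ξ) (hyη : y ≠ η) (hξη : ξ ≠ η)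
    (hI : Away {x, y, ξ, η} I) (hp : I.IsPrime) (hΔf : Free {x, y, ξ, η} Δ)
    (hbf : Free {x, y, ξ, η} b) (hbf' : Free {x, y, ξ, η} b')
    (hΔ : Δ ∉ I) (hpΔ : (I ⊔ Ideal.span {Δ}).IsPrime) (hb : b ∉ I ⊔ Ideal.span {Δ})
    (hb' : b' ∉ I ⊔ Ideal.span {Δ} ⊔ Ideal.span {b}) :
    ((I ⊔ Ideal.span {X x * X y + Δ}).IsPrime ∧ X x * X y + Δ ∉ I) ∧
    ((I ⊔ Ideal.span {X x * X y + Δ} ⊔ Ideal.span {X y * X ξ + b}).IsPrime ∧
      X y * X ξ + b ∉ I ⊔ Ideal.span {X x * X y + Δ}) ∧
    ((I ⊔ Ideal.span {X x * X y + Δ} ⊔ Ideal.span {X y * X ξ + b} ⊔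
        Ideal.span {X x * X η + b'}).IsPrime ∧
      X x * X η + b' ∉ I ⊔ Ideal.span {X x * X y + Δ} ⊔ Ideal.span {X y * X ξ + b}) := by
  have h1 := fresh hxy (hI.mono (V' := {y, x}) (by simp [Set.insert_subset_iff])) hp (hΔf.mono (by simp [Set.insert_subset_iff])) hΔ
  have eqs_y := sup_span_right I (X x) (X y) Δ
  have eqs_x := sup_span_left I (X x) (X y) Δ
  -- free conditions
  have hΔy : Free {y} Δ := hΔf.mono (by simp [Set.insert_subset_iff])
  have hΔξη : Free {ξ, η} Δ := hΔf.mono (by simp [Set.insert_subset_iff])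
  have fyx : Free {x} (X y : MvPolynomial σ K) := Free.var (by simpa using hxy.symm)
  have fxy : Free {y} (X x : MvPolynomial σ K) := Free.var (by simpa using hxy)
  have fxξη : Free {ξ, η} (X x : MvPolynomial σ K) := Free.var (by simp [hxξ, hxη])
  have fyξη : Free {ξ, η} (X y : MvPolynomial σ K) := Free.var (by simp [hyξ, hyη])
  have fξη : Free {η} (X ξ : MvPolynomial σ K) := Free.var (by simp [hξη])
  have hIΔ : Away {x, y, ξ, η} (I ⊔ Ideal.span {Δ}) := hI.sup (Away.span_singleton hΔf)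
  have hIΔx : Away {x} (I ⊔ Ideal.span {Δ}) := hIΔ.mono (by simp [Set.insert_subset_iff])
  have hIΔy : Away {y} (I ⊔ Ideal.span {Δ}) := hIΔ.mono (by simp [Set.insert_subset_iff])
  have hIΔx' : Away {y, ξ, η} (I ⊔ Ideal.span {Δ} ⊔ Ideal.span {X x}) :=
    (hIΔ.mono (by simp [Set.insert_subset_iff])).sup (Away.span_singleton (Free.var (by simp [hxy, hxξ, hxη])))
  have hIΔb : Away {x, y} (I ⊔ Ideal.span {Δ} ⊔ Ideal.span {b}) :=
    (hIΔ.mono (by simp [Set.insert_subset_iff])).sup (Away.span_singleton (hbf.mono (by simp [Set.insert_subset_iff])))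
  have hI1 : Away {ξ, η} (I ⊔ Ideal.span {X x * X y + Δ}) :=
    (hI.mono (by simp [Set.insert_subset_iff])).sup (Away.span_singleton ((fxξη.mul fyξη).add hΔξη))
  have hI2 : Away {η} (I ⊔ Ideal.span {X x * X y + Δ} ⊔ Ideal.span {X y * X ξ + b}) :=
    (hI1.mono (by simp [Set.insert_subset_iff])).sup (Away.span_singleton (((fyξη.mono (by simp [Set.insert_subset_iff])).mul fξη).add (hbf.mono (by simp [Set.insert_subset_iff]))))
  have hyI1 : (X y : MvPolynomial σ K) ∉ I ⊔ Ideal.span {X x * X y + Δ} := by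
    intro h
    have h2 : (X y : MvPolynomial σ K) ∈ I ⊔ Ideal.span {Δ} ⊔ Ideal.span {X x} := by
      rw [← eqs_x]; exact Ideal.mem_sup_left h
    exact notMem_sup_X hIΔx fyx (X_notMem hIΔy hpΔ) h2
  have hpy : (I ⊔ Ideal.span {X x * X y + Δ} ⊔ Ideal.span {X y}).IsPrime := by
    rw [eqs_y]
    exact sup_X_prime hIΔy hpΔ
  have hby : b ∉ I ⊔ Ideal.span {X x * X y + Δ} ⊔ Ideal.span {X y} := by
    rw [eqs_y]
    exact notMem_sup_X hIΔy (hbf.mono (by simp [Set.insert_subset_iff])) hb
  have h2 : (I ⊔ Ideal.span {X x * X y + Δ} ⊔ Ideal.span {X y * X ξ + b}).IsPrime :=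
    lin_prime (hI1.mono (by simp [Set.insert_subset_iff])) h1.1 (fyξη.mono (by simp [Set.insert_subset_iff])) (hbf.mono (by simp [Set.insert_subset_iff])) hyI1 hpy hby
  have h2' : X y * X ξ + b ∉ I ⊔ Ideal.span {X x * X y + Δ} :=
    lin_notMem (hI1.mono (by simp [Set.insert_subset_iff])) (fyξη.mono (by simp [Set.insert_subset_iff])) (hbf.mono (by simp [Set.insert_subset_iff])) hyI1
  have eq2 : I ⊔ Ideal.span {X x * X y + Δ} ⊔ Ideal.span {X y * X ξ + b} ⊔ Ideal.span {X x} =
      (I ⊔ Ideal.span {Δ} ⊔ Ideal.span {X x}) ⊔ Ideal.span {X y * X ξ + b} := by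
    rw [← eqs_x, sup_assoc _ (Ideal.span {X y * X ξ + b}),
      sup_comm (Ideal.span {X y * X ξ + b}), ← sup_assoc]
  have hpΔx : (I ⊔ Ideal.span {Δ} ⊔ Ideal.span {X x}).IsPrime := sup_X_prime hIΔx hpΔ
  have hbΔx : b ∉ (I ⊔ Ideal.span {Δ} ⊔ Ideal.span {X x}) :=
    notMem_sup_X hIΔx (hbf.mono (by simp [Set.insert_subset_iff])) hb
  have hpx : (I ⊔ Ideal.span {X x * X y + Δ} ⊔ Ideal.span {X y * X ξ + b} ⊔
      Ideal.span {X x}).IsPrime := by
    rw [eq2]
    exact (fresh hyξ (hIΔx'.mono (by simp [Set.insert_subset_iff])) hpΔx (hbf.mono (by simp [Set.insert_subset_iff])) hbΔx).1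
  have hbf'x : Free {x} b' := hbf'.mono (by simp [Set.insert_subset_iff])
  have hbf'y : Free {y} b' := hbf'.mono (by simp [Set.insert_subset_iff])
  have hbx : b' ∉ I ⊔ Ideal.span {X x * X y + Δ} ⊔ Ideal.span {X y * X ξ + b} ⊔
      Ideal.span {X x} := by
    rw [eq2]
    intro hm
    have h7 := block_aux1 I (X x) (X y) (X ξ) Δ b hm
    revert h7
    apply notMem_sup_X _ hbf'y (notMem_sup_X (hIΔb.mono (by simp [Set.insert_subset_iff])) hbf'x hb')
    exact (hIΔb.mono (by simp [Set.insert_subset_iff])).sup (Away.span_singleton fxy)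
  have hxI2 : (X x : MvPolynomial σ K) ∉
      I ⊔ Ideal.span {X x * X y + Δ} ⊔ Ideal.span {X y * X ξ + b} := by
    intro h
    have h9 := block_aux2 I (X x) (X y) (X ξ) Δ b h
    have h10 : Away {x} ((I ⊔ Ideal.span {Δ} ⊔ Ideal.span {b}) ⊔ Ideal.span {X y}) :=
      (hIΔb.mono (by simp [Set.insert_subset_iff])).sup (Away.span_singleton fyx)
    have h11 := sb_le (c := (1 : K)) h10 h9
    rw [Ideal.mem_comap, sb_X_self, map_one] at h11
    have h13 : b' ∉ (I ⊔ Ideal.span {Δ} ⊔ Ideal.span {b}) ⊔ Ideal.span {X y} :=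
      notMem_sup_X (hIΔb.mono (by simp [Set.insert_subset_iff])) hbf'y hb'
    apply h13
    have h14 := Ideal.mul_mem_left _ b' h11
    rwa [mul_one] at h14
  refine ⟨h1, ⟨h2, h2'⟩, ?_, ?_⟩
  · exact lin_prime hI2 h2 (fxξη.mono (by simp [Set.insert_subset_iff])) (hbf'.mono (by simp [Set.insert_subset_iff])) hxI2 hpx hbx
  · exact lin_notMem hI2 (fxξη.mono (by simp [Set.insert_subset_iff])) (hbf'.mono (by simp [Set.insert_subset_iff])) hxI2

end R831.Lin
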