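import Pool.Agent.R831.Hyper
import Pool.Agent.R831.Lin

/-!
Bilinear forms in two sets of variables: primeness of the ideal generated by a list of bilinear
forms follows from that of the list obtained by setting some of the variables to zero, if this
second list is built up through prime ideals.
-/

namespace R831.Kill

open MvPolynomial R831.Deform R831.Hyper R831.Lin

/-- each element of the list (read from the right) is outside the ideal of the previous ones and
generates a prime ideal together with them -/
def Good {R : Type*} [CommRing R] : List R → Prop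
  | [] => True
  | f :: l => Good l ∧ f ∉ Ideal.ofList l ∧ (Ideal.ofList (f :: l)).IsPrime

lemma ofList_append_reg {R : Type*} [CommRing R] (l : List R) (f : R) (j : ℕ) (hj : j ≤ l.length) :
    idl (seq id (l ++ [f])) j = idl (seq id l) j := by
  rw [idl_seq _ _ (by simp; omega), idl_seq _ _ hj, List.take_append_of_le_length hj]

lemma idl_length {R : Type*} [CommRing R] (l : List R) :
    idl (seq id l) l.length = Ideal.ofList l := by
  rw [idl_seq _ _ le_rfl, List.take_length, Ideal.ofList]
  congr 1
  ext x
  simp

lemma ofList_reverse {R : Type*} [CommRing R] (l : List R) :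
    Ideal.ofList l.reverse = Ideal.ofList l := by
  rw [Ideal.ofList, Ideal.ofList]
  congr 1
  ext x
  simp

lemma good_reg {R : Type*} [CommRing R] [IsDomain R] : ∀ (L : List R), Good L →
    (∀ j < L.reverse.length, ∀ x, seq id L.reverse j * x ∈ idl (seq id L.reverse) j →
      x ∈ idl (seq id L.reverse) j) ∧ (idl (seq id L.reverse) L.reverse.length).IsPrime := by
  intro L
  induction L with
  | nil =>
    intro _
    refine ⟨fun j hj => absurd hj (by simp), ?_⟩
    simp only [List.reverse_nil, List.length_nil, idl_zero]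
    exact Ideal.isPrime_bot
  | cons f l ih =>
    rintro ⟨hl, hf, hp⟩
    obtain ⟨ih1, ih2⟩ := ih hl
    constructor
    · intro j hj x hx
      rw [List.reverse_cons] at hj hx ⊢
      have hj' : j ≤ l.reverse.length := by simp at hj ⊢; omega
      rw [ofList_append_reg _ _ _ hj'] at hx ⊢
      rcases Nat.lt_or_eq_of_le hj' with h | h
      · apply ih1 j h
        rwa [seq_of_lt _ _ (by simp at hj; simpa using hj), List.getElem_append_left h,
          ← seq_of_lt id l.reverse h] at hx
      · subst h
        rw [seq_of_lt _ _ (by simp), List.getElem_concat_length rfl] at hx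
        refine (ih2.mem_or_mem hx).resolve_left ?_
        rw [idl_length, ofList_reverse]
        exact hf
    · rw [idl_length, ofList_reverse]
      exact hp

variable {K : Type*} [Field K] {α β : Type*}

/-- bilinear forms -/
noncomputable def Bil (K : Type*) [Field K] (α β : Type*) : Submodule K (MvPolynomial (α ⊕ β) K) :=
  Submodule.span K {g | ∃ a b, g = X (Sum.inl a) * X (Sum.inr b)}

open Classical in
/-- set the variables outside `k` to zero -/
noncomputable def kil {σ : Type*} (k : σ → Prop) : MvPolynomial σ K →ₐ[K] MvPolynomial σ K :=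
  aeval (fun s => if k s then X s else 0)

lemma kil_X {σ : Type*} {k : σ → Prop} {s : σ} (h : k s) : kil (K := K) k (X s) = X s := by
  simp [kil, h]

lemma kil_X' {σ : Type*} {k : σ → Prop} {s : σ} (h : ¬ k s) : kil (K := K) k (X s) = 0 := by
  simp [kil, h]

lemma mul_mem_Bil (a : α) (b : β) :
    (X (Sum.inl a) * X (Sum.inr b) : MvPolynomial (α ⊕ β) K) ∈ Bil K α β :=
  Submodule.subset_span ⟨a, b, rfl⟩

lemma mul_mem_Bil' (a : α) (b : β) :
    (X (Sum.inr b) * X (Sum.inl a) : MvPolynomial (α ⊕ β) K) ∈ Bil K α β := by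
  rw [mul_comm]; exact mul_mem_Bil a b

lemma kil_mem_Bil {k : α ⊕ β → Prop} {f : MvPolynomial (α ⊕ β) K} (hf : f ∈ Bil K α β) :
    kil k f ∈ Bil K α β := by
  induction hf using Submodule.span_induction with
  | mem x hx =>
    obtain ⟨a, b, rfl⟩ := hx
    rw [map_mul]
    by_cases h1 : k (Sum.inl a)
    · by_cases h2 : k (Sum.inr b)
      · rw [kil_X h1, kil_X h2]; exact mul_mem_Bil a b
      · rw [kil_X' h2, mul_zero]; exact Submodule.zero_mem _
    · rw [kil_X' h1, zero_mul]; exact Submodule.zero_mem _
  | zero => rw [map_zero]; exact Submodule.zero_mem _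
  | add x y _ _ hx hy => rw [map_add]; exact Submodule.add_mem _ hx hy
  | smul c x _ hx => rw [map_smul]; exact Submodule.smul_mem _ _ hx

lemma Bil_homog {f : MvPolynomial (α ⊕ β) K} (hf : f ∈ Bil K α β) : f.IsHomogeneous 2 := by
  induction hf using Submodule.span_induction with
  | mem x hx =>
    obtain ⟨a, b, rfl⟩ := hx
    exact (isHomogeneous_X _ _).mul (isHomogeneous_X _ _)
  | zero => exact isHomogeneous_zero _ _ _
  | add x y _ _ hx hy => exact hx.add hy
  | smul c x _ hx => exact (homogeneousSubmodule (α ⊕ β) K 2).smul_mem c hx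

open Classical in
/-- the weight counting killed variables -/
noncomputable def wk {σ : Type*} (k : σ → Prop) : σ → ℕ := fun s => if k s then 0 else 1

lemma kil_homog {k : α ⊕ β → Prop} {f : MvPolynomial (α ⊕ β) K} (hf : f ∈ Bil K α β) :
    IsWeightedHomogeneous (wk k) (kil k f) 0 := by
  induction hf using Submodule.span_induction with
  | mem x hx =>
    obtain ⟨a, b, rfl⟩ := hx
    rw [map_mul]
    by_cases h1 : k (Sum.inl a)
    · by_cases h2 : k (Sum.inr b)
      · rw [kil_X h1, kil_X h2]
        have := (isWeightedHomogeneous_X K (wk k) (Sum.inl a)).mul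
          (isWeightedHomogeneous_X K (wk k) (Sum.inr b))
        simpa [wk, h1, h2] using this
      · rw [kil_X' h2, mul_zero]; exact isWeightedHomogeneous_zero _ _ _
    · rw [kil_X' h1, zero_mul]; exact isWeightedHomogeneous_zero _ _ _
  | zero => rw [map_zero]; exact isWeightedHomogeneous_zero _ _ _
  | add x y _ _ hx hy => rw [map_add]; exact hx.add hy
  | smul c x _ hx =>
    rw [map_smul]
    exact (weightedHomogeneousSubmodule K (wk k) 0).smul_mem c hx

lemma sub_kil_homog {k : α ⊕ β → Prop} (hk : (∀ b, k (Sum.inr b)) ∨ ∀ a, k (Sum.inl a))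
    {f : MvPolynomial (α ⊕ β) K} (hf : f ∈ Bil K α β) :
    IsWeightedHomogeneous (wk k) (f - kil k f) 1 := by
  induction hf using Submodule.span_induction with
  | mem x hx =>
    obtain ⟨a, b, rfl⟩ := hx
    rw [map_mul]
    have hX := (isWeightedHomogeneous_X K (wk k) (Sum.inl a)).mul
          (isWeightedHomogeneous_X K (wk k) (Sum.inr b))
    by_cases h1 : k (Sum.inl a)
    · by_cases h2 : k (Sum.inr b)
      · rw [kil_X h1, kil_X h2, sub_self]
        exact isWeightedHomogeneous_zero _ _ _
      · rw [kil_X' h2, mul_zero, sub_zero]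
        simpa [wk, h1, h2] using hX
    · rw [kil_X' h1, zero_mul, sub_zero]
      have h2 : k (Sum.inr b) := by
        rcases hk with hk | hk
        · exact hk b
        · exact absurd (hk a) h1
      simpa [wk, h1, h2] using hX
  | zero => rw [map_zero, sub_zero]; exact isWeightedHomogeneous_zero _ _ _
  | add x y _ _ hx hy =>
    rw [map_add, add_sub_add_comm]; exact hx.add hy
  | smul c x _ hx =>
    rw [map_smul, ← smul_sub]
    exact (weightedHomogeneousSubmodule K (wk k) 1).smul_mem c hx

variable [Finite α] [Finite β]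

lemma kill_step {k : α ⊕ β → Prop} (hk : (∀ b, k (Sum.inr b)) ∨ ∀ a, k (Sum.inl a))
    (Ls : List (MvPolynomial (α ⊕ β) K)) (hB : ∀ f ∈ Ls, f ∈ Bil K α β)
    (hreg : ∀ j < Ls.length, ∀ x, seq (kil k) Ls j * x ∈ idl (seq (kil k) Ls) j →
      x ∈ idl (seq (kil k) Ls) j)
    (hp : (idl (seq (kil k) Ls) Ls.length).IsPrime) :
    (∀ j < Ls.length, ∀ x, seq id Ls j * x ∈ idl (seq id Ls) j →
      x ∈ idl (seq id Ls) j) ∧ (idl (seq id Ls) Ls.length).IsPrime := by
  let D : Data (seq (kil k) Ls) (seq (fun f => f - kil (K := K) k f) Ls) :=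
    dataOfList _ _ Ls (wk k) (fun _ => 0) (fun _ => 2) (fun _ => 0)
      (fun f hf => kil_homog (hB f hf)) (fun f hf => sub_kil_homog hk (hB f hf))
      (fun f hf => Bil_homog (kil_mem_Bil (hB f hf)))
      (fun f hf => (Bil_homog (hB f hf)).sub (Bil_homog (kil_mem_Bil (hB f hf))))
  have h1 := reg_lift D hreg
  have h2 := prime_lift D hreg hp
  have h3 : (fun i => seq (kil k) Ls i + seq (fun f => f - kil (K := K) k f) Ls i) = seq id Ls := by
    rw [seq_add]
    congr 1
    funext f
    simp
  have h4 : ∀ j, seq (kil k) Ls j + seq (fun f => f - kil (K := K) k f) Ls j = seq id Ls j :=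
    fun j => congrFun h3 j
  rw [h3] at h2
  refine ⟨?_, h2⟩
  intro j hj x hx
  have h5 := h1 j hj x
  rw [h3, h4] at h5
  exact h5 hx

lemma seq_map {R : Type*} [Zero R] (φ : R → R) (Ls : List R) : seq φ Ls = seq id (Ls.map φ) := by
  funext i
  simp [seq]

lemma kil_kil {σ : Type*} (k k' : σ → Prop) (f : MvPolynomial σ K) :
    kil k' (kil k f) = kil (fun s => k s ∧ k' s) f := by
  have : (kil k').comp (kil k) = kil (K := K) (fun s => k s ∧ k' s) := by
    apply MvPolynomial.algHom_ext
    intro s
    rw [AlgHom.comp_apply]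
    by_cases h : k s
    · rw [kil_X h]
      by_cases h' : k' s
      · rw [kil_X h', kil_X ⟨h, h'⟩]
      · rw [kil_X' h', kil_X' (by tauto)]
    · rw [kil_X' h, map_zero, kil_X' (by tauto)]
  rw [← this]; rfl

/-- Primeness of an ideal generated by bilinear forms from the specialised list. -/
theorem prime_of_good (k : α ⊕ β → Prop) (L : List (MvPolynomial (α ⊕ β) K))
    (hB : ∀ f ∈ L, f ∈ Bil K α β) (hG : Good (L.map (kil k))) : (Ideal.ofList L).IsPrime := by
  obtain ⟨h1, h2⟩ := good_reg _ hG
  -- first restore the `β` variables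
  let kx : α ⊕ β → Prop := fun s => Sum.elim (fun a => k (Sum.inl a)) (fun _ => True) s
  let ky : α ⊕ β → Prop := fun s => Sum.elim (fun _ => True) (fun b => k (Sum.inr b)) s
  have hk : ∀ f, kil (K := K) k f = kil ky (kil kx f) := by
    intro f
    rw [kil_kil]
    congr 2
    funext s
    rcases s with s | s <;> simp [kx, ky]
  have hmap : (L.map (kil k)).reverse = (L.reverse.map (kil kx)).map (kil ky) := by
    rw [List.map_map, ← List.map_reverse]
    apply List.map_congr_left
    intro f _
    rw [hk]
    rfl
  rw [hmap] at h1 h2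
  rw [← seq_map (kil (K := K) ky)] at h1 h2
  simp only [List.length_map] at h1 h2
  obtain ⟨h3, h4⟩ := kill_step (k := ky) (Or.inr (fun a => by simp [ky]))
    (L.reverse.map (kil kx)) (by
      intro f hf
      obtain ⟨g, hg, rfl⟩ := List.mem_map.1 hf
      exact kil_mem_Bil (hB g (List.mem_reverse.1 hg))) (by simpa using h1) (by simpa using h2)
  rw [← seq_map (kil (K := K) kx)] at h3 h4
  simp only [List.length_map] at h3 h4
  obtain ⟨_, h6⟩ := kill_step (k := kx) (Or.inl (fun a => by simp [kx]))
    L.reverse (fun f hf => hB f (List.mem_reverse.1 hf)) h3 h4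
  rwa [idl_length, ofList_reverse] at h6

end R831.Kill
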