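import Mathlib

/-!
A non-alternating Koszul-type cochain complex and regular sequences.

For a family `x : Fin n → S` and an `S`-module `M`, `Coch n p M` is the module of functions on
`p`-tuples of indices with values in `M`, with the differential
`(d c)(i_0, …, i_p) = ∑ (-1)^k x_{i_k} c(…, î_k, …)`.  Exactness in degrees `< r` is equivalent
(for finite modules over Noetherian rings) to the existence of a weakly regular sequence of length
`r` in the ideal generated by the `x_i`.
-/

set_option autoImplicit false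

namespace Pool.Agent.R831.Koszul

open RingTheory.Sequence Pointwise

/-- tuple cochains -/
abbrev Coch (n p : ℕ) (M : Type*) := (Fin p → Fin n) → M

section basic

variable {S : Type*} [CommRing S] {n : ℕ} (x : Fin n → S)
variable (M : Type*) [AddCommGroup M] [Module S M]

/-- the differential -/
def dd (p : ℕ) : Coch n p M →ₗ[S] Coch n (p + 1) M where
  toFun c := fun i => ∑ k : Fin (p + 1), (-1 : S) ^ (k : ℕ) • x (i k) •
    c (fun j => i (k.succAbove j))
  map_add' := by
    intro c c'
    funext i
    simp only [Pi.add_apply, smul_add, Finset.sum_add_distrib]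
  map_smul' := by
    intro a c
    funext i
    simp only [Pi.smul_apply, RingHom.id_apply, Finset.smul_sum]
    refine Finset.sum_congr rfl fun k _ => ?_
    rw [smul_comm (x (i k)) a, smul_comm _ a]

lemma dd_apply (p : ℕ) (c : Coch n p M) (i : Fin (p + 1) → Fin n) :
    dd x M p c i = ∑ k : Fin (p + 1), (-1 : S) ^ (k : ℕ) • x (i k) •
      c (fun j => i (k.succAbove j)) := rfl

lemma cons_succAbove {p : ℕ} (l : Fin n) (i : Fin (p + 1) → Fin n) (k : Fin (p + 1)) :
    (fun j => (Fin.cons l i : Fin (p + 2) → Fin n) (k.succ.succAbove j))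
      = (Fin.cons l (fun j => i (k.succAbove j)) : Fin (p + 1) → Fin n) := by
  funext j
  refine Fin.cases ?_ (fun j => ?_) j
  · simp
  · simp

lemma cons_succAbove_zero {p : ℕ} (l : Fin n) (i : Fin p → Fin n) :
    (fun j => (Fin.cons l i : Fin (p + 1) → Fin n) ((0 : Fin (p + 1)).succAbove j)) = i := by
  funext j
  simp

lemma dd_cons (p : ℕ) (c : Coch n (p + 1) M) (l : Fin n) (i : Fin (p + 1) → Fin n) :
    dd x M (p + 1) c (Fin.cons l i)
      = x l • c i - dd x M p (fun j => c (Fin.cons l j)) i := by
  rw [dd_apply, Fin.sum_univ_succ, cons_succAbove_zero, dd_apply, sub_eq_add_neg,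
    ← Finset.sum_neg_distrib]
  congr 1
  · simp
  · refine Finset.sum_congr rfl fun k _ => ?_
    rw [cons_succAbove, Fin.cons_succ, Fin.val_succ, pow_succ, mul_neg_one, neg_smul]

lemma dd_cons_zero (c : Coch n 0 M) (l : Fin n) (i : Fin 0 → Fin n) :
    dd x M 0 c (Fin.cons l i) = x l • c i := by
  rw [dd_apply, Fin.sum_univ_succ, cons_succAbove_zero]
  simp

omit [AddCommGroup M] in
lemma ext_cons {p : ℕ} (c c' : Coch n (p + 1) M)
    (h : ∀ l i, c (Fin.cons l i) = c' (Fin.cons l i)) : c = c' := by
  funext i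
  have := h (i 0) (Fin.tail i)
  rwa [Fin.cons_self_tail] at this

lemma dd_dd (p : ℕ) (c : Coch n p M) : dd x M (p + 1) (dd x M p c) = 0 := by
  induction p with
  | zero =>
    refine ext_cons M _ _ fun l i => ?_
    rw [dd_cons]
    have h1 : (fun j => dd x M 0 c (Fin.cons l j)) = x l • c := by
      funext j
      rw [dd_cons_zero]
      rfl
    rw [h1, map_smul]
    simp
  | succ p ih =>
    refine ext_cons M _ _ fun l i => ?_
    rw [dd_cons]
    have h1 : (fun j => dd x M (p + 1) c (Fin.cons l j))
        = x l • c - dd x M p (fun j => c (Fin.cons l j)) := by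
      funext j
      rw [dd_cons]
      rfl
    rw [h1, map_sub, map_smul, ih]
    simp

lemma dd_map {N : Type*} [AddCommGroup N] [Module S N] (f : M →ₗ[S] N) (p : ℕ)
    (c : Coch n p M) : dd x N p (fun i => f (c i)) = fun i => f (dd x M p c i) := by
  funext i
  rw [dd_apply, dd_apply, map_sum]
  refine Finset.sum_congr rfl fun k _ => ?_
  rw [map_smul, map_smul]

/-- exactness in degree `p` -/
def Ex : ℕ → Prop
  | 0 => ∀ c : Coch n 0 M, dd x M 0 c = 0 → c = 0
  | p + 1 => ∀ c : Coch n (p + 1) M, dd x M (p + 1) c = 0 → ∃ b, dd x M p b = c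

/-- the homotopy for `y = ∑ a_l x_l` -/
lemma homotopy (a : Fin n → S) (p : ℕ) (c : Coch n (p + 1) M)
    (hc : dd x M (p + 1) c = 0) :
    dd x M p (fun j => ∑ l, a l • c (Fin.cons l j)) = (∑ l, a l * x l) • c := by
  have h1 : (fun j => ∑ l, a l • c (Fin.cons l j))
      = ∑ l, a l • (fun j => c (Fin.cons l j)) := by
    funext j
    simp [Finset.sum_apply]
  have h2 : ∀ l, dd x M p (fun j => c (Fin.cons l j)) = x l • c := by
    intro l
    funext i
    have := dd_cons x M p c l i
    rw [hc] at this
    rw [Pi.smul_apply]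
    exact (sub_eq_zero.mp this.symm).symm
  rw [h1, map_sum]
  simp_rw [map_smul, h2]
  rw [Finset.sum_smul]
  refine Finset.sum_congr rfl fun l _ => ?_
  rw [smul_smul]

variable {M}

lemma mem_of_mk_eq_zero (y : S) (m : M)
    (h : (Submodule.mkQ (y • (⊤ : Submodule S M))) m = 0) : ∃ m', y • m' = m := by
  rw [Submodule.mkQ_apply, Submodule.Quotient.mk_eq_zero] at h
  obtain ⟨m', -, hm'⟩ := (Submodule.mem_smul_pointwise_iff_exists _ _ _).mp h
  exact ⟨m', hm'⟩

lemma mk_smul_eq_zero (y : S) (m : M) :
    (Submodule.mkQ (y • (⊤ : Submodule S M))) (y • m) = 0 := by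
  rw [Submodule.mkQ_apply, Submodule.Quotient.mk_eq_zero]
  exact (Submodule.mem_smul_pointwise_iff_exists _ _ _).mpr ⟨m, trivial, rfl⟩

lemma coch_div (y : S) {p : ℕ} (w : Coch n p M)
    (h : (fun i => (Submodule.mkQ (y • (⊤ : Submodule S M))) (w i)) = 0) :
    ∃ w' : Coch n p M, w = y • w' := by
  have := fun i => mem_of_mk_eq_zero y (w i) (congrFun h i)
  choose w' hw' using this
  exact ⟨w', by funext i; rw [Pi.smul_apply, hw']⟩

lemma coch_lift (y : S) {p : ℕ} (w : Coch n p (QuotSMulTop y M)) :
    ∃ w' : Coch n p M, (fun i => (Submodule.mkQ (y • (⊤ : Submodule S M))) (w' i)) = w := by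
  have := fun i => Submodule.mkQ_surjective (y • (⊤ : Submodule S M)) (w i)
  choose w' hw' using this
  exact ⟨w', by funext i; rw [hw']⟩

lemma smul_cancel (y : S) (hy : IsSMulRegular M y) {p : ℕ} (c c' : Coch n p M)
    (h : y • c = y • c') : c = c' := by
  funext i
  exact hy (congrFun h i)

/-- one step up -/
lemma ex_up (y : S) (hy : IsSMulRegular M y) (a : Fin n → S) (hya : y = ∑ l, a l * x l)
    (r : ℕ) (h : ∀ p < r, Ex x (QuotSMulTop y M) p) : ∀ p < r + 1, Ex x M p := by
  intro p hp
  match p with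
  | 0 =>
    intro c hc
    funext i
    apply hy
    have h1 : ∀ l, x l • c i = 0 := by
      intro l
      rw [← dd_cons_zero x M c l i, hc]
      rfl
    change y • c i = y • (0 : Coch n 0 M) i
    rw [Pi.zero_apply, smul_zero, hya, Finset.sum_smul]
    refine Finset.sum_eq_zero fun l _ => ?_
    rw [mul_smul, h1, smul_zero]
  | p' + 1 =>
    intro c hc
    have hh := homotopy x M a p' c hc
    rw [← hya] at hh
    obtain ⟨w, hw⟩ : ∃ w : Coch n p' M, w = fun j => ∑ l, a l • c (Fin.cons l j) := ⟨_, rfl⟩
    rw [← hw] at hh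
    have hbar : dd x (QuotSMulTop y M) p'
        (fun i => (Submodule.mkQ (y • (⊤ : Submodule S M))) (w i)) = 0 := by
      rw [dd_map, hh]
      funext i
      exact mk_smul_eq_zero y (c i)
    clear hw
    have key : ∃ w', y • c = y • dd x M p' w' := by
      cases p' with
      | zero =>
        have h0 := h 0 (by omega) _ hbar
        obtain ⟨w', hw'⟩ := coch_div y w h0
        exact ⟨w', by rw [← hh, hw', map_smul]⟩
      | succ p'' =>
        obtain ⟨b, hb⟩ := h (p'' + 1) (by omega) _ hbar
        obtain ⟨b', rfl⟩ := coch_lift y b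
        obtain ⟨w', hw'⟩ := coch_div y (w - dd x M p'' b') (by
          rw [dd_map] at hb
          funext i
          have := congrFun hb i
          simp only [Pi.sub_apply, map_sub, Pi.zero_apply]
          rw [sub_eq_zero]
          exact this.symm)
        refine ⟨w', ?_⟩
        rw [← hh, ← map_smul, ← hw', map_sub, dd_dd, sub_zero]
    obtain ⟨w', hw'⟩ := key
    exact ⟨w', (smul_cancel y hy _ _ hw').symm⟩

/-- one step down -/
lemma ex_down (y : S) (hy : IsSMulRegular M y) (r : ℕ) (h : ∀ p < r + 1, Ex x M p) :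
    ∀ p < r, Ex x (QuotSMulTop y M) p := by
  intro p hp
  have main : ∀ c : Coch n p (QuotSMulTop y M), dd x (QuotSMulTop y M) p c = 0 →
      ∃ c' : Coch n p M, dd x M p c' = 0 ∧
        (fun i => (Submodule.mkQ (y • (⊤ : Submodule S M))) (c' i)) = c := by
    intro c hc
    obtain ⟨c1, rfl⟩ := coch_lift y c
    rw [dd_map] at hc
    obtain ⟨w, hw⟩ := coch_div y (dd x M p c1) hc
    have hdw : dd x M (p + 1) w = 0 := by
      apply smul_cancel y hy
      rw [← map_smul, ← hw, dd_dd, smul_zero]
    obtain ⟨w', hw'⟩ := h (p + 1) (by omega) w hdw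
    refine ⟨c1 - y • w', ?_, ?_⟩
    · rw [map_sub, map_smul, hw', hw, sub_self]
    · funext i
      simp only [Pi.sub_apply, map_sub, Pi.smul_apply]
      rw [mk_smul_eq_zero, sub_zero]
  match p with
  | 0 =>
    intro c hc
    obtain ⟨c', h1, rfl⟩ := main c hc
    have := h 0 (by omega) c' h1
    subst this
    funext i
    simp
  | p + 1 =>
    intro c hc
    obtain ⟨c', h1, rfl⟩ := main c hc
    obtain ⟨b, hb⟩ := h (p + 1) (by omega) c' h1
    refine ⟨fun i => (Submodule.mkQ (y • (⊤ : Submodule S M))) (b i), ?_⟩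
    rw [dd_map, hb]

end basic

section regular

variable {S : Type*} [CommRing S] {n : ℕ} (x : Fin n → S)

/-- A weakly regular sequence of length `r` in `(x)` forces exactness in degrees `< r`. -/
lemma ex_of_isWeaklyRegular (rs : List S) (hrs : ∀ y ∈ rs, y ∈ Ideal.span (Set.range x)) :
    ∀ (M : Type _) [AddCommGroup M] [Module S M], IsWeaklyRegular M rs →
      ∀ p < rs.length, Ex x M p := by
  induction rs with
  | nil => intro M _ _ _ p hp; exact absurd hp (Nat.not_lt_zero _)
  | cons y rs ih =>
    intro M _ _ hM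
    rw [isWeaklyRegular_cons_iff] at hM
    obtain ⟨a, ha⟩ := (Ideal.mem_span_range_iff_exists_fun).mp (hrs y (by simp))
    exact ex_up x y hM.1 a ha.symm rs.length
      (ih (fun z hz => hrs z (by simp [hz])) (QuotSMulTop y M) hM.2)

/-- Existence of a regular element. -/
lemma exists_regular [IsNoetherianRing S] (M : Type*) [AddCommGroup M] [Module S M]
    [Module.Finite S M] (h : Ex x M 0) :
    ∃ y ∈ Ideal.span (Set.range x), IsSMulRegular M y := by
  by_contra hcon
  push Not at hcon
  have hsub : (Ideal.span (Set.range x) : Set S) ⊆ ⋃ p ∈ associatedPrimes S M, (p : Set S) := by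
    rw [biUnion_associatedPrimes_eq_compl_regular]
    intro y hy
    exact hcon y hy
  rw [Ideal.subset_union_prime_finite (associatedPrimes.finite S M) ⊥ ⊥
    (fun p hp _ _ => hp.1)] at hsub
  obtain ⟨p, hp, hle⟩ := hsub
  obtain ⟨hprime, m, hm⟩ := isAssociatedPrime_iff.mp hp
  have hz : ∀ l, x l • m = 0 := by
    intro l
    have : x l ∈ p := hle (Ideal.subset_span ⟨l, rfl⟩)
    rw [hm, Submodule.mem_colon_singleton] at this
    simpa using this
  have hc : dd x M 0 (fun _ => m) = 0 := by
    refine ext_cons M _ _ fun l i => ?_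
    rw [dd_cons_zero, hz]
    rfl
  have h0 := congrFun (h _ hc) Fin.elim0
  have hm0 : m = 0 := h0
  apply hprime.ne_top
  rw [hm, hm0]
  rw [Ideal.eq_top_iff_one, Submodule.mem_colon_singleton]
  simp

/-- Exactness in degrees `< r` gives a weakly regular sequence of length `r`. -/
lemma exists_isWeaklyRegular [IsNoetherianRing S] (r : ℕ) :
    ∀ (M : Type _) [AddCommGroup M] [Module S M] [Module.Finite S M],
      (∀ p < r, Ex x M p) → ∃ rs : List S, rs.length = r ∧
        (∀ y ∈ rs, y ∈ Ideal.span (Set.range x)) ∧ IsWeaklyRegular M rs := by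
  induction r with
  | zero =>
    intro M _ _ _ _
    exact ⟨[], rfl, by simp, IsWeaklyRegular.nil S M⟩
  | succ r ih =>
    intro M _ _ _ h
    obtain ⟨y, hy, hreg⟩ := exists_regular x M (h 0 (by omega))
    have : Module.Finite S (QuotSMulTop y M) := by
      unfold QuotSMulTop; infer_instance
    obtain ⟨rs, h1, h2, h3⟩ := ih (QuotSMulTop y M) (ex_down x y hreg r h)
    refine ⟨y :: rs, by simp [h1], ?_, ?_⟩
    · intro z hz
      rcases List.mem_cons.mp hz with rfl | hz
      · exact hy
      · exact h2 z hz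
    · rw [isWeaklyRegular_cons_iff]
      exact ⟨hreg, h3⟩

end regular

end Pool.Agent.R831.Koszul
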