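import Mathlib
import Pool.Agent.R831.Koszul

/-!
The tuple cochain complex of `K[x_1, …, x_n] ⧸ I` for a squarefree monomial ideal `I`:
a multigraded contracting homotopy.
-/

set_option autoImplicit false

namespace Pool.Agent.R831.Koszul

open MvPolynomial

variable {K : Type*} [Field K] {n : ℕ}

/-- the exponent of `x_{i_1} ⋯ x_{i_p}` -/
noncomputable def exi {p : ℕ} (i : Fin p → Fin n) : Fin n →₀ ℕ := ∑ k, Finsupp.single (i k) 1

lemma exi_cons {p : ℕ} (l : Fin n) (i : Fin p → Fin n) :
    exi (Fin.cons l i : Fin (p + 1) → Fin n) = Finsupp.single l 1 + exi i := by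
  simp [exi, Fin.sum_univ_succ]

lemma exi_succAbove {p : ℕ} (i : Fin (p + 1) → Fin n) (k : Fin (p + 1)) :
    exi i = Finsupp.single (i k) 1 + exi (fun j => i (k.succAbove j)) := by
  simp [exi, Fin.sum_univ_succAbove _ k]

lemma one_le_exi {p : ℕ} (i : Fin p → Fin n) (k : Fin p) : 1 ≤ exi i (i k) := by
  rw [exi, Finsupp.finsetSum_apply]
  refine le_trans ?_ (Finset.single_le_sum (f := fun j => (Finsupp.single (i j) 1 : Fin n →₀ ℕ)
    (i k)) (fun _ _ => Nat.zero_le _) (Finset.mem_univ k))
  simp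

lemma exi_eq_zero {p : ℕ} (i : Fin p → Fin n) (l : Fin n) (h : ∀ k, i k ≠ l) : exi i l = 0 := by
  rw [exi, Finsupp.finsetSum_apply]
  refine Finset.sum_eq_zero fun k _ => ?_
  rw [Finsupp.single_apply, if_neg (h k)]

lemma sum_exi {p : ℕ} (i : Fin p → Fin n) : ∑ l, exi i l = p := by
  simp only [exi, Finsupp.finsetSum_apply]
  rw [Finset.sum_comm]
  simp [Finsupp.single_apply]

/-- the multidegree -/
noncomputable def mdeg {p : ℕ} (i : Fin p → Fin n) (b : Fin n →₀ ℕ) : Fin n → ℤ :=
  fun l => (b l : ℤ) - exi i l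

lemma mdeg_cons {p : ℕ} (l : Fin n) (i : Fin p → Fin n) (b : Fin n →₀ ℕ) :
    mdeg (Fin.cons l i : Fin (p + 1) → Fin n) (b + Finsupp.single l 1) = mdeg i b := by
  funext j
  simp only [mdeg, exi_cons, Finsupp.add_apply]
  push_cast
  ring

lemma mdeg_succAbove {p : ℕ} (i : Fin (p + 1) → Fin n) (k : Fin (p + 1)) (b : Fin n →₀ ℕ)
    (hb : 1 ≤ b (i k)) :
    mdeg (fun j => i (k.succAbove j)) (b - Finsupp.single (i k) 1) = mdeg i b := by
  funext j
  simp only [mdeg, exi_succAbove i k, Finsupp.add_apply, Finsupp.tsub_apply]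
  by_cases hj : i k = j
  · subst hj
    rw [Finsupp.single_eq_same]
    push_cast [hb]
    ring
  · rw [Finsupp.single_apply, if_neg hj]
    simp

lemma exists_poly (f : (Fin n →₀ ℕ) → K) (T : Finset (Fin n →₀ ℕ)) (hT : ∀ b, f b ≠ 0 → b ∈ T) :
    ∃ P : MvPolynomial (Fin n) K, ∀ b, coeff b P = f b := by
  classical
  refine ⟨∑ b ∈ T, monomial b (f b), fun b => ?_⟩
  rw [coeff_sum]
  simp only [coeff_monomial]
  rw [Finset.sum_ite_eq']
  split_ifs with h
  · rfl
  · by_contra hne
    exact h (hT b (fun h0 => hne h0.symm))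

lemma coeff_dd {p : ℕ} (c : Coch n p (MvPolynomial (Fin n) K)) (i : Fin (p + 1) → Fin n)
    (b : Fin n →₀ ℕ) :
    coeff b (dd (X : Fin n → MvPolynomial (Fin n) K) (MvPolynomial (Fin n) K) p c i)
      = ∑ k : Fin (p + 1), (-1 : K) ^ (k : ℕ) * (if 1 ≤ b (i k) then
          coeff (b - Finsupp.single (i k) 1) (c fun j => i (k.succAbove j)) else 0) := by
  rw [dd_apply, coeff_sum]
  refine Finset.sum_congr rfl fun k _ => ?_
  rw [smul_eq_mul, smul_eq_mul]
  have h1 : ((-1 : MvPolynomial (Fin n) K)) ^ (k : ℕ) = C ((-1 : K) ^ (k : ℕ)) := by simp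
  rw [h1, coeff_C_mul, coeff_X_mul']
  congr 1
  have : i k ∈ b.support ↔ 1 ≤ b (i k) := by
    rw [Finsupp.mem_support_iff]; omega
  simp only [this]

/-- The multigraded homotopy. -/
lemma exists_primitive {p : ℕ} (z : Coch n (p + 1) (MvPolynomial (Fin n) K))
    (hz : dd (X : Fin n → MvPolynomial (Fin n) K) (MvPolynomial (Fin n) K) (p + 1) z = 0) (sel : (Fin n → ℤ) → Fin n)
    (hsel : ∀ i b, coeff b (z i) ≠ 0 → 0 ≤ mdeg i b (sel (mdeg i b))) :
    ∃ e : Coch n p (MvPolynomial (Fin n) K), dd (X : Fin n → MvPolynomial (Fin n) K) (MvPolynomial (Fin n) K) p e = z ∧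
      ∀ i b, coeff b (e i) ≠ 0 →
        coeff (b + Finsupp.single (sel (mdeg i b)) 1) (z (Fin.cons (sel (mdeg i b)) i)) ≠ 0 := by
  classical
  let f : (Fin p → Fin n) → (Fin n →₀ ℕ) → K := fun i b =>
    if 0 ≤ mdeg i b (sel (mdeg i b)) then
      coeff (b + Finsupp.single (sel (mdeg i b)) 1) (z (Fin.cons (sel (mdeg i b)) i)) else 0
  have hex : ∀ i, ∃ P : MvPolynomial (Fin n) K, ∀ b, coeff b P = f i b := by
    intro i
    refine exists_poly (f i) (Finset.univ.biUnion fun l =>
      (z (Fin.cons l i)).support.image fun b => b - Finsupp.single l 1) ?_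
    intro b hb
    simp only [f] at hb
    split_ifs at hb with h
    · rw [Finset.mem_biUnion]
      refine ⟨sel (mdeg i b), Finset.mem_univ _, ?_⟩
      rw [Finset.mem_image]
      exact ⟨_, mem_support_iff.mpr hb, add_tsub_cancel_right _ _⟩
    · exact absurd rfl hb
  choose e he using hex
  refine ⟨e, ?_, ?_⟩
  · funext i
    ext b
    rw [coeff_dd]
    set a := mdeg i b with ha
    set l := sel a with hl
    have hterm : ∀ k, (if 1 ≤ b (i k) then
        coeff (b - Finsupp.single (i k) 1) (e fun j => i (k.succAbove j)) else 0)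
        = if 0 ≤ a l then (if 1 ≤ b (i k) then
          coeff (b - Finsupp.single (i k) 1 + Finsupp.single l 1)
            (z (Fin.cons l fun j => i (k.succAbove j))) else 0) else 0 := by
      intro k
      by_cases hk : 1 ≤ b (i k)
      · rw [if_pos hk, if_pos hk, he]
        simp only [f]
        rw [mdeg_succAbove i k b hk]
      · rw [if_neg hk, if_neg hk]
        simp
    simp_rw [hterm]
    by_cases hal : 0 ≤ a l
    · simp_rw [if_pos hal]
      have h1 := dd_cons (X : Fin n → MvPolynomial (Fin n) K) (MvPolynomial (Fin n) K) p z l i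
      rw [hz] at h1
      have h2 := congrArg (coeff (b + Finsupp.single l 1)) h1
      rw [Pi.zero_apply, coeff_zero, coeff_sub, smul_eq_mul, add_comm b, coeff_X_mul] at h2
      rw [coeff_dd] at h2
      rw [eq_comm, sub_eq_zero] at h2
      rw [h2]
      refine Finset.sum_congr rfl fun k _ => ?_
      congr 1
      by_cases hk : 1 ≤ b (i k)
      · rw [if_pos hk, if_pos (by rw [Finsupp.add_apply]; omega)]
        congr 1
        ext j
        simp only [Finsupp.add_apply, Finsupp.tsub_apply, Finsupp.single_apply]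
        by_cases hj : i k = j
        · subst hj
          simp only [if_true]
          omega
        · rw [if_neg hj]; omega
      · rw [if_neg hk, if_neg]
        rw [Finsupp.add_apply, Finsupp.single_apply]
        split_ifs with hlk
        · exfalso
          have h3 := one_le_exi i k
          rw [← hlk] at h3 hk
          have h4 : a l = (b l : ℤ) - exi i l := rfl
          omega
        · omega
    · simp_rw [if_neg hal]
      simp only [mul_zero, Finset.sum_const_zero]
      by_contra hne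
      exact hal (hsel i b (fun h => hne h.symm))
  · intro i b hb
    rw [he] at hb
    simp only [f] at hb
    split_ifs at hb with h
    · exact hb
    · exact absurd rfl hb

variable (K) in
/-- The polynomial ring: exactness in degrees `< n`. -/
lemma ex_poly (p : ℕ) (hp : p < n) :
    Ex (X : Fin n → MvPolynomial (Fin n) K) (MvPolynomial (Fin n) K) p := by
  match p with
  | 0 =>
    intro c hc
    funext i
    have h1 := dd_cons_zero (X : Fin n → MvPolynomial (Fin n) K) (MvPolynomial (Fin n) K) c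
      ⟨0, hp⟩ i
    rw [hc, Pi.zero_apply, smul_eq_mul] at h1
    rcases mul_eq_zero.mp h1.symm with h | h
    · exact absurd h (X_ne_zero _)
    · exact h
  | p + 1 =>
    intro z hz
    classical
    let sel : (Fin n → ℤ) → Fin n := fun a =>
      if h : ∃ l, 0 ≤ a l then h.choose else ⟨0, by omega⟩
    obtain ⟨e, he, -⟩ := exists_primitive z hz sel (by
      intro i b _
      have hex : ∃ l, 0 ≤ mdeg i b l := by
        by_contra hcon
        push Not at hcon
        have hsur : Function.Surjective i := by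
          intro l
          by_contra hl
          push Not at hl
          have h1 := exi_eq_zero i l hl
          have h2 := hcon l
          rw [mdeg, h1] at h2
          simp at h2
          omega
        have := Fintype.card_le_of_surjective i hsur
        rw [Fintype.card_fin, Fintype.card_fin] at this
        omega
      simp only [sel]
      rw [dif_pos hex]
      exact hex.choose_spec)
    exact ⟨e, he⟩

/-- Squarefree monomial ideals described by a predicate on exponents. -/
lemma exists_primitive_ideal {p : ℕ} (I : Ideal (MvPolynomial (Fin n) K))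
    (Bad : (Fin n →₀ ℕ) → Prop) (hI : ∀ f, f ∈ I ↔ ∀ b, coeff b f ≠ 0 → Bad b)
    (hsq : ∀ b l, 1 ≤ b l → Bad (b + Finsupp.single l 1) → Bad b)
    (hn : 0 < n) (z : Coch n (p + 1) (MvPolynomial (Fin n) K)) (hzI : ∀ i, z i ∈ I)
    (hz : dd (X : Fin n → MvPolynomial (Fin n) K) (MvPolynomial (Fin n) K) (p + 1) z = 0)
    (hpos : ∀ i b, coeff b (z i) ≠ 0 → ∃ l, 1 ≤ mdeg i b l) :
    ∃ e : Coch n p (MvPolynomial (Fin n) K), dd (X : Fin n → MvPolynomial (Fin n) K) (MvPolynomial (Fin n) K) p e = z ∧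
      ∀ i, e i ∈ I := by
  classical
  let sel : (Fin n → ℤ) → Fin n := fun a =>
    if h : ∃ l, 1 ≤ a l then h.choose else ⟨0, hn⟩
  have hs : ∀ a : Fin n → ℤ, (∃ l, 1 ≤ a l) → 1 ≤ a (sel a) := by
    intro a ha
    simp only [sel]
    rw [dif_pos ha]
    exact ha.choose_spec
  obtain ⟨e, he, he2⟩ := exists_primitive z hz sel (by
    intro i b hb
    have := hs _ (hpos i b hb)
    omega)
  refine ⟨e, he, fun i => ?_⟩
  rw [hI]
  intro b hb
  have h1 := he2 i b hb
  have h2 := hpos _ _ h1
  rw [mdeg_cons] at h2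
  have h3 := hs _ h2
  have h4 := (hI _).mp (hzI _) _ h1
  refine hsq b _ ?_ h4
  have h5 : mdeg i b (sel (mdeg i b)) = (b (sel (mdeg i b)) : ℤ) - exi i (sel (mdeg i b)) := rfl
  omega

/-- Exactness for `S ⧸ I` from cocycles of `I`. -/
lemma ex_quot {p : ℕ} (I : Ideal (MvPolynomial (Fin n) K))
    (Bad : (Fin n →₀ ℕ) → Prop) (hI : ∀ f, f ∈ I ↔ ∀ b, coeff b f ≠ 0 → Bad b)
    (hsq : ∀ b l, 1 ≤ b l → Bad (b + Finsupp.single l 1) → Bad b)
    (hpn : p < n)
    (hpos : ∀ z : Coch n (p + 1) (MvPolynomial (Fin n) K), (∀ i, z i ∈ I) →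
      dd (X : Fin n → MvPolynomial (Fin n) K) (MvPolynomial (Fin n) K) (p + 1) z = 0 →
      ∀ i b, coeff b (z i) ≠ 0 → ∃ l, 1 ≤ mdeg i b l) :
    Ex (X : Fin n → MvPolynomial (Fin n) K) (MvPolynomial (Fin n) K ⧸ I) p := by
  let π : MvPolynomial (Fin n) K →ₗ[MvPolynomial (Fin n) K] MvPolynomial (Fin n) K ⧸ I :=
    Algebra.linearMap _ _
  have hπ : ∀ f, π f = 0 ↔ f ∈ I := fun f => Ideal.Quotient.eq_zero_iff_mem
  have hsurj : Function.Surjective π := Ideal.Quotient.mk_surjective
  have main : ∀ c : Coch n p (MvPolynomial (Fin n) K ⧸ I),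
      dd (X : Fin n → MvPolynomial (Fin n) K) (MvPolynomial (Fin n) K ⧸ I) p c = 0 →
      ∃ c' : Coch n p (MvPolynomial (Fin n) K), dd (X : Fin n → MvPolynomial (Fin n) K) (MvPolynomial (Fin n) K) p c' = 0 ∧
        (fun i => π (c' i)) = c := by
    intro c hc
    have := fun i => hsurj (c i)
    choose c1 hc1 using this
    obtain rfl : (fun i => π (c1 i)) = c := by funext i; exact hc1 i
    rw [dd_map] at hc
    obtain ⟨e, he, heI⟩ := exists_primitive_ideal I Bad hI hsq (by omega)
      (dd (X : Fin n → MvPolynomial (Fin n) K) (MvPolynomial (Fin n) K) p c1) (fun i => (hπ _).mp (congrFun hc i)) (dd_dd _ _ _ _)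
      (hpos _ (fun i => (hπ _).mp (congrFun hc i)) (dd_dd _ _ _ _))
    refine ⟨c1 - e, by rw [map_sub, he, sub_self], ?_⟩
    funext i
    simp only [Pi.sub_apply, map_sub]
    rw [(hπ _).mpr (heI i), sub_zero]
  match p with
  | 0 =>
    intro c hc
    obtain ⟨c', h1, rfl⟩ := main c hc
    have := ex_poly K 0 hpn c' h1
    subst this
    funext i
    simp
  | p + 1 =>
    intro c hc
    obtain ⟨c', h1, rfl⟩ := main c hc
    obtain ⟨b, rfl⟩ := ex_poly K (p + 1) hpn c' h1
    exact ⟨fun i => π (b i), dd_map _ _ π p b⟩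

end Pool.Agent.R831.Koszul
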