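import Mathlib
import Pool.Agent.R831.KoszulMon

/-!
Cocycles on tuples with support in a lexicographic interval.
-/

set_option autoImplicit false

namespace Pool.Agent.R831.Koszul

variable {K : Type*} [Field K] {n : ℕ}

/-- differential with trivial coefficients -/
abbrev d1 (K : Type*) [Field K] (n p : ℕ) := dd (fun _ : Fin n => (1 : K)) K p

section Delta

/-- predecessor -/
def pd (j : Fin (n + 1)) : Fin (n + 1) := ⟨j - 1, by omega⟩

/-- shift of a tuple -/
def sh {p : ℕ} (E : Finset (Fin p)) (s : Fin p → Fin (n + 1)) : Fin p → Fin (n + 1) :=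
  fun k => if k ∈ E then pd (s k) else s k

/-- iterated differences -/
def Del {p : ℕ} (f : (Fin p → Fin (n + 1)) → K) (s : Fin p → Fin (n + 1)) : K :=
  ∑ E : Finset (Fin p), (-1 : K) ^ E.card * f (sh E s)

lemma Del_add {p : ℕ} (f g : (Fin p → Fin (n + 1)) → K) (s : Fin p → Fin (n + 1)) :
    Del (f + g) s = Del f s + Del g s := by
  simp [Del, mul_add, Finset.sum_add_distrib]

lemma Del_indep {p : ℕ} (f : (Fin (p + 1) → Fin (n + 1)) → K)
    (h : (Fin p → Fin (n + 1)) → K) (k : Fin (p + 1))
    (hf : ∀ t, f t = h (fun j => t (k.succAbove j))) (s : Fin (p + 1) → Fin (n + 1)) :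
    Del f s = 0 := by
  classical
  unfold Del
  refine Finset.sum_involution (fun E _ => symmDiff E {k}) ?_ ?_ (by simp) ?_
  · intro E _
    have h1 : f (sh (symmDiff E {k}) s) = f (sh E s) := by
      rw [hf, hf]
      congr 1
      funext j
      have : k.succAbove j ∈ symmDiff E {k} ↔ k.succAbove j ∈ E := by
        rw [Finset.mem_symmDiff]
        simp [Fin.succAbove_ne]
      simp only [sh, this]
    rw [h1]
    by_cases hk : k ∈ E
    · have h2 : symmDiff E {k} = E.erase k := by
        ext j
        rw [Finset.mem_symmDiff, Finset.mem_erase, Finset.mem_singleton]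
        constructor
        · rintro (⟨h1, h2⟩ | ⟨h1, h2⟩)
          · exact ⟨h2, h1⟩
          · exact absurd (h1 ▸ hk) h2
        · rintro ⟨h1, h2⟩
          exact Or.inl ⟨h2, h1⟩
      rw [h2, ← Finset.card_erase_add_one hk]
      ring
    · have h2 : symmDiff E {k} = insert k E := by
        ext j
        rw [Finset.mem_symmDiff, Finset.mem_insert, Finset.mem_singleton]
        constructor
        · rintro (⟨h1, h2⟩ | ⟨h1, h2⟩)
          · exact Or.inr h1
          · exact Or.inl h1
        · rintro (h1 | h1)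
          · exact Or.inr ⟨h1, h1 ▸ hk⟩
          · exact Or.inl ⟨h1, fun h3 => hk (h3 ▸ h1)⟩
      rw [h2, Finset.card_insert_of_notMem hk]
      ring
  · intro E _ _ h
    have h2 := symmDiff_right_injective E (h.trans (symmDiff_bot E).symm)
    simp at h2
  · intro E _
    rw [symmDiff_assoc, symmDiff_self, symmDiff_bot]

lemma Del_d1 {p : ℕ} (h : (Fin p → Fin (n + 1)) → K) (s : Fin (p + 1) → Fin (n + 1)) :
    Del (d1 K (n + 1) p h) s = 0 := by
  have h1 : ∀ T : Finset (Fin (p + 1)),
      Del (fun t => ∑ k ∈ T, (-1 : K) ^ (k : ℕ) * h (fun j => t (k.succAbove j))) s = 0 := by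
    classical
    intro T
    induction T using Finset.induction_on with
    | empty => simp [Del]
    | insert a T ha ih =>
      have : (fun t : Fin (p + 1) → Fin (n + 1) =>
          ∑ k ∈ insert a T, (-1 : K) ^ (k : ℕ) * h (fun j => t (k.succAbove j)))
          = (fun t => (-1 : K) ^ (a : ℕ) * h (fun j => t (a.succAbove j)))
            + fun t => ∑ k ∈ T, (-1 : K) ^ (k : ℕ) * h (fun j => t (k.succAbove j)) := by
        funext t
        rw [Finset.sum_insert ha]
        rfl
      rw [this, Del_add, ih, add_zero]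
      exact Del_indep _ (fun t => (-1 : K) ^ (a : ℕ) * h t) a (fun t => rfl) s
  have h2 := h1 Finset.univ
  convert h2 using 2
  funext t
  rw [dd_apply]
  simp

lemma sh_val_le {p : ℕ} (E : Finset (Fin p)) (s : Fin p → Fin (n + 1)) (k : Fin p) :
    ((sh E s k : Fin (n + 1)) : ℕ) ≤ s k := by
  simp only [sh]
  split_ifs
  · simp [pd]
  · exact le_rfl

lemma eq_zero_of_Del {p : ℕ} (f : (Fin p → Fin (n + 1)) → K)
    (h0 : ∀ t, (∃ k, t k = 0) → f t = 0) (h1 : ∀ s, (∀ k, s k ≠ 0) → Del f s = 0) : f = 0 := by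
  classical
  suffices H : ∀ N, ∀ t : Fin p → Fin (n + 1), ∑ k, (t k : ℕ) < N → f t = 0 by
    funext t
    exact H _ t (Nat.lt_succ_self _)
  intro N
  induction N with
  | zero => intro t ht; exact absurd ht (Nat.not_lt_zero _)
  | succ N ih =>
    intro t ht
    by_cases hz : ∃ k, t k = 0
    · exact h0 t hz
    · push Not at hz
      have h2 := h1 t hz
      rw [Del, ← Finset.add_sum_erase _ _ (Finset.mem_univ (∅ : Finset (Fin p)))] at h2
      rw [Finset.sum_eq_zero, add_zero] at h2
      · have : sh ∅ t = t := by funext k; simp [sh]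
        simpa [this] using h2
      · intro E hE
        rw [Finset.mem_erase] at hE
        obtain ⟨k, hk⟩ := Finset.nonempty_iff_ne_empty.mpr hE.1
        rw [ih, mul_zero]
        have : ∑ k, ((sh E t k : Fin (n + 1)) : ℕ) < ∑ k, (t k : ℕ) := by
          refine Finset.sum_lt_sum (fun j _ => sh_val_le E t j) ⟨k, Finset.mem_univ _, ?_⟩
          simp only [sh, if_pos hk, pd]
          have := hz k
          have : (t k : ℕ) ≠ 0 := fun h => this (Fin.ext h)
          omega
        omega

end Delta

section weights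

/-- weight of a tuple -/
def wti {p : ℕ} (i : Fin p → Fin (n + 1)) : ℕ := ∑ k, 2 ^ (n - (i k : ℕ))

/-- weight of a set -/
def wtA (A : Finset (Fin (n + 1))) : ℕ := ∑ j ∈ A, 2 ^ (n - (j : ℕ))

/-- `A >_lex B` : the first index where the two sets differ belongs to `A`. -/
def LexGT (A B : Finset (Fin (n + 1))) : Prop :=
  ∃ s ∈ A, s ∉ B ∧ ∀ t < s, (t ∈ A ↔ t ∈ B)

/-- `A ≥_lex B` -/
def LexGE (A B : Finset (Fin (n + 1))) : Prop := A = B ∨ LexGT A B

lemma wtA_lt {A B : Finset (Fin (n + 1))} (h : LexGT A B) : wtA B < wtA A := by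
  classical
  obtain ⟨s, hsA, hsB, hst⟩ := h
  have split : ∀ C : Finset (Fin (n + 1)), wtA C = ∑ j ∈ C.filter (· < s), 2 ^ (n - (j : ℕ))
      + ∑ j ∈ C.filter (fun j => ¬ j < s), 2 ^ (n - (j : ℕ)) := fun C =>
    (Finset.sum_filter_add_sum_filter_not _ _ _).symm
  rw [split A, split B]
  have e : A.filter (· < s) = B.filter (· < s) := by
    ext t
    simp only [Finset.mem_filter]
    constructor
    · rintro ⟨h1, h2⟩; exact ⟨(hst t h2).mp h1, h2⟩
    · rintro ⟨h1, h2⟩; exact ⟨(hst t h2).mpr h1, h2⟩
  rw [e]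
  have h1 : 2 ^ (n - (s : ℕ)) ≤ ∑ j ∈ A.filter (fun j => ¬ j < s), 2 ^ (n - (j : ℕ)) :=
    Finset.single_le_sum (f := fun j : Fin (n + 1) => 2 ^ (n - (j : ℕ)))
      (fun _ _ => Nat.zero_le _) (by simp [hsA])
  have h2 : ∑ j ∈ B.filter (fun j => ¬ j < s), 2 ^ (n - (j : ℕ)) < 2 ^ (n - (s : ℕ)) := by
    have h3 : ∑ j ∈ B.filter (fun j => ¬ j < s), 2 ^ (n - (j : ℕ))
        = ∑ m ∈ (B.filter (fun j => ¬ j < s)).image
          (fun j : Fin (n + 1) => n - (j : ℕ)), 2 ^ m := by
      rw [Finset.sum_image]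
      intro a _ b _ hab
      apply Fin.ext
      simp only at hab
      omega
    rw [h3]
    refine Nat.geomSum_lt le_rfl ?_
    intro m hm
    rw [Finset.mem_image] at hm
    obtain ⟨j, hj, rfl⟩ := hm
    rw [Finset.mem_filter] at hj
    have hne : j ≠ s := fun h => hsB (h ▸ hj.1)
    have hne' : (j : ℕ) ≠ s := fun h => hne (Fin.ext h)
    have : ¬ ((j : ℕ) < s) := hj.2
    omega
  omega

lemma lex_trichotomy (A B : Finset (Fin (n + 1))) : A = B ∨ LexGT A B ∨ LexGT B A := by
  classical
  by_cases h : A = B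
  · exact Or.inl h
  · right
    have hne : (symmDiff A B).Nonempty := by
      rw [Finset.nonempty_iff_ne_empty, ← Finset.bot_eq_empty]
      exact fun h0 => h (symmDiff_eq_bot.mp h0)
    set s := (symmDiff A B).min' hne with hs
    have hmem : s ∈ symmDiff A B := Finset.min'_mem _ _
    have hlt : ∀ t < s, (t ∈ A ↔ t ∈ B) := by
      intro t ht
      by_contra hcon
      have : t ∈ symmDiff A B := by
        rw [Finset.mem_symmDiff]; tauto
      exact absurd (Finset.min'_le _ _ this) (not_le.mpr ht)
    rw [Finset.mem_symmDiff] at hmem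
    rcases hmem with ⟨h1, h2⟩ | ⟨h1, h2⟩
    · exact Or.inl ⟨s, h1, h2, hlt⟩
    · exact Or.inr ⟨s, h1, h2, fun t ht => (hlt t ht).symm⟩

lemma lexGE_iff (A B : Finset (Fin (n + 1))) : LexGE A B ↔ wtA B ≤ wtA A := by
  constructor
  · rintro (rfl | h)
    · exact le_rfl
    · exact (wtA_lt h).le
  · intro h
    rcases lex_trichotomy A B with h1 | h1 | h1
    · exact Or.inl h1
    · exact Or.inr h1
    · exact absurd (wtA_lt h1) (not_lt.mpr h)

/-- the set `w₀ = {j - 1 : j ∈ u, j ≠ 0} ∪ {n}` (indices `0, …, n`) -/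
def w0 (u : Finset (Fin (n + 1))) : Finset (Fin (n + 1)) :=
  Finset.univ.filter fun s => s = Fin.last n ∨ ∃ j ∈ u, (j : ℕ) = s + 1

lemma wtA_w0 (u : Finset (Fin (n + 1))) (hu : 0 ∈ u) :
    wtA (w0 u) + 2 * 2 ^ n = 1 + 2 * wtA u := by
  classical
  have h1 : w0 u = insert (Fin.last n) ((u.erase 0).image pd) := by
    ext s
    simp only [w0, Finset.mem_filter, Finset.mem_univ, true_and, Finset.mem_insert,
      Finset.mem_image, Finset.mem_erase]
    constructor
    · rintro (h | ⟨j, hj, hjs⟩)
      · exact Or.inl h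
      · refine Or.inr ⟨j, ⟨?_, hj⟩, ?_⟩
        · rintro rfl
          simp at hjs
        · apply Fin.ext
          simp [pd, hjs]
    · rintro (h | ⟨j, ⟨hj0, hj⟩, rfl⟩)
      · exact Or.inl h
      · refine Or.inr ⟨j, hj, ?_⟩
        have : (j : ℕ) ≠ 0 := fun h => hj0 (Fin.ext h)
        simp only [pd]
        omega
  have h2 : Fin.last n ∉ (u.erase 0).image pd := by
    rw [Finset.mem_image]
    rintro ⟨j, hj, hjl⟩
    rw [Finset.mem_erase] at hj
    have h3 : (j : ℕ) ≠ 0 := fun h => hj.1 (Fin.ext h)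
    have h4 := congrArg Fin.val hjl
    simp only [pd, Fin.val_last] at h4
    have := j.isLt
    omega
  have h5 : wtA (w0 u) = 1 + ∑ j ∈ u.erase 0, 2 * 2 ^ (n - (j : ℕ)) := by
    rw [wtA, h1, Finset.sum_insert h2, Fin.val_last, Nat.sub_self, pow_zero, Finset.sum_image]
    · congr 1
      refine Finset.sum_congr rfl fun j hj => ?_
      rw [Finset.mem_erase] at hj
      have h3 : (j : ℕ) ≠ 0 := fun h => hj.1 (Fin.ext h)
      simp only [pd]
      rw [← pow_succ']
      congr 1
      have := j.isLt
      omega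
    · intro a ha b hb hab
      simp only [Finset.coe_erase, Set.mem_sdiff, Finset.mem_coe, Set.mem_singleton_iff] at ha hb
      have h3 : (a : ℕ) ≠ 0 := fun h => ha.2 (Fin.ext h)
      have h4 : (b : ℕ) ≠ 0 := fun h => hb.2 (Fin.ext h)
      have h5 := congrArg Fin.val hab
      simp only [pd] at h5
      apply Fin.ext
      omega
  have h6 : wtA u = 2 ^ n + ∑ j ∈ u.erase 0, 2 ^ (n - (j : ℕ)) := by
    rw [wtA, ← Finset.add_sum_erase _ _ hu]
    simp
  rw [h5, h6, ← Finset.mul_sum]
  ring

lemma wti_cons {p : ℕ} (j : Fin (n + 1)) (i : Fin p → Fin (n + 1)) :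
    wti (Fin.cons j i : Fin (p + 1) → Fin (n + 1)) = 2 ^ (n - (j : ℕ)) + wti i := by
  simp [wti, Fin.sum_univ_succ]

lemma wti_sh_ge {p : ℕ} (E : Finset (Fin p)) (s : Fin p → Fin (n + 1)) :
    wti s ≤ wti (sh E s) := by
  refine Finset.sum_le_sum fun k _ => ?_
  exact Nat.pow_le_pow_right (by norm_num) (Nat.sub_le_sub_left (sh_val_le E s k) n)

lemma wti_sh_le {p : ℕ} (E : Finset (Fin p)) (s : Fin p → Fin (n + 1)) :
    wti (sh E s) ≤ 2 * wti s := by
  rw [wti, wti, Finset.mul_sum]
  refine Finset.sum_le_sum fun k _ => ?_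
  rw [← pow_succ']
  refine Nat.pow_le_pow_right (by norm_num) ?_
  simp only [sh]
  split_ifs
  · simp only [pd]; omega
  · omega

end weights

/-- A cocycle supported strictly above `w₀(u)` and not above `u` vanishes. -/
theorem cocycle_eq_zero {p : ℕ} (g : (Fin (p + 1) → Fin (n + 1)) → K)
    (hd : d1 K (n + 1) (p + 1) g = 0)
    (hinj : ∀ i, ¬ Function.Injective i → g i = 0) (u : Finset (Fin (n + 1))) (hu : 0 ∈ u)
    (hhi : ∀ i, wtA u < wti i → g i = 0) (hlo : ∀ i, wti i ≤ wtA (w0 u) → g i = 0) : g = 0 := by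
  have hw := wtA_w0 u hu
  have hF0 : (fun t => g (Fin.cons 0 t)) = 0 := by
    refine eq_zero_of_Del _ ?_ ?_
    · rintro t ⟨k, hk⟩
      apply hinj
      intro hI
      have : (Fin.cons 0 t : Fin (p + 1) → Fin (n + 1)) 0
          = (Fin.cons 0 t : Fin (p + 1) → Fin (n + 1)) k.succ := by simp [hk]
      have := hI this
      exact absurd this (Fin.succ_ne_zero k).symm
    · intro s hs
      by_cases hτ : wtA u < 2 ^ n + wti s
      · rw [Del]
        refine Finset.sum_eq_zero fun E _ => ?_
        rw [hhi, mul_zero]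
        rw [wti_cons]
        have := wti_sh_ge E s
        simp only [Fin.val_zero, Nat.sub_zero]
        omega
      · -- compare the base points `0` and `n`
        have hlast : Del (fun t => g (Fin.cons (Fin.last n) t)) s = 0 := by
          rw [Del]
          refine Finset.sum_eq_zero fun E _ => ?_
          rw [hlo, mul_zero]
          rw [wti_cons]
          have := wti_sh_le E s
          simp only [Fin.val_last, Nat.sub_self, pow_zero]
          omega
        have hrel : ∀ t, g (Fin.cons (Fin.last n) t)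
            = d1 K (n + 1) p (fun t => g (Fin.cons 0 t)) (Fin.cons (Fin.last n) t) := by
          intro t
          have h1 := dd_cons (fun _ : Fin (n + 1) => (1 : K)) K p g 0 (Fin.cons (Fin.last n) t)
          rw [hd, Pi.zero_apply, one_smul] at h1
          exact (sub_eq_zero.mp h1.symm)
        cases p with
        | zero =>
          have h2 : (fun t => g (Fin.cons (Fin.last n) t)) = fun t => g (Fin.cons 0 t) := by
            funext t
            rw [hrel, dd_cons_zero, one_smul]
          rw [← h2]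
          exact hlast
        | succ p =>
          have h2 : (fun t => g (Fin.cons 0 t))
              = (fun t => g (Fin.cons (Fin.last n) t))
                + d1 K (n + 1) p (fun t => g (Fin.cons 0 (Fin.cons (Fin.last n) t))) := by
            funext t
            rw [Pi.add_apply, hrel, dd_cons, one_smul]
            ring
          rw [h2, Del_add, hlast, Del_d1, add_zero]
  refine funext fun i => ?_
  have h1 := dd_cons (fun _ : Fin (n + 1) => (1 : K)) K p g 0 i
  rw [hd, Pi.zero_apply, one_smul, hF0, map_zero] at h1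
  simpa using h1.symm

section Existence

variable (u : Finset (Fin (n + 1))) (hu : 0 ∈ u)

/-- the largest element of `u` below `t` -/
def lam (t : Fin (n + 1)) : Fin (n + 1) :=
  (u.filter (· ≤ t)).max' ⟨0, Finset.mem_filter.mpr ⟨hu, Fin.zero_le t⟩⟩

lemma lam_mem (t : Fin (n + 1)) : lam u hu t ∈ u :=
  (Finset.mem_filter.mp (Finset.max'_mem (u.filter (· ≤ t)) _)).1

lemma lam_le (t : Fin (n + 1)) : lam u hu t ≤ t :=
  (Finset.mem_filter.mp (Finset.max'_mem (u.filter (· ≤ t)) _)).2

lemma le_lam (t j : Fin (n + 1)) (hj : j ∈ u) (hjt : j ≤ t) : j ≤ lam u hu t :=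
  Finset.le_max' _ _ (Finset.mem_filter.mpr ⟨hj, hjt⟩)

lemma lam_self (t : Fin (n + 1)) (ht : t ∈ u) : lam u hu t = t :=
  le_antisymm (lam_le u hu t) (le_lam u hu t t ht le_rfl)

lemma le_of_lam_eq (t s : Fin (n + 1)) (hs : s ∈ w0 u) (h : lam u hu s = lam u hu t) : t ≤ s := by
  rw [w0, Finset.mem_filter] at hs
  rcases hs.2 with rfl | ⟨j, hj, hjs⟩
  · exact Fin.le_last t
  · by_contra hlt
    push Not at hlt
    have h1 : j ≤ t := by
      rw [Fin.le_def, hjs]
      exact hlt
    have h2 := le_lam u hu t j hj h1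
    rw [← h] at h2
    have h3 := lam_le u hu s
    have h4 : (j : ℕ) ≤ s := le_trans h2 h3
    omega

include hu in
/-- For a set `u` containing the first index there is a nonzero cocycle supported on
injective tuples with weight between `w₀(u)` and `u`. -/
theorem exists_cocycle (p : ℕ) (hcard : u.card = p + 1) :
    ∃ g : (Fin (p + 1) → Fin (n + 1)) → K, d1 K (n + 1) (p + 1) g = 0 ∧ g ≠ 0 ∧
      ∀ i, g i ≠ 0 → Function.Injective i ∧ wtA (w0 u) ≤ wti i ∧ wti i ≤ wtA u := by
  classical
  have e : Fin (p + 1) ≃ u := (Fintype.equivFinOfCardEq (by simpa using hcard)).symm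
  let Mx : (Fin (p + 1) → Fin (n + 1)) → Matrix (Fin (p + 1)) (Fin (p + 1)) K := fun i =>
    Matrix.of fun a b => if lam u hu (i b) = e a then 1 else 0
  have hMx : ∀ i a b, Mx i a b = if lam u hu (i b) = e a then 1 else 0 := fun i a b => rfl
  refine ⟨fun i => (Mx i).det, ?_, ?_, ?_⟩
  · funext i
    let M' : Matrix (Fin (p + 2)) (Fin (p + 2)) K := Matrix.of fun a b =>
      Fin.cases (motive := fun _ => K) 1 (fun a => if lam u hu (i b) = e a then 1 else 0) a
    have hM0 : ∀ b, M' 0 b = 1 := fun b => rfl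
    have hMs : ∀ a b, M' (Fin.succ a) b = if lam u hu (i b) = e a then 1 else 0 := fun a b => rfl
    have hdet : M'.det = 0 := by
      rw [← Matrix.exists_vecMul_eq_zero_iff]
      refine ⟨Fin.cons 1 fun _ => -1, ?_, ?_⟩
      · intro h0
        have := congrFun h0 0
        simp at this
      · funext b
        rw [Matrix.vecMul, dotProduct, Fin.sum_univ_succ]
        simp only [Fin.cons_zero, Fin.cons_succ, hM0, hMs, Pi.zero_apply, mul_one, neg_mul,
          one_mul, Finset.sum_neg_distrib]
        have : ∑ a, (if lam u hu (i b) = e a then (1 : K) else 0) = 1 := by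
          rw [Finset.sum_eq_single (e.symm ⟨lam u hu (i b), lam_mem u hu _⟩)]
          · simp
          · intro a _ ha
            rw [if_neg]
            intro hcon
            apply ha
            rw [Equiv.eq_symm_apply]
            exact Subtype.ext hcon.symm
          · simp
        rw [this]
        ring
    rw [Matrix.det_succ_row_zero] at hdet
    rw [dd_apply, Pi.zero_apply, ← hdet]
    refine Finset.sum_congr rfl fun k _ => ?_
    rw [hM0, one_smul, smul_eq_mul, mul_one]
    rfl
  · intro h0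
    have := congrFun h0 fun b => (e b : Fin (n + 1))
    have h1 : Mx (fun b => (e b : Fin (n + 1))) = 1 := by
      ext a b
      rw [hMx, lam_self u hu _ (e b).2, Matrix.one_apply]
      have : ((e b : Fin (n + 1)) = e a) ↔ a = b := by
        rw [← Subtype.ext_iff, e.injective.eq_iff, eq_comm]
      simp only [this]
    simp only [h1, Matrix.det_one, Pi.zero_apply] at this
    exact one_ne_zero this
  · intro i hi
    have hσ : ∃ σ : Equiv.Perm (Fin (p + 1)), ∀ b, lam u hu (i b) = e (σ b) := by
      by_contra hcon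
      push Not at hcon
      apply hi
      change (Mx i).det = 0
      rw [Matrix.det_apply]
      refine Finset.sum_eq_zero fun σ _ => ?_
      obtain ⟨b, hb⟩ := hcon σ
      rw [Finset.prod_eq_zero (Finset.mem_univ b), smul_zero]
      rw [hMx, if_neg hb]
    obtain ⟨σ, hσ⟩ := hσ
    have hinj : Function.Injective fun b => lam u hu (i b) := by
      intro a b hab
      simp only [hσ] at hab
      exact σ.injective (e.injective (Subtype.ext hab))
    refine ⟨fun a b hab => hinj (by simp only [hab]), ?_, ?_⟩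
    · -- lower bound
      let b : Fin (n + 1) → Fin (p + 1) := fun s => σ.symm (e.symm ⟨lam u hu s, lam_mem u hu s⟩)
      have hb : ∀ s, lam u hu (i (b s)) = lam u hu s := by
        intro s
        rw [hσ]
        simp [b]
      have hbinj : Set.InjOn b (w0 u : Finset (Fin (n + 1))) := by
        intro s hs s' hs' hss
        have h1 : lam u hu s = lam u hu s' := by rw [← hb s, ← hb s', hss]
        exact le_antisymm (le_of_lam_eq u hu s s' hs' h1.symm) (le_of_lam_eq u hu s' s hs h1)
      calc wtA (w0 u) ≤ ∑ s ∈ w0 u, 2 ^ (n - (i (b s) : ℕ)) := by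
            refine Finset.sum_le_sum fun s hs => ?_
            refine Nat.pow_le_pow_right (by norm_num) (Nat.sub_le_sub_left ?_ n)
            exact le_of_lam_eq u hu (i (b s)) s hs (hb s).symm
        _ = ∑ k ∈ (w0 u).image b, 2 ^ (n - (i k : ℕ)) := (Finset.sum_image
            (f := fun k => 2 ^ (n - (i k : ℕ))) hbinj).symm
        _ ≤ wti i := Finset.sum_le_sum_of_subset (Finset.subset_univ _)
    · calc wti i ≤ ∑ k, 2 ^ (n - ((e (σ k) : Fin (n + 1)) : ℕ)) := by
            refine Finset.sum_le_sum fun k _ => ?_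
            refine Nat.pow_le_pow_right (by norm_num) (Nat.sub_le_sub_left ?_ n)
            rw [← hσ]
            exact lam_le u hu (i k)
        _ = ∑ k, 2 ^ (n - ((e k : Fin (n + 1)) : ℕ)) :=
            Equiv.sum_comp σ (fun k => 2 ^ (n - ((e k : Fin (n + 1)) : ℕ)))
        _ = ∑ j : u, 2 ^ (n - ((j : Fin (n + 1)) : ℕ)) :=
            Equiv.sum_comp e (fun j : u => 2 ^ (n - ((j : Fin (n + 1)) : ℕ)))
        _ = wtA u := Finset.sum_coe_sort u (fun j : Fin (n + 1) => 2 ^ (n - (j : ℕ)))

end Existence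

end Pool.Agent.R831.Koszul
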