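import Mathlib

/-!
# Monomial ideals: associated primes, colon conditions; an elementary exchange lemma
for regular sequences
-/

set_option linter.unusedSimpArgs false
set_option linter.style.haveILetI false

namespace R831.MonId

open MvPolynomial

section ring

variable {R : Type*} [CommRing R]

/-- `a` is a nonzerodivisor modulo `A` -/
def NZ (A : Ideal R) (a : R) : Prop := ∀ f, a * f ∈ A → f ∈ A

/-- `R/A` has a nonzero element killed by `m` -/
def Soc (m A : Ideal R) : Prop := ∃ z, z ∉ A ∧ ∀ r ∈ m, r * z ∈ A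

lemma mem_sup_span {A : Ideal R} {a x : R} :
    x ∈ A ⊔ Ideal.span {a} ↔ ∃ y ∈ A, ∃ w, y + a * w = x := by
  rw [Submodule.mem_sup]
  constructor
  · rintro ⟨y, hy, z, hz, rfl⟩
    obtain ⟨w, rfl⟩ := Ideal.mem_span_singleton'.1 hz
    exact ⟨y, hy, w, by ring⟩
  · rintro ⟨y, hy, w, rfl⟩
    exact ⟨y, hy, a * w, Ideal.mul_mem_right _ _ (Ideal.mem_span_singleton_self a), rfl⟩

lemma soc_exchange {m A : Ideal R} {a b : R} (hb : b ∈ m) (ha' : NZ A a) (hb' : NZ A b)
    (h : Soc m (A ⊔ Ideal.span {a})) : Soc m (A ⊔ Ideal.span {b}) := by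
  obtain ⟨z, hz, hm⟩ := h
  obtain ⟨y, hy, w, hw⟩ := mem_sup_span.1 (hm b hb)
  refine ⟨w, ?_, ?_⟩
  · intro hmem
    obtain ⟨y', hy', w', hw'⟩ := mem_sup_span.1 hmem
    apply hz
    have h1 : z - a * w' ∈ A := by
      apply hb'
      have : b * (z - a * w') = y + a * y' := by
        rw [mul_sub, ← hw, ← hw']
        ring
      rw [this]
      exact A.add_mem hy (A.mul_mem_left _ hy')
    exact mem_sup_span.2 ⟨_, h1, w', by ring⟩
  · intro r hr
    obtain ⟨y', hy', s, hs⟩ := mem_sup_span.1 (hm r hr)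
    have h1 : r * w - b * s ∈ A := by
      apply ha'
      have : a * (r * w - b * s) = b * y' - r * y := by
        linear_combination r * hw - b * hs
      rw [this]
      exact A.sub_mem (A.mul_mem_left _ hy') (A.mul_mem_left _ hy)
    exact mem_sup_span.2 ⟨_, h1, s, by ring⟩

lemma nz_swap {A : Ideal R} {a c : R} (ha : NZ A a) (hc : NZ (A ⊔ Ideal.span {a}) c) :
    NZ (A ⊔ Ideal.span {c}) a := by
  intro f hf
  obtain ⟨y, hy, w, hw⟩ := mem_sup_span.1 hf
  have h1 : w ∈ A ⊔ Ideal.span {a} := by
    apply hc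
    exact mem_sup_span.2 ⟨-y, A.neg_mem hy, f, by rw [← hw]; ring⟩
  obtain ⟨y', hy', w', hw'⟩ := mem_sup_span.1 h1
  have h2 : f - c * w' ∈ A := by
    apply ha
    have : a * (f - c * w') = y + c * y' := by
      linear_combination -hw - c * hw'
    rw [this]
    exact A.add_mem hy (A.mul_mem_left _ hy')
  exact mem_sup_span.2 ⟨_, h2, w', by ring⟩

lemma nz_iff {A : Ideal R} {a : R} : NZ A a ↔ ¬ ∃ x : R ⧸ A, x ≠ 0 ∧ a • x = 0 := by
  constructor
  · rintro h ⟨x, hx, hax⟩
    obtain ⟨f, rfl⟩ := Ideal.Quotient.mk_surjective x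
    apply hx
    rw [Ideal.Quotient.eq_zero_iff_mem]
    apply h
    rw [← Ideal.Quotient.eq_zero_iff_mem, map_mul]
    exact hax
  · intro h f hf
    by_contra hf'
    apply h
    refine ⟨Ideal.Quotient.mk A f, ?_, ?_⟩
    · rwa [Ne, Ideal.Quotient.eq_zero_iff_mem]
    · rw [← Ideal.Quotient.eq_zero_iff_mem, map_mul] at hf
      exact hf

lemma exists_common [IsNoetherianRing R] {m A B : Ideal R} {a b : R} (ha : a ∈ m) (hb : b ∈ m)
    (hA : NZ A a) (hB : NZ B b) : ∃ c ∈ m, NZ A c ∧ NZ B c := by
  classical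
  by_contra hcon
  push Not at hcon
  have hfA : (associatedPrimes R (R ⧸ A)).Finite := associatedPrimes.finite R (R ⧸ A)
  have hfB : (associatedPrimes R (R ⧸ B)).Finite := associatedPrimes.finite R (R ⧸ B)
  have hA' := biUnion_associatedPrimes_eq_zero_divisors R (R ⧸ A)
  have hB' := biUnion_associatedPrimes_eq_zero_divisors R (R ⧸ B)
  have hsub : (m : Set R) ⊆ ⋃ i ∈ ((hfA.toFinset ∪ hfB.toFinset : Finset (Ideal R)) :
      Set (Ideal R)), (id i : Ideal R) := by
    intro c hc
    by_cases h : NZ A c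
    · have h2 := hcon c hc h
      rw [nz_iff, not_not] at h2
      have h3 : c ∈ ⋃ p ∈ associatedPrimes R (R ⧸ B), (p : Set R) := by
        rw [hB']
        exact h2
      simp only [Set.mem_iUnion] at h3 ⊢
      obtain ⟨p, hp, hcp⟩ := h3
      exact ⟨p, by simp [hp], hcp⟩
    · rw [nz_iff, not_not] at h
      have h3 : c ∈ ⋃ p ∈ associatedPrimes R (R ⧸ A), (p : Set R) := by
        rw [hA']
        exact h
      simp only [Set.mem_iUnion] at h3 ⊢
      obtain ⟨p, hp, hcp⟩ := h3
      exact ⟨p, by simp [hp], hcp⟩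
  rw [Ideal.subset_union_prime ⊤ ⊤] at hsub
  · obtain ⟨p, hp, hmp⟩ := hsub
    simp only [Finset.mem_union, Set.Finite.mem_toFinset] at hp
    rcases hp with hp | hp
    · have h4 : a ∈ ⋃ p ∈ associatedPrimes R (R ⧸ A), (p : Set R) := by
        simp only [Set.mem_iUnion]
        exact ⟨p, hp, hmp ha⟩
      rw [hA'] at h4
      exact nz_iff.1 hA h4
    · have h4 : b ∈ ⋃ p ∈ associatedPrimes R (R ⧸ B), (p : Set R) := by
        simp only [Set.mem_iUnion]
        exact ⟨p, hp, hmp hb⟩
      rw [hB'] at h4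
      exact nz_iff.1 hB h4
  · intro p hp _ _
    simp only [Finset.mem_union, Set.Finite.mem_toFinset] at hp
    rcases hp with hp | hp
    · exact hp.1
    · exact hp.1

/-- If `t₁, t₂` is regular on `R/A` and the quotient has a nonzero socle, no regular sequence
in `m` has length three. -/
lemma no_three [IsNoetherianRing R] {m A : Ideal R} {t₁ t₂ a₁ a₂ a₃ : R}
    (ht₂ : t₂ ∈ m) (h1 : NZ A t₁)
    (h2 : NZ (A ⊔ Ideal.span {t₁}) t₂) (hs : Soc m (A ⊔ Ideal.span {t₁} ⊔ Ideal.span {t₂}))
    (ha₁ : a₁ ∈ m) (ha₂ : a₂ ∈ m) (ha₃ : a₃ ∈ m) (g1 : NZ A a₁)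
    (g2 : NZ (A ⊔ Ideal.span {a₁}) a₂)
    (g3 : NZ (A ⊔ Ideal.span {a₁} ⊔ Ideal.span {a₂}) a₃) : False := by
  obtain ⟨c, hc, hc1, hc2⟩ := exists_common ht₂ ha₂ h2 g2
  have s1 : Soc m (A ⊔ Ideal.span {t₁} ⊔ Ideal.span {c}) := soc_exchange hc h2 hc1 hs
  rw [sup_right_comm] at s1
  have s2 : Soc m (A ⊔ Ideal.span {c} ⊔ Ideal.span {a₁}) :=
    soc_exchange ha₁ (nz_swap h1 hc1) (nz_swap g1 hc2) s1
  rw [sup_right_comm] at s2
  have s3 : Soc m (A ⊔ Ideal.span {a₁} ⊔ Ideal.span {a₂}) := soc_exchange ha₂ hc2 g2 s2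
  obtain ⟨z, hz, hm⟩ := s3
  exact hz (g3 z (hm a₃ ha₃))

lemma mk_mem_smul_top {J I : Ideal R} {f : R} :
    (Ideal.Quotient.mk J f) ∈ (I • (⊤ : Submodule R (R ⧸ J))) ↔ f ∈ J ⊔ I := by
  have h : (I • (⊤ : Submodule R (R ⧸ J))) = Submodule.map J.mkQ I := by
    rw [← Submodule.range_mkQ J, LinearMap.range_eq_map, ← Submodule.map_smul'',
      Ideal.smul_eq_mul, Ideal.mul_top]
  rw [h, ← Submodule.comap_map_mkQ J I]
  rfl

lemma reg_iff {J I : Ideal R} {r : R} :
    IsSMulRegular ((R ⧸ J) ⧸ (I • (⊤ : Submodule R (R ⧸ J)))) r ↔ NZ (J ⊔ I) r := by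
  rw [isSMulRegular_iff_right_eq_zero_of_smul]
  constructor
  · intro h f hf
    have h1 := h (Submodule.Quotient.mk (Ideal.Quotient.mk J f)) (by
      rw [← Submodule.Quotient.mk_smul, Submodule.Quotient.mk_eq_zero]
      have : r • (Ideal.Quotient.mk J f) = Ideal.Quotient.mk J (r * f) := by
        rw [map_mul]
        rfl
      rw [this]
      exact mk_mem_smul_top.2 hf)
    rw [Submodule.Quotient.mk_eq_zero] at h1
    exact mk_mem_smul_top.1 h1
  · intro h x hx
    obtain ⟨y, rfl⟩ := Submodule.Quotient.mk_surjective _ x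
    obtain ⟨f, rfl⟩ := Ideal.Quotient.mk_surjective y
    rw [← Submodule.Quotient.mk_smul, Submodule.Quotient.mk_eq_zero] at hx
    rw [Submodule.Quotient.mk_eq_zero]
    have : r • (Ideal.Quotient.mk J f) = Ideal.Quotient.mk J (r * f) := by
      rw [map_mul]
      rfl
    rw [this] at hx
    exact mk_mem_smul_top.2 (h f (mk_mem_smul_top.1 hx))

lemma wr_iff {J : Ideal R} {rs : List R} : RingTheory.Sequence.IsWeaklyRegular (R ⧸ J) rs ↔
    ∀ i (h : i < rs.length), NZ (J ⊔ Ideal.ofList (rs.take i)) rs[i] := by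
  constructor
  · intro h i hi
    exact reg_iff.1 (h.regular_mod_prev i hi)
  · intro h
    exact ⟨fun i hi => reg_iff.2 (h i hi)⟩

end ring

section mon

variable {σ : Type*} {K : Type*} [Field K]

/-- the monomial ideal of a set of exponents -/
noncomputable def mI (K : Type*) [Field K] (S : Set (σ →₀ ℕ)) : Ideal (MvPolynomial σ K) :=
  Ideal.span ((fun s => monomial s (1 : K)) '' S)

/-- exponents of the monomials of `mI K S` -/
def Up (S : Set (σ →₀ ℕ)) (u : σ →₀ ℕ) : Prop := ∃ s ∈ S, s ≤ u

lemma mem_mI {S : Set (σ →₀ ℕ)} {f : MvPolynomial σ K} : f ∈ mI K S ↔ ∀ d ∈ f.support, Up S d :=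
  mem_ideal_span_monomial_image

lemma mono_mem_mI {S : Set (σ →₀ ℕ)} {u : σ →₀ ℕ} {c : K} (h : Up S u) :
    monomial u c ∈ mI K S := by
  classical
  rw [mem_mI]
  intro d hd
  have := support_monomial_subset hd
  rw [Finset.mem_singleton] at this
  rwa [this]

lemma up_of_mono_mem {S : Set (σ →₀ ℕ)} {u : σ →₀ ℕ} (h : monomial u (1 : K) ∈ mI K S) :
    Up S u := by
  classical
  rw [mem_mI] at h
  apply h
  simp

lemma mem_of_X_mul {S : Set (σ →₀ ℕ)} {a b : σ}
    (H : ∀ u, Up S (u + Finsupp.single a 1) → Up S (u + Finsupp.single b 1) → Up S u)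
    {f : MvPolynomial σ K} (h1 : X a * f ∈ mI K S) (h2 : X b * f ∈ mI K S) : f ∈ mI K S := by
  classical
  rw [mem_mI] at h1 h2 ⊢
  intro d hd
  rw [mem_support_iff] at hd
  apply H d
  · apply h1
    rw [mem_support_iff, add_comm, coeff_X_mul]
    exact hd
  · apply h2
    rw [mem_support_iff, add_comm, coeff_X_mul]
    exact hd

lemma mem_of_pow_mul {S : Set (σ →₀ ℕ)} {a b : σ}
    (H : ∀ u, Up S (u + Finsupp.single a 1) → Up S (u + Finsupp.single b 1) → Up S u) {k l : ℕ}
    {f : MvPolynomial σ K} (h1 : X a ^ k * f ∈ mI K S) (h2 : X b ^ l * f ∈ mI K S) :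
    f ∈ mI K S := by
  have claim : ∀ n, (∀ i j, i + j = n → X a ^ i * X b ^ j * f ∈ mI K S) → f ∈ mI K S := by
    intro n
    induction n with
    | zero => intro h; simpa using h 0 0 rfl
    | succ n ih =>
      intro h
      apply ih
      intro i j hij
      apply mem_of_X_mul H
      · have := h (i + 1) j (by omega)
        convert this using 1
        ring
      · have := h i (j + 1) (by omega)
        convert this using 1
        ring
  apply claim (k + l)
  intro i j hij
  rcases le_total k i with h | h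
  · obtain ⟨r, rfl⟩ := Nat.exists_eq_add_of_le h
    have : X a ^ (k + r) * X b ^ j * f = (X a ^ r * X b ^ j) * (X a ^ k * f) := by ring
    rw [this]
    exact Ideal.mul_mem_left _ _ h1
  · have hj : l ≤ j := by omega
    obtain ⟨r, rfl⟩ := Nat.exists_eq_add_of_le hj
    have : X a ^ i * X b ^ (l + r) * f = (X a ^ i * X b ^ r) * (X b ^ l * f) := by ring
    rw [this]
    exact Ideal.mul_mem_left _ _ h2

lemma lead_pow (m : MonomialOrder σ) (S : Set (σ →₀ ℕ)) :
    ∀ (n : ℕ) (a f : MvPolynomial σ K), a.support.card ≤ n → f ≠ 0 → f * a ∈ mI K S →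
      (monomial (m.degree f) (1 : K)) ^ n * a ∈ mI K S := by
  classical
  intro n
  induction n with
  | zero =>
    intro a f ha _ _
    have : a = 0 := by
      rw [← support_eq_empty]
      exact Finset.card_eq_zero.1 (Nat.le_zero.1 ha)
    simp [this]
  | succ n ih =>
    intro a f ha hf hfa
    by_cases ha0 : a = 0
    · simp [ha0]
    set t := monomial (m.degree a) (m.leadingCoeff a) with ht
    have hcard : (a - t).support.card ≤ n := by
      have hsub : (a - t).support ⊆ a.support.erase (m.degree a) := by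
        intro d hd
        rw [mem_support_iff] at hd
        rw [Finset.mem_erase, mem_support_iff]
        constructor
        · rintro rfl
          apply hd
          rw [coeff_sub, ht, coeff_monomial, if_pos rfl]
          simp [MonomialOrder.leadingCoeff]
        · intro h0
          apply hd
          rw [coeff_sub, h0, ht, coeff_monomial, zero_sub, neg_eq_zero]
          split_ifs with h
          · rw [← h] at h0
            exact h0
          · rfl
      have h1 := Finset.card_le_card hsub
      rw [Finset.card_erase_of_mem (m.degree_mem_support ha0)] at h1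
      omega
    have hdeg : Up S (m.degree f + m.degree a) := by
      have h2 : m.degree (f * a) ∈ (f * a).support := m.degree_mem_support (mul_ne_zero hf ha0)
      rw [m.degree_mul hf ha0] at h2
      exact mem_mI.1 hfa _ h2
    have h0 : monomial (m.degree f) (1 : K) * t ∈ mI K S := by
      rw [ht, monomial_mul]
      exact mono_mem_mI hdeg
    have h1 : f * (monomial (m.degree f) (1 : K) * (a - t)) ∈ mI K S := by
      have : f * (monomial (m.degree f) (1 : K) * (a - t)) =
          monomial (m.degree f) (1 : K) * (f * a) - f * (monomial (m.degree f) (1 : K) * t) := by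
        ring
      rw [this]
      exact Ideal.sub_mem _ (Ideal.mul_mem_left _ _ hfa) (Ideal.mul_mem_left _ _ h0)
    have hcard2 : (monomial (m.degree f) (1 : K) * (a - t)).support.card ≤ n := by
      have h3 := Finset.card_le_card (support_mul (monomial (m.degree f) (1 : K)) (a - t))
      have h4 := Finset.card_add_le (s := (monomial (m.degree f) (1 : K)).support)
        (t := (a - t).support)
      have h5 : (monomial (m.degree f) (1 : K)).support.card ≤ 1 := by
        have := Finset.card_le_card (support_monomial_subset (s := m.degree f) (a := (1 : K)))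
        simpa using this
      calc _ ≤ _ := h3
        _ ≤ _ := h4
        _ ≤ 1 * (a - t).support.card := Nat.mul_le_mul_right _ h5
        _ ≤ n := by omega
    have h2 := ih _ f hcard2 hf h1
    have : (monomial (m.degree f) (1 : K)) ^ (n + 1) * a =
        (monomial (m.degree f) (1 : K)) ^ n * (monomial (m.degree f) (1 : K) * (a - t)) +
        (monomial (m.degree f) (1 : K)) ^ n * (monomial (m.degree f) (1 : K) * t) := by
      ring
    rw [this]
    exact Ideal.add_mem _ h2 (Ideal.mul_mem_left _ _ h0)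

lemma mem_ann_iff {J : Ideal (MvPolynomial σ K)} {a f : MvPolynomial σ K} :
    f ∈ (Submodule.colon (⊥ : Submodule (MvPolynomial σ K) (MvPolynomial σ K ⧸ J))
      {Ideal.Quotient.mk J a}) ↔ f * a ∈ J := by
  rw [Submodule.mem_colon_singleton, Submodule.mem_bot, ← Ideal.Quotient.eq_zero_iff_mem, map_mul]
  rfl

lemma mono_mem_of_ass (m : MonomialOrder σ) {S : Set (σ →₀ ℕ)} {P : Ideal (MvPolynomial σ K)}
    (hP : IsAssociatedPrime P (MvPolynomial σ K ⧸ mI K S)) {f : MvPolynomial σ K} (hf : f ∈ P)
    (hf0 : f ≠ 0) : monomial (m.degree f) (1 : K) ∈ P := by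
  obtain ⟨hprime, x, hx⟩ := hP
  obtain ⟨a, rfl⟩ := Ideal.Quotient.mk_surjective x
  rw [hx] at hf ⊢
  obtain ⟨k, hk⟩ := hf
  rw [mem_ann_iff] at hk
  have h1 := lead_pow m S _ a (f ^ k) le_rfl (pow_ne_zero _ hf0) hk
  rw [m.degree_pow] at h1
  refine ⟨k * a.support.card, ?_⟩
  rw [mem_ann_iff]
  have h2 : (monomial (m.degree f) (1 : K)) ^ (k * a.support.card) =
      (monomial (k • m.degree f) (1 : K)) ^ a.support.card := by
    rw [pow_mul, monomial_pow, one_pow]
  rw [h2]
  exact h1

lemma all_mono_of_ass (m : MonomialOrder σ) {S : Set (σ →₀ ℕ)} {P : Ideal (MvPolynomial σ K)}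
    (hP : IsAssociatedPrime P (MvPolynomial σ K ⧸ mI K S)) :
    ∀ (n : ℕ) (f : MvPolynomial σ K), f.support.card ≤ n → f ∈ P →
      ∀ d ∈ f.support, monomial d (1 : K) ∈ P := by
  classical
  intro n
  induction n with
  | zero =>
    intro f hf _ d hd
    have := Finset.card_eq_zero.1 (Nat.le_zero.1 hf)
    rw [this] at hd
    simp at hd
  | succ n ih =>
    intro f hf hfP d hd
    have hf0 : f ≠ 0 := by
      rintro rfl
      simp at hd
    have h1 := mono_mem_of_ass m hP hfP hf0
    by_cases hdd : d = m.degree f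
    · rw [hdd]
      exact h1
    set t := monomial (m.degree f) (m.leadingCoeff f) with ht
    have htP : t ∈ P := by
      have : t = C (m.leadingCoeff f) * monomial (m.degree f) 1 := by
        rw [ht, C_mul_monomial, mul_one]
      rw [this]
      exact Ideal.mul_mem_left _ _ h1
    have hsub : (f - t).support ⊆ f.support.erase (m.degree f) := by
      intro e he
      rw [mem_support_iff] at he
      rw [Finset.mem_erase, mem_support_iff]
      constructor
      · rintro rfl
        apply he
        rw [coeff_sub, ht, coeff_monomial, if_pos rfl]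
        simp [MonomialOrder.leadingCoeff]
      · intro h0
        apply he
        rw [coeff_sub, h0, ht, coeff_monomial, zero_sub, neg_eq_zero]
        split_ifs with h
        · rw [← h] at h0
          exact h0
        · rfl
    have hcard : (f - t).support.card ≤ n := by
      have h1 := Finset.card_le_card hsub
      rw [Finset.card_erase_of_mem (m.degree_mem_support hf0)] at h1
      omega
    apply ih (f - t) hcard (Ideal.sub_mem _ hfP htP)
    rw [mem_support_iff] at hd ⊢
    rw [coeff_sub, ht, coeff_monomial, if_neg (fun h => hdd h.symm), sub_zero]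
    exact hd

/-- associated primes of monomial ideals are generated by variables -/
lemma ass_eq_span (m : MonomialOrder σ) {S : Set (σ →₀ ℕ)} {P : Ideal (MvPolynomial σ K)}
    (hP : IsAssociatedPrime P (MvPolynomial σ K ⧸ mI K S)) :
    P = Ideal.span (X '' {i | (X i : MvPolynomial σ K) ∈ P}) := by
  classical
  haveI := hP.isPrime
  apply le_antisymm
  · intro f hf
    rw [mem_ideal_span_X_image]
    intro d hd
    have h1 := all_mono_of_ass m hP _ f le_rfl hf d hd
    rw [monomial_eq, map_one, one_mul, Finsupp.prod] at h1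
    obtain ⟨i, hi, hi2⟩ := (Ideal.IsPrime.prod_mem_iff).1 h1
    refine ⟨i, ?_, Finsupp.mem_support_iff.1 hi⟩
    exact hP.isPrime.mem_of_pow_mem _ hi2
  · rw [Ideal.span_le]
    rintro _ ⟨i, hi, rfl⟩
    exact hi

/-- criterion for `X b - X a` to be a nonzerodivisor modulo a monomial ideal -/
lemma nz_of_colon [Finite σ] (m : MonomialOrder σ) {S : Set (σ →₀ ℕ)} {a b : σ} (hab : a ≠ b)
    (H : ∀ u, Up S (u + Finsupp.single a 1) → Up S (u + Finsupp.single b 1) → Up S u) :
    NZ (mI K S) (X b - X a : MvPolynomial σ K) := by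
  classical
  intro f hf
  by_contra hfn
  have hne : Ideal.Quotient.mk (mI K S) f ≠ 0 := by
    rwa [Ne, Ideal.Quotient.eq_zero_iff_mem]
  obtain ⟨P, hP, hle⟩ := exists_le_isAssociatedPrime_of_isNoetherianRing (MvPolynomial σ K)
    (Ideal.Quotient.mk (mI K S) f) hne
  have h1 : (X b - X a : MvPolynomial σ K) ∈ P := by
    apply hle
    exact mem_ann_iff.2 hf
  have hsupp : ∀ d ∈ (X b - X a : MvPolynomial σ K).support, monomial d (1 : K) ∈ P :=
    all_mono_of_ass m hP _ _ le_rfl h1
  have hne' : Finsupp.single a 1 ≠ Finsupp.single b 1 := by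
    intro h
    exact hab (Finsupp.single_left_injective one_ne_zero h)
  have hb : (X b : MvPolynomial σ K) ∈ P := by
    apply hsupp
    rw [mem_support_iff, coeff_sub, coeff_X, coeff_X, if_pos rfl, if_neg hne']
    simp
  have ha : (X a : MvPolynomial σ K) ∈ P := by
    apply hsupp
    rw [mem_support_iff, coeff_sub, coeff_X, coeff_X, if_neg (fun h => hne' h.symm), if_pos rfl]
    simp
  obtain ⟨hprime, x, hx⟩ := hP
  obtain ⟨g, rfl⟩ := Ideal.Quotient.mk_surjective x
  rw [hx] at ha hb
  obtain ⟨k, hk⟩ := ha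
  obtain ⟨l, hl⟩ := hb
  rw [mem_ann_iff] at hk hl
  have hg := mem_of_pow_mul H hk hl
  apply hprime.ne_top
  rw [hx, Ideal.eq_top_iff_one]
  refine ⟨1, ?_⟩
  rw [mem_ann_iff]
  simpa using hg

end mon

section height

variable {n : ℕ} {K : Type*} [Field K]

/-- kill the variables in `s` -/
noncomputable def kl (K : Type*) [Field K] (s : Set (Fin n)) [DecidablePred (· ∈ s)] :
    MvPolynomial (Fin n) K →ₐ[K] MvPolynomial (Fin n) K :=
  aeval (fun i => if i ∈ s then 0 else X i)

lemma ker_le (s : Set (Fin n)) [DecidablePred (· ∈ s)] (P : Ideal (MvPolynomial (Fin n) K))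
    (hs : ∀ i ∈ s, X i ∈ P) : RingHom.ker (kl K s) ≤ P := by
  intro f hf
  rw [RingHom.mem_ker] at hf
  have h1 : (Ideal.Quotient.mkₐ K P).comp (kl K s) = Ideal.Quotient.mkₐ K P := by
    apply algHom_ext
    intro i
    simp only [AlgHom.comp_apply, kl, aeval_X]
    split_ifs with hi
    · rw [map_zero]
      exact (Ideal.Quotient.eq_zero_iff_mem.2 (hs i hi)).symm
    · rfl
  have h2 := DFunLike.congr_fun h1 f
  rw [AlgHom.comp_apply, hf, map_zero] at h2
  exact Ideal.Quotient.eq_zero_iff_mem.1 h2.symm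

lemma ker_eq (s : Set (Fin n)) [DecidablePred (· ∈ s)] :
    RingHom.ker (kl K s) = Ideal.span (X '' s) := by
  apply le_antisymm
  · exact ker_le s _ (fun i hi => Ideal.subset_span ⟨i, hi, rfl⟩)
  · rw [Ideal.span_le]
    rintro _ ⟨i, hi, rfl⟩
    rw [SetLike.mem_coe, RingHom.mem_ker]
    simp [kl, hi]

lemma span_prime (s : Set (Fin n)) :
    (Ideal.span (X '' s) : Ideal (MvPolynomial (Fin n) K)).IsPrime := by
  classical
  rw [← ker_eq]
  exact RingHom.ker_isPrime _

lemma le_height (s : Finset (Fin n)) : (s.card : ℕ∞) ≤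
    (Ideal.span (X '' (s : Set (Fin n))) : Ideal (MvPolynomial (Fin n) K)).height := by
  classical
  induction s using Finset.induction_on with
  | empty => simp
  | insert i s hi ih =>
    haveI h1 := span_prime (K := K) (n := n) (s : Set (Fin n))
    haveI h2 := span_prime (K := K) (n := n) ((insert i s : Finset (Fin n)) : Set (Fin n))
    have hlt : (Ideal.span (X '' (s : Set (Fin n))) : Ideal (MvPolynomial (Fin n) K)) <
        Ideal.span (X '' ((insert i s : Finset (Fin n)) : Set (Fin n))) := by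
      refine lt_of_le_of_ne (Ideal.span_mono (Set.image_mono (by simp))) ?_
      intro heq
      have h3 : (X i : MvPolynomial (Fin n) K) ∈ Ideal.span (X '' (s : Set (Fin n))) := by
        rw [heq]
        exact Ideal.subset_span ⟨i, by simp, rfl⟩
      rw [mem_ideal_span_X_image] at h3
      obtain ⟨j, hj, hj2⟩ := h3 (Finsupp.single i 1) (by simp [support_X])
      rw [Finsupp.single_apply] at hj2
      have : i = j := by
        by_contra h
        simp [h] at hj2
      subst this
      exact hi hj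
    have h4 := Ideal.height_add_one_le_of_lt_of_isPrime hlt
    rw [Finset.card_insert_of_notMem hi, Nat.cast_add, Nat.cast_one]
    exact (add_le_add_left ih 1).trans h4

lemma height_eq (s : Finset (Fin n)) :
    (Ideal.span (X '' (s : Set (Fin n))) : Ideal (MvPolynomial (Fin n) K)).height = s.card := by
  classical
  apply le_antisymm _ (le_height s)
  haveI := span_prime (K := K) (n := n) (s : Set (Fin n))
  have h1 := Ideal.height_le_spanFinrank
    (Ideal.span (X '' (s : Set (Fin n))) : Ideal (MvPolynomial (Fin n) K)) this.ne_top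
  refine h1.trans ?_
  have h2 := Submodule.spanFinrank_span_le_ncard_of_finite (R := MvPolynomial (Fin n) K)
    (s := (X '' (s : Set (Fin n)) : Set (MvPolynomial (Fin n) K))) (Set.toFinite _)
  have h3 : (X '' (s : Set (Fin n)) : Set (MvPolynomial (Fin n) K)).ncard ≤ s.card := by
    have := Set.ncard_image_le (f := (X : Fin n → MvPolynomial (Fin n) K)) (s := (s : Set (Fin n)))
      (Set.toFinite _)
    simpa using this
  exact_mod_cast h2.trans h3

end height

end R831.MonId
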