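import Mathlib

/-!
Permanental ideals: tools.
-/

set_option autoImplicit false
set_option linter.unusedSectionVars false

namespace Pool.Agent.R831.Perm

open Matrix

section basic

variable {n : Type*} [Fintype n] [DecidableEq n] {R : Type*} [CommRing R]

lemma perm_updateCol (N : Matrix n n R) (s : n) (w : n → R) :
    (N.updateCol s w).permanent =
      ∑ σ : Equiv.Perm n, w (σ s) * ∏ i ∈ Finset.univ.erase s, N (σ i) i := by
  unfold permanent
  refine Finset.sum_congr rfl fun σ _ => ?_
  rw [← Finset.mul_prod_erase _ _ (Finset.mem_univ s), updateCol_self]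
  congr 1
  refine Finset.prod_congr rfl fun i hi => ?_
  rw [updateCol_ne (Finset.ne_of_mem_erase hi)]

/-- the matrix of permanental cofactors -/
def cof (N : Matrix n n R) : Matrix n n R := fun r s => (N.updateCol s (Pi.single r 1)).permanent

lemma perm_updateCol_eq (N : Matrix n n R) (s : n) (w : n → R) :
    (N.updateCol s w).permanent = ∑ r, w r * cof N r s := by
  unfold cof
  simp only [perm_updateCol, Finset.mul_sum]
  rw [Finset.sum_comm]
  refine Finset.sum_congr rfl fun σ _ => ?_
  rw [Finset.sum_eq_single (σ s)]
  · rw [Pi.single_eq_same, one_mul]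
  · intro r _ hr
    rw [Pi.single_eq_of_ne hr.symm]; ring
  · intro h; exact absurd (Finset.mem_univ _) h

lemma vecMul_cof (N : Matrix n n R) (w : n → R) (s : n) :
    (w ᵥ* cof N) s = (N.updateCol s w).permanent := by
  rw [perm_updateCol_eq]; rfl

lemma map_cof {S : Type*} [CommRing S] (f : R →+* S) (N : Matrix n n R) :
    (cof N).map f = cof (N.map f) := by
  ext r s
  rw [map_apply]
  unfold cof permanent
  rw [map_sum]
  refine Finset.sum_congr rfl fun σ _ => ?_
  rw [map_prod]
  refine Finset.prod_congr rfl fun i _ => ?_
  by_cases h : i = s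
  · subst h
    rw [updateCol_self, updateCol_self]
    by_cases h' : σ i = r
    · rw [h', Pi.single_eq_same, Pi.single_eq_same, map_one]
    · rw [Pi.single_eq_of_ne h', Pi.single_eq_of_ne h', map_zero]
  · rw [updateCol_ne h, updateCol_ne h, map_apply]

/-- the determinant of the matrix of cofactors lies in a prime ideal containing the permanents of
the matrices in which one column is replaced by a given vector -/
lemma crit (I : Ideal R) (hI : I.IsPrime) (N : Matrix n n R) (w : n → R)
    (h : ∀ s, (N.updateCol s w).permanent ∈ I) (i : n) (hw : w i ∉ I) : (cof N).det ∈ I := by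
  let q := Ideal.Quotient.mk I
  have h1 : (fun j => q (w j)) ᵥ* ((cof N).map q) = 0 := by
    funext s
    have := h s
    rw [← Ideal.Quotient.eq_zero_iff_mem, perm_updateCol_eq, map_sum] at this
    simp only [map_mul] at this
    exact this
  have h2 : (fun j => q (w j)) ≠ 0 := by
    intro h0
    exact hw (Ideal.Quotient.eq_zero_iff_mem.1 (congrFun h0 i))
  have h3 := exists_vecMul_eq_zero_iff.1 ⟨_, h2, h1⟩
  rw [← Ideal.Quotient.eq_zero_iff_mem]
  change q _ = 0
  rw [RingHom.map_det]
  exact h3

end basic

/-! ### The arrow matrix -/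

section arrow

variable {n : Type*} [Fintype n] [DecidableEq n] {k : Type*} [CommRing k] (l : n)

/-- the arrow matrix with last column `c` -/
def arrow (c : n → k) : Matrix n n k := fun i j =>
  if j = l then c i else (if i = j then 1 else 0) + (if i = l then 1 else 0)

lemma perm_struct {l : n} (σ : Equiv.Perm n) (h : ∀ j, j ≠ l → σ j = j ∨ σ j = l) :
    σ = Equiv.swap (σ l) l := by
  ext j
  by_cases hj : j = l
  · subst hj; rw [Equiv.swap_apply_right]
  · by_cases hj' : j = σ l
    · rw [← hj', Equiv.swap_apply_left]
      rcases h j hj with h1 | h1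
      · exfalso; apply hj
        apply σ.injective
        rw [h1]; exact hj'
      · exact h1
    · rw [Equiv.swap_apply_of_ne_of_ne hj' hj]
      rcases h j hj with h1 | h1
      · exact h1
      · exfalso
        by_cases h0 : σ l = l
        · exact hj (σ.injective (h1.trans h0.symm))
        · rcases h (σ l) h0 with h2 | h2
          · exact h0 (σ.injective h2)
          · exact hj' (σ.injective (h1.trans h2.symm))

lemma arrow_ne {c : n → k} {i j : n} (hj : j ≠ l) (h : arrow l c i j ≠ 0) : i = j ∨ i = l := by
  by_contra hcon
  push Not at hcon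
  apply h
  unfold arrow
  rw [if_neg hj, if_neg hcon.1, if_neg hcon.2, add_zero]

lemma arrow_self {c : n → k} {j : n} (hj : j ≠ l) : arrow l c j j = 1 := by
  unfold arrow
  rw [if_neg hj, if_pos rfl, if_neg hj, add_zero]

lemma arrow_l {c : n → k} {j : n} (hj : j ≠ l) : arrow l c l j = 1 := by
  unfold arrow
  rw [if_neg hj, if_neg hj.symm, if_pos rfl, zero_add]

lemma perm_arrow (c : n → k) : (arrow l c).permanent = ∑ i, c i := by
  unfold permanent
  symm
  refine Fintype.sum_of_injective (fun i => Equiv.swap i l) ?_ _ _ ?_ ?_
  · intro i j hij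
    have := congrArg (fun σ : Equiv.Perm n => σ l) hij
    simpa using this
  · intro σ hσ
    by_contra hne
    apply hσ
    refine ⟨σ l, (perm_struct σ fun j hj => ?_).symm⟩
    exact arrow_ne l hj fun h0 => hne (Finset.prod_eq_zero (Finset.mem_univ j) h0)
  · intro i
    rw [← Finset.mul_prod_erase _ _ (Finset.mem_univ l), Equiv.swap_apply_right]
    have : ∏ x ∈ Finset.univ.erase l, arrow l c (Equiv.swap i l x) x = 1 := by
      refine Finset.prod_eq_one fun j hj => ?_
      have hj := Finset.ne_of_mem_erase hj
      by_cases hji : j = i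
      · subst hji; rw [Equiv.swap_apply_left, arrow_l l hj]
      · rw [Equiv.swap_apply_of_ne_of_ne hji hj, arrow_self l hj]
    rw [this, mul_one]
    unfold arrow
    rw [if_pos rfl]

/-- permanent of the arrow matrix with one further column replaced -/
lemma perm_arrow_updateCol (c v : n → k) (s : n) (hs : s ≠ l) :
    ((arrow l c).updateCol s v).permanent =
      v s * (∑ i, c i - c s) + c s * (∑ i, v i - v s) := by
  have hM : ∀ j, j ≠ l → j ≠ s → ∀ i, (arrow l c).updateCol s v i j = arrow l c i j :=
    fun j _ hjs i => by rw [updateCol_ne hjs]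
  have h1 : ((arrow l c).updateCol s v).permanent =
      ∑ x : {i : n // i ≠ s} × Bool, if x.2 then v x.1 * c s else v s * c x.1 := by
    unfold permanent
    symm
    refine Fintype.sum_of_injective (fun x : {i : n // i ≠ s} × Bool =>
      if x.2 then Equiv.swap x.1.1 l * Equiv.swap s l else Equiv.swap x.1.1 l) ?_ _ _ ?_ ?_
    · rintro ⟨⟨i, hi⟩, a⟩ ⟨⟨j, hj⟩, b⟩ hij
      have e1 := congrArg (fun σ : Equiv.Perm n => σ l) hij
      have e2 := congrArg (fun σ : Equiv.Perm n => σ s) hij
      have t1 : ∀ i, i ≠ s → Equiv.swap i l s = s := fun i hi =>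
        Equiv.swap_apply_of_ne_of_ne hi.symm hs
      rcases a with _ | _ <;> rcases b with _ | _ <;>
        simp only [Bool.false_eq_true, if_false, if_true, Equiv.Perm.mul_apply,
          Equiv.swap_apply_right, Equiv.swap_apply_left, t1 i hi, t1 j hj] at e1 e2
      · simp [e1]
      · exact absurd e1 hi
      · exact absurd e1.symm hj
      · simp [e2]
    · intro σ hσ
      by_contra hne
      apply hσ
      have h2 : ∀ j, j ≠ l → j ≠ s → σ j = j ∨ σ j = l := by
        intro j hj hjs
        refine arrow_ne l hj (c := c) fun h0 => hne (Finset.prod_eq_zero (Finset.mem_univ j) ?_)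
        rw [hM j hj hjs, h0]
      by_cases hss : σ s = s
      · refine ⟨(⟨σ l, fun h => hs ?_⟩, false), ?_⟩
        · exact σ.injective (hss.trans h.symm)
        · simp only [Bool.false_eq_true, if_false]
          refine (perm_struct σ fun j hj => ?_).symm
          by_cases hjs : j = s
          · left; rw [hjs]; exact hss
          · exact h2 j hj hjs
      · have hls : σ l = s := by
          obtain ⟨x, hx⟩ := σ.surjective s
          by_cases hxl : x = l
          · rw [← hxl]; exact hx
          · by_cases hxs : x = s
            · exact absurd (hxs ▸ hx) hss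
            · rcases h2 x hxl hxs with h3 | h3
              · exact absurd (h3.symm.trans hx) hxs
              · exact absurd (hx.symm.trans h3) hs
        refine ⟨(⟨σ s, hss⟩, true), ?_⟩
        simp only [if_true]
        have h3 : σ * Equiv.swap s l = Equiv.swap ((σ * Equiv.swap s l) l) l := by
          refine perm_struct _ fun j hj => ?_
          rw [Equiv.Perm.mul_apply]
          by_cases hjs : j = s
          · subst hjs
            rw [Equiv.swap_apply_left]; exact Or.inl hls
          · rw [Equiv.swap_apply_of_ne_of_ne hjs hj]; exact h2 j hj hjs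
        rw [Equiv.Perm.mul_apply, Equiv.swap_apply_right] at h3
        rw [← h3, mul_assoc, Equiv.swap_mul_self, mul_one]
    · rintro ⟨⟨i, hi⟩, b⟩
      have hls : l ∈ Finset.univ.erase s := Finset.mem_erase.2 ⟨hs.symm, Finset.mem_univ _⟩
      rw [← Finset.mul_prod_erase _ _ (Finset.mem_univ s), ← Finset.mul_prod_erase _ _ hls,
        updateCol_self, updateCol_ne hs.symm]
      have hrest : ∀ σ : Equiv.Perm n, (∀ j, j ≠ l → j ≠ s → σ j = Equiv.swap i l j) →
          ∏ x ∈ (Finset.univ.erase s).erase l, (arrow l c).updateCol s v (σ x) x = 1 := by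
        intro σ hσ
        refine Finset.prod_eq_one fun j hj => ?_
        rw [Finset.mem_erase, Finset.mem_erase] at hj
        rw [hM j hj.1 hj.2.1, hσ j hj.1 hj.2.1]
        by_cases hji : j = i
        · subst hji; rw [Equiv.swap_apply_left, arrow_l l hj.1]
        · rw [Equiv.swap_apply_of_ne_of_ne hji hj.1, arrow_self l hj.1]
      rcases b with _ | _
      · simp only [Bool.false_eq_true, if_false]
        rw [hrest _ fun j _ _ => rfl, Equiv.swap_apply_of_ne_of_ne hi.symm hs,
          Equiv.swap_apply_right]
        unfold arrow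
        rw [if_pos rfl, mul_one]
      · simp only [if_true]
        rw [hrest]
        · rw [Equiv.Perm.mul_apply, Equiv.Perm.mul_apply, Equiv.swap_apply_left,
            Equiv.swap_apply_right, Equiv.swap_apply_right,
            Equiv.swap_apply_of_ne_of_ne hi.symm hs]
          unfold arrow
          rw [if_pos rfl, mul_one]
        · intro j hj hjs
          rw [Equiv.Perm.mul_apply, Equiv.swap_apply_of_ne_of_ne hjs hj]
  rw [h1, Fintype.sum_prod_type]
  simp only [Fintype.sum_bool, if_true, Bool.false_eq_true, if_false]
  rw [Finset.sum_add_distrib, ← Finset.sum_mul, ← Finset.mul_sum]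
  have h3 : ∀ f : n → k, ∑ x : {i : n // i ≠ s}, f x = ∑ i, f i - f s := by
    intro f
    rw [← Finset.sum_erase_eq_sub (Finset.mem_univ s)]
    refine (Finset.sum_subtype (Finset.univ.erase s) (fun x => by simp) f).symm
  rw [h3, h3]
  ring

end arrow

section field

variable {n : Type*} [Fintype n] [DecidableEq n] {k : Type*} [Field k] (l : n)

variable (k) in
/-- the last column `(1, …, 1, 1 - |n|)` -/
def lastCol : n → k := fun i => if i = l then 1 - (Fintype.card n : k) else 1

lemma sum_lastCol : ∑ i, lastCol k l i = 0 := by
  unfold lastCol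
  have : ∀ i, (if i = l then 1 - (Fintype.card n : k) else 1) =
      (if i = l then - (Fintype.card n : k) else 0) + 1 := by
    intro i; split_ifs <;> ring
  simp only [this]
  rw [Finset.sum_add_distrib, Finset.sum_ite_eq' Finset.univ l, if_pos (Finset.mem_univ _)]
  simp

variable (k) in
/-- the matrix with permanent `0` and nonsingular matrix of cofactors -/
def N0 : Matrix n n k := arrow l (lastCol k l)

lemma perm_N0 : (N0 k l).permanent = 0 := by
  unfold N0
  rw [perm_arrow, sum_lastCol]

lemma N0_symm (i j : n) : N0 k l i j = N0 k l j i := by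
  unfold N0 arrow lastCol
  by_cases hi : i = l <;> by_cases hj : j = l
  · rw [hi, hj]
  · simp [hi, hj, Ne.symm hj]
  · simp [hi, hj, Ne.symm hi]
  · simp [hi, hj, eq_comm]

lemma det_cof_N0 (h2 : (2 : k) ≠ 0) : (cof (N0 k l)).det ≠ 0 := by
  intro h0
  obtain ⟨v, hv, hv0⟩ := exists_vecMul_eq_zero_iff.2 h0
  have h1 : ∑ i, v i = 0 := by
    have := congrFun hv0 l
    rw [vecMul_cof] at this
    have e : (N0 k l).updateCol l v = arrow l v := by
      ext i j
      by_cases hj : j = l
      · subst hj; rw [updateCol_self]; unfold arrow; rw [if_pos rfl]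
      · rw [updateCol_ne hj]; unfold N0 arrow; rw [if_neg hj, if_neg hj]
    rw [e, perm_arrow] at this
    exact this
  have h3 : ∀ s, s ≠ l → v s = 0 := by
    intro s hs
    have := congrFun hv0 s
    rw [vecMul_cof] at this
    unfold N0 at this
    rw [perm_arrow_updateCol l _ _ s hs, sum_lastCol, h1] at this
    unfold lastCol at this
    rw [if_neg hs] at this
    have h4 : 2 * v s = 0 := by
      have h5 : v s * (0 - 1) + 1 * (0 - v s) = (0 : n → k) s := this
      rw [Pi.zero_apply] at h5
      linear_combination -h5
    exact (mul_eq_zero.1 h4).resolve_left h2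
  apply hv
  funext i
  by_cases hi : i = l
  · subst hi
    rw [← Finset.add_sum_erase _ _ (Finset.mem_univ i), Finset.sum_eq_zero, add_zero] at h1
    · exact h1
    · intro j hj
      exact h3 j (Finset.ne_of_mem_erase hj)
  · exact h3 i hi

end field

end Pool.Agent.R831.Perm
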