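import Mathlib
import Pool.Agent.R831.Perm

/-!
Permanental ideals are not prime, for patterns of variables through which the arrow matrix can be
reached.
-/

set_option autoImplicit false
set_option linter.unusedSectionVars false

namespace Pool.Agent.R831.PermIdeal

open Matrix Pool.Agent.R831.Perm

/-- The ideal `P_t(X)` generated by the permanents of all `t × t` submatrices of `X`. -/
def permIdeal {R : Type*} [CommRing R] {m n : ℕ} (t : ℕ) (X : Matrix (Fin m) (Fin n) R) :
    Ideal R :=
  Ideal.span {x | ∃ (r : Fin t ↪o Fin m) (c : Fin t ↪o Fin n), x = (X.submatrix r c).permanent}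

section

variable {R : Type*} [CommRing R] {m n t : ℕ}

lemma exists_orderEmb (r : Fin t ↪ Fin m) :
    ∃ (σ : Equiv.Perm (Fin t)) (r' : Fin t ↪o Fin m), ∀ i, r' i = r (σ i) := by
  refine ⟨Tuple.sort r, OrderEmbedding.ofStrictMono (r ∘ Tuple.sort r) ?_, fun i => rfl⟩
  exact (Tuple.monotone_sort r).strictMono_of_injective
    (r.injective.comp (Tuple.sort r).injective)

lemma permanent_submatrix_equiv (M : Matrix (Fin t) (Fin t) R) (σ τ : Equiv.Perm (Fin t)) :
    (M.submatrix σ τ).permanent = M.permanent := by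
  have : M.submatrix σ τ = (M.submatrix id τ).submatrix σ id := rfl
  rw [this, permanent_permute_cols, permanent_permute_rows]

lemma mem_permIdeal (X : Matrix (Fin m) (Fin n) R) (r : Fin t ↪ Fin m) (c : Fin t ↪ Fin n) :
    (X.submatrix r c).permanent ∈ permIdeal t X := by
  obtain ⟨σ, r', hr⟩ := exists_orderEmb r
  obtain ⟨τ, c', hc⟩ := exists_orderEmb c
  refine Ideal.subset_span ⟨r', c', ?_⟩
  have : X.submatrix r' c' = (X.submatrix r c).submatrix σ τ := by
    ext i j
    simp [hr, hc]
  rw [this, permanent_submatrix_equiv]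

lemma permIdeal_transpose (X : Matrix (Fin m) (Fin n) R) :
    permIdeal t Xᵀ = permIdeal t X := by
  unfold permIdeal
  congr 1
  ext x
  constructor
  · rintro ⟨r, c, rfl⟩
    exact ⟨c, r, by rw [← permanent_transpose, transpose_submatrix, transpose_transpose]⟩
  · rintro ⟨r, c, rfl⟩
    exact ⟨c, r, by rw [← permanent_transpose, transpose_submatrix]⟩

lemma permIdeal_le_ker {S : Type*} [CommRing S] (φ : R →+* S) (X : Matrix (Fin m) (Fin n) R)
    (h : ∀ (r : Fin t ↪ Fin m) (c : Fin t ↪ Fin n),
      ((X.map φ).submatrix r c).permanent = 0) : permIdeal t X ≤ RingHom.ker φ := by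
  unfold permIdeal
  rw [Ideal.span_le]
  rintro _ ⟨r, c, rfl⟩
  rw [SetLike.mem_coe, RingHom.mem_ker]
  rw [← h r.toEmbedding c.toEmbedding]
  unfold permanent
  simp only [map_sum, map_prod, submatrix_apply, map_apply]
  rfl

lemma perm_zero_row (M : Matrix (Fin t) (Fin t) R) (i : Fin t) (h : ∀ j, M i j = 0) :
    M.permanent = 0 := by
  unfold permanent
  refine Finset.sum_eq_zero fun σ _ => ?_
  refine Finset.prod_eq_zero (Finset.mem_univ (σ.symm i)) ?_
  rw [Equiv.apply_symm_apply, h]

lemma perm_zero_col (M : Matrix (Fin t) (Fin t) R) (j : Fin t) (h : ∀ i, M i j = 0) :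
    M.permanent = 0 := by
  unfold permanent
  refine Finset.sum_eq_zero fun σ _ => ?_
  exact Finset.prod_eq_zero (Finset.mem_univ j) (h _)

/-- all permanents vanish if they vanish for one block and the other entries are zero -/
lemma perms_zero (Y : Matrix (Fin m) (Fin n) R) (r : Fin t ↪ Fin m) (c : Fin t ↪ Fin n)
    (h0 : (Y.submatrix r c).permanent = 0) (hr : ∀ i, i ∉ Set.range r → ∀ j, Y i j = 0)
    (hc : ∀ j, j ∉ Set.range c → ∀ i, Y i j = 0) (r' : Fin t ↪ Fin m) (c' : Fin t ↪ Fin n) :
    (Y.submatrix r' c').permanent = 0 := by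
  by_cases h1 : ∀ i, r' i ∈ Set.range r
  · by_cases h2 : ∀ j, c' j ∈ Set.range c
    · choose f hf using h1
      choose g hg using h2
      have hfi : Function.Injective f := fun a b hab => r'.injective (by rw [← hf, ← hf, hab])
      have hgi : Function.Injective g := fun a b hab => c'.injective (by rw [← hg, ← hg, hab])
      let σ : Equiv.Perm (Fin t) := Equiv.ofBijective f (Finite.injective_iff_bijective.1 hfi)
      let τ : Equiv.Perm (Fin t) := Equiv.ofBijective g (Finite.injective_iff_bijective.1 hgi)
      have : Y.submatrix r' c' = (Y.submatrix r c).submatrix σ τ := by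
        ext i j
        simp [σ, τ, hf, hg]
      rw [this, permanent_submatrix_equiv, h0]
    · push Not at h2
      obtain ⟨j, hj⟩ := h2
      exact perm_zero_col _ j fun i => hc _ hj _
  · push Not at h1
    obtain ⟨i, hi⟩ := h1
    exact perm_zero_row _ i fun j => hr _ hi _

/-- the criterion -/
lemma not_prime (X : Matrix (Fin m) (Fin n) R) (r : Fin t ↪ Fin m) (c : Fin t ↪ Fin n)
    (c' : Fin n) (hc' : c' ∉ Set.range c) (l : Fin t) (hX : X (r l) c' ∉ permIdeal t X)
    {k : Type*} [Field k] (h2 : (2 : k) ≠ 0) (φ : R →+* k)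
    (hφ : ∀ i j, φ (X (r i) (c j)) = N0 k l i j)
    (hr : ∀ i, i ∉ Set.range r → ∀ j, φ (X i j) = 0)
    (hc : ∀ j, j ∉ Set.range c → ∀ i, φ (X i j) = 0) : ¬ (permIdeal t X).IsPrime := by
  intro hP
  have hsub : (X.map φ).submatrix r c = N0 k l := by
    ext i j
    exact hφ i j
  have hker : permIdeal t X ≤ RingHom.ker φ := by
    apply permIdeal_le_ker
    intro r' c'
    refine perms_zero (X.map φ) r c ?_ hr hc r' c'
    rw [hsub, perm_N0]
  have h3 := crit (permIdeal t X) hP (X.submatrix r c) (fun i => X (r i) c') (fun s => ?_) l hX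
  · have h4 := hker h3
    rw [RingHom.mem_ker, RingHom.map_det, RingHom.mapMatrix_apply, map_cof] at h4
    have : (X.submatrix r c).map φ = N0 k l := hsub
    rw [this] at h4
    exact det_cof_N0 l h2 h4
  · -- the columns `c` with the column `s` replaced by `c'`
    let cs : Fin t ↪ Fin n := ⟨Function.update c s c', fun a b hab => by
      by_cases ha : a = s
      · by_cases hb : b = s
        · rw [ha, hb]
        · rw [ha, Function.update_self, Function.update_of_ne hb] at hab
          exact absurd ⟨b, hab.symm⟩ hc'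
      · by_cases hb : b = s
        · rw [hb, Function.update_self, Function.update_of_ne ha] at hab
          exact absurd ⟨a, hab⟩ hc'
        · rw [Function.update_of_ne hb, Function.update_of_ne ha] at hab
          exact c.injective hab⟩
    have : (X.submatrix r c).updateCol s (fun i => X (r i) c') = X.submatrix r cs := by
      ext i j
      by_cases hj : j = s
      · subst hj
        rw [updateCol_self, submatrix_apply]
        exact congrArg (X (r i)) (Function.update_self j c' c).symm
      · rw [updateCol_ne hj, submatrix_apply, submatrix_apply]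
        exact congrArg (X (r i)) (Function.update_of_ne hj c' c).symm
    rw [this]
    exact mem_permIdeal X r cs

end

open MvPolynomial in
/-- a variable is not in the ideal -/
lemma X_notMem {k σ : Type*} [Field k] {m n t : ℕ} (ht : 2 ≤ t) (f : Fin m → Fin n → σ) (v : σ) :
    (X v : MvPolynomial σ k) ∉ permIdeal t (Matrix.of fun i j => (X (f i j) : MvPolynomial σ k)) := by
  intro h
  let ψ : MvPolynomial σ k →+* DualNumber k := (aeval fun _ => (DualNumber.eps : DualNumber k) :
    MvPolynomial σ k →ₐ[k] DualNumber k)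
  have hψ : ∀ u, ψ (X u) = DualNumber.eps := fun u => aeval_X _ u
  have h1 := permIdeal_le_ker ψ (Matrix.of fun i j => (X (f i j) : MvPolynomial σ k)) (t := t) (by
    intro r c
    unfold permanent
    refine Finset.sum_eq_zero fun s _ => ?_
    have : ∀ i, ((Matrix.of fun i j => (X (f i j) : MvPolynomial σ k)).map ψ).submatrix r c (s i) i =
        (DualNumber.eps : DualNumber k) := fun i => hψ _
    simp only [this]
    rw [Finset.prod_const, Finset.card_univ, Fintype.card_fin]
    obtain ⟨u, rfl⟩ : ∃ u, t = 2 + u := ⟨t - 2, by omega⟩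
    rw [pow_add, pow_two, DualNumber.eps_mul_eps, zero_mul]) h
  rw [RingHom.mem_ker, hψ] at h1
  have := congrArg TrivSqZeroExt.snd h1
  rw [DualNumber.snd_eps, TrivSqZeroExt.snd_zero] at this
  exact one_ne_zero this

open MvPolynomial in
/-- matrices of variables: if the values `Y i j` (the arrow matrix in the first `t` rows and
columns, `0` elsewhere) can be attained, then the ideal is not prime -/
lemma not_prime_pattern {k σ : Type*} [Field k] (h2 : (2 : k) ≠ 0) {m n t : ℕ} (ht : 2 ≤ t)
    (hm : t ≤ m) (hn : t < n) (f : Fin m → Fin n → σ) (y : σ → k)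
    (hy : ∀ i j, y (f i j) = if h : i.1 < t ∧ j.1 < t then
      N0 k (⟨0, by omega⟩ : Fin t) ⟨i.1, h.1⟩ ⟨j.1, h.2⟩ else 0) :
    ¬ (permIdeal t (Matrix.of fun i j => (X (f i j) : MvPolynomial σ k))).IsPrime := by
  have e : ∀ i j, eval y ((Matrix.of fun i j => (X (f i j) : MvPolynomial σ k)) i j) = y (f i j) :=
    fun i j => by simp
  refine not_prime _ (Fin.castLEEmb hm) (Fin.castLEEmb hn.le) ⟨t, hn⟩ ?_ ⟨0, by omega⟩
    (X_notMem ht f _) h2 (eval y) ?_ ?_ ?_
  · rintro ⟨a, ha⟩
    have := congrArg Fin.val ha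
    simp at this
    omega
  · intro i j
    rw [e, hy, dif_pos ⟨by simp, by simp⟩]
    rfl
  · intro i hi j
    rw [e, hy, dif_neg]
    rintro ⟨h, -⟩
    exact hi ⟨⟨i.1, h⟩, rfl⟩
  · intro j hj i
    rw [e, hy, dif_neg]
    rintro ⟨-, h⟩
    exact hj ⟨⟨j.1, h⟩, rfl⟩

end Pool.Agent.R831.PermIdeal
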