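import Pool.Agent.R831.Hyper

/-!
Primeness of hypergraph LSS ideals above the positive matching decomposition number.
-/

namespace R831.Hyper

open MvPolynomial R831.Deform R831.Toric

variable {K : Type*} [Field K] {n : ℕ}

/-- `M` is a positive matching of `E`: a set of pairwise disjoint members of `E` such that some
`w : V → ℝ` has `∑_{i ∈ A} w i > 0` for `A ∈ M` and `∑_{i ∈ A} w i < 0` for `A ∈ E ∖ M`. -/
def IsPositiveMatching (E M : Finset (Finset (Fin n))) : Prop :=
  M ⊆ E ∧ (∀ A ∈ M, ∀ B ∈ M, A ≠ B → Disjoint A B) ∧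
    ∃ w : Fin n → ℝ, (∀ A ∈ M, 0 < ∑ i ∈ A, w i) ∧ ∀ A ∈ E \ M, ∑ i ∈ A, w i < 0

/-- `HasPMD p E`: there is a positive matching decomposition `E = E₁ ⊔ ⋯ ⊔ E_p`. -/
def HasPMD : ℕ → Finset (Finset (Fin n)) → Prop
  | 0, E => E = ∅
  | p + 1, E => ∃ M, IsPositiveMatching E M ∧ HasPMD p (E \ M)

lemma IsPositiveMatching.mono {E M E' : Finset (Finset (Fin n))} (h : IsPositiveMatching E M)
    (h' : E' ⊆ E) : IsPositiveMatching E' (M ∩ E') := by
  obtain ⟨h1, h2, w, h3, h4⟩ := h
  refine ⟨Finset.inter_subset_right, ?_, w, ?_, ?_⟩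
  · intro A hA B hB
    exact h2 A (Finset.mem_inter.1 hA).1 B (Finset.mem_inter.1 hB).1
  · intro A hA
    exact h3 A (Finset.mem_inter.1 hA).1
  · intro A hA
    apply h4 A
    rw [Finset.mem_sdiff, Finset.mem_inter] at hA
    rw [Finset.mem_sdiff]
    exact ⟨h' hA.1, fun h => hA.2 ⟨h, hA.1⟩⟩

lemma HasPMD.mono : ∀ (p : ℕ) {E E' : Finset (Finset (Fin n))}, HasPMD p E → E' ⊆ E →
    HasPMD p E' := by
  intro p
  induction p with
  | zero =>
    intro E E' h h'
    simp only [HasPMD] at h ⊢
    rw [h] at h'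
    exact Finset.subset_empty.1 h'
  | succ p ih =>
    rintro E E' ⟨M, hM, hE⟩ h'
    refine ⟨M ∩ E', hM.mono h', ih hE ?_⟩
    intro A hA
    rw [Finset.mem_sdiff, Finset.mem_inter] at hA
    rw [Finset.mem_sdiff]
    exact ⟨h' hA.1, fun h => hA.2 ⟨h, hA.1⟩⟩

/-- Integral weights: `∑_{i∈A} u_i = H |A|` on the matching and `> H |A|` elsewhere. -/
lemma exists_weights {E M : Finset (Finset (Fin n))} (hE : ∀ A ∈ E, A.Nonempty)
    (h : IsPositiveMatching E M) : ∃ (u : Fin n → ℕ) (H : ℕ),
      (∀ A ∈ M, ∑ i ∈ A, u i = H * A.card) ∧ ∀ A ∈ E \ M, H * A.card < ∑ i ∈ A, u i := by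
  obtain ⟨h1, h2, w, h3, h4⟩ := h
  rcases isEmpty_or_nonempty (Fin n) with hemp | hnon
  · refine ⟨fun _ => 0, 0, ?_, ?_⟩
    · intro A hA; simp
    · intro A hA
      obtain ⟨i, _⟩ := hE A (Finset.mem_sdiff.1 hA).1
      exact hemp.elim i
  -- a large integer `N`
  obtain ⟨N, hN⟩ : ∃ N : ℕ, 0 < N ∧ ∀ A ∈ M, (n : ℝ) < N * ∑ i ∈ A, w i := by
    have : ∀ A ∈ M, ∃ N : ℕ, (n : ℝ) < N * ∑ i ∈ A, w i := by
      intro A hA
      obtain ⟨N, hN⟩ := exists_nat_gt ((n : ℝ) / ∑ i ∈ A, w i)
      exact ⟨N, by rwa [div_lt_iff₀ (h3 A hA)] at hN⟩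
    choose! Nf hNf using this
    refine ⟨∑ A ∈ M, Nf A + 1, by omega, ?_⟩
    intro A hA
    refine (hNf A hA).trans_le ?_
    apply mul_le_mul_of_nonneg_right _ (h3 A hA).le
    have : Nf A ≤ ∑ A ∈ M, Nf A := Finset.single_le_sum (fun _ _ => Nat.zero_le _) hA
    exact_mod_cast this.trans (Nat.le_succ _)
  -- integral weights
  let v0 : Fin n → ℤ := fun i => ⌊(N : ℝ) * w i⌋
  have hv1 : ∀ A ∈ M, 0 < ∑ i ∈ A, v0 i := by
    intro A hA
    have h5 : (0 : ℝ) < ∑ i ∈ A, (v0 i : ℝ) := by
      have h6 : ∑ i ∈ A, ((N : ℝ) * w i - 1) ≤ ∑ i ∈ A, (v0 i : ℝ) := by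
        apply Finset.sum_le_sum
        intro i _
        exact (Int.sub_one_lt_floor _).le
      rw [Finset.sum_sub_distrib, ← Finset.mul_sum, Finset.sum_const, nsmul_eq_mul, mul_one] at h6
      have h7 : (A.card : ℝ) ≤ n := by
        have := A.card_le_univ
        rw [Fintype.card_fin] at this
        exact_mod_cast this
      have := hN.2 A hA
      linarith
    exact_mod_cast h5
  have hv2 : ∀ A ∈ E \ M, ∑ i ∈ A, v0 i < 0 := by
    intro A hA
    have h5 : ∑ i ∈ A, (v0 i : ℝ) < 0 := by
      have h6 : ∑ i ∈ A, (v0 i : ℝ) ≤ ∑ i ∈ A, ((N : ℝ) * w i) := by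
        apply Finset.sum_le_sum
        intro i _
        exact Int.floor_le _
      rw [← Finset.mul_sum] at h6
      have h7 : (N : ℝ) * ∑ i ∈ A, w i < 0 :=
        mul_neg_of_pos_of_neg (by exact_mod_cast hN.1) (h4 A hA)
      linarith
    exact_mod_cast h5
  -- roots
  have hroot : ∀ A ∈ M, ∃ i, i ∈ A := fun A hA => hE A (h1 hA)
  choose! r hr using hroot
  let v : Fin n → ℤ := fun i => v0 i - ∑ A ∈ M.filter (fun A => r A = i), ∑ j ∈ A, v0 j
  have hvA : ∀ A ∈ M, ∑ i ∈ A, v i = 0 := by
    intro A hA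
    have h5 : ∑ i ∈ A, ∑ B ∈ M.filter (fun B => r B = i), ∑ j ∈ B, v0 j = ∑ j ∈ A, v0 j := by
      rw [Finset.sum_eq_single (r A)]
      · have : M.filter (fun B => r B = r A) = {A} := by
          ext B
          simp only [Finset.mem_filter, Finset.mem_singleton]
          constructor
          · rintro ⟨hB, hBA⟩
            by_contra hne
            exact Finset.disjoint_left.1 (h2 B hB A hA hne) (hr B hB) (hBA ▸ hr A hA)
          · rintro rfl
            exact ⟨hA, rfl⟩
        rw [this, Finset.sum_singleton]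
      · intro i hi hne
        apply Finset.sum_eq_zero
        intro B hB
        exfalso
        obtain ⟨hB', hB''⟩ := Finset.mem_filter.1 hB
        by_cases hBA : B = A
        · exact hne (by rw [← hB'', hBA])
        · exact Finset.disjoint_left.1 (h2 B hB' A hA hBA) (hr B hB') (hB'' ▸ hi)
      · intro h; exact absurd (hr A hA) h
    simp only [v]
    rw [Finset.sum_sub_distrib, h5, sub_self]
  have hvB : ∀ A ∈ E \ M, ∑ i ∈ A, v i < 0 := by
    intro A hA
    refine lt_of_le_of_lt ?_ (hv2 A hA)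
    apply Finset.sum_le_sum
    intro i _
    simp only [v]
    have : 0 ≤ ∑ A ∈ M.filter (fun A => r A = i), ∑ j ∈ A, v0 j := by
      apply Finset.sum_nonneg
      intro B hB
      exact (hv1 B (Finset.mem_filter.1 hB).1).le
    linarith
  -- shift
  let H : ℕ := ∑ i, (v i).natAbs
  have hH : ∀ i, v i ≤ H := by
    intro i
    have h5 : (v i).natAbs ≤ H :=
      Finset.single_le_sum (f := fun i => (v i).natAbs) (fun _ _ => Nat.zero_le _)
        (Finset.mem_univ i)
    omega
  let u : Fin n → ℕ := fun i => ((H : ℤ) - v i).toNat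
  have hu : ∀ i, (u i : ℤ) = H - v i := by
    intro i
    have := hH i
    simp only [u]
    rw [Int.toNat_of_nonneg]
    linarith
  have hsum : ∀ A : Finset (Fin n), ((∑ i ∈ A, u i : ℕ) : ℤ) = H * A.card - ∑ i ∈ A, v i := by
    intro A
    push_cast
    simp only [hu]
    rw [Finset.sum_sub_distrib, Finset.sum_const, nsmul_eq_mul]
    ring
  refine ⟨u, H, ?_, ?_⟩
  · intro A hA
    have := hsum A
    rw [hvA A hA, sub_zero] at this
    exact_mod_cast this
  · intro A hA
    have h5 := hsum A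
    have h6 := hvB A hA
    have : ((H * A.card : ℕ) : ℤ) < ((∑ i ∈ A, u i : ℕ) : ℤ) := by
      rw [h5]
      push_cast
      linarith
    exact_mod_cast this

/-- The part of `f_A` in the last `d` coordinates. -/
noncomputable def gg (K : Type*) [Field K] {n : ℕ} (d : ℕ) (A : Finset (Fin n)) :
    MvPolynomial (Fin n × Fin (d + 1)) K := ∑ l : Fin d, ∏ i ∈ A, X (i, l.succ)

/-- The part of `f_A` in the zeroth coordinate. -/
noncomputable def hh (K : Type*) [Field K] {n : ℕ} (d : ℕ) (A : Finset (Fin n)) :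
    MvPolynomial (Fin n × Fin (d + 1)) K := ∏ i ∈ A, X (i, 0)

lemma ff_succ (d : ℕ) (A : Finset (Fin n)) : ff K n (d + 1) A = gg K d A + hh K d A := by
  rw [ff, Fin.sum_univ_succ, gg, hh]
  exact add_comm _ _

/-- inclusion of the last `d` coordinates -/
noncomputable def inc (K : Type*) [Field K] (n d : ℕ) :
    MvPolynomial (Fin n × Fin d) K →+* MvPolynomial (Fin n × Fin (d + 1)) K :=
  (rename (fun x => (x.1, x.2.succ))).toRingHom

lemma inc_ff (d : ℕ) (A : Finset (Fin n)) : inc K n d (ff K n d A) = gg K d A := by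
  simp [inc, ff, gg]

/-- The ideal generated by the `g_B` (`B ∈ E'`) and the `f_A` (`A ∈ M`). -/
noncomputable def iniIdeal (K : Type*) [Field K] {n : ℕ} (d : ℕ) (E' M : Finset (Finset (Fin n))) :
    Ideal (MvPolynomial (Fin n × Fin (d + 1)) K) :=
  Ideal.span ({g | ∃ A ∈ E', g = gg K d A} ∪ {g | ∃ A ∈ M, g = ff K n (d + 1) A})

/-- The initial ideal is prime. -/
lemma iniIdeal_prime {d : ℕ} (hd : 0 < d) {E' M : Finset (Finset (Fin n))}
    (hne : ∀ A ∈ M, A.Nonempty) (hdisj : ∀ A ∈ M, ∀ B ∈ M, A ≠ B → Disjoint A B)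
    (hsub : ∀ A ∈ M, ∀ B ∈ E', ¬ B ⊆ A) (hprime : (lss K n d E').IsPrime) :
    (iniIdeal K d E' M).IsPrime := by
  let D := MvPolynomial (Fin n × Fin d) K ⧸ lss K n d E'
  let mk : MvPolynomial (Fin n × Fin d) K →+* D := Ideal.Quotient.mk (lss K n d E')
  let c : Finset (Fin n) → D := fun A => mk (ff K n d A)
  have hc : ∀ A ∈ M, c A ≠ 0 := by
    intro A hA h
    rw [Ideal.Quotient.eq_zero_iff_mem] at h
    revert h
    apply notMem_of_eval (evA K A ⟨0, hd⟩)
    · rw [evA_ff_self _ _ (hne A hA)]; exact one_ne_zero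
    · rintro _ ⟨B, hB, rfl⟩
      exact evA_ff A B _ (hsub A hA B hB)
  have ht : (tideal M c).IsPrime := tideal_prime M c hne hdisj hc
  let Φ : MvPolynomial (Fin n × Fin (d + 1)) K →+* MvPolynomial (Fin n) D :=
    eval₂Hom ((C : D →+* MvPolynomial (Fin n) D).comp (mk.comp C))
      (fun x => Fin.cases (X x.1) (fun l => C (mk (X (x.1, l)))) x.2)
  have hΦinc : ∀ x, Φ (inc K n d x) = C (mk x) := by
    intro x
    have : Φ.comp (inc K n d) = (C : D →+* MvPolynomial (Fin n) D).comp mk := by
      apply MvPolynomial.ringHom_ext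
      · intro a
        simp [Φ, inc]
      · rintro ⟨i, l⟩
        simp [Φ, inc]
    exact congrArg (fun f => f x) this
  have hΦh : ∀ A, Φ (hh K d A) = ∏ i ∈ A, X i := by
    intro A
    rw [hh, map_prod]
    apply Finset.prod_congr rfl
    intro i _
    simp [Φ]
  have hΦg : ∀ A, Φ (gg K d A) = C (mk (ff K n d A)) := by
    intro A
    rw [← inc_ff, hΦinc]
  have hΦf : ∀ A, Φ (ff K n (d + 1) A) = ∏ i ∈ A, X i + C (c A) := by
    intro A
    rw [ff_succ, map_add, hΦh, hΦg, add_comm]
  have hcomap : iniIdeal K d E' M = (tideal M c).comap Φ := by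
    apply le_antisymm
    · apply Ideal.span_le.2
      rintro _ (⟨B, hB, rfl⟩ | ⟨A, hA, rfl⟩)
      · rw [SetLike.mem_coe, Ideal.mem_comap, hΦg]
        have : mk (ff K n d B) = 0 :=
          Ideal.Quotient.eq_zero_iff_mem.2 (Ideal.subset_span ⟨B, hB, rfl⟩)
        rw [this, map_zero]
        exact Ideal.zero_mem _
      · rw [SetLike.mem_coe, Ideal.mem_comap, hΦf]
        exact Ideal.subset_span ⟨A, hA, rfl⟩
    · intro x hx
      rw [Ideal.mem_comap] at hx
      let q := Ideal.Quotient.mk (iniIdeal K d E' M)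
      have hlift : ∀ y ∈ lss K n d E', (q.comp (inc K n d)) y = 0 := by
        intro y hy
        have : lss K n d E' ≤ RingHom.ker (q.comp (inc K n d)) := by
          apply Ideal.span_le.2
          rintro _ ⟨B, hB, rfl⟩
          rw [SetLike.mem_coe, RingHom.mem_ker, RingHom.comp_apply, inc_ff]
          exact Ideal.Quotient.eq_zero_iff_mem.2 (Ideal.subset_span (Or.inl ⟨B, hB, rfl⟩))
        exact this hy
      let χ : MvPolynomial (Fin n) D →+* (MvPolynomial (Fin n × Fin (d + 1)) K ⧸
          iniIdeal K d E' M) :=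
        eval₂Hom (Ideal.Quotient.lift (lss K n d E') (q.comp (inc K n d)) hlift)
          (fun i => q (X (i, 0)))
      have hχC : ∀ y, χ (C (mk y)) = q (inc K n d y) := by
        intro y
        simp only [χ, coe_eval₂Hom, eval₂_C]
        exact Ideal.Quotient.lift_mk _ _ _
      have hχΦ : χ.comp Φ = q := by
        apply MvPolynomial.ringHom_ext
        · intro a
          have : Φ (C a) = C (mk (C a)) := by simp [Φ]
          rw [RingHom.comp_apply, this, hχC]
          simp [inc]
        · rintro ⟨i, l⟩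
          refine Fin.cases ?_ (fun l => ?_) l
          · simp [Φ, χ]
          · have : Φ (X (i, l.succ)) = C (mk (X (i, l))) := by simp [Φ]
            rw [RingHom.comp_apply, this, hχC]
            simp [inc]
      have hχt : tideal M c ≤ RingHom.ker χ := by
        apply Ideal.span_le.2
        rintro _ ⟨A, hA, rfl⟩
        rw [SetLike.mem_coe, RingHom.mem_ker, ← hΦf, ← RingHom.comp_apply, hχΦ]
        exact Ideal.Quotient.eq_zero_iff_mem.2 (Ideal.subset_span (Or.inr ⟨A, hA, rfl⟩))
      have h1 : q x = 0 := by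
        rw [← hχΦ, RingHom.comp_apply]
        exact hχt hx
      exact Ideal.Quotient.eq_zero_iff_mem.1 h1
  rw [hcomap]
  exact Ideal.IsPrime.comap Φ

section step
variable {d : ℕ}

lemma isHomogeneous_prod (A : Finset (Fin n)) (l : Fin d) :
    (∏ i ∈ A, X (i, l) : MvPolynomial (Fin n × Fin d) K).IsHomogeneous A.card := by
  have := IsHomogeneous.prod A (fun i => (X (i, l) : MvPolynomial (Fin n × Fin d) K))
    (fun _ => 1) (fun i _ => isHomogeneous_X _ _)
  simpa using this

lemma isWeightedHomogeneous_prod (w : Fin n × Fin d → ℕ) (A : Finset (Fin n)) (l : Fin d) :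
    IsWeightedHomogeneous w (∏ i ∈ A, X (i, l) : MvPolynomial (Fin n × Fin d) K)
      (∑ i ∈ A, w (i, l)) :=
  IsWeightedHomogeneous.prod A _ _ (fun i _ => isWeightedHomogeneous_X _ _ _)

/-- the initial forms -/
noncomputable def gs (K : Type*) [Field K] {n : ℕ} (d : ℕ) (M : Finset (Finset (Fin n)))
    (A : Finset (Fin n)) : MvPolynomial (Fin n × Fin (d + 1)) K :=
  if A ∈ M then ff K n (d + 1) A else gg K d A

/-- the tails -/
noncomputable def hs (K : Type*) [Field K] {n : ℕ} (d : ℕ) (M : Finset (Finset (Fin n)))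
    (A : Finset (Fin n)) : MvPolynomial (Fin n × Fin (d + 1)) K :=
  if A ∈ M then 0 else hh K d A

lemma gs_add_hs (M : Finset (Finset (Fin n))) (A : Finset (Fin n)) :
    gs K d M A + hs K d M A = ff K n (d + 1) A := by
  unfold gs hs
  split_ifs
  · rw [add_zero]
  · rw [ff_succ]

lemma evA_gs_self (M : Finset (Finset (Fin n))) (A : Finset (Fin n)) (l₀ : Fin d)
    (hA : A.Nonempty) : evA K A l₀.succ (gs K d M A) = 1 := by
  unfold gs
  split_ifs
  · exact evA_ff_self A _ hA
  · rw [gg, map_sum]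
    simp only [evA_prod_self A _ _ hA, Fin.succ_inj]
    simp

lemma evA_gs (M : Finset (Finset (Fin n))) (A B : Finset (Fin n)) (l₀ : Fin (d + 1))
    (hB : ¬ B ⊆ A) : evA K A l₀ (gs K d M B) = 0 := by
  unfold gs
  split_ifs
  · exact evA_ff A B _ hB
  · rw [gg, map_sum]
    apply Finset.sum_eq_zero
    intro l _
    exact evA_prod A B _ _ hB

/-- The main step: primeness of `L_E(d+1)` from primeness of the `L_{E'}(d)`. -/
lemma step {E M : Finset (Finset (Fin n))} (hd : 0 < d) (hE : IsClutter E)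
    (hM : IsPositiveMatching E M)
    (ih : ∀ E' ⊆ E \ M, (lss K n d E').IsPrime) : (lss K n (d + 1) E).IsPrime := by
  classical
  obtain ⟨u, H, hu1, hu2⟩ := exists_weights hE.1 hM
  let Ls : List (Finset (Fin n)) := (E \ M).toList ++ M.toList
  have hLs : ∀ A, A ∈ Ls ↔ A ∈ E := by
    intro A
    simp only [Ls, List.mem_append, Finset.mem_toList, Finset.mem_sdiff]
    constructor
    · rintro (h | h)
      · exact h.1
      · exact hM.1 h
    · intro h
      by_cases hA : A ∈ M
      · exact Or.inr hA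
      · exact Or.inl ⟨h, hA⟩
  have hnd : Ls.Nodup := by
    simp only [Ls]
    rw [List.nodup_append]
    refine ⟨Finset.nodup_toList _, Finset.nodup_toList _, ?_⟩
    intro A hA B hB hAB
    rw [Finset.mem_toList, Finset.mem_sdiff] at hA
    rw [Finset.mem_toList] at hB
    exact hA.2 (hAB ▸ hB)
  let w : Fin n × Fin (d + 1) → ℕ := fun x => Fin.cases (u x.1) (fun _ => H) x.2
  have hw0 : ∀ i, w (i, 0) = u i := fun i => rfl
  have hws : ∀ i (l : Fin d), w (i, l.succ) = H := fun i l => by simp [w]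
  have hsum : ∀ (A : Finset (Fin n)) (l : Fin d), ∑ i ∈ A, w (i, l.succ) = H * A.card := by
    intro A l
    simp only [hws]
    rw [Finset.sum_const, smul_eq_mul, mul_comm]
  have hggw : ∀ A : Finset (Fin n), IsWeightedHomogeneous w (gg K d A) (H * A.card) := by
    intro A
    apply IsWeightedHomogeneous.sum
    intro l _
    rw [← hsum A l]
    exact isWeightedHomogeneous_prod w A _
  have hggh : ∀ A : Finset (Fin n), (gg K d A).IsHomogeneous A.card := by
    intro A
    apply IsHomogeneous.sum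
    intro l _
    exact isHomogeneous_prod A _
  have hhhh : ∀ A : Finset (Fin n), (hh K d A).IsHomogeneous A.card := fun A =>
    isHomogeneous_prod A _
  have hhhw : ∀ A : Finset (Fin n), IsWeightedHomogeneous w (hh K d A) (∑ i ∈ A, u i) := by
    intro A
    exact isWeightedHomogeneous_prod w A _
  let D : Data (seq (gs K d M) Ls) (seq (hs K d M) Ls) :=
    dataOfList (gs K d M) (hs K d M) Ls w (fun A => H * A.card) (fun A => A.card)
      (fun A => ∑ i ∈ A, u i - H * A.card - 1)
      (by
        intro A hA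
        unfold gs
        split_ifs with hAM
        · rw [ff_succ]
          have h1 := hhhw A
          rw [hu1 A hAM] at h1
          exact (hggw A).add h1
        · exact hggw A)
      (by
        intro A hA
        unfold hs
        split_ifs with hAM
        · exact isWeightedHomogeneous_zero _ _ _
        · have h1 := hu2 A (Finset.mem_sdiff.2 ⟨(hLs A).1 hA, hAM⟩)
          have h2 : H * A.card + (∑ i ∈ A, u i - H * A.card - 1 + 1) = ∑ i ∈ A, u i := by
            omega
          simp only [h2]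
          exact hhhw A)
      (by
        intro A hA
        unfold gs
        split_ifs with hAM
        · rw [ff_succ]; exact (hggh A).add (hhhh A)
        · exact hggh A)
      (by
        intro A hA
        unfold hs
        split_ifs with hAM
        · exact isHomogeneous_zero _ _ _
        · exact hhhh A)
  -- the initial ideals are prime
  have hpr : ∀ j ≤ Ls.length, (idl (seq (gs K d M) Ls) j).IsPrime := by
    intro j hj
    have h1 : idl (seq (gs K d M) Ls) j =
        iniIdeal K d ((Ls.take j).toFinset \ M) ((Ls.take j).toFinset ∩ M) := by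
      rw [idl_seq _ _ hj, iniIdeal]
      congr 1
      ext g
      simp only [Set.mem_ofPred_eq, Set.mem_union, Finset.mem_sdiff, Finset.mem_inter,
        List.mem_toFinset, gs]
      constructor
      · rintro ⟨A, hA, rfl⟩
        by_cases hAM : A ∈ M
        · exact Or.inr ⟨A, ⟨hA, hAM⟩, by rw [if_pos hAM]⟩
        · exact Or.inl ⟨A, ⟨hA, hAM⟩, by rw [if_neg hAM]⟩
      · rintro (⟨A, ⟨hA, hAM⟩, rfl⟩ | ⟨A, ⟨hA, hAM⟩, rfl⟩)
        · exact ⟨A, hA, by rw [if_neg hAM]⟩
        · exact ⟨A, hA, by rw [if_pos hAM]⟩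
    rw [h1]
    have hsubE : ∀ A ∈ (Ls.take j).toFinset, A ∈ E := by
      intro A hA
      rw [List.mem_toFinset] at hA
      exact (hLs A).1 (List.mem_of_mem_take hA)
    apply iniIdeal_prime hd
    · intro A hA
      exact hE.1 A (hsubE A (Finset.mem_inter.1 hA).1)
    · intro A hA B hB
      exact hM.2.1 A (Finset.mem_inter.1 hA).2 B (Finset.mem_inter.1 hB).2
    · intro A hA B hB hBA
      have h2 := hE.2 B (hsubE B (Finset.mem_sdiff.1 hB).1) A (hsubE A (Finset.mem_inter.1 hA).1)
        hBA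
      exact (Finset.mem_sdiff.1 hB).2 (h2 ▸ (Finset.mem_inter.1 hA).2)
    · apply ih
      intro A hA
      rw [Finset.mem_sdiff] at hA ⊢
      exact ⟨hsubE A hA.1, hA.2⟩
  have hnot : ∀ j (hj : j < Ls.length), seq (gs K d M) Ls j ∉ idl (seq (gs K d M) Ls) j := by
    intro j hj
    rw [seq_of_lt _ _ hj, idl_seq _ _ hj.le]
    have hjE : Ls[j] ∈ E := (hLs _).1 (List.getElem_mem hj)
    apply notMem_of_eval (evA K Ls[j] (Fin.succ ⟨0, hd⟩))
    · rw [evA_gs_self M _ _ (hE.1 _ hjE)]
      exact one_ne_zero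
    · rintro _ ⟨B, hB, rfl⟩
      apply evA_gs
      intro hBsub
      have hBE : B ∈ E := (hLs _).1 (List.mem_of_mem_take hB)
      have h2 := hE.2 B hBE _ hjE hBsub
      rw [List.mem_take_iff_getElem] at hB
      obtain ⟨i, hi, hiB⟩ := hB
      have h3 : i < Ls.length := by omega
      have h4 : Ls[i] = Ls[j] := by rw [← h2]; exact hiB
      have h5 := (List.Nodup.getElem_inj_iff hnd).1 h4
      omega
  have hreg : ∀ j < Ls.length, ∀ x, seq (gs K d M) Ls j * x ∈ idl (seq (gs K d M) Ls) j →
      x ∈ idl (seq (gs K d M) Ls) j := by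
    intro j hj x hx
    exact ((hpr j hj.le).mem_or_mem hx).resolve_left (hnot j hj)
  have h1 := prime_lift D hreg (hpr _ le_rfl)
  rw [seq_add, idl_seq _ _ le_rfl] at h1
  have h2 : lss K n (d + 1) E = Ideal.span {g | ∃ A ∈ Ls.take Ls.length,
      g = gs K d M A + hs K d M A} := by
    rw [lss]
    congr 1
    ext g
    simp only [Set.mem_ofPred_eq, List.take_length, gs_add_hs, hLs]
  rw [h2]
  exact h1

end step

/-- **`L_H(d)` is prime whenever `E` is a clutter with a positive matching decomposition of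
length at most `d - 1`.** -/
theorem lss_prime : ∀ (p : ℕ) {E : Finset (Finset (Fin n))}, IsClutter E → HasPMD p E →
    (lss K n (p + 1) E).IsPrime := by
  intro p
  induction p with
  | zero =>
    intro E _ h
    simp only [HasPMD] at h
    have : lss K n (0 + 1) E = ⊥ := by
      rw [h]; simp [lss]
    rw [this]
    exact Ideal.isPrime_bot
  | succ p ih =>
    rintro E hE ⟨M, hM, hEM⟩
    apply step (Nat.succ_pos p) hE hM
    intro E' hE'
    exact ih (hE.mono (hE'.trans Finset.sdiff_subset)) (hEM.mono p hE')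

/-- The positive matching decomposition number. -/
noncomputable def pmd (E : Finset (Finset (Fin n))) : ℕ := sInf {p | HasPMD p E}

lemma hasPMD_succ {p : ℕ} {E : Finset (Finset (Fin n))} (hE : ∀ A ∈ E, A.Nonempty)
    (h : HasPMD p E) : HasPMD (p + 1) E := by
  refine ⟨∅, ⟨Finset.empty_subset _, by simp, fun _ => -1, by simp, ?_⟩, ?_⟩
  · intro A hA
    have := hE A (Finset.mem_sdiff.1 hA).1
    rw [Finset.sum_const, nsmul_eq_mul]
    have h1 : (0 : ℝ) < A.card := by exact_mod_cast this.card_pos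
    linarith
  · rw [Finset.sdiff_empty]; exact h

lemma hasPMD_card : ∀ (m : ℕ) {E : Finset (Finset (Fin n))}, IsClutter E → E.card = m →
    HasPMD m E := by
  intro m
  induction m with
  | zero =>
    intro E _ h
    exact Finset.card_eq_zero.1 h
  | succ m ih =>
    intro E hE h
    obtain ⟨A, hA⟩ := Finset.card_pos.1 (by omega : 0 < E.card)
    refine ⟨{A}, ⟨by simpa using hA, ?_, fun i => if i ∈ A then 1 else -(n + 1 : ℝ), ?_, ?_⟩, ?_⟩
    · intro B hB C hC hBC
      rw [Finset.mem_singleton] at hB hC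
      exact absurd (hB.trans hC.symm) hBC
    · intro B hB
      rw [Finset.mem_singleton] at hB
      subst hB
      have h1 : (0 : ℝ) < B.card := by exact_mod_cast (hE.1 B hA).card_pos
      rw [Finset.sum_congr rfl (fun i hi => if_pos hi), Finset.sum_const, nsmul_eq_mul, mul_one]
      exact h1
    · intro B hB
      rw [Finset.mem_sdiff, Finset.mem_singleton] at hB
      have h1 : ¬ B ⊆ A := fun h' => hB.2 (hE.2 B hB.1 A hA h')
      obtain ⟨i, hi, hiA⟩ := Finset.not_subset.1 h1
      rw [← Finset.add_sum_erase _ _ hi, if_neg hiA]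
      have h2 : ∑ j ∈ B.erase i, (if j ∈ A then (1 : ℝ) else -(n + 1 : ℝ)) ≤
          ∑ j ∈ B.erase i, (1 : ℝ) := by
        apply Finset.sum_le_sum
        intro j _
        split_ifs
        · exact le_rfl
        · have : (0 : ℝ) ≤ n := Nat.cast_nonneg n
          linarith
      have h3 : ∑ j ∈ B.erase i, (1 : ℝ) ≤ n := by
        rw [Finset.sum_const, nsmul_eq_mul, mul_one]
        have := (B.erase i).card_le_univ
        rw [Fintype.card_fin] at this
        exact_mod_cast this
      linarith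
    · apply ih (hE.mono Finset.sdiff_subset)
      rw [Finset.card_sdiff_of_subset (by simpa using hA), Finset.card_singleton]
      omega

lemma hasPMD_pmd {E : Finset (Finset (Fin n))} (hE : IsClutter E) : HasPMD (pmd E) E := by
  have h : {p | HasPMD p E}.Nonempty := ⟨E.card, hasPMD_card _ hE rfl⟩
  have h1 := Nat.sInf_mem h
  rw [Set.mem_ofPred_eq] at h1
  exact h1

lemma hasPMD_of_le {E : Finset (Finset (Fin n))} (hE : IsClutter E) {p : ℕ} (h : pmd E ≤ p) :
    HasPMD p E := by
  induction p, h using Nat.le_induction with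
  | base => exact hasPMD_pmd hE
  | succ p _ ih => exact hasPMD_succ hE.1 ih

end R831.Hyper
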